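import Pool.Agent.Helper78.BigMap.Goals

/-! Packet D123 (helper78, MP_2b9d24). -/

set_option autoImplicit false

open Topology Filter Set Metric

namespace Pool.Agent.Helper53.BigMap

open Pool.Agent.Helper78.BigMap

section general

variable {X Y W : Type*} [TopologicalSpace X] [TopologicalSpace Y] [TopologicalSpace W]

/-- homotopy invariance relative to the base point -/
theorem mapOfEq_congr (f g : C(X, Y)) {x : X} {y : Y} (hf : f x = y) (hg : g x = y)
    (K : C(unitInterval × X, Y)) (h0 : ∀ z, K (0, z) = f z) (h1 : ∀ z, K (1, z) = g z)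
    (hb : ∀ t, K (t, x) = y) (γ : FundamentalGroup X x) :
    FundamentalGroup.mapOfEq f hf γ = FundamentalGroup.mapOfEq g hg γ := by
  rw [FundamentalGroup.mapOfEq_apply, FundamentalGroup.mapOfEq_apply]
  induction γ using Path.Homotopic.Quotient.ind with
  | _ p =>
    show Path.Homotopic.Quotient.mk ((p.map f.continuous).cast hf.symm hf.symm)
      = Path.Homotopic.Quotient.mk ((p.map g.continuous).cast hg.symm hg.symm)
    refine Quotient.sound ⟨?_⟩
    refine
      { toFun := fun q => K (q.1, p q.2)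
        continuous_toFun := by fun_prop
        map_zero_left := fun s => ?_
        map_one_left := fun s => ?_
        prop' := fun t s hs => ?_ }
    · exact h0 (p s)
    · exact h1 (p s)
    · rcases hs with hs | hs
      · subst hs
        show K (t, p 0) = f (p 0)
        rw [p.source, hb, hf]
      · have hs' : s = 1 := hs
        subst hs'
        show K (t, p 1) = f (p 1)
        rw [p.target, hb, hf]

theorem mapOfEq_comp (f : C(X, Y)) (g : C(Y, W)) {x : X} {y : Y} {w : W} (hf : f x = y)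
    (hg : g y = w) (hgf : (g.comp f) x = w) (γ : FundamentalGroup X x) :
    FundamentalGroup.mapOfEq (g.comp f) hgf γ =
      FundamentalGroup.mapOfEq g hg (FundamentalGroup.mapOfEq f hf γ) := by
  subst hf
  subst hg
  rw [FundamentalGroup.mapOfEq_apply, FundamentalGroup.mapOfEq_apply,
    FundamentalGroup.mapOfEq_apply]
  induction γ using Path.Homotopic.Quotient.ind with
  | _ p => rfl

theorem mapOfEq_id {x : X} (h : ContinuousMap.id X x = x) (γ : FundamentalGroup X x) :
    FundamentalGroup.mapOfEq (ContinuousMap.id X) h γ = γ := by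
  rw [FundamentalGroup.mapOfEq_apply]
  induction γ using Path.Homotopic.Quotient.ind with
  | _ p => rfl

end general

/-! ### the radial retraction -/

/-- the radial segment from `z` to `rad e R z` -/
noncomputable def sg (e : ℂ) (R : ℝ) (t : ℝ) (z : ℂ) : ℂ :=
  e + (((1 - t) + t * (R / max R ‖z - e‖) : ℝ) : ℂ) * (z - e)

theorem factor_eq {e : ℂ} {R : ℝ} (hR : 0 < R) (z : ℂ) :
    rad e R z = e + ((R / max R ‖z - e‖ : ℝ) : ℂ) * (z - e) := by
  unfold rad
  rcases le_total ‖z - e‖ R with h | h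
  · rw [max_eq_left h, div_self hR.ne']
    rcases eq_or_ne z e with h0 | h0
    · rw [h0]; simp
    · have h1 : 0 < ‖z - e‖ := norm_pos_iff.2 (sub_ne_zero.2 h0)
      rw [min_eq_left ((one_le_div h1).2 h)]
  · rw [max_eq_right h, min_eq_right ((div_le_one (hR.trans_le h)).2 h)]

theorem sg_one {e : ℂ} {R : ℝ} (hR : 0 < R) (z : ℂ) : sg e R 1 z = rad e R z := by
  rw [factor_eq hR]
  unfold sg
  congr 3
  ring

theorem sg_zero (e : ℂ) (R : ℝ) (z : ℂ) : sg e R 0 z = z := by
  unfold sg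
  simp

theorem sg_of_le {e : ℂ} {R : ℝ} (hR : 0 < R) (t : ℝ) {z : ℂ} (h : ‖z - e‖ ≤ R) :
    sg e R t z = z := by
  unfold sg
  rw [max_eq_left h, div_self hR.ne']
  simp

theorem rad_of_le {e : ℂ} {R : ℝ} (hR : 0 < R) {z : ℂ} (h : ‖z - e‖ ≤ R) : rad e R z = z := by
  rw [← sg_one hR, sg_of_le hR 1 h]

theorem sg_norm {e : ℂ} {R : ℝ} (hR : 0 < R) {t : ℝ} (h0 : 0 ≤ t) (h1 : t ≤ 1) (z : ℂ) :
    ‖sg e R t z - e‖ ≤ ‖z - e‖ ∧ (R < ‖z - e‖ → R ≤ ‖sg e R t z - e‖) := by
  have hm : 0 < max R ‖z - e‖ := lt_max_of_lt_left hR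
  have hq0 : 0 ≤ R / max R ‖z - e‖ := by positivity
  have hq1 : R / max R ‖z - e‖ ≤ 1 := (div_le_one hm).2 (le_max_left _ _)
  have hf0 : 0 ≤ (1 - t) + t * (R / max R ‖z - e‖) := by
    have := mul_nonneg h0 hq0
    linarith
  have hf1 : (1 - t) + t * (R / max R ‖z - e‖) ≤ 1 := by
    have := mul_le_mul_of_nonneg_left hq1 h0
    linarith
  have hn : ‖sg e R t z - e‖ = ((1 - t) + t * (R / max R ‖z - e‖)) * ‖z - e‖ := by
    unfold sg
    rw [add_sub_cancel_left, norm_mul, Complex.norm_real, Real.norm_of_nonneg hf0]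
  rw [hn]
  constructor
  · have := mul_le_mul_of_nonneg_right hf1 (norm_nonneg (z - e))
    linarith
  · intro hlt
    have hmax : max R ‖z - e‖ = ‖z - e‖ := max_eq_right hlt.le
    rw [hmax] at hq1 ⊢
    have hz : 0 < ‖z - e‖ := hR.trans hlt
    have h2 : R / ‖z - e‖ ≤ (1 - t) + t * (R / ‖z - e‖) := by nlinarith
    calc R = R / ‖z - e‖ * ‖z - e‖ := by field_simp
      _ ≤ _ := mul_le_mul_of_nonneg_right h2 hz.le

theorem sg_eq_imp {e : ℂ} {R : ℝ} {t : ℝ} (h0 : 0 ≤ t) (h1 : t ≤ 1) {z a : ℂ}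
    (ha : a ∈ ball e R) (h : sg e R t z = a) : z = a := by
  have hR : 0 < R := pos_of_mem_ball ha
  rw [mem_ball_iff_norm] at ha
  rcases le_or_gt ‖z - e‖ R with h2 | h2
  · rwa [sg_of_le hR t h2] at h
  · exfalso
    have := (sg_norm hR h0 h1 z).2 h2
    rw [h] at this
    linarith

theorem rad_eq_imp {e : ℂ} {R : ℝ} {z a : ℂ}
    (ha : a ∈ ball e R) (h : rad e R z = a) : z = a := by
  rw [← sg_one (pos_of_mem_ball ha)] at h
  exact sg_eq_imp zero_le_one le_rfl ha h

theorem rad_mem {e : ℂ} {R : ℝ} (hR : 0 < R) (z : ℂ) : rad e R z ∈ closedBall e R := by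
  rw [mem_closedBall_iff_norm, factor_eq hR, add_sub_cancel_left, norm_mul, Complex.norm_real]
  have hm : 0 < max R ‖z - e‖ := lt_max_of_lt_left hR
  rw [Real.norm_of_nonneg (by positivity), div_mul_eq_mul_div, div_le_iff₀ hm]
  exact mul_le_mul_of_nonneg_left (le_max_right _ _) hR.le

theorem continuous_sg {e : ℂ} {R : ℝ} (hR : 0 < R) :
    Continuous (fun p : ℝ × ℂ => sg e R p.1 p.2) := by
  unfold sg
  have hm : ∀ p : ℝ × ℂ, max R ‖p.2 - e‖ ≠ 0 := fun p => (lt_max_of_lt_left hR).ne'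
  have h1 : Continuous (fun p : ℝ × ℂ => R / max R ‖p.2 - e‖) :=
    continuous_const.div (by fun_prop) hm
  have h2 : Continuous (fun p : ℝ × ℂ => (((1 - p.1) + p.1 * (R / max R ‖p.2 - e‖) : ℝ) : ℂ)) :=
    Complex.continuous_ofReal.comp
      ((continuous_const.sub continuous_fst).add (continuous_fst.mul h1))
  exact continuous_const.add (h2.mul (continuous_snd.sub continuous_const))

theorem continuous_rad {e : ℂ} {R : ℝ} (hR : 0 < R) : Continuous (rad e R) := by
  have h1 : rad e R = fun z => sg e R 1 z := by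
    funext z
    exact (sg_one hR z).symm
  rw [h1]
  exact (continuous_sg hR).comp (continuous_const.prodMk continuous_id)

theorem Pos.R_pos {a b c : ℝ} {e : ℂ} {R : ℝ} (h : Pos a b c e R) : 0 < R :=
  pos_of_mem_ball h.1

theorem rad_base {a b c : ℝ} {e : ℂ} {R : ℝ} (h : Pos a b c e R) : rad e R c = c :=
  rad_of_le (Pos.R_pos h) (mem_ball_iff_norm.1 h.2.2).le

theorem goalD1 : GoalD1 := by
  intro a b c h e R F hP hN
  have hR := Pos.R_pos hP
  have hav : ∀ z : X a b, F (rad e R z) ≠ a ∧ F (rad e R z) ≠ b := by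
    intro z
    exact hN.avoid _ (rad_mem hR _) (fun h1 => z.2.1 (rad_eq_imp hP.1 h1))
      (fun h1 => z.2.2 (rad_eq_imp hP.2.1 h1))
  have hcont : Continuous (fun z : X a b => F (rad e R z)) :=
    hN.cont.comp_continuous ((continuous_rad hR).comp continuous_subtype_val)
      (fun z => rad_mem hR _)
  refine ⟨⟨fun z => ⟨F (rad e R z), hav z⟩, hcont.subtype_mk _⟩, fun z => rfl, ?_⟩
  apply Subtype.ext
  show F (rad e R c) = c
  rw [rad_base hP, hN.base]

theorem goalD2 : GoalD2 := by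
  intro a b c h e R δ F G hP hRδ hF hFi hFa hFb hFc hG hGi hGa hGb hGc hGm φ ψ χ hφ hψ hχ
    hsφ hsψ hsχ γ
  have hR := Pos.R_pos hP
  have hsub : closedBall e R ⊆ ball e δ := closedBall_subset_ball hRδ
  have hbsub : ball e R ⊆ ball e δ := ball_subset_ball hRδ.le
  have hy : ∀ z : X a b, G (rad e R z) ∈ ball e δ := fun z => hGm _ (rad_mem hR _)
  have hgc : Continuous (fun z : X a b => G (rad e R z)) :=
    hG.comp_continuous ((continuous_rad hR).comp continuous_subtype_val)
      (fun z => hsub (rad_mem hR _))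
  have hsm : ∀ p : unitInterval × X a b, sg e R p.1 (G (rad e R p.2)) ∈ ball e δ := by
    intro p
    rw [mem_ball_iff_norm]
    exact ((sg_norm hR p.1.2.1 p.1.2.2 _).1).trans_lt (mem_ball_iff_norm.1 (hy p.2))
  have hKc : Continuous (fun p : unitInterval × X a b => F (sg e R p.1 (G (rad e R p.2)))) := by
    refine hF.comp_continuous ?_ hsm
    exact (continuous_sg hR).comp ((continuous_subtype_val.comp continuous_fst).prodMk
      (hgc.comp continuous_snd))
  have key : ∀ (d : ℂ), d ∈ ball e R → F d = d → G d = d → ∀ p : unitInterval × X a b,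
      F (sg e R p.1 (G (rad e R p.2))) = d → (p.2 : ℂ) = d := by
    intro d hd hFd hGd p hp
    have h1 : sg e R p.1 (G (rad e R p.2)) = d := hFi (hsm p) (hbsub hd) (by rw [hp, hFd])
    have h2 : G (rad e R p.2) = d := sg_eq_imp p.1.2.1 p.1.2.2 hd h1
    have h3 : rad e R p.2 = d := hGi (hsub (rad_mem hR _)) (hbsub hd) (by rw [h2, hGd])
    exact rad_eq_imp hd h3
  have hav : ∀ p : unitInterval × X a b, F (sg e R p.1 (G (rad e R p.2))) ≠ a ∧
      F (sg e R p.1 (G (rad e R p.2))) ≠ b := fun p =>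
    ⟨fun h1 => p.2.2.1 (key a hP.1 hFa hGa p h1), fun h1 => p.2.2.2 (key b hP.2.1 hFb hGb p h1)⟩
  let K : C(unitInterval × X a b, X a b) :=
    ⟨fun p => ⟨F (sg e R p.1 (G (rad e R p.2))), hav p⟩, hKc.subtype_mk _⟩
  have hcomp : (φ.comp ψ) (bp h) = bp h := by
    rw [ContinuousMap.comp_apply, hψ, hφ]
  rw [← mapOfEq_comp ψ φ hψ hφ hcomp]
  refine mapOfEq_congr χ (φ.comp ψ) hχ hcomp K ?_ ?_ ?_ γ
  · intro z
    apply Subtype.ext
    show F (sg e R ((0 : unitInterval) : ℝ) (G (rad e R z))) = (χ z : ℂ)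
    rw [hsχ z]
    simp [sg_zero]
  · intro z
    apply Subtype.ext
    show F (sg e R ((1 : unitInterval) : ℝ) (G (rad e R z))) = (φ (ψ z) : ℂ)
    rw [hsφ (ψ z), hsψ z]
    rw [show ((1 : unitInterval) : ℝ) = 1 from rfl]
    rw [sg_one hR]
  · intro t
    apply Subtype.ext
    show F (sg e R t (G (rad e R c))) = c
    rw [rad_base hP, hGc, sg_of_le hR _ (mem_ball_iff_norm.1 hP.2.2).le, hFc]

theorem goalD3 : GoalD3 := by
  intro a b c h e R δ Φ hP hRδ hΦ hΦi hfix hΦ0 φ hφ hs γ
  have hR := Pos.R_pos hP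
  have hsub : closedBall e R ⊆ ball e δ := closedBall_subset_ball hRδ
  have hbsub : ball e R ⊆ ball e δ := ball_subset_ball hRδ.le
  -- the radial self map
  have hrav : ∀ z : X a b, rad e R z ≠ a ∧ rad e R z ≠ b := fun z =>
    ⟨fun h1 => z.2.1 (rad_eq_imp hP.1 h1), fun h1 => z.2.2 (rad_eq_imp hP.2.1 h1)⟩
  let r : C(X a b, X a b) :=
    ⟨fun z => ⟨rad e R z, hrav z⟩, ((continuous_rad hR).comp continuous_subtype_val).subtype_mk _⟩
  have hr : r (bp h) = bp h := by
    apply Subtype.ext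
    exact rad_base hP
  -- first homotopy
  have hK1c : Continuous (fun p : unitInterval × X a b => Φ p.1 (rad e R p.2)) := by
    refine hΦ.comp_continuous (f := fun p : unitInterval × X a b => (p.1, rad e R p.2)) ?_ ?_
    · exact continuous_fst.prodMk
        ((continuous_rad hR).comp (continuous_subtype_val.comp continuous_snd))
    · intro p
      exact ⟨mem_univ _, hsub (rad_mem hR _)⟩
  have hK1a : ∀ p : unitInterval × X a b, Φ p.1 (rad e R p.2) ≠ a ∧ Φ p.1 (rad e R p.2) ≠ b := by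
    intro p
    constructor
    · intro h1
      have h2 : rad e R p.2 = a := hΦi p.1 (hsub (rad_mem hR _)) (hbsub hP.1)
        (by rw [h1, (hfix p.1).1])
      exact p.2.2.1 (rad_eq_imp hP.1 h2)
    · intro h1
      have h2 : rad e R p.2 = b := hΦi p.1 (hsub (rad_mem hR _)) (hbsub hP.2.1)
        (by rw [h1, (hfix p.1).2.1])
      exact p.2.2.2 (rad_eq_imp hP.2.1 h2)
  let K1 : C(unitInterval × X a b, X a b) := ⟨fun p => ⟨Φ p.1 (rad e R p.2), hK1a p⟩,
    hK1c.subtype_mk _⟩
  have e1 : FundamentalGroup.mapOfEq r hr γ = FundamentalGroup.mapOfEq φ hφ γ := by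
    refine mapOfEq_congr r φ hr hφ K1 ?_ ?_ ?_ γ
    · intro z
      apply Subtype.ext
      exact hΦ0 _ (hsub (rad_mem hR _))
    · intro z
      apply Subtype.ext
      exact (hs z).symm
    · intro t
      apply Subtype.ext
      show Φ t (rad e R c) = c
      rw [rad_base hP, (hfix t).2.2]
  -- second homotopy
  have hK2c : Continuous (fun p : unitInterval × X a b => sg e R p.1 p.2) :=
    (continuous_sg hR).comp ((continuous_subtype_val.comp continuous_fst).prodMk
      (continuous_subtype_val.comp continuous_snd))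
  have hK2a : ∀ p : unitInterval × X a b, sg e R p.1 p.2 ≠ a ∧ sg e R p.1 p.2 ≠ b := fun p =>
    ⟨fun h1 => p.2.2.1 (sg_eq_imp p.1.2.1 p.1.2.2 hP.1 h1),
      fun h1 => p.2.2.2 (sg_eq_imp p.1.2.1 p.1.2.2 hP.2.1 h1)⟩
  let K2 : C(unitInterval × X a b, X a b) := ⟨fun p => ⟨sg e R p.1 p.2, hK2a p⟩,
    hK2c.subtype_mk _⟩
  have e2 : FundamentalGroup.mapOfEq (ContinuousMap.id (X a b)) rfl γ
      = FundamentalGroup.mapOfEq r hr γ := by
    refine mapOfEq_congr (ContinuousMap.id (X a b)) r (x := bp h) (y := bp h) rfl hr K2 ?_ ?_ ?_ γ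
    · intro z
      apply Subtype.ext
      show sg e R ((0 : unitInterval) : ℝ) z = z
      simp [sg_zero]
    · intro z
      apply Subtype.ext
      show sg e R ((1 : unitInterval) : ℝ) z = rad e R z
      rw [show ((1 : unitInterval) : ℝ) = 1 from rfl]
      rw [sg_one hR]
    · intro t
      apply Subtype.ext
      exact sg_of_le hR _ (mem_ball_iff_norm.1 hP.2.2).le
  rw [← e1, ← e2]
  exact mapOfEq_id rfl γ

end Pool.Agent.Helper53.BigMap
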