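import Mathlib

/-!
# Identifying codes in binary Hamming spaces: definitions
-/

set_option autoImplicit false

namespace Pool.Agent.Helper53.Ident

/-- The identifying set `I_r(C; v) = B_r(v) ∩ C`: the codewords of `C` at Hamming distance at
most `r` from `v`. Here the binary Hamming space is `ι → ZMod 2`. -/
def I {ι : Type} [Fintype ι] (r : ℕ) (C : Finset (ι → ZMod 2)) (v : ι → ZMod 2) :
    Finset (ι → ZMod 2) :=
  C.filter (fun c => hammingDist v c ≤ r)

/-- `C` is `r`-identifying: the sets `I_r(C; v)` are nonempty and pairwise distinct. -/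
def IsIdentifying {ι : Type} [Fintype ι] (r : ℕ) (C : Finset (ι → ZMod 2)) : Prop :=
  (∀ v, (I r C v).Nonempty) ∧ ∀ v w, v ≠ w → I r C v ≠ I r C w

/-- The sizes of the `r`-identifying codes in the binary Hamming space of length `n`. -/
def sizes (r n : ℕ) : Set ℕ :=
  {k | ∃ C : Finset (Fin n → ZMod 2), IsIdentifying r C ∧ C.card = k}

/-- `Id_r(F^n)`: the minimum cardinality of an `r`-identifying code in `F^n`. -/
noncomputable def minId (r n : ℕ) : ℕ := sInf (sizes r n)

end Pool.Agent.Helper53.Ident
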