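import Mathlib
import Pool.Agent.Helper53.IdDefs

/-!
# Basic facts on Hamming weights over `ZMod 2`
-/

set_option autoImplicit false
set_option linter.unusedSectionVars false
set_option linter.unusedDecidableInType false

namespace Pool.Agent.Helper53.Ident

open Finset

variable {ι : Type} [Fintype ι] [DecidableEq ι]

/-- the unit vector at `x` -/
abbrev un (x : ι) : ι → ZMod 2 := Pi.single x 1

theorem un_same (x : ι) : un x x = 1 := Pi.single_eq_same _ _

theorem un_ne {x y : ι} (h : y ≠ x) : un x y = 0 := Pi.single_eq_of_ne h _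

/-- the size of the intersection of the supports -/
def meet (e f : ι → ZMod 2) : ℕ := #{i | e i ≠ 0 ∧ f i ≠ 0}

theorem zmod2_cases (a : ZMod 2) : a = 0 ∨ a = 1 := by
  revert a; decide

theorem add_self_fun (v : ι → ZMod 2) : v + v = 0 := by
  ext i
  have h : ∀ a : ZMod 2, a + a = 0 := by decide
  simp [h]

theorem sub_eq_add_fun (v w : ι → ZMod 2) : v - w = v + w := by
  ext i
  have h : ∀ a b : ZMod 2, a - b = a + b := by decide
  simp [h]

theorem dist_eq_norm (v w : ι → ZMod 2) : hammingDist v w = hammingNorm (v + w) := by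
  have h : -v = v := by
    ext i
    have h : ∀ a : ZMod 2, -a = a := by decide
    simp [h]
  rw [hammingDist_eq_hammingNorm, h]

theorem norm_add_two_mul_meet (e f : ι → ZMod 2) :
    hammingNorm (e + f) + 2 * meet e f = hammingNorm e + hammingNorm f := by
  unfold hammingNorm meet
  simp only [Finset.card_filter]
  rw [Finset.mul_sum, ← Finset.sum_add_distrib, ← Finset.sum_add_distrib]
  refine Finset.sum_congr rfl fun i _ => ?_
  have h : ∀ a b : ZMod 2, ((if a + b ≠ 0 then 1 else 0) + 2 * (if a ≠ 0 ∧ b ≠ 0 then 1 else 0) : ℕ)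
      = (if a ≠ 0 then 1 else 0) + (if b ≠ 0 then 1 else 0) := by decide
  exact h (e i) (f i)

/-- if `v + e` sees `v + f`, with `f` of weight `r`, then at least half of `e` lies in `f`. -/
theorem le_two_mul_meet {r : ℕ} {e f : ι → ZMod 2} (hf : hammingNorm f = r)
    (h : hammingNorm (e + f) ≤ r) : hammingNorm e ≤ 2 * meet e f := by
  have := norm_add_two_mul_meet e f
  omega

theorem norm_single (i : ι) : hammingNorm (un i) = 1 := by
  unfold hammingNorm
  rw [Finset.card_eq_one]
  refine ⟨i, ?_⟩
  ext j
  simp [Pi.single_apply]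

theorem norm_add_le (e f : ι → ZMod 2) : hammingNorm (e + f) ≤ hammingNorm e + hammingNorm f := by
  have := norm_add_two_mul_meet e f
  omega

/-- Adding a unit vector outside the support. -/
theorem norm_add_single_of_eq_zero {e : ι → ZMod 2} {i : ι} (h : e i = 0) :
    hammingNorm (e + un i) = hammingNorm e + 1 := by
  have h1 := norm_add_two_mul_meet e (un i)
  have h2 : meet e (un i) = 0 := by
    unfold meet
    rw [Finset.card_eq_zero, Finset.filter_eq_empty_iff]
    rintro j - ⟨hj, hj'⟩
    by_cases hji : j = i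
    · subst hji; exact hj h
    · simp [hji] at hj'
  rw [norm_single] at h1
  omega

/-- Adding a unit vector inside the support. -/
theorem norm_add_single_of_ne_zero {e : ι → ZMod 2} {i : ι} (h : e i ≠ 0) :
    hammingNorm (e + un i) + 1 = hammingNorm e := by
  have h1 := norm_add_two_mul_meet e (un i)
  have h2 : meet e (un i) = 1 := by
    unfold meet
    rw [Finset.card_eq_one]
    refine ⟨i, ?_⟩
    ext j
    by_cases hji : j = i
    · subst hji; simp [h]
    · simp [hji]
  rw [norm_single] at h1
  omega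

/-- three pairwise disjoint sets -/
theorem three_disjoint {r : ℕ} {e f1 f2 f3 : ι → ZMod 2}
    (h1 : hammingNorm f1 = r) (h2 : hammingNorm f2 = r) (h3 : hammingNorm f3 = r)
    (d12 : ∀ i, f1 i = 0 ∨ f2 i = 0) (d13 : ∀ i, f1 i = 0 ∨ f3 i = 0)
    (d23 : ∀ i, f2 i = 0 ∨ f3 i = 0)
    (e1 : hammingNorm (e + f1) ≤ r) (e2 : hammingNorm (e + f2) ≤ r)
    (e3 : hammingNorm (e + f3) ≤ r) : e = 0 := by
  have a1 := le_two_mul_meet h1 e1
  have a2 := le_two_mul_meet h2 e2
  have a3 := le_two_mul_meet h3 e3
  have key : meet e f1 + meet e f2 + meet e f3 ≤ hammingNorm e := by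
    unfold hammingNorm meet
    simp only [Finset.card_filter]
    rw [← Finset.sum_add_distrib, ← Finset.sum_add_distrib]
    refine Finset.sum_le_sum fun i _ => ?_
    have h : ∀ a b c d : ZMod 2, (b = 0 ∨ c = 0) → (b = 0 ∨ d = 0) → (c = 0 ∨ d = 0) →
        ((if a ≠ 0 ∧ b ≠ 0 then 1 else 0) + (if a ≠ 0 ∧ c ≠ 0 then 1 else 0) +
          (if a ≠ 0 ∧ d ≠ 0 then 1 else 0) : ℕ) ≤ (if a ≠ 0 then 1 else 0) := by decide
    exact h (e i) (f1 i) (f2 i) (f3 i) (d12 i) (d13 i) (d23 i)
  rw [← hammingNorm_eq_zero]
  omega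

/-- the support determines a vector over `ZMod 2` -/
theorem supp_injective : Function.Injective
    (fun e : ι → ZMod 2 => (univ.filter fun i => e i ≠ 0 : Finset ι)) := by
  intro e f h
  ext i
  have h1 := Finset.ext_iff.1 h i
  simp only [Finset.mem_filter, Finset.mem_univ, true_and] at h1
  have h2 : ∀ a b : ZMod 2, (a ≠ 0 ↔ b ≠ 0) → a = b := by decide
  exact h2 _ _ h1

/-- the number of vectors of weight `k` is at most `n ^ k` -/
theorem card_norm_eq_le (k : ℕ) :
    #{e : ι → ZMod 2 | hammingNorm e = k} ≤ (Fintype.card ι) ^ k := by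
  calc #{e : ι → ZMod 2 | hammingNorm e = k}
      ≤ #(powersetCard k (univ : Finset ι)) := by
        refine Finset.card_le_card_of_injOn
          (fun e : ι → ZMod 2 => (univ.filter fun i => e i ≠ 0 : Finset ι)) ?_
          (supp_injective.injOn)
        intro e he
        simp only [Finset.coe_filter, Finset.mem_univ, true_and, Set.mem_ofPred_eq] at he
        simp only [Finset.mem_coe,
          Finset.mem_powersetCard, Finset.subset_univ, true_and]
        exact he
    _ = (Fintype.card ι).choose k := by rw [Finset.card_powersetCard, Finset.card_univ]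
    _ ≤ (Fintype.card ι) ^ k := Nat.choose_le_pow _ _

/-- the number of vectors of weight `< k` is at most `k * n ^ (k - 1)` -/
theorem card_norm_lt_le (k : ℕ) (hι : 1 ≤ Fintype.card ι) :
    #{e : ι → ZMod 2 | hammingNorm e < k} ≤ k * (Fintype.card ι) ^ (k - 1) := by
  have h1 : (univ.filter fun e : ι → ZMod 2 => hammingNorm e < k) ⊆
      (range k).biUnion fun j => univ.filter fun e : ι → ZMod 2 => hammingNorm e = j := by
    intro e he
    simp only [Finset.mem_filter, Finset.mem_univ, true_and] at he
    simp only [Finset.mem_biUnion, Finset.mem_range, Finset.mem_filter, Finset.mem_univ, true_and]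
    exact ⟨_, he, rfl⟩
  calc #{e : ι → ZMod 2 | hammingNorm e < k}
      ≤ _ := Finset.card_le_card h1
    _ ≤ ∑ j ∈ range k, #{e : ι → ZMod 2 | hammingNorm e = j} := Finset.card_biUnion_le
    _ ≤ ∑ j ∈ range k, (Fintype.card ι) ^ (k - 1) := by
        refine Finset.sum_le_sum fun j hj => ?_
        rw [Finset.mem_range] at hj
        exact (card_norm_eq_le j).trans (Nat.pow_le_pow_right hι (by omega))
    _ = k * (Fintype.card ι) ^ (k - 1) := by simp

end Pool.Agent.Helper53.Ident
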