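import Mathlib
import Pool.Agent.Helper53.IdHamming

/-!
# MDS syndromes over a commutative ring and transversals of blocks
-/

set_option autoImplicit false
set_option linter.unusedSectionVars false

namespace Pool.Agent.Helper53.Ident

open Finset

/-- Solving a Vandermonde system supported on a prescribed `r`-set. -/
theorem mds {R : Type} [CommRing R] {M r : ℕ} (x : Fin M → R)
    (hx : ∀ i j, i ≠ j → IsUnit (x i - x j)) (P : Finset (Fin M)) (hP : P.card = r)
    (t : Fin r → R) :
    ∃ δ : Fin M → R, (∀ i, i ∉ P → δ i = 0) ∧ ∀ k : Fin r, ∑ i, x i ^ (k : ℕ) * δ i = t k := by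
  classical
  set e := P.orderEmbOfFin hP with he
  set V : Matrix (Fin r) (Fin r) R := Matrix.vandermonde (fun a => x (e a)) with hV
  have hdet : IsUnit V.det := by
    rw [hV, Matrix.det_vandermonde, IsUnit.prod_iff]
    intro i _
    rw [IsUnit.prod_iff]
    intro j hj
    refine hx _ _ ?_
    rw [Finset.mem_Ioi] at hj
    intro h
    exact absurd (e.injective h) hj.ne'
  set δ' : Fin r → R := Matrix.vecMul t V⁻¹ with hδ'
  have h1 : Matrix.vecMul δ' V = t := by
    rw [hδ', Matrix.vecMul_vecMul, Matrix.nonsing_inv_mul _ hdet, Matrix.vecMul_one]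
  refine ⟨fun i => ∑ a, if e a = i then δ' a else 0, ?_, ?_⟩
  · intro i hi
    refine Finset.sum_eq_zero fun a _ => ?_
    rw [if_neg]
    rintro rfl
    exact hi (P.orderEmbOfFin_mem hP a)
  · intro k
    have h2 := congrFun h1 k
    rw [← h2]
    simp only [Matrix.vecMul, dotProduct, hV, Matrix.vandermonde_apply, Finset.mul_sum]
    rw [Finset.sum_comm]
    refine Finset.sum_congr rfl fun a _ => ?_
    rw [Finset.sum_eq_single (e a)]
    · simp [mul_comm]
    · intro i _ hi
      rw [if_neg (Ne.symm hi), mul_zero]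
    · intro h; exact absurd (Finset.mem_univ _) h

section blocks

variable {β : Type} [Fintype β] [DecidableEq β] {M : ℕ}

/-- the `i`-th block of a vector -/
def blk (i : Fin M) (v : Fin M × β → ZMod 2) : β → ZMod 2 := fun j => v (i, j)

theorem blk_add (i : Fin M) (v w : Fin M × β → ZMod 2) : blk i (v + w) = blk i v + blk i w := rfl

variable {R : Type} [CommRing R]

/-- the syndrome of a vector -/
def syn (r : ℕ) (col : (β → ZMod 2) → R) (x : Fin M → R) (v : Fin M × β → ZMod 2) : Fin r → R :=
  fun k => ∑ i, x i ^ (k : ℕ) * col (blk i v)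

/-- `f` is a transversal of the blocks in `P` -/
def IsTrans (P : Finset (Fin M)) (f : Fin M × β → ZMod 2) : Prop :=
  (∀ i ∈ P, ∃ j, blk i f = un j) ∧ ∀ i, i ∉ P → blk i f = 0

theorem exists_trans {r : ℕ} (col : (β → ZMod 2) → R)
    (hcol : ∀ v γ, ∃ j, col (v + un j) = γ) (x : Fin M → R)
    (hx : ∀ i j, i ≠ j → IsUnit (x i - x j)) (P : Finset (Fin M)) (hP : P.card = r)
    (v : Fin M × β → ZMod 2) (s : Fin r → R) :
    ∃ f : Fin M × β → ZMod 2, IsTrans P f ∧ syn r col x (v + f) = s := by
  classical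
  obtain ⟨δ, hδ, hs⟩ := mds x hx P hP (s - syn r col x v)
  choose J hJ using hcol
  set f : Fin M × β → ZMod 2 := fun p =>
    if p.1 ∈ P then un (J (blk p.1 v) (col (blk p.1 v) + δ p.1)) p.2 else 0 with hf
  have h1 : ∀ i ∈ P, blk i f = un (J (blk i v) (col (blk i v) + δ i)) := by
    intro i hi
    ext j
    simp only [blk, hf, if_pos hi]
  have h2 : ∀ i, i ∉ P → blk i f = 0 := by
    intro i hi
    ext j
    simp only [blk, hf, if_neg hi, Pi.zero_apply]
  refine ⟨f, ⟨fun i hi => ⟨_, h1 i hi⟩, h2⟩, ?_⟩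
  have h3 : ∀ i, col (blk i (v + f)) = col (blk i v) + δ i := by
    intro i
    by_cases hi : i ∈ P
    · rw [blk_add, h1 i hi, hJ]
    · rw [blk_add, h2 i hi, hδ i hi, add_zero, add_zero]
  ext k
  have h4 := hs k
  simp only [syn, h3, mul_add, Finset.sum_add_distrib]
  rw [h4, Pi.sub_apply]
  simp only [syn]
  ring

/-- the weight of a vector is the sum of the weights of its blocks -/
theorem norm_eq_sum_blk (v : Fin M × β → ZMod 2) :
    hammingNorm v = ∑ i, hammingNorm (blk i v) := by
  have h1 : ∀ i, hammingNorm (blk i v) = ∑ j, if v (i, j) ≠ 0 then 1 else 0 := by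
    intro i
    unfold hammingNorm
    rw [Finset.card_filter]
    rfl
  have h2 : hammingNorm v = ∑ p, if v p ≠ 0 then 1 else 0 := by
    unfold hammingNorm
    rw [Finset.card_filter]
  rw [h2, Fintype.sum_prod_type]
  exact Finset.sum_congr rfl fun i _ => (h1 i).symm

theorem IsTrans.norm {P : Finset (Fin M)} {f : Fin M × β → ZMod 2} (hf : IsTrans P f) :
    hammingNorm f = P.card := by
  rw [norm_eq_sum_blk, ← Finset.sum_subset (Finset.subset_univ P)]
  · rw [Finset.card_eq_sum_ones]
    refine Finset.sum_congr rfl fun i hi => ?_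
    obtain ⟨j, hj⟩ := hf.1 i hi
    rw [hj, norm_single]
  · intro i _ hi
    rw [hf.2 i hi, hammingNorm_zero]

end blocks

end Pool.Agent.Helper53.Ident
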