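import Mathlib
import Pool.Agent.Helper53.IdHamming

/-!
# Bad types of an identifying code form a set of density `O(1/n)`
-/

set_option autoImplicit false
set_option linter.unusedSectionVars false

namespace Pool.Agent.Helper53.Ident

open Finset Classical

variable {ι : Type} [Fintype ι] [DecidableEq ι]

theorem mem_I {r : ℕ} {C : Finset (ι → ZMod 2)} {v c : ι → ZMod 2} :
    c ∈ I r C v ↔ c ∈ C ∧ hammingNorm (v + c) ≤ r := by
  unfold I
  rw [Finset.mem_filter, dist_eq_norm]

/-- The types all of whose visible codewords are at distance exactly `r` and whose difference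
sets have a common element. -/
noncomputable def star (r : ℕ) (C : Finset (ι → ZMod 2)) : Finset (ι → ZMod 2) :=
  univ.filter fun σ => (∀ c ∈ C, ¬ hammingNorm (σ + c) < r) ∧ ∃ x, ∀ c ∈ I r C σ, (σ + c) x ≠ 0

/-- The types with a codeword at distance less than `r`. -/
noncomputable def near (r : ℕ) (C : Finset (ι → ZMod 2)) : Finset (ι → ZMod 2) :=
  univ.filter fun σ => ∃ c ∈ C, hammingNorm (σ + c) < r

/-- The bad types. -/
noncomputable def bad (r : ℕ) (C : Finset (ι → ZMod 2)) : Finset (ι → ZMod 2) :=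
  near r C ∪ star r C

theorem mem_star {r : ℕ} {C : Finset (ι → ZMod 2)} {σ : ι → ZMod 2} : σ ∈ star r C ↔
    (∀ c ∈ C, ¬ hammingNorm (σ + c) < r) ∧ ∃ x, ∀ c ∈ I r C σ, (σ + c) x ≠ 0 := by
  unfold star
  rw [Finset.mem_filter]
  exact ⟨fun h => h.2, fun h => ⟨Finset.mem_univ _, h⟩⟩

theorem mem_near {r : ℕ} {C : Finset (ι → ZMod 2)} {σ : ι → ZMod 2} : σ ∈ near r C ↔
    ∃ c ∈ C, hammingNorm (σ + c) < r := by
  unfold near
  rw [Finset.mem_filter]
  exact ⟨fun h => h.2, fun h => ⟨Finset.mem_univ _, h⟩⟩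

theorem card_near (r : ℕ) (C : Finset (ι → ZMod 2)) (hι : 1 ≤ Fintype.card ι) :
    #(near r C) ≤ #C * (r * (Fintype.card ι) ^ (r - 1)) := by
  have h1 : near r C ⊆ (C ×ˢ (univ.filter fun e : ι → ZMod 2 => hammingNorm e < r)).image
      (fun p => p.1 + p.2) := by
    intro σ hσ
    unfold near at hσ
    rw [Finset.mem_filter] at hσ
    obtain ⟨-, c, hc, hlt⟩ := hσ
    rw [Finset.mem_image]
    refine ⟨(c, σ + c), ?_, ?_⟩
    · rw [Finset.mem_product, Finset.mem_filter]
      exact ⟨hc, Finset.mem_univ _, hlt⟩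
    · show c + (σ + c) = σ
      rw [add_comm σ c, ← add_assoc, add_self_fun, zero_add]
  calc #(near r C) ≤ _ := Finset.card_le_card h1
    _ ≤ #(C ×ˢ (univ.filter fun e : ι → ZMod 2 => hammingNorm e < r)) := Finset.card_image_le
    _ = #C * #(univ.filter fun e : ι → ZMod 2 => hammingNorm e < r) := Finset.card_product _ _
    _ ≤ #C * (r * (Fintype.card ι) ^ (r - 1)) :=
        Nat.mul_le_mul_left _ (card_norm_lt_le r hι)

/-- pairs `(τ, y)` such that `y` lies in the difference set of a codeword at distance `r` -/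
noncomputable def pairsT (r : ℕ) (C : Finset (ι → ZMod 2)) : Finset ((ι → ZMod 2) × ι) :=
  univ.filter fun p => ∃ c ∈ C, hammingNorm (p.1 + c) = r ∧ (p.1 + c) p.2 ≠ 0

theorem card_pairsT (r : ℕ) (C : Finset (ι → ZMod 2)) :
    #(pairsT r C) ≤ #C * (r * (Fintype.card ι) ^ r) := by
  have h1 : pairsT r C ⊆ (C ×ˢ (univ.filter fun p : (ι → ZMod 2) × ι =>
      hammingNorm p.1 = r ∧ p.1 p.2 ≠ 0)).image (fun p => (p.1 + p.2.1, p.2.2)) := by
    intro p hp
    unfold pairsT at hp
    rw [Finset.mem_filter] at hp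
    obtain ⟨-, c, hc, h2, h3⟩ := hp
    rw [Finset.mem_image]
    refine ⟨(c, (p.1 + c, p.2)), ?_, ?_⟩
    · rw [Finset.mem_product, Finset.mem_filter]
      exact ⟨hc, Finset.mem_univ _, h2, h3⟩
    · show (c + (p.1 + c), p.2) = p
      rw [add_comm p.1 c, ← add_assoc, add_self_fun, zero_add]
  have h2 : #(univ.filter fun p : (ι → ZMod 2) × ι => hammingNorm p.1 = r ∧ p.1 p.2 ≠ 0) ≤
      r * (Fintype.card ι) ^ r := by
    have h3 : #(univ.filter fun p : (ι → ZMod 2) × ι => hammingNorm p.1 = r ∧ p.1 p.2 ≠ 0) ≤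
        r * #(univ.filter fun e : ι → ZMod 2 => hammingNorm e = r) := by
      refine Finset.card_le_mul_card_image_of_maps_to (f := Prod.fst) ?_ r ?_
      · intro p hp
        rw [Finset.mem_filter] at hp ⊢
        exact ⟨Finset.mem_univ _, hp.2.1⟩
      · intro e he
        rw [Finset.mem_filter] at he
        calc #((univ.filter fun p : (ι → ZMod 2) × ι => hammingNorm p.1 = r ∧ p.1 p.2 ≠ 0).filter
              fun p => p.1 = e)
            ≤ #(univ.filter fun i => e i ≠ 0) := by
              refine Finset.card_le_card_of_injOn Prod.snd ?_ ?_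
              · intro p hp
                simp only [Finset.coe_filter, Finset.mem_filter, Finset.mem_univ, true_and,
                  Set.mem_ofPred_eq] at hp ⊢
                rw [← hp.2]
                exact hp.1.2
              · intro p hp p' hp' h
                simp only [Finset.coe_filter, Finset.mem_filter, Finset.mem_univ, true_and,
                  Set.mem_ofPred_eq] at hp hp'
                exact Prod.ext (hp.2.trans hp'.2.symm) h
          _ = r := he.2
    exact h3.trans (Nat.mul_le_mul_left _ (card_norm_eq_le r))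
  calc #(pairsT r C) ≤ _ := Finset.card_le_card h1
    _ ≤ _ := Finset.card_image_le
    _ = #C * #(univ.filter fun p : (ι → ZMod 2) × ι => hammingNorm p.1 = r ∧ p.1 p.2 ≠ 0) :=
        Finset.card_product _ _
    _ ≤ #C * (r * (Fintype.card ι) ^ r) := Nat.mul_le_mul_left _ h2

/-- The key identity: moving along the centre recovers the identifying set. -/
theorem star_key {r : ℕ} {C : Finset (ι → ZMod 2)} {σ : ι → ZMod 2} {x y : ι}
    (hne : (I r C σ).Nonempty)
    (hr : ∀ c ∈ C, ¬ hammingNorm (σ + c) < r)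
    (hx : ∀ c ∈ I r C σ, (σ + c) x ≠ 0) (hy : ∀ c ∈ I r C σ, (σ + c) y = 0) :
    I r C σ = C.filter fun c => hammingNorm (σ + un x + un y + c) = r ∧
      (σ + un x + un y + c) y ≠ 0 := by
  have hxy : x ≠ y := by
    rintro rfl
    obtain ⟨c, hc⟩ := hne
    exact hx c hc (hy c hc)
  ext c
  rw [Finset.mem_filter]
  constructor
  · intro hc
    have hcC := (mem_I.1 hc).1
    have h1 : hammingNorm (σ + c) = r := le_antisymm (mem_I.1 hc).2 (not_lt.1 (hr c hcC))
    have e1 : σ + un x + un y + c = (σ + c) + un x + un y := by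
      abel
    have h2 := norm_add_single_of_ne_zero (hx c hc)
    have h3 : ((σ + c) + un x : ι → ZMod 2) y = 0 := by
      rw [Pi.add_apply, hy c hc, un_ne hxy.symm, add_zero]
    have h4 := norm_add_single_of_eq_zero h3
    refine ⟨hcC, ?_, ?_⟩
    · rw [e1]; omega
    · rw [e1, Pi.add_apply, h3, un_same]
      decide
  · rintro ⟨hcC, h1, h2⟩
    rw [mem_I]
    refine ⟨hcC, ?_⟩
    have e1 : σ + c = (σ + un x + un y + c) + un y + un x := by
      have : un x + un x = 0 := add_self_fun _
      have : un y + un y = 0 := add_self_fun _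
      calc σ + c = σ + c + (un x + un x) + (un y + un y) := by
            rw [add_self_fun, add_self_fun, add_zero, add_zero]
        _ = _ := by abel
    have h3 := norm_add_single_of_ne_zero h2
    have h4 := norm_add_le (σ + un x + un y + c + un y) (un x)
    rw [norm_single] at h4
    rw [e1]
    omega

theorem card_star {r : ℕ} {C : Finset (ι → ZMod 2)} (hC : IsIdentifying r C) :
    #(star r C) * Fintype.card ι ≤ 2 * (#C * (r * (Fintype.card ι) ^ r)) := by
  set P : Finset ((ι → ZMod 2) × ι) := star r C ×ˢ univ with hP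
  set P1 := P.filter (fun p => ∀ c ∈ I r C p.1, (p.1 + c) p.2 = 0) with hP1
  set P2 := P.filter (fun p => ¬ ∀ c ∈ I r C p.1, (p.1 + c) p.2 = 0) with hP2
  have hcard : #(star r C) * Fintype.card ι = #P1 + #P2 := by
    rw [hP1, hP2, Finset.card_filter_add_card_filter_not, hP, Finset.card_product,
      Finset.card_univ]
  have h2 : #P2 ≤ #(pairsT r C) := by
    refine Finset.card_le_card ?_
    intro p hp
    rw [hP2, Finset.mem_filter, hP, Finset.mem_product] at hp
    obtain ⟨⟨hs, -⟩, hn⟩ := hp
    unfold star at hs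
    rw [Finset.mem_filter] at hs
    push Not at hn
    obtain ⟨c, hc, hne⟩ := hn
    unfold pairsT
    rw [Finset.mem_filter]
    refine ⟨Finset.mem_univ _, c, (mem_I.1 hc).1, ?_, hne⟩
    exact le_antisymm (mem_I.1 hc).2 (not_lt.1 (hs.2.1 c (mem_I.1 hc).1))
  have hcenter : ∀ σ : ι → ZMod 2, ∃ x : Option ι, σ ∈ star r C →
      ∃ x', x = some x' ∧ ∀ c ∈ I r C σ, (σ + c) x' ≠ 0 := by
    intro σ
    by_cases h : σ ∈ star r C
    · have h' := h
      unfold star at h'
      rw [Finset.mem_filter] at h'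
      obtain ⟨x, hx⟩ := h'.2.2
      exact ⟨some x, fun _ => ⟨x, rfl, hx⟩⟩
    · exact ⟨none, fun h' => absurd h' h⟩
  choose ctr hctr using hcenter
  have h1 : #P1 ≤ #(pairsT r C) := by
    refine Finset.card_le_card_of_injOn
      (fun p => (p.1 + (match ctr p.1 with | some x => un x | none => (0 : ι → ZMod 2))
        + un p.2, p.2)) ?_ ?_
    · intro p hp
      have hp' : p ∈ P1 := hp
      rw [hP1, Finset.mem_filter, hP, Finset.mem_product] at hp'
      obtain ⟨⟨hs, -⟩, hn⟩ := hp'
      obtain ⟨x, hx, hxc⟩ := hctr p.1 hs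
      have hs' := hs
      unfold star at hs'
      rw [Finset.mem_filter] at hs'
      have key := star_key (hC.1 p.1) hs'.2.1 hxc hn
      obtain ⟨c, hc⟩ := hC.1 p.1
      rw [key, Finset.mem_filter] at hc
      show _ ∈ pairsT r C
      unfold pairsT
      rw [Finset.mem_filter]
      refine ⟨Finset.mem_univ _, c, hc.1, ?_⟩
      simp only [hx]
      exact hc.2
    · intro p hp p' hp' hpp
      have hp1 : p ∈ P1 := hp
      have hp2 : p' ∈ P1 := hp'
      rw [hP1, Finset.mem_filter, hP, Finset.mem_product] at hp1 hp2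
      obtain ⟨⟨hs, -⟩, hn⟩ := hp1
      obtain ⟨⟨hs2, -⟩, hn2⟩ := hp2
      obtain ⟨x, hx, hxc⟩ := hctr p.1 hs
      obtain ⟨x2, hx2, hxc2⟩ := hctr p'.1 hs2
      have hs' := hs
      have hs2' := hs2
      unfold star at hs' hs2'
      rw [Finset.mem_filter] at hs' hs2'
      have key := star_key (hC.1 p.1) hs'.2.1 hxc hn
      have key2 := star_key (hC.1 p'.1) hs2'.2.1 hxc2 hn2
      simp only [hx, hx2, Prod.mk.injEq] at hpp
      obtain ⟨hpp1, hpp2⟩ := hpp
      have h3 : I r C p.1 = I r C p'.1 := by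
        rw [key, key2, hpp1, hpp2]
      have h4 : p.1 = p'.1 := by
        by_contra hne
        exact hC.2 _ _ hne h3
      exact Prod.ext h4 hpp2
  have h3 := card_pairsT r C
  omega

theorem card_bad {r : ℕ} {C : Finset (ι → ZMod 2)} (hC : IsIdentifying r C) (hr : 1 ≤ r)
    (hι : 1 ≤ Fintype.card ι) :
    #(bad r C) * Fintype.card ι ≤ 3 * (#C * (r * (Fintype.card ι) ^ r)) := by
  have h1 := card_near r C hι
  have h2 := card_star hC
  have h3 : #(bad r C) ≤ #(near r C) + #(star r C) := Finset.card_union_le _ _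
  have h4 : #(near r C) * Fintype.card ι ≤ #C * (r * (Fintype.card ι) ^ r) := by
    calc #(near r C) * Fintype.card ι ≤ #C * (r * (Fintype.card ι) ^ (r - 1)) * Fintype.card ι :=
          Nat.mul_le_mul_right _ h1
      _ = #C * (r * ((Fintype.card ι) ^ (r - 1) * Fintype.card ι)) := by ring
      _ = #C * (r * (Fintype.card ι) ^ r) := by
          rw [← pow_succ, Nat.sub_add_cancel hr]
  calc #(bad r C) * Fintype.card ι ≤ (#(near r C) + #(star r C)) * Fintype.card ι :=
        Nat.mul_le_mul_right _ h3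
    _ = #(near r C) * Fintype.card ι + #(star r C) * Fintype.card ι := by ring
    _ ≤ _ := by omega

end Pool.Agent.Helper53.Ident
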