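import Mathlib
import Pool.Agent.Helper53.IdHamming
import Pool.Agent.Helper53.IdStar
import Pool.Agent.Helper53.IdColour

/-!
# The blow-up of an identifying code, with repair coordinates
-/

set_option autoImplicit false
set_option linter.unusedSectionVars false

namespace Pool.Agent.Helper53.Ident

open Finset Classical

section types

variable {β : Type} [Fintype β] [DecidableEq β] {M : ℕ}

/-- the type: vector of the block parities -/
def ty (w : Fin M × β → ZMod 2) : Fin M → ZMod 2 := fun i => ∑ j, blk i w j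

theorem ty_add (v w : Fin M × β → ZMod 2) : ty (v + w) = ty v + ty w := by
  ext i
  simp only [ty, blk_add, Pi.add_apply, Finset.sum_add_distrib]

theorem ty_zero : ty (0 : Fin M × β → ZMod 2) = 0 := by
  ext i
  simp [ty, blk]

theorem sum_eq_cast_norm (b : β → ZMod 2) : ∑ j, b j = (hammingNorm b : ZMod 2) := by
  unfold hammingNorm
  rw [Finset.card_filter]
  push_cast
  refine Finset.sum_congr rfl fun j _ => ?_
  have h : ∀ a : ZMod 2, a = if a ≠ 0 then 1 else 0 := by decide
  exact h (b j)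

theorem norm_ty_le (w : Fin M × β → ZMod 2) : hammingNorm (ty w) ≤ hammingNorm w := by
  rw [norm_eq_sum_blk]
  unfold hammingNorm
  rw [Finset.card_filter]
  refine Finset.sum_le_sum fun i _ => ?_
  split_ifs with h
  · by_contra hlt
    have h0 : hammingNorm (blk i w) = 0 := by
      unfold hammingNorm
      omega
    apply h
    show ∑ j, blk i w j = 0
    rw [sum_eq_cast_norm, h0]
    rfl
  · exact Nat.zero_le _

theorem even_norm {b : β → ZMod 2} (h : ∑ j, b j = 0) : Even (hammingNorm b) := by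
  rw [sum_eq_cast_norm] at h
  exact (ZMod.natCast_eq_zero_iff_even).1 h

theorem two_mul_meet_un {b : β → ZMod 2} (h : Even (hammingNorm b)) (j : β) :
    2 * meet b (un j) ≤ hammingNorm b := by
  have h1 := norm_add_two_mul_meet b (un j)
  rw [norm_single] at h1
  by_cases hj : b j = 0
  · have := norm_add_single_of_eq_zero hj
    omega
  · have h2 := norm_add_single_of_ne_zero hj
    obtain ⟨k, hk⟩ := h
    omega

theorem meet_eq_sum_blk (v w : Fin M × β → ZMod 2) : meet v w = ∑ i, meet (blk i v) (blk i w) := by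
  have h1 : ∀ i, meet (blk i v) (blk i w) = ∑ j, if v (i, j) ≠ 0 ∧ w (i, j) ≠ 0 then 1 else 0 := by
    intro i
    unfold meet
    rw [Finset.card_filter]
    rfl
  have h2 : meet v w = ∑ p, if v p ≠ 0 ∧ w p ≠ 0 then 1 else 0 := by
    unfold meet
    rw [Finset.card_filter]
  rw [h2, Fintype.sum_prod_type]
  exact Finset.sum_congr rfl fun i _ => (h1 i).symm

theorem meet_zero_right {ι : Type} [Fintype ι] (v : ι → ZMod 2) : meet v 0 = 0 := by
  unfold meet
  rw [Finset.card_eq_zero, Finset.filter_eq_empty_iff]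
  rintro i - ⟨-, h⟩
  exact h rfl

/-- a vector of type zero meets a transversal of `P` in at most half of its weight in `P` -/
theorem two_mul_meet_trans {P : Finset (Fin M)} {w f : Fin M × β → ZMod 2} (hw : ty w = 0)
    (hf : IsTrans P f) : 2 * meet w f ≤ ∑ i ∈ P, hammingNorm (blk i w) := by
  rw [meet_eq_sum_blk, ← Finset.sum_subset (Finset.subset_univ P), Finset.mul_sum]
  · refine Finset.sum_le_sum fun i hi => ?_
    obtain ⟨j, hj⟩ := hf.1 i hi
    rw [hj]
    exact two_mul_meet_un (even_norm (congrFun hw i)) j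
  · intro i _ hi
    rw [hf.2 i hi, meet_zero_right]

theorem ty_trans {P : Finset (Fin M)} {f : Fin M × β → ZMod 2} (hf : IsTrans P f) (i : Fin M) :
    ty f i = if i ∈ P then 1 else 0 := by
  show ∑ j, blk i f j = _
  split_ifs with h
  · obtain ⟨j, hj⟩ := hf.1 i h
    rw [hj, sum_eq_cast_norm, norm_single]
    rfl
  · rw [hf.2 i h]
    simp

end types

section blowup

variable {β ρ : Type} [Fintype β] [DecidableEq β] [Fintype ρ] [DecidableEq ρ] {M : ℕ}

/-- main part -/
def mn (v : (Fin M × β) ⊕ ρ → ZMod 2) : Fin M × β → ZMod 2 := fun p => v (Sum.inl p)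

/-- repair part -/
def rp (v : (Fin M × β) ⊕ ρ → ZMod 2) : ρ → ZMod 2 := fun k => v (Sum.inr k)

theorem mn_add (v w : (Fin M × β) ⊕ ρ → ZMod 2) : mn (v + w) = mn v + mn w := rfl
theorem rp_add (v w : (Fin M × β) ⊕ ρ → ZMod 2) : rp (v + w) = rp v + rp w := rfl

theorem norm_split (v : (Fin M × β) ⊕ ρ → ZMod 2) :
    hammingNorm v = hammingNorm (mn v) + hammingNorm (rp v) := by
  have h1 : hammingNorm (mn v) = ∑ p, if v (Sum.inl p) ≠ 0 then 1 else 0 := by
    unfold hammingNorm
    rw [Finset.card_filter]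
    rfl
  have h2 : hammingNorm (rp v) = ∑ p, if v (Sum.inr p) ≠ 0 then 1 else 0 := by
    unfold hammingNorm
    rw [Finset.card_filter]
    rfl
  have h3 : hammingNorm v = ∑ p, if v p ≠ 0 then 1 else 0 := by
    unfold hammingNorm
    rw [Finset.card_filter]
  rw [h1, h2, h3, Fintype.sum_sum_type]

theorem norm_ty_mn_le (v : (Fin M × β) ⊕ ρ → ZMod 2) : hammingNorm (ty (mn v)) ≤ hammingNorm v := by
  have := norm_ty_le (mn v)
  have := norm_split v
  omega

/-- embedding of main vectors -/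
def em (f : Fin M × β → ZMod 2) : (Fin M × β) ⊕ ρ → ZMod 2 := Sum.elim f 0

/-- embedding of repair vectors -/
def er (g : ρ → ZMod 2) : (Fin M × β) ⊕ ρ → ZMod 2 := Sum.elim 0 g

theorem mn_em (f : Fin M × β → ZMod 2) : mn (em f : (Fin M × β) ⊕ ρ → ZMod 2) = f := rfl
theorem rp_em (f : Fin M × β → ZMod 2) : rp (em f : (Fin M × β) ⊕ ρ → ZMod 2) = 0 := rfl
theorem mn_er (g : ρ → ZMod 2) : mn (er g : (Fin M × β) ⊕ ρ → ZMod 2) = 0 := rfl
theorem rp_er (g : ρ → ZMod 2) : rp (er g : (Fin M × β) ⊕ ρ → ZMod 2) = g := rfl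

theorem norm_em (f : Fin M × β → ZMod 2) :
    hammingNorm (em f : (Fin M × β) ⊕ ρ → ZMod 2) = hammingNorm f := by
  rw [norm_split, mn_em, rp_em, hammingNorm_zero, add_zero]

theorem norm_er (g : ρ → ZMod 2) :
    hammingNorm (er g : (Fin M × β) ⊕ ρ → ZMod 2) = hammingNorm g := by
  rw [norm_split, mn_er, rp_er, hammingNorm_zero, zero_add]

theorem meet_em (e : (Fin M × β) ⊕ ρ → ZMod 2) (f : Fin M × β → ZMod 2) :
    meet e (em f) = meet (mn e) f := by
  have h1 := norm_add_two_mul_meet e (em f)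
  have h2 := norm_add_two_mul_meet (mn e) f
  rw [norm_split (e + em f), mn_add, rp_add, mn_em, rp_em, add_zero, norm_split e, norm_em] at h1
  omega

/-- `R2` is a strong repair code: every vector sees three codewords in pairwise disjoint
directions of weight exactly `r`. -/
def Strong {ι : Type} [Fintype ι] (r : ℕ) (R2 : Finset (ι → ZMod 2)) : Prop :=
  ∀ u, ∃ g1 g2 g3 : ι → ZMod 2, hammingNorm g1 = r ∧ hammingNorm g2 = r ∧ hammingNorm g3 = r ∧
    (∀ i, g1 i = 0 ∨ g2 i = 0) ∧ (∀ i, g1 i = 0 ∨ g3 i = 0) ∧ (∀ i, g2 i = 0 ∨ g3 i = 0) ∧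
    u + g1 ∈ R2 ∧ u + g2 ∈ R2 ∧ u + g3 ∈ R2

theorem add_add_cancel' {ι : Type} [Fintype ι] [DecidableEq ι] (v w : ι → ZMod 2) : v + (v + w) = w := by
  rw [← add_assoc, add_self_fun, zero_add]

/-- three disjoint directions identify -/
theorem ident_of_three {ι : Type} [Fintype ι] [DecidableEq ι] {r : ℕ} {C : Finset (ι → ZMod 2)}
    {v w g1 g2 g3 : ι → ZMod 2} (h1 : hammingNorm g1 = r) (h2 : hammingNorm g2 = r)
    (h3 : hammingNorm g3 = r)
    (d12 : ∀ i, g1 i = 0 ∨ g2 i = 0) (d13 : ∀ i, g1 i = 0 ∨ g3 i = 0)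
    (d23 : ∀ i, g2 i = 0 ∨ g3 i = 0)
    (m1 : v + g1 ∈ C) (m2 : v + g2 ∈ C) (m3 : v + g3 ∈ C) (hI : I r C v = I r C w) : v = w := by
  have sees : ∀ g : ι → ZMod 2, hammingNorm g = r → v + g ∈ C →
      hammingNorm ((v + w) + g) ≤ r := by
    intro g hg hm
    have h4 : v + g ∈ I r C v := by
      rw [mem_I]
      refine ⟨hm, ?_⟩
      rw [add_add_cancel', hg]
    rw [hI, mem_I] at h4
    have : (v + w) + g = w + (v + g) := by abel
    rw [this]
    exact h4.2
  have h := three_disjoint h1 h2 h3 d12 d13 d23 (sees g1 h1 m1) (sees g2 h2 m2) (sees g3 h3 m3)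
  exact eq_of_sub_eq_zero (by rw [sub_eq_add_fun, h])

theorem Strong.identifying {ι : Type} [Fintype ι] [DecidableEq ι] {r : ℕ}
    {C : Finset (ι → ZMod 2)} (hC : Strong r C) : IsIdentifying r C := by
  constructor
  · intro v
    obtain ⟨g1, g2, g3, h1, h2, h3, d12, d13, d23, m1, m2, m3⟩ := hC v
    refine ⟨v + g1, ?_⟩
    rw [mem_I]
    refine ⟨m1, ?_⟩
    rw [add_add_cancel', h1]
  · intro v w hvw hI
    obtain ⟨g1, g2, g3, h1, h2, h3, d12, d13, d23, m1, m2, m3⟩ := hC v
    exact hvw (ident_of_three h1 h2 h3 d12 d13 d23 m1 m2 m3 hI)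

variable {R : Type} [CommRing R]

/-- The blown-up code. -/
noncomputable def code (r : ℕ) (C : Finset (Fin M → ZMod 2)) (col : (β → ZMod 2) → R)
    (x : Fin M → R) (s0 : Fin r → R) (R2 : Finset (ρ → ZMod 2)) :
    Finset ((Fin M × β) ⊕ ρ → ZMod 2) :=
  univ.filter fun v => (ty (mn v) ∈ C ∧ syn r col x (mn v) = s0) ∨
    (ty (mn v) ∈ bad r C ∧ rp v ∈ R2)

theorem code_identifying {r : ℕ} {C : Finset (Fin M → ZMod 2)} (hC : IsIdentifying r C)
    {col : (β → ZMod 2) → R} (hcol : ∀ v γ, ∃ j, col (v + un j) = γ) {x : Fin M → R}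
    (hx : ∀ i j, i ≠ j → IsUnit (x i - x j)) (s0 : Fin r → R) {R2 : Finset (ρ → ZMod 2)}
    (hR2 : Strong r R2) : IsIdentifying r (code r C col x s0 R2) := by
  -- what bad types see
  have seeBad : ∀ v : (Fin M × β) ⊕ ρ → ZMod 2, ty (mn v) ∈ bad r C →
      ∃ g1 g2 g3 : (Fin M × β) ⊕ ρ → ZMod 2,
        hammingNorm g1 = r ∧ hammingNorm g2 = r ∧ hammingNorm g3 = r ∧
        (∀ i, g1 i = 0 ∨ g2 i = 0) ∧ (∀ i, g1 i = 0 ∨ g3 i = 0) ∧ (∀ i, g2 i = 0 ∨ g3 i = 0) ∧
        v + g1 ∈ code r C col x s0 R2 ∧ v + g2 ∈ code r C col x s0 R2 ∧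
        v + g3 ∈ code r C col x s0 R2 := by
    intro v hv
    obtain ⟨g1, g2, g3, h1, h2, h3, d12, d13, d23, m1, m2, m3⟩ := hR2 (rp v)
    have hmem : ∀ g : ρ → ZMod 2, rp v + g ∈ R2 → v + er g ∈ code r C col x s0 R2 := by
      intro g hg
      unfold code
      rw [Finset.mem_filter]
      refine ⟨Finset.mem_univ _, Or.inr ⟨?_, ?_⟩⟩
      · rw [mn_add, mn_er, add_zero]; exact hv
      · rw [rp_add, rp_er]; exact hg
    have hdis : ∀ g g' : ρ → ZMod 2, (∀ i, g i = 0 ∨ g' i = 0) →
        ∀ i, (er g : (Fin M × β) ⊕ ρ → ZMod 2) i = 0 ∨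
          (er g' : (Fin M × β) ⊕ ρ → ZMod 2) i = 0 := by
      intro g g' h i
      rcases i with i | i
      · left; rfl
      · exact h i
    exact ⟨er g1, er g2, er g3, by rw [norm_er, h1], by rw [norm_er, h2], by rw [norm_er, h3],
      hdis _ _ d12, hdis _ _ d13, hdis _ _ d23, hmem _ m1, hmem _ m2, hmem _ m3⟩
  -- what good types see
  have seeGood : ∀ v : (Fin M × β) ⊕ ρ → ZMod 2, ty (mn v) ∉ bad r C →
      ∀ c ∈ I r C (ty (mn v)), ∃ f : Fin M × β → ZMod 2,
        IsTrans (univ.filter fun i => (ty (mn v) + c) i ≠ 0) f ∧ hammingNorm f = r ∧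
        ty (mn v) + ty f = c ∧ v + em f ∈ code r C col x s0 R2 := by
    intro v hv c hc
    have hc' := mem_I.1 hc
    have hr : hammingNorm (ty (mn v) + c) = r := by
      refine le_antisymm hc'.2 (not_lt.1 fun hlt => hv ?_)
      unfold bad
      rw [Finset.mem_union, mem_near]
      exact Or.inl ⟨c, hc'.1, hlt⟩
    obtain ⟨f, hf, hs⟩ := exists_trans col hcol x hx
      (univ.filter fun i => (ty (mn v) + c) i ≠ 0) hr (mn v) s0
    have hty : ty (mn v) + ty f = c := by
      ext i
      have h1 := ty_trans hf i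
      rw [Pi.add_apply, h1]
      have h2 : ∀ a b : ZMod 2, (a + if a + b ≠ 0 then 1 else 0) = b := by decide
      have h3 := h2 (ty (mn v) i) (c i)
      simp only [Finset.mem_filter, Finset.mem_univ, true_and, Pi.add_apply]
      exact h3
    refine ⟨f, hf, ?_, hty, ?_⟩
    · rw [hf.norm]; exact hr
    · unfold code
      rw [Finset.mem_filter]
      refine ⟨Finset.mem_univ _, Or.inl ⟨?_, ?_⟩⟩
      · rw [mn_add, mn_em, ty_add, hty]; exact hc'.1
      · rw [mn_add, mn_em]; exact hs
  constructor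
  · intro v
    by_cases hv : ty (mn v) ∈ bad r C
    · obtain ⟨g1, g2, g3, h1, h2, h3, d12, d13, d23, m1, m2, m3⟩ := seeBad v hv
      refine ⟨v + g1, ?_⟩
      rw [mem_I]
      exact ⟨m1, by rw [add_add_cancel', h1]⟩
    · obtain ⟨c, hc⟩ := hC.1 (ty (mn v))
      obtain ⟨f, hf, hn, hty, hm⟩ := seeGood v hv c hc
      refine ⟨v + em f, ?_⟩
      rw [mem_I]
      exact ⟨hm, by rw [add_add_cancel', norm_em, hn]⟩
  · intro v w hvw hI
    by_cases hv : ty (mn v) ∈ bad r C
    · obtain ⟨g1, g2, g3, h1, h2, h3, d12, d13, d23, m1, m2, m3⟩ := seeBad v hv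
      exact hvw (ident_of_three h1 h2 h3 d12 d13 d23 m1 m2 m3 hI)
    by_cases hw : ty (mn w) ∈ bad r C
    · obtain ⟨g1, g2, g3, h1, h2, h3, d12, d13, d23, m1, m2, m3⟩ := seeBad w hw
      exact hvw (ident_of_three h1 h2 h3 d12 d13 d23 m1 m2 m3 hI.symm).symm
    -- both types are good
    have half : ∀ v w : (Fin M × β) ⊕ ρ → ZMod 2, ty (mn v) ∉ bad r C →
        I r (code r C col x s0 R2) v = I r (code r C col x s0 R2) w →
        I r C (ty (mn v)) ⊆ I r C (ty (mn w)) := by
      intro v w hv hI c hc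
      obtain ⟨f, hf, hn, hty, hm⟩ := seeGood v hv c hc
      have h1 : v + em f ∈ I r (code r C col x s0 R2) v := by
        rw [mem_I]
        exact ⟨hm, by rw [add_add_cancel', norm_em, hn]⟩
      rw [hI, mem_I] at h1
      rw [mem_I]
      refine ⟨(mem_I.1 hc).1, ?_⟩
      have h2 := norm_ty_mn_le (w + (v + em f))
      rw [mn_add, mn_add, mn_em, ty_add, ty_add, hty] at h2
      exact h2.trans h1.2
    have hIeq : I r C (ty (mn v)) = I r C (ty (mn w)) :=
      Finset.Subset.antisymm (half v w hv hI) (half w v hw hI.symm)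
    have htyeq : ty (mn v) = ty (mn w) := by
      by_contra hne
      exact hC.2 _ _ hne hIeq
    set e := v + w with he
    have hty0 : ty (mn e) = 0 := by
      rw [he, mn_add, ty_add, htyeq, add_self_fun]
    have hepos : 0 < hammingNorm e := by
      rw [hammingNorm_pos_iff]
      intro h0
      apply hvw
      apply eq_of_sub_eq_zero
      rw [sub_eq_add_fun, ← he, h0]
    -- choose a suitable codeword
    have hchoice : ∃ c ∈ I r C (ty (mn v)),
        ∑ i ∈ univ.filter (fun i => (ty (mn v) + c) i ≠ 0), hammingNorm (blk i (mn e)) <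
          hammingNorm e := by
      by_cases hX : ∃ X, 0 < hammingNorm (blk X (mn e))
      · obtain ⟨X, hX⟩ := hX
        have hns : ¬ ∀ c ∈ I r C (ty (mn v)), (ty (mn v) + c) X ≠ 0 := by
          intro hall
          apply hv
          unfold bad
          rw [Finset.mem_union]
          by_cases hnear : ty (mn v) ∈ near r C
          · exact Or.inl hnear
          · right
            rw [mem_star]
            refine ⟨?_, X, hall⟩
            intro c hc hlt
            apply hnear
            rw [mem_near]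
            exact ⟨c, hc, hlt⟩
        push Not at hns
        obtain ⟨c, hc, hcX⟩ := hns
        refine ⟨c, hc, ?_⟩
        have hXn : X ∉ univ.filter (fun i => (ty (mn v) + c) i ≠ 0) := by
          rw [Finset.mem_filter]
          rintro ⟨-, h⟩
          exact h hcX
        have h1 : ∑ i ∈ insert X (univ.filter (fun i => (ty (mn v) + c) i ≠ 0)),
            hammingNorm (blk i (mn e)) ≤ ∑ i, hammingNorm (blk i (mn e)) :=
          Finset.sum_le_sum_of_subset (Finset.subset_univ _)
        rw [Finset.sum_insert hXn, ← norm_eq_sum_blk] at h1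
        have h2 := norm_split e
        omega
      · push Not at hX
        obtain ⟨c, hc⟩ := hC.1 (ty (mn v))
        refine ⟨c, hc, ?_⟩
        rw [Finset.sum_eq_zero]
        · exact hepos
        · intro i _
          have := hX i
          omega
    obtain ⟨c, hc, hlt⟩ := hchoice
    obtain ⟨f, hf, hn, hty, hm⟩ := seeGood v hv c hc
    have h1 : v + em f ∈ I r (code r C col x s0 R2) v := by
      rw [mem_I]
      exact ⟨hm, by rw [add_add_cancel', norm_em, hn]⟩
    rw [hI, mem_I] at h1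
    have h2 : hammingNorm (e + em f) ≤ r := by
      have : e + em f = w + (v + em f) := by rw [he]; abel
      rw [this]
      exact h1.2
    have h3 := le_two_mul_meet (by rw [norm_em, hn]) h2
    rw [meet_em] at h3
    have h4 := two_mul_meet_trans hty0 hf
    omega

end blowup

end Pool.Agent.Helper53.Ident
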