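import Mathlib
import Pool.Agent.Helper53.IdBlow

/-!
# Counting the blown-up code
-/

set_option autoImplicit false
set_option linter.unusedSectionVars false

namespace Pool.Agent.Helper53.Ident

open Finset Classical

section

variable {β ρ : Type} [Fintype β] [DecidableEq β] [Fintype ρ] [DecidableEq ρ] {M : ℕ}

/-- the type map as a homomorphism -/
def tyHom (β : Type) [Fintype β] [DecidableEq β] (M : ℕ) :
    (Fin M × β → ZMod 2) →+ (Fin M → ZMod 2) where
  toFun := ty
  map_zero' := ty_zero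
  map_add' := ty_add

theorem ty_surjective [Nonempty β] (a : Fin M → ZMod 2) :
    ∃ w : Fin M × β → ZMod 2, ty w = a := by
  obtain ⟨j0⟩ := ‹Nonempty β›
  refine ⟨fun p => if p.2 = j0 then a p.1 else 0, ?_⟩
  ext i
  show ∑ j, (if j = j0 then a i else 0) = a i
  simp

theorem card_ty_fiber [Nonempty β] (a b : Fin M → ZMod 2) :
    #{w : Fin M × β → ZMod 2 | ty w = a} = #{w : Fin M × β → ZMod 2 | ty w = b} := by
  have h := AddMonoidHom.card_fiber_eq_of_mem_range (tyHom β M) (x := a) (y := b)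
    (by obtain ⟨w, hw⟩ := ty_surjective (β := β) a; exact ⟨w, hw⟩)
    (by obtain ⟨w, hw⟩ := ty_surjective (β := β) b; exact ⟨w, hw⟩)
  convert h using 2 <;>
  · ext w
    rw [Finset.mem_filter, Finset.mem_filter]
    exact Iff.rfl

theorem card_ty_mem [Nonempty β] (A : Finset (Fin M → ZMod 2)) :
    #{w : Fin M × β → ZMod 2 | ty w ∈ A} * 2 ^ M = #A * 2 ^ (M * Fintype.card β) := by
  have h1 : ∀ A : Finset (Fin M → ZMod 2), #{w : Fin M × β → ZMod 2 | ty w ∈ A} =
      #A * #{w : Fin M × β → ZMod 2 | ty w = 0} := by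
    intro A
    have := Finset.card_eq_sum_card_fiberwise (f := ty)
      (s := univ.filter fun w : Fin M × β → ZMod 2 => ty w ∈ A) (t := A)
      (by intro w hw; simpa using hw)
    rw [this, Finset.sum_const_nat (m := #{w : Fin M × β → ZMod 2 | ty w = 0})]
    intro a ha
    rw [← card_ty_fiber a 0]
    congr 1
    ext w
    simp only [Finset.mem_filter, Finset.mem_univ, true_and]
    constructor
    · exact fun h => h.2
    · intro h; exact ⟨by rw [h]; exact ha, h⟩
  have h2 := h1 univ
  have h3 : #{w : Fin M × β → ZMod 2 | ty w ∈ (univ : Finset (Fin M → ZMod 2))} =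
      2 ^ (M * Fintype.card β) := by
    rw [Finset.filter_true_of_mem (fun w _ => Finset.mem_univ _), Finset.card_univ]
    simp
  have h4 : #(univ : Finset (Fin M → ZMod 2)) = 2 ^ M := by
    rw [Finset.card_univ]; simp
  rw [h3, h4] at h2
  rw [h1 A, h2]
  ring

variable {R : Type} [CommRing R] [Fintype R]

/-- averaging over the syndromes -/
theorem exists_syndrome {r : ℕ} (S : Finset (Fin M × β → ZMod 2)) (F : (Fin M × β → ZMod 2) → Fin r → R) :
    ∃ s0 : Fin r → R, #{w ∈ S | F w = s0} * (Fintype.card R) ^ r ≤ #S := by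
  by_contra hcon
  push Not at hcon
  have h1 : ∑ s0 : Fin r → R, #{w ∈ S | F w = s0} = #S := by
    rw [← Finset.card_eq_sum_card_fiberwise (f := F) (t := univ)]
    intro w _; simp
  have h2 : ∑ _s0 : Fin r → R, #S < ∑ s0 : Fin r → R, #{w ∈ S | F w = s0} * (Fintype.card R) ^ r :=
    Finset.sum_lt_sum_of_nonempty Finset.univ_nonempty fun s0 _ => hcon s0
  rw [← Finset.sum_mul, h1, Finset.sum_const, Finset.card_univ, Fintype.card_fun, Fintype.card_fin,
    smul_eq_mul, mul_comm] at h2
  exact lt_irrefl _ h2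

/-- The blow-up theorem: existence of an identifying code with the right cardinality. -/
theorem exists_blowup [Nonempty β] {r : ℕ} {C : Finset (Fin M → ZMod 2)}
    (hC : IsIdentifying r C)
    {col : (β → ZMod 2) → R} (hcol : ∀ v γ, ∃ j, col (v + un j) = γ) {x : Fin M → R}
    (hx : ∀ i j, i ≠ j → IsUnit (x i - x j)) {R2 : Finset (ρ → ZMod 2)}
    (hR2 : Strong r R2) :
    ∃ D : Finset ((Fin M × β) ⊕ ρ → ZMod 2), IsIdentifying r D ∧
      #D * ((Fintype.card R) ^ r * 2 ^ M) ≤
        #C * 2 ^ (M * Fintype.card β + Fintype.card ρ) +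
        (Fintype.card R) ^ r * (#(bad r C) * (2 ^ (M * Fintype.card β) * #R2)) := by
  obtain ⟨s0, hs0⟩ := exists_syndrome
    (univ.filter fun w : Fin M × β → ZMod 2 => ty w ∈ C) (syn r col x)
  refine ⟨code r C col x s0 R2, code_identifying hC hcol hx s0 hR2, ?_⟩
  set A : Finset ((Fin M × β) ⊕ ρ → ZMod 2) :=
    univ.filter fun v => ty (mn v) ∈ C ∧ syn r col x (mn v) = s0 with hA
  set B : Finset ((Fin M × β) ⊕ ρ → ZMod 2) :=
    univ.filter fun v => ty (mn v) ∈ bad r C ∧ rp v ∈ R2 with hB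
  have hinj : Function.Injective
      (fun v : (Fin M × β) ⊕ ρ → ZMod 2 => (mn v, rp v)) := by
    intro v w h
    simp only [Prod.mk.injEq] at h
    ext i
    rcases i with i | i
    · exact congrFun h.1 i
    · exact congrFun h.2 i
  have hcode : #(code r C col x s0 R2) ≤ #A + #B := by
    refine (Finset.card_le_card ?_).trans (Finset.card_union_le A B)
    intro v hv
    unfold code at hv
    rw [Finset.mem_filter] at hv
    rw [Finset.mem_union, hA, hB, Finset.mem_filter, Finset.mem_filter]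
    rcases hv.2 with h | h
    · exact Or.inl ⟨Finset.mem_univ _, h⟩
    · exact Or.inr ⟨Finset.mem_univ _, h⟩
  have hAcard : #A ≤ #{w ∈ univ.filter (fun w : Fin M × β → ZMod 2 => ty w ∈ C) |
      syn r col x w = s0} * 2 ^ Fintype.card ρ := by
    have h1 : #A ≤ #((univ.filter (fun w : Fin M × β → ZMod 2 => ty w ∈ C)).filter
        (fun w => syn r col x w = s0) ×ˢ (univ : Finset (ρ → ZMod 2))) := by
      refine Finset.card_le_card_of_injOn (fun v => (mn v, rp v)) ?_ (hinj.injOn)
      intro v hv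
      have hv' : v ∈ A := hv
      rw [hA, Finset.mem_filter] at hv'
      rw [Finset.mem_coe, Finset.mem_product, Finset.mem_filter, Finset.mem_filter]
      exact ⟨⟨⟨Finset.mem_univ _, hv'.2.1⟩, hv'.2.2⟩, Finset.mem_univ _⟩
    rw [Finset.card_product] at h1
    have h2 : #(univ : Finset (ρ → ZMod 2)) = 2 ^ Fintype.card ρ := by
      rw [Finset.card_univ]; simp
    rw [h2] at h1
    exact h1
  have hBcard : #B ≤ #{w : Fin M × β → ZMod 2 | ty w ∈ bad r C} * #R2 := by
    rw [← Finset.card_product]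
    refine Finset.card_le_card_of_injOn (fun v => (mn v, rp v)) ?_ (hinj.injOn)
    intro v hv
    have hv' : v ∈ B := hv
    rw [hB, Finset.mem_filter] at hv'
    rw [Finset.mem_coe, Finset.mem_product, Finset.mem_filter]
    exact ⟨⟨Finset.mem_univ _, hv'.2.1⟩, hv'.2.2⟩
  have hC1 := card_ty_mem (β := β) C
  have hC2 := card_ty_mem (β := β) (bad r C)
  calc #(code r C col x s0 R2) * ((Fintype.card R) ^ r * 2 ^ M)
      ≤ (#{w ∈ univ.filter (fun w : Fin M × β → ZMod 2 => ty w ∈ C) |
          syn r col x w = s0} * 2 ^ Fintype.card ρ +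
          #{w : Fin M × β → ZMod 2 | ty w ∈ bad r C} * #R2) * ((Fintype.card R) ^ r * 2 ^ M) :=
        Nat.mul_le_mul_right _ (hcode.trans (Nat.add_le_add hAcard hBcard))
    _ = (#{w ∈ univ.filter (fun w : Fin M × β → ZMod 2 => ty w ∈ C) |
          syn r col x w = s0} * (Fintype.card R) ^ r) * 2 ^ M * 2 ^ Fintype.card ρ +
        (Fintype.card R) ^ r *
          ((#{w : Fin M × β → ZMod 2 | ty w ∈ bad r C} * 2 ^ M) * #R2) := by ring
    _ ≤ #{w : Fin M × β → ZMod 2 | ty w ∈ C} * 2 ^ M * 2 ^ Fintype.card ρ +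
        (Fintype.card R) ^ r *
          ((#{w : Fin M × β → ZMod 2 | ty w ∈ bad r C} * 2 ^ M) * #R2) := by
        refine Nat.add_le_add_right ?_ _
        exact Nat.mul_le_mul_right _ (Nat.mul_le_mul_right _ hs0)
    _ = _ := by
        rw [hC1, hC2, pow_add]
        ring

/-- three disjoint `r`-subsets of `Fin (3 * r)` -/
theorem exists_three_sets (r : ℕ) : ∃ P : Fin 3 → Finset (Fin (3 * r)),
    (∀ a, (P a).card = r) ∧ ∀ a b, a ≠ b → ∀ i, i ∉ P a ∨ i ∉ P b := by
  refine ⟨fun a => (univ : Finset (Fin r)).map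
    ⟨fun i => finProdFinEquiv (a, i), fun i j h => ?_⟩, ?_, ?_⟩
  · have := finProdFinEquiv.injective h
    exact (Prod.ext_iff.1 this).2
  · intro a
    rw [Finset.card_map, Finset.card_univ, Fintype.card_fin]
  · intro a b hab i
    by_contra hcon
    push Not at hcon
    obtain ⟨h1, h2⟩ := hcon
    rw [Finset.mem_map] at h1 h2
    obtain ⟨i1, -, hi1⟩ := h1
    obtain ⟨i2, -, hi2⟩ := h2
    have := finProdFinEquiv.injective (hi1.trans hi2.symm)
    exact hab (Prod.ext_iff.1 this).1

/-- Existence of a strong code. -/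
theorem exists_strong {r : ℕ}
    {col : (β → ZMod 2) → R} (hcol : ∀ v γ, ∃ j, col (v + un j) = γ) {x : Fin (3 * r) → R}
    (hx : ∀ i j, i ≠ j → IsUnit (x i - x j)) :
    ∃ D : Finset ((Fin (3 * r) × β) ⊕ ρ → ZMod 2), Strong r D ∧
      #D * (Fintype.card R) ^ r ≤ 2 ^ (3 * r * Fintype.card β + Fintype.card ρ) := by
  obtain ⟨s0, hs0⟩ := exists_syndrome
    (univ : Finset (Fin (3 * r) × β → ZMod 2)) (syn r col x)
  set D : Finset ((Fin (3 * r) × β) ⊕ ρ → ZMod 2) :=
    univ.filter fun v => syn r col x (mn v) = s0 with hD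
  refine ⟨D, ?_, ?_⟩
  · intro u
    obtain ⟨P, hP, hdis⟩ := exists_three_sets r
    have h1 : ∀ a : Fin 3, ∃ f : Fin (3 * r) × β → ZMod 2, IsTrans (P a) f ∧
        syn r col x (mn u + f) = s0 := fun a => exists_trans col hcol x hx (P a) (hP a) (mn u) s0
    choose f hf hs using h1
    have hd : ∀ a b, a ≠ b → ∀ i, (em (f a) : (Fin (3 * r) × β) ⊕ ρ → ZMod 2) i = 0 ∨
        (em (f b) : (Fin (3 * r) × β) ⊕ ρ → ZMod 2) i = 0 := by
      intro a b hab i
      rcases i with ⟨i, j⟩ | i
      · rcases hdis a b hab i with h | h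
        · left; exact congrFun ((hf a).2 i h) j
        · right; exact congrFun ((hf b).2 i h) j
      · left; rfl
    have hm : ∀ a, u + em (f a) ∈ D := by
      intro a
      rw [hD, Finset.mem_filter]
      refine ⟨Finset.mem_univ _, ?_⟩
      rw [mn_add, mn_em]; exact hs a
    refine ⟨em (f 0), em (f 1), em (f 2), ?_, ?_, ?_, hd 0 1 (by decide), hd 0 2 (by decide),
      hd 1 2 (by decide), hm 0, hm 1, hm 2⟩ <;> rw [norm_em, (hf _).norm, hP]
  · have h1 : #D ≤ #((univ : Finset (Fin (3 * r) × β → ZMod 2)).filter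
        (fun w => syn r col x w = s0) ×ˢ (univ : Finset (ρ → ZMod 2))) := by
      refine Finset.card_le_card_of_injOn (fun v => (mn v, rp v)) ?_ ?_
      · intro v hv
        have hv' : v ∈ D := hv
        rw [hD, Finset.mem_filter] at hv'
        rw [Finset.mem_coe, Finset.mem_product, Finset.mem_filter]
        exact ⟨⟨Finset.mem_univ _, hv'.2⟩, Finset.mem_univ _⟩
      · intro v _ w _ h
        simp only [Prod.mk.injEq] at h
        ext i
        rcases i with i | i
        · exact congrFun h.1 i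
        · exact congrFun h.2 i
    have h2 : #(univ : Finset (ρ → ZMod 2)) = 2 ^ Fintype.card ρ := by
      rw [Finset.card_univ]; simp
    have h3 : #(univ : Finset (Fin (3 * r) × β → ZMod 2)) = 2 ^ (3 * r * Fintype.card β) := by
      rw [Finset.card_univ]; simp
    rw [Finset.card_product, h2] at h1
    rw [h3] at hs0
    calc #D * (Fintype.card R) ^ r
        ≤ #((univ : Finset (Fin (3 * r) × β → ZMod 2)).filter
            (fun w => syn r col x w = s0)) * 2 ^ Fintype.card ρ * (Fintype.card R) ^ r :=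
          Nat.mul_le_mul_right _ h1
      _ = (#((univ : Finset (Fin (3 * r) × β → ZMod 2)).filter
            (fun w => syn r col x w = s0)) * (Fintype.card R) ^ r) * 2 ^ Fintype.card ρ := by ring
      _ ≤ 2 ^ (3 * r * Fintype.card β) * 2 ^ Fintype.card ρ := Nat.mul_le_mul_right _ hs0
      _ = _ := by rw [← pow_add]

end

section transfer

variable {ι κ : Type} [Fintype ι] [DecidableEq ι] [Fintype κ] [DecidableEq κ]

theorem hammingDist_reindex (σ : ι ≃ κ) (v w : ι → ZMod 2) :
    hammingDist (v ∘ σ.symm) (w ∘ σ.symm) = hammingDist v w := by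
  unfold hammingDist
  refine Finset.card_bij (fun i _ => σ.symm i) ?_ ?_ ?_
  · intro i hi
    simp only [Finset.mem_filter, Finset.mem_univ, true_and, Function.comp] at hi ⊢
    exact hi
  · intro i _ j _ h; exact σ.symm.injective h
  · intro i hi
    refine ⟨σ i, ?_, by simp⟩
    simp only [Finset.mem_filter, Finset.mem_univ, true_and, Function.comp,
      Equiv.symm_apply_apply] at hi ⊢
    exact hi

/-- reindexing of vectors -/
def reix (σ : ι ≃ κ) : (ι → ZMod 2) ≃ (κ → ZMod 2) where
  toFun v := v ∘ σ.symm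
  invFun v := v ∘ σ
  left_inv v := by ext i; simp
  right_inv v := by ext i; simp

theorem I_reix (σ : ι ≃ κ) (r : ℕ) (C : Finset (ι → ZMod 2)) (v : ι → ZMod 2) :
    I r (C.map (reix σ).toEmbedding) (reix σ v) = (I r C v).map (reix σ).toEmbedding := by
  ext c
  unfold I
  simp only [Finset.mem_filter, Finset.mem_map, Equiv.coe_toEmbedding]
  constructor
  · rintro ⟨⟨c', hc', rfl⟩, h⟩
    exact ⟨c', ⟨hc', by rwa [show reix σ v = v ∘ σ.symm from rfl,
      show reix σ c' = c' ∘ σ.symm from rfl, hammingDist_reindex] at h⟩, rfl⟩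
  · rintro ⟨c', ⟨hc', h⟩, rfl⟩
    exact ⟨⟨c', hc', rfl⟩, by rwa [show reix σ v = v ∘ σ.symm from rfl,
      show reix σ c' = c' ∘ σ.symm from rfl, hammingDist_reindex]⟩

theorem IsIdentifying.reix (σ : ι ≃ κ) {r : ℕ} {C : Finset (ι → ZMod 2)}
    (hC : IsIdentifying r C) : IsIdentifying r (C.map (Ident.reix σ).toEmbedding) := by
  constructor
  · intro v
    obtain ⟨u, rfl⟩ := (Ident.reix σ).surjective v
    rw [I_reix, Finset.map_nonempty]
    exact hC.1 u
  · intro v w hvw
    obtain ⟨u, rfl⟩ := (Ident.reix σ).surjective v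
    obtain ⟨u', rfl⟩ := (Ident.reix σ).surjective w
    rw [I_reix, I_reix]
    intro h
    have h' := Finset.map_injective _ h
    exact hC.2 u u' (fun h => hvw (by rw [h])) h'

theorem Id_le {r n : ℕ} (h : Fintype.card ι = n) {C : Finset (ι → ZMod 2)}
    (hC : IsIdentifying r C) : (sizes r n).Nonempty ∧ minId r n ≤ #C := by
  have h1 : #C ∈ sizes r n :=
    ⟨_, hC.reix (Fintype.equivFinOfCardEq h), Finset.card_map _⟩
  exact ⟨⟨_, h1⟩, Nat.sInf_le h1⟩

/-- An optimal code. -/
theorem exists_optimal {r n : ℕ} (h : (sizes r n).Nonempty) :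
    ∃ C : Finset (Fin n → ZMod 2), IsIdentifying r C ∧ #C = minId r n :=
  Nat.sInf_mem h

end transfer

end Pool.Agent.Helper53.Ident
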