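import Mathlib

/-!
# Numbers of the form `3 ^ a * 2 ^ t` are multiplicatively dense
-/

set_option autoImplicit false

namespace Pool.Agent.Helper53.Ident

/-- A ratio of a power of `3` and a power of `2` close to `1`. -/
theorem exists_ratio (ε : ℝ) (hε : 0 < ε) :
    ∃ k j : ℕ, 0 < k ∧ ((1 < (3 : ℝ) ^ k / 2 ^ j ∧ (3 : ℝ) ^ k / 2 ^ j < 1 + ε) ∨
      (1 < (2 : ℝ) ^ j / 3 ^ k ∧ (2 : ℝ) ^ j / 3 ^ k < 1 + ε)) := by
  obtain ⟨n, hn⟩ := exists_nat_gt (1 / ε)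
  have hn0 : (0 : ℝ) < n := lt_trans (by positivity) hn
  have hnpos : 0 < n := by exact_mod_cast hn0
  have hnε : 1 < n * ε := by
    rw [div_lt_iff₀ hε] at hn
    exact hn
  obtain ⟨j, k, hk0, -, hjk⟩ := Real.exists_int_int_abs_mul_sub_le (Real.logb 2 3) hnpos
  have hlog : 1 < Real.logb 2 3 := by
    rw [Real.lt_logb_iff_rpow_lt (by norm_num) (by norm_num)]
    norm_num
  have hk1 : (1 : ℝ) ≤ k := by exact_mod_cast hk0
  have hdelta : 1 / ((n : ℝ) + 1) ≤ 1 / 2 := by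
    apply one_div_le_one_div_of_le (by norm_num)
    have : (1 : ℝ) ≤ n := by exact_mod_cast hnpos
    linarith
  have hj0 : 0 < j := by
    have h1 := (abs_le.1 hjk).2
    have h2 : (1 : ℝ) < k * Real.logb 2 3 := by nlinarith
    have h3 : (0 : ℝ) < j := by linarith
    exact_mod_cast h3
  lift k to ℕ using hk0.le
  lift j to ℕ using hj0.le
  have hk0' : 0 < k := by exact_mod_cast hk0
  have hj0' : 0 < j := by exact_mod_cast hj0
  refine ⟨k, j, hk0', ?_⟩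
  simp only [Int.cast_natCast] at hjk
  have h3pos : (0 : ℝ) < 3 ^ k := by positivity
  have h2pos : (0 : ℝ) < 2 ^ j := by positivity
  have hlogratio : Real.logb 2 ((3 : ℝ) ^ k / 2 ^ j) = k * Real.logb 2 3 - j := by
    rw [Real.logb_div h3pos.ne' h2pos.ne', Real.logb_pow, Real.logb_pow,
      Real.logb_self_eq_one (by norm_num)]
    ring
  have hne : (3 : ℝ) ^ k ≠ 2 ^ j := by
    intro h
    have h' : (3 : ℕ) ^ k = 2 ^ j := by exact_mod_cast h
    have h1 : Odd (3 ^ k) := Odd.pow (by decide)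
    have h2 : Even (2 ^ j) := (Nat.even_pow.2 ⟨even_two, hj0'.ne'⟩)
    rw [h'] at h1
    exact (Nat.not_even_iff_odd.2 h1) h2
  have key : ∀ u : ℝ, 1 < u → Real.logb 2 u ≤ 1 / (n + 1) → u < 1 + ε := by
    intro u hu hl
    by_contra hge
    push Not at hge
    have h1 : (1 + ε) ^ (n + 1) ≤ u ^ (n + 1) := pow_le_pow_left₀ (by positivity) hge _
    have h2 : 1 + (n + 1 : ℕ) * ε ≤ (1 + ε) ^ (n + 1) :=
      one_add_mul_le_pow (by linarith) _
    have h3 : u ^ (n + 1) ≤ 2 := by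
      have h4 : Real.logb 2 (u ^ (n + 1)) ≤ 1 := by
        rw [Real.logb_pow]
        push_cast
        rw [le_div_iff₀ (by positivity)] at hl
        linarith
      rwa [Real.logb_le_iff_le_rpow (by norm_num) (by positivity), Real.rpow_one] at h4
    push_cast at h2
    nlinarith
  rcases lt_or_gt_of_ne hne with h | h
  · right
    have h1 : 1 < (2 : ℝ) ^ j / 3 ^ k := by
      rw [lt_div_iff₀ h3pos]; linarith
    refine ⟨h1, key _ h1 ?_⟩
    have h2 : Real.logb 2 ((2 : ℝ) ^ j / 3 ^ k) = -(k * Real.logb 2 3 - j) := by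
      rw [← hlogratio, ← Real.logb_inv, inv_div]
    rw [h2]
    have := (abs_le.1 hjk).1
    linarith
  · left
    have h1 : 1 < (3 : ℝ) ^ k / 2 ^ j := by
      rw [lt_div_iff₀ h2pos]; linarith
    refine ⟨h1, key _ h1 ?_⟩
    rw [hlogratio]
    exact (abs_le.1 hjk).2

/-- Numbers `3 ^ a * 2 ^ t` with `a₀ ≤ a ≤ A` are multiplicatively dense. -/
theorem exists_dense (ε : ℝ) (hε : 0 < ε) (a₀ : ℕ) :
    ∃ (A : ℕ) (X₀ : ℝ), 0 < X₀ ∧ ∀ X : ℝ, X₀ ≤ X → ∃ a t : ℕ, a₀ ≤ a ∧ a ≤ A ∧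
      (3 : ℝ) ^ a * 2 ^ t ≤ X ∧ X ≤ (1 + ε) * ((3 : ℝ) ^ a * 2 ^ t) := by
  obtain ⟨k, j, hk, hkj⟩ := exists_ratio ε hε
  rcases hkj with ⟨h1, h2⟩ | ⟨h1, h2⟩
  · -- ratio above one
    set u : ℝ := (3 : ℝ) ^ k / 2 ^ j with hu
    obtain ⟨I, hI⟩ := pow_unbounded_of_one_lt (2 : ℝ) h1
    refine ⟨a₀ + k * I, (3 : ℝ) ^ a₀ * 2 ^ (j * I), by positivity, ?_⟩
    intro X hX
    have h3a : (0 : ℝ) < 3 ^ a₀ := by positivity
    obtain ⟨t0, ht1, ht2⟩ := exists_nat_pow_near (x := X / 3 ^ a₀) (y := (2 : ℝ))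
      (by
        rw [le_div_iff₀ h3a]
        have : (1 : ℝ) ≤ 2 ^ (j * I) := one_le_pow₀ (by norm_num)
        nlinarith) (by norm_num)
    have ht0 : j * I ≤ t0 := by
      by_contra hlt
      push Not at hlt
      have h5 : (2 : ℝ) ^ (t0 + 1) ≤ 2 ^ (j * I) := pow_le_pow_right₀ (by norm_num) hlt
      have h6 : (2 : ℝ) ^ (j * I) ≤ X / 3 ^ a₀ := by
        rw [le_div_iff₀ h3a]; linarith
      linarith
    have h2t : (0 : ℝ) < 2 ^ t0 := by positivity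
    rw [le_div_iff₀ h3a] at ht1
    rw [div_lt_iff₀ h3a] at ht2
    obtain ⟨i, hi1, hi2⟩ := exists_nat_pow_near (x := X / (3 ^ a₀ * 2 ^ t0)) (y := u)
      (by rw [le_div_iff₀ (by positivity)]; linarith) h1
    have hiI : i ≤ I := by
      by_contra hlt
      push Not at hlt
      have h5 : u ^ I ≤ u ^ i := pow_le_pow_right₀ h1.le hlt.le
      have h6 : X / (3 ^ a₀ * 2 ^ t0) < 2 := by
        rw [div_lt_iff₀ (by positivity)]
        calc X < 2 ^ (t0 + 1) * 3 ^ a₀ := ht2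
          _ = 2 * (3 ^ a₀ * 2 ^ t0) := by ring
      linarith
    rw [le_div_iff₀ (by positivity)] at hi1
    rw [div_lt_iff₀ (by positivity)] at hi2
    have hval : (3 : ℝ) ^ (a₀ + k * i) * 2 ^ (t0 - j * i) = u ^ i * (3 ^ a₀ * 2 ^ t0) := by
      have hji : j * i ≤ t0 := (Nat.mul_le_mul_left j hiI).trans ht0
      have h2 : (2 : ℝ) ^ t0 = 2 ^ (t0 - j * i) * 2 ^ (j * i) := by
        rw [← pow_add, Nat.sub_add_cancel hji]
      rw [hu, div_pow, ← pow_mul, ← pow_mul, h2, pow_add]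
      field_simp
    refine ⟨a₀ + k * i, t0 - j * i, Nat.le_add_right _ _,
      Nat.add_le_add_left (Nat.mul_le_mul_left k hiI) _, ?_, ?_⟩
    · rw [hval]; exact hi1
    · rw [hval]
      have h7 : 0 < u ^ i * ((3 : ℝ) ^ a₀ * 2 ^ t0) := by
        have : 0 < u := by linarith
        positivity
      have h8 : u ^ (i + 1) * ((3 : ℝ) ^ a₀ * 2 ^ t0) = u * (u ^ i * (3 ^ a₀ * 2 ^ t0)) := by ring
      rw [h8] at hi2
      nlinarith
  · -- ratio below one
    set u : ℝ := (2 : ℝ) ^ j / 3 ^ k with hu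
    obtain ⟨I, hI⟩ := pow_unbounded_of_one_lt (2 : ℝ) h1
    have hu0 : 0 < u := by linarith
    refine ⟨a₀ + k * (I + 1), (3 : ℝ) ^ a₀ * 2 ^ (j * (I + 1)), by positivity, ?_⟩
    intro X hX
    have h3a : (0 : ℝ) < 3 ^ a₀ := by positivity
    have h1j : (1 : ℝ) ≤ 2 ^ (j * (I + 1)) := one_le_pow₀ (by norm_num)
    have hX1 : (3 : ℝ) ^ a₀ ≤ X := by nlinarith
    obtain ⟨t0, ht1, ht2⟩ := exists_nat_pow_near (x := X / 3 ^ a₀) (y := (2 : ℝ))
      (by rw [le_div_iff₀ h3a]; linarith) (by norm_num)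
    have ht0 : j * (I + 1) ≤ t0 := by
      by_contra hlt
      push Not at hlt
      have h5 : (2 : ℝ) ^ (t0 + 1) ≤ 2 ^ (j * (I + 1)) := pow_le_pow_right₀ (by norm_num) hlt
      have h6 : (2 : ℝ) ^ (j * (I + 1)) ≤ X / 3 ^ a₀ := by
        rw [le_div_iff₀ h3a]; linarith
      linarith
    rw [le_div_iff₀ h3a] at ht1
    rw [div_lt_iff₀ h3a] at ht2
    have hX0 : 0 < X := lt_of_lt_of_le h3a hX1
    -- we start from `3 ^ a₀ * 2 ^ (t0 + 1) > X` and multiply by `3 ^ k / 2 ^ j`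
    obtain ⟨i, hi1, hi2⟩ := exists_nat_pow_near (x := (3 ^ a₀ * 2 ^ (t0 + 1)) / X) (y := u)
      (by rw [le_div_iff₀ hX0]; linarith) h1
    have hiI : i ≤ I := by
      by_contra hlt
      push Not at hlt
      have h5 : u ^ I ≤ u ^ i := pow_le_pow_right₀ h1.le hlt.le
      have h6 : (3 ^ a₀ * 2 ^ (t0 + 1)) / X ≤ 2 := by
        rw [div_le_iff₀ hX0]
        calc (3 : ℝ) ^ a₀ * 2 ^ (t0 + 1) = 2 * (2 ^ t0 * 3 ^ a₀) := by ring
          _ ≤ 2 * X := by linarith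
      linarith
    rw [le_div_iff₀ hX0] at hi1
    rw [div_lt_iff₀ hX0] at hi2
    have hval : u ^ (i + 1) * ((3 : ℝ) ^ (a₀ + k * (i + 1)) * 2 ^ (t0 + 1 - j * (i + 1))) =
        3 ^ a₀ * 2 ^ (t0 + 1) := by
      have hji : j * (i + 1) ≤ t0 + 1 :=
        (Nat.mul_le_mul_left j (Nat.succ_le_succ hiI)).trans (ht0.trans (Nat.le_succ _))
      have h2 : (2 : ℝ) ^ (t0 + 1) = 2 ^ (t0 + 1 - j * (i + 1)) * 2 ^ (j * (i + 1)) := by
        rw [← pow_add, Nat.sub_add_cancel hji]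
      rw [hu, div_pow, ← pow_mul, ← pow_mul, h2, pow_add]
      field_simp
    set W : ℝ := (3 : ℝ) ^ (a₀ + k * (i + 1)) * 2 ^ (t0 + 1 - j * (i + 1)) with hW
    have hW0 : 0 < W := by positivity
    have hui : 0 < u ^ (i + 1) := by positivity
    refine ⟨a₀ + k * (i + 1), t0 + 1 - j * (i + 1), Nat.le_add_right _ _,
      Nat.add_le_add_left (Nat.mul_le_mul_left k (Nat.succ_le_succ hiI)) _, ?_, ?_⟩
    · -- `W ≤ X`
      rw [← hW]
      by_contra hlt
      push Not at hlt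
      nlinarith
    · rw [← hW]
      have h8 : u ^ (i + 1) = u * u ^ i := by ring
      have hui' : 0 < u ^ i := by positivity
      have h9 : u ^ i * X ≤ u ^ i * (u * W) := by
        calc u ^ i * X ≤ 3 ^ a₀ * 2 ^ (t0 + 1) := hi1
          _ = u ^ (i + 1) * W := hval.symm
          _ = u ^ i * (u * W) := by rw [h8]; ring
      have h10 : X ≤ u * W := le_of_mul_le_mul_left h9 hui'
      nlinarith

end Pool.Agent.Helper53.Ident
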