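import Mathlib
import Pool.Agent.Helper53.IdHamming
import Pool.Agent.Helper53.IdDense

/-!
# Total domatic colourings of the hypercube with almost as many colours as coordinates
-/

set_option autoImplicit false
set_option linter.unusedSectionVars false

namespace Pool.Agent.Helper53.Ident

open Finset

/-- changing one term of a sum -/
theorem sum_change {ι A : Type} [Fintype ι] [DecidableEq ι] [AddCommGroup A] (f f' : ι → A)
    (i0 : ι)
    (h : ∀ i, i ≠ i0 → f' i = f i) : ∑ i, f' i = ∑ i, f i + (f' i0 - f i0) := by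
  have h1 : ∑ i, (f' i - f i) = f' i0 - f i0 := by
    rw [Finset.sum_eq_single i0]
    · intro i _ hi
      rw [h i hi, sub_self]
    · intro hi; exact absurd (Finset.mem_univ _) hi
  rw [Finset.sum_sub_distrib] at h1
  rw [← h1]
  abel

section basic

variable {F T V : Type} [Field F] [Fintype F] [DecidableEq F] [CommRing T] [Fintype T]
  [AddCommGroup V] [Module (ZMod 2) V] [Fintype V] [DecidableEq V]

/-- syndrome of the sub-block `i` -/
noncomputable def ssyn (v : Option F × V → ZMod 2) (i : Option F) : V := ∑ a : V, v (i, a) • a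

theorem ssyn_add_same (v : Option F × V → ZMod 2) (i : Option F) (a : V) :
    ssyn (v + un (i, a)) i = ssyn v i + a := by
  unfold ssyn
  simp only [Pi.add_apply, add_smul, Finset.sum_add_distrib]
  congr 1
  rw [Finset.sum_eq_single a]
  · rw [un_same, one_smul]
  · intro b _ hb
    rw [un_ne (by simp [hb]), zero_smul]
  · intro h; exact absurd (Finset.mem_univ _) h

theorem ssyn_add_ne (v : Option F × V → ZMod 2) {i i' : Option F} (a : V) (h : i' ≠ i) :
    ssyn (v + un (i, a)) i' = ssyn v i' := by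
  unfold ssyn
  simp only [Pi.add_apply, add_smul, Finset.sum_add_distrib]
  rw [add_eq_left]
  refine Finset.sum_eq_zero fun b _ => ?_
  rw [un_ne (by simp [h]), zero_smul]

/-- the points of the projective line -/
def dir : Option F → F × F
  | none => (0, 1)
  | some a => (1, a)

theorem exists_dir (δ : F × F) : ∃ (i : Option F) (κ : F), δ = (κ * (dir i).1, κ * (dir i).2) := by
  by_cases h : δ.1 = 0
  · refine ⟨none, δ.2, ?_⟩
    simp only [dir, mul_zero, mul_one]
    exact Prod.ext h rfl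
  · refine ⟨some (δ.2 / δ.1), δ.1, ?_⟩
    simp only [dir, mul_one]
    rw [mul_div_cancel₀ _ h]

/-- the colour -/
noncomputable def bcol (ρ : V → F × T) (v : Option F × V → ZMod 2) : (F × F) × T :=
  ((∑ i, (ρ (ssyn v i)).1 * (dir i).1, ∑ i, (ρ (ssyn v i)).1 * (dir i).2),
    ∑ i, (ρ (ssyn v i)).2)

theorem bcol_reach (ρ : V → F × T) (hρ : Function.Surjective ρ) (v : Option F × V → ZMod 2)
    (γ : (F × F) × T) : ∃ j, bcol ρ (v + un j) = γ := by
  obtain ⟨i, κ, hκ⟩ := exists_dir (γ.1 - (bcol ρ v).1)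
  obtain ⟨b, hb⟩ := hρ ((ρ (ssyn v i)).1 + κ, (ρ (ssyn v i)).2 + (γ.2 - (bcol ρ v).2))
  refine ⟨(i, b - ssyn v i), ?_⟩
  have hsame : ssyn (v + un (i, b - ssyn v i)) i = b := by
    rw [ssyn_add_same]; abel
  have hne : ∀ i', i' ≠ i → ssyn (v + un (i, b - ssyn v i)) i' = ssyn v i' :=
    fun i' h => ssyn_add_ne v _ h
  have h1 := sum_change (fun i => (ρ (ssyn v i)).1 * (dir i).1)
    (fun i' => (ρ (ssyn (v + un (i, b - ssyn v i)) i')).1 * (dir i').1) i
    (fun i' h => by simp only [hne i' h])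
  have h2 := sum_change (fun i => (ρ (ssyn v i)).1 * (dir i).2)
    (fun i' => (ρ (ssyn (v + un (i, b - ssyn v i)) i')).1 * (dir i').2) i
    (fun i' h => by simp only [hne i' h])
  have h3 := sum_change (fun i => (ρ (ssyn v i)).2)
    (fun i' => (ρ (ssyn (v + un (i, b - ssyn v i)) i')).2) i
    (fun i' h => by simp only [hne i' h])
  simp only [hsame, hb] at h1 h2 h3
  have hκ1 := congrArg Prod.fst hκ
  have hκ2 := congrArg Prod.snd hκ
  simp only [Prod.fst_sub, Prod.snd_sub] at hκ1 hκ2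
  refine Prod.ext (Prod.ext ?_ ?_) ?_
  · show ∑ i', (ρ (ssyn (v + un (i, b - ssyn v i)) i')).1 * (dir i').1 = γ.1.1
    rw [h1]
    have : (bcol ρ v).1.1 = ∑ i, (ρ (ssyn v i)).1 * (dir i).1 := rfl
    rw [← this]
    linear_combination -hκ1
  · show ∑ i', (ρ (ssyn (v + un (i, b - ssyn v i)) i')).1 * (dir i').2 = γ.1.2
    rw [h2]
    have : (bcol ρ v).1.2 = ∑ i, (ρ (ssyn v i)).1 * (dir i).2 := rfl
    rw [← this]
    linear_combination -hκ2
  · show ∑ i', (ρ (ssyn (v + un (i, b - ssyn v i)) i')).2 = γ.2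
    rw [h3]
    have : (bcol ρ v).2 = ∑ i, (ρ (ssyn v i)).2 := rfl
    rw [← this]
    ring

end basic

/-- padding a colouring -/
theorem pad {β R : Type} [Fintype β] [DecidableEq β] {L : ℕ} (hL : Fintype.card β ≤ L)
    (col : (β → ZMod 2) → R) (hcol : ∀ v γ, ∃ j, col (v + un j) = γ) :
    ∃ col' : (Fin L → ZMod 2) → R, ∀ (v : Fin L → ZMod 2) (γ : R), ∃ j : Fin L,
      col' (v + un j) = γ := by
  obtain ⟨e⟩ : Nonempty (β ↪ Fin L) := by
    rw [Function.Embedding.nonempty_iff_card_le, Fintype.card_fin]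
    exact hL
  refine ⟨fun v => col (fun b => v (e b)), fun v γ => ?_⟩
  obtain ⟨j, hj⟩ := hcol (fun b => v (e b)) γ
  refine ⟨e j, ?_⟩
  rw [← hj]
  refine congrArg col (funext fun b => ?_)
  simp only [Pi.add_apply]
  congr 1
  by_cases hb : b = j
  · subst hb; rw [un_same, un_same]
  · rw [un_ne hb, un_ne (fun h => hb (e.injective h))]

/-- the units needed for the Vandermonde matrices -/
theorem isUnit_sub_of_coprime {M t' : ℕ} (h : Nat.Coprime M.factorial t') (i j : Fin M)
    (hij : i ≠ j) : IsUnit (((i : ℕ) : ZMod t') - ((j : ℕ) : ZMod t')) := by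
  have key : ∀ i j : Fin M, (i : ℕ) < j → IsUnit (((j : ℕ) : ZMod t') - ((i : ℕ) : ZMod t')) := by
    intro i j hlt
    rw [← Nat.cast_sub hlt.le, ZMod.isUnit_iff_coprime]
    refine Nat.Coprime.coprime_dvd_left ?_ h
    exact Nat.dvd_factorial (by omega) (by have := j.isLt; omega)
  rcases lt_or_gt_of_ne (fun h => hij (Fin.ext h) : (i : ℕ) ≠ j) with h' | h'
  · have := (key i j h').neg
    rwa [neg_sub] at this
  · exact key j i h'

/-- Existence of a surjection between finite types. -/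
theorem exists_surj {A B : Type} [Fintype A] [Fintype B] [Nonempty B]
    (h : Fintype.card B ≤ Fintype.card A) : ∃ f : A → B, Function.Surjective f := by
  obtain ⟨e⟩ : Nonempty (B ↪ A) := Function.Embedding.nonempty_iff_card_le.2 h
  exact ⟨Function.invFun e, Function.invFun_surjective e.injective⟩

/-- A colouring built from the field with `3 ^ a` elements. -/
theorem exists_col_of_params {M L a t t' : ℕ} (ha : a ≠ 0) (hM : M ≤ 3 ^ a)
    (hL : (3 ^ a + 1) * 2 ^ t ≤ L) (ht' : 3 ^ a * t' ≤ 2 ^ t) (hpos : 0 < t')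
    (hcop : Nat.Coprime M.factorial t') :
    ∃ (R : Type) (_ : CommRing R) (_ : Fintype R) (col : (Fin L → ZMod 2) → R) (x : Fin M → R),
      (∀ (v : Fin L → ZMod 2) (γ : R), ∃ j : Fin L, col (v + un j) = γ) ∧
      (∀ i j, i ≠ j → IsUnit (x i - x j)) ∧
      Fintype.card R = 3 ^ a * 3 ^ a * t' := by
  have : Fact (Nat.Prime 3) := ⟨by norm_num⟩
  have : NeZero t' := ⟨hpos.ne'⟩
  let F := GaloisField 3 a
  let _ : Fintype F := Fintype.ofFinite F
  let _ : DecidableEq F := Classical.decEq F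
  have hF : Fintype.card F = 3 ^ a := by
    rw [← Nat.card_eq_fintype_card]
    exact GaloisField.card 3 a ha
  let T := ZMod t'
  let V := Fin t → ZMod 2
  obtain ⟨ρ, hρ⟩ : ∃ ρ : V → F × T, Function.Surjective ρ := by
    apply exists_surj
    rw [Fintype.card_prod, hF, ZMod.card]
    simpa [V] using ht'
  obtain ⟨f⟩ : Nonempty (Fin M ↪ F) := by
    rw [Function.Embedding.nonempty_iff_card_le, Fintype.card_fin, hF]
    exact hM
  obtain ⟨col, hcol⟩ := pad (β := Option F × V) (L := L) (by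
    rw [Fintype.card_prod, Fintype.card_option, hF]
    simpa [V] using hL) (bcol ρ) (bcol_reach ρ hρ)
  refine ⟨(F × F) × T, inferInstance, inferInstance, col,
    fun i => ((f i, f i), ((i : ℕ) : T)), hcol, ?_, ?_⟩
  · intro i j hij
    have h1 : f i - f j ≠ 0 := sub_ne_zero.2 (fun h => hij (f.injective h))
    rw [Prod.isUnit_iff, Prod.isUnit_iff]
    exact ⟨⟨isUnit_iff_ne_zero.2 h1, isUnit_iff_ne_zero.2 h1⟩, isUnit_sub_of_coprime hcop i j hij⟩
  · rw [Fintype.card_prod, Fintype.card_prod, hF, ZMod.card]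

theorem aux_final {η W L : ℝ} (hη : 0 < η) (hW : 0 < W) (hL : 0 < L)
    (h : L ≤ (1 + η) * (1 + η) * W) : (1 - 2 * η) * L ≤ W := by
  rcases le_or_gt (1 - 2 * η) 0 with h' | h'
  · have : (1 - 2 * η) * L ≤ 0 := mul_nonpos_of_nonpos_of_nonneg h' hL.le
    linarith
  · have h12 : (1 - 2 * η) * L ≤ (1 - 2 * η) * ((1 + η) * (1 + η) * W) :=
      mul_le_mul_of_nonneg_left h h'.le
    have h13 : (1 - 2 * η) * ((1 + η) * (1 + η)) ≤ 1 := by
      have : (1 - 2 * η) * ((1 + η) * (1 + η)) = 1 - (3 * η ^ 2 + 2 * η ^ 3) := by ring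
      rw [this]
      have : 0 < 3 * η ^ 2 + 2 * η ^ 3 := by positivity
      linarith
    calc (1 - 2 * η) * L ≤ (1 - 2 * η) * ((1 + η) * (1 + η) * W) := h12
      _ = ((1 - 2 * η) * ((1 + η) * (1 + η))) * W := by ring
      _ ≤ 1 * W := mul_le_mul_of_nonneg_right h13 hW.le
      _ = W := one_mul _

/-- For all large `L` there is a total domatic colouring of the `L`-cube with at least
`(1 - ε) L` colours, the colours forming a ring with `M` elements with unit differences. -/
theorem exists_colouring (M : ℕ) (ε : ℝ) (hε : 0 < ε) :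
    ∃ L₀ : ℕ, ∀ L ≥ L₀, ∃ (R : Type) (_ : CommRing R) (_ : Fintype R)
      (col : (Fin L → ZMod 2) → R) (x : Fin M → R),
      (∀ (v : Fin L → ZMod 2) (γ : R), ∃ j : Fin L, col (v + un j) = γ) ∧
      (∀ i j, i ≠ j → IsUnit (x i - x j)) ∧
      (1 - ε) * L ≤ Fintype.card R := by
  -- choose the exponent `a₀`
  set η : ℝ := ε / 4 with hη
  have hη0 : 0 < η := by positivity
  obtain ⟨a₁, ha₁⟩ := pow_unbounded_of_one_lt (1 / η + M + 1) (show (1 : ℝ) < 3 by norm_num)
  set a₀ := a₁ + 1 with ha₀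
  have ha₀' : 1 / η + M + 1 < (3 : ℝ) ^ a₀ := by
    rw [ha₀, pow_succ]
    have : (0 : ℝ) < 3 ^ a₁ := by positivity
    linarith
  obtain ⟨A, X₀, hX₀, hdense⟩ := exists_dense η hη0 a₀
  -- bound for `L`
  set K : ℝ := (3 : ℝ) ^ A * 3 ^ A * (M.factorial + 1) with hK
  have hK0 : 0 < K := by positivity
  obtain ⟨L₀, hL₀⟩ := exists_nat_gt (2 * X₀ + K / η + 2 * (1 + η) * K)
  refine ⟨L₀, fun L hL => ?_⟩
  have hLL : (2 * X₀ + K / η + 2 * (1 + η) * K) < L :=
    hL₀.trans_le (by exact_mod_cast hL)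
  have hLpos : (0 : ℝ) < L := lt_trans (by positivity) hLL
  have hKL : K ≤ η * L := by
    have : K / η < L := by
      have h1 : 0 < 2 * X₀ := by positivity
      have h2 : (0 : ℝ) < 2 * (1 + η) * K := by positivity
      linarith
    rw [div_lt_iff₀ hη0] at this
    linarith
  -- the target size
  have h3a0 : (0 : ℝ) < 3 ^ a₀ := by positivity
  have hinv : 1 / (3 : ℝ) ^ a₀ ≤ η := by
    rw [div_le_iff₀ h3a0]
    have h1 : 1 / η < (3 : ℝ) ^ a₀ := by
      have : (0 : ℝ) ≤ M := Nat.cast_nonneg M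
      linarith
    rw [div_lt_iff₀ hη0] at h1
    linarith
  have hinv1 : 1 / (3 : ℝ) ^ a₀ ≤ 1 := by
    rw [div_le_iff₀ h3a0]
    have : (0 : ℝ) ≤ M := Nat.cast_nonneg M
    have h1 : 0 < 1 / η := by positivity
    linarith
  set X : ℝ := L / (1 + 1 / 3 ^ a₀) with hX
  have hden : (0 : ℝ) < 1 + 1 / 3 ^ a₀ := by positivity
  have hXL : X * (1 + 1 / 3 ^ a₀) = L := by
    rw [hX, div_mul_cancel₀ _ hden.ne']
  have hXL2 : (L : ℝ) ≤ 2 * X := by
    rw [← hXL]
    have hXpos : 0 < X := by rw [hX]; positivity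
    nlinarith
  have hXpos : 0 < X := by rw [hX]; positivity
  obtain ⟨a, t, haa, haA, h1, h2⟩ := hdense X (by
    have h1 : (0 : ℝ) < 2 * (1 + η) * K := by positivity
    have h2 : 0 < K / η := by positivity
    linarith)
  have h3a : (3 : ℝ) ^ a₀ ≤ 3 ^ a := pow_le_pow_right₀ (by norm_num) haa
  have h3A : (3 : ℝ) ^ a ≤ 3 ^ A := pow_le_pow_right₀ (by norm_num) haA
  have h3apos : (0 : ℝ) < 3 ^ a := by positivity
  have h2tpos : (0 : ℝ) < 2 ^ t := by positivity
  have ha : a ≠ 0 := by omega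
  -- `2 ^ t` is large compared with `3 ^ a`
  have h2t : (3 : ℝ) ^ a ≤ 2 ^ t := by
    by_contra hlt
    push Not at hlt
    have h5 : X ≤ (1 + η) * (3 ^ A * 3 ^ A) := by
      calc X ≤ (1 + η) * (3 ^ a * 2 ^ t) := h2
        _ ≤ (1 + η) * (3 ^ A * 3 ^ A) := by
          apply mul_le_mul_of_nonneg_left _ (by linarith)
          exact mul_le_mul h3A (hlt.le.trans h3A) h2tpos.le (by positivity)
    have h6 : (3 : ℝ) ^ A * 3 ^ A ≤ K := by
      rw [hK]
      have : (1 : ℝ) ≤ (M.factorial : ℝ) + 1 := by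
        have : (0 : ℝ) ≤ M.factorial := Nat.cast_nonneg _
        linarith
      have h7 : (0 : ℝ) < 3 ^ A * 3 ^ A := by positivity
      nlinarith
    have h8 : 2 * (1 + η) * K < L := by
      have h1 : 0 < 2 * X₀ := by positivity
      have h2 : 0 < K / η := by positivity
      linarith
    have h9 : (1 + η) * ((3 : ℝ) ^ A * 3 ^ A) ≤ (1 + η) * K :=
      mul_le_mul_of_nonneg_left h6 (by linarith)
    linarith
  -- the number `t'`
  set s := 2 ^ t / 3 ^ a with hs
  have hs1 : 1 ≤ s := by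
    rw [hs, Nat.one_le_div_iff (by positivity)]
    exact_mod_cast h2t
  set k := (s - 1) / M.factorial with hk
  set t' := M.factorial * k + 1 with ht'
  have hfac : 0 < M.factorial := Nat.factorial_pos M
  have ht's : t' ≤ s := by
    have : M.factorial * k ≤ s - 1 := by
      rw [hk]; exact Nat.mul_div_le _ _
    omega
  have hst' : s ≤ t' + M.factorial := by
    have : s - 1 < M.factorial * (k + 1) := by
      rw [hk]; exact Nat.lt_mul_div_succ _ hfac
    have h' : M.factorial * (k + 1) = M.factorial * k + M.factorial := by ring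
    omega
  have hcop : Nat.Coprime M.factorial t' := by
    rw [ht', Nat.coprime_mul_left_add_right]
    exact Nat.coprime_one_right _
  obtain ⟨R, hR1, hR2, col, x, hcol, hx, hcard⟩ := exists_col_of_params (M := M) (L := L) (a := a)
    (t := t) (t' := t') ha (by
      have : (M : ℝ) ≤ 3 ^ a := by
        have : 0 < 1 / η := by positivity
        linarith
      exact_mod_cast this) (by
      have h5 : ((3 : ℝ) ^ a + 1) * 2 ^ t ≤ L := by
        have h6 : (1 : ℝ) ≤ 3 ^ a * (1 / 3 ^ a₀) := by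
          rw [mul_one_div, le_div_iff₀ h3a0, one_mul]; exact h3a
        calc ((3 : ℝ) ^ a + 1) * 2 ^ t ≤ (3 ^ a + 3 ^ a * (1 / 3 ^ a₀)) * 2 ^ t := by
              apply mul_le_mul_of_nonneg_right _ h2tpos.le; linarith
          _ = (3 ^ a * 2 ^ t) * (1 + 1 / 3 ^ a₀) := by ring
          _ ≤ X * (1 + 1 / 3 ^ a₀) := mul_le_mul_of_nonneg_right h1 hden.le
          _ = L := hXL
      exact_mod_cast h5) (by
      calc 3 ^ a * t' ≤ 3 ^ a * s := Nat.mul_le_mul_left _ ht's
        _ ≤ 2 ^ t := by rw [hs]; exact Nat.mul_div_le _ _) (by omega) hcop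
  refine ⟨R, hR1, hR2, col, x, hcol, hx, ?_⟩
  rw [hcard]
  push_cast
  have hsR : (2 : ℝ) ^ t ≤ 3 ^ a * (s + 1) := by
    have : 2 ^ t < 3 ^ a * (s + 1) := by
      rw [hs]; exact Nat.lt_mul_div_succ _ (by positivity)
    exact_mod_cast this.le
  have hst'R : (s : ℝ) ≤ t' + M.factorial := by exact_mod_cast hst'
  have h9 : (3 : ℝ) ^ a * 2 ^ t ≤ 3 ^ a * 3 ^ a * t' + K := by
    calc (3 : ℝ) ^ a * 2 ^ t ≤ 3 ^ a * (3 ^ a * (s + 1)) :=
          mul_le_mul_of_nonneg_left hsR h3apos.le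
      _ ≤ 3 ^ a * (3 ^ a * (t' + M.factorial + 1)) := by
          apply mul_le_mul_of_nonneg_left _ h3apos.le
          apply mul_le_mul_of_nonneg_left _ h3apos.le
          linarith
      _ = 3 ^ a * 3 ^ a * t' + 3 ^ a * 3 ^ a * (M.factorial + 1) := by ring
      _ ≤ 3 ^ a * 3 ^ a * t' + K := by
          rw [hK]
          have : (3 : ℝ) ^ a * 3 ^ a ≤ 3 ^ A * 3 ^ A :=
            mul_le_mul h3A h3A h3apos.le (by positivity)
          have h10 : (0 : ℝ) ≤ (M.factorial : ℝ) + 1 := by positivity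
          have := mul_le_mul_of_nonneg_right this h10
          linarith
  -- final estimate
  have hLW : (L : ℝ) ≤ (1 + η) * (1 + η) * (3 ^ a * 2 ^ t) := by
    calc (L : ℝ) = X * (1 + 1 / 3 ^ a₀) := hXL.symm
      _ ≤ X * (1 + η) := mul_le_mul_of_nonneg_left (by linarith) hXpos.le
      _ ≤ ((1 + η) * (3 ^ a * 2 ^ t)) * (1 + η) :=
          mul_le_mul_of_nonneg_right h2 (by linarith)
      _ = _ := by ring
  set W : ℝ := 3 ^ a * 2 ^ t with hW
  have hWpos : 0 < W := by positivity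
  have hεη : ε = 4 * η := by rw [hη]; ring
  have h11 : (1 - 2 * η) * L ≤ W := aux_final hη0 hWpos hLpos hLW
  have h14 : 0 ≤ η * L := by positivity
  rw [hεη]
  linarith

end Pool.Agent.Helper53.Ident
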