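import Mathlib
import Pool.Agent.Helper53.IdCount
import Pool.Agent.Helper53.IdDom

/-!
# Eventual monotonicity
-/

set_option autoImplicit false
set_option linter.unusedSectionVars false

namespace Pool.Agent.Helper53.Ident

open Finset Classical

/-- The main inequality between the optimal sizes in lengths `m` and `n`. -/
theorem main_ineq {r m L L2 k n : ℕ} (hr : 1 ≤ r) (hm1 : 1 ≤ m) (hm : (sizes r m).Nonempty)
    (hL : 0 < L) (hn : n = m * L + (3 * r * L2 + k))
    {R R' : Type} [CommRing R] [Fintype R] [CommRing R'] [Fintype R']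
    {col : (Fin L → ZMod 2) → R} {x : Fin m → R}
    (hcol : ∀ (v : Fin L → ZMod 2) (γ : R), ∃ j : Fin L, col (v + un j) = γ)
    (hx : ∀ i j, i ≠ j → IsUnit (x i - x j))
    {col' : (Fin L2 → ZMod 2) → R'} {x' : Fin (3 * r) → R'}
    (hcol' : ∀ (v : Fin L2 → ZMod 2) (γ : R'), ∃ j : Fin L2, col' (v + un j) = γ)
    (hx' : ∀ i j, i ≠ j → IsUnit (x' i - x' j)) :
    (sizes r n).Nonempty ∧ ∃ b : ℕ, b * m ≤ 3 * (minId r m * (r * m ^ r)) ∧
      minId r n * ((Fintype.card R) ^ r * 2 ^ m) * (Fintype.card R') ^ r ≤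
        minId r m * 2 ^ n * (Fintype.card R') ^ r + (Fintype.card R) ^ r * (b * 2 ^ n) := by
  obtain ⟨C, hC, hCcard⟩ := exists_optimal hm
  have : Nonempty (Fin L) := ⟨⟨0, hL⟩⟩
  obtain ⟨R2, hR2, hR2card⟩ := exists_strong (ρ := Fin k) hcol' hx'
  obtain ⟨D, hD, hDcard⟩ := exists_blowup hC hcol hx hR2
  have hcard : Fintype.card ((Fin m × Fin L) ⊕ ((Fin (3 * r) × Fin L2) ⊕ Fin k)) = n := by
    rw [hn]; simp
  obtain ⟨hne, hle⟩ := Id_le hcard hD
  refine ⟨hne, #(bad r C), ?_, ?_⟩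
  · have := card_bad hC hr (by rw [Fintype.card_fin]; exact hm1)
    rw [Fintype.card_fin, hCcard] at this
    exact this
  · simp only [Fintype.card_fin, Fintype.card_sum, Fintype.card_prod] at hDcard hR2card
    rw [hCcard] at hDcard
    have hn2 : 2 ^ n = 2 ^ (m * L) * 2 ^ (3 * r * L2 + k) := by rw [hn, pow_add]
    calc minId r n * ((Fintype.card R) ^ r * 2 ^ m) * (Fintype.card R') ^ r
        ≤ #D * ((Fintype.card R) ^ r * 2 ^ m) * (Fintype.card R') ^ r :=
          Nat.mul_le_mul_right _ (Nat.mul_le_mul_right _ hle)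
      _ ≤ (minId r m * 2 ^ (m * L + (3 * r * L2 + k)) +
          (Fintype.card R) ^ r * (#(bad r C) * (2 ^ (m * L) * #R2))) * (Fintype.card R') ^ r :=
          Nat.mul_le_mul_right _ hDcard
      _ = minId r m * 2 ^ n * (Fintype.card R') ^ r +
          (Fintype.card R) ^ r * (#(bad r C) * (2 ^ (m * L) * (#R2 * (Fintype.card R') ^ r))) := by
          rw [← hn]; ring
      _ ≤ minId r m * 2 ^ n * (Fintype.card R') ^ r +
          (Fintype.card R) ^ r * (#(bad r C) * (2 ^ (m * L) * 2 ^ (3 * r * L2 + k))) := by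
          refine Nat.add_le_add_left ?_ _
          exact Nat.mul_le_mul_left _ (Nat.mul_le_mul_left _ (Nat.mul_le_mul_left _ hR2card))
      _ = _ := by rw [hn2]

/-- Identifying codes exist in all large lengths. -/
theorem eventually_nonempty {r : ℕ} (hr : 1 ≤ r) : ∃ N : ℕ, ∀ n ≥ N, (sizes r n).Nonempty := by
  obtain ⟨L₀, hL₀⟩ := exists_colouring (3 * r) (1 / 2) (by norm_num)
  refine ⟨3 * r * L₀, fun n hn => ?_⟩
  have hdiv : L₀ ≤ n / (3 * r) := by
    rw [Nat.le_div_iff_mul_le (by omega)]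
    calc L₀ * (3 * r) = 3 * r * L₀ := by ring
      _ ≤ n := hn
  obtain ⟨R', i1, i2, col', x', hcol', hx', -⟩ := hL₀ (n / (3 * r)) hdiv
  obtain ⟨R2, hR2, -⟩ := exists_strong (ρ := Fin (n % (3 * r))) hcol' hx'
  have hcard : Fintype.card ((Fin (3 * r) × Fin (n / (3 * r))) ⊕ Fin (n % (3 * r))) = n := by
    simp only [Fintype.card_sum, Fintype.card_prod, Fintype.card_fin]
    exact Nat.div_add_mod n (3 * r)
  exact (Id_le hcard hR2.identifying).1

/-- The covering lower bound. -/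
theorem covering_bound {r n : ℕ} (hn : 1 ≤ n) (h : (sizes r n).Nonempty) :
    2 ^ n ≤ minId r n * ((r + 1) * n ^ r) := by
  obtain ⟨C, hC, hCcard⟩ := exists_optimal h
  have h1 := card_near (r + 1) C (by rw [Fintype.card_fin]; exact hn)
  have h2 : near (r + 1) C = univ := by
    rw [Finset.eq_univ_iff_forall]
    intro v
    obtain ⟨c, hc⟩ := hC.1 v
    rw [mem_near]
    exact ⟨c, (mem_I.1 hc).1, Nat.lt_succ_of_le (mem_I.1 hc).2⟩
  rw [h2, Finset.card_univ, Fintype.card_fin, hCcard] at h1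
  simpa using h1

/-- The normalised size. -/
noncomputable def dens (r n : ℕ) : ℝ := (minId r n : ℝ) * (n : ℝ) ^ r / 2 ^ n

theorem dens_lower {r n : ℕ} (hn : 1 ≤ n) (h : (sizes r n).Nonempty) :
    1 / ((r : ℝ) + 1) ≤ dens r n := by
  have h1 := covering_bound hn h
  have h2 : (2 : ℝ) ^ n ≤ minId r n * ((r + 1) * n ^ r) := by exact_mod_cast h1
  unfold dens
  rw [div_le_div_iff₀ (by positivity) (by positivity)]
  linarith

/-- The main estimate in terms of the normalised sizes. -/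
theorem dens_le {r m n q q2 b : ℕ} (hm1 : 1 ≤ m) (hq : 0 < q) (hq2 : 0 < q2)
    (hb : b * m ≤ 3 * (minId r m * (r * m ^ r)))
    (h : minId r n * (q ^ r * 2 ^ m) * q2 ^ r ≤ minId r m * 2 ^ n * q2 ^ r + q ^ r * (b * 2 ^ n)) :
    dens r n ≤ dens r m * (((n : ℝ) / (m * q)) ^ r + 3 * r / m * ((n : ℝ) / q2) ^ r) := by
  have hmR : (0 : ℝ) < m := by exact_mod_cast hm1
  have hqR : (0 : ℝ) < q := by exact_mod_cast hq
  have hq2R : (0 : ℝ) < q2 := by exact_mod_cast hq2
  have hbR : (b : ℝ) * m ≤ 3 * (minId r m * (r * m ^ r)) := by exact_mod_cast hb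
  have hR : (minId r n : ℝ) * (q ^ r * 2 ^ m) * q2 ^ r ≤
      minId r m * 2 ^ n * q2 ^ r + q ^ r * (b * 2 ^ n) := by exact_mod_cast h
  have hb' : (b : ℝ) ≤ 3 * (minId r m * (r * m ^ r)) / m := by
    rw [le_div_iff₀ hmR]; exact hbR
  have hpos : (0 : ℝ) < q ^ r * 2 ^ m * q2 ^ r * 2 ^ n := by positivity
  have h1 : (minId r n : ℝ) / 2 ^ n ≤ minId r m / 2 ^ m * (1 / q ^ r) + b / 2 ^ m * (1 / q2 ^ r) := by
    have e1 : (minId r n : ℝ) / 2 ^ n =
        ((minId r n : ℝ) * (q ^ r * 2 ^ m) * q2 ^ r) / (q ^ r * 2 ^ m * q2 ^ r * 2 ^ n) := by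
      field_simp
    have e2 : (minId r m : ℝ) / 2 ^ m * (1 / q ^ r) + b / 2 ^ m * (1 / q2 ^ r) =
        ((minId r m : ℝ) * 2 ^ n * q2 ^ r + q ^ r * (b * 2 ^ n)) /
          (q ^ r * 2 ^ m * q2 ^ r * 2 ^ n) := by
      field_simp
    rw [e1, e2]
    exact div_le_div_of_nonneg_right hR hpos.le
  have h2 : (minId r m : ℝ) / 2 ^ m * (1 / q ^ r) + b / 2 ^ m * (1 / q2 ^ r) ≤
      minId r m / 2 ^ m * (1 / q ^ r) +
        (3 * (minId r m * (r * m ^ r)) / m) / 2 ^ m * (1 / q2 ^ r) := by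
    refine add_le_add_right ?_ _
    apply mul_le_mul_of_nonneg_right _ (by positivity)
    exact div_le_div_of_nonneg_right hb' (by positivity)
  have hnr : (0 : ℝ) ≤ (n : ℝ) ^ r := by positivity
  calc dens r n = (minId r n : ℝ) / 2 ^ n * (n : ℝ) ^ r := by unfold dens; ring
    _ ≤ (minId r m / 2 ^ m * (1 / q ^ r) +
        (3 * (minId r m * (r * m ^ r)) / m) / 2 ^ m * (1 / q2 ^ r)) * (n : ℝ) ^ r :=
        mul_le_mul_of_nonneg_right (h1.trans h2) hnr
    _ = dens r m * (((n : ℝ) / (m * q)) ^ r + 3 * r / m * ((n : ℝ) / q2) ^ r) := by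
        unfold dens
        rw [div_pow, div_pow, mul_pow]
        field_simp

/-- The asymptotic comparison: for `m` large, the normalised size at `m` bounds all later ones up
to a factor `1 + η`. -/
theorem asymptotic {r : ℕ} (hr : 1 ≤ r) (η : ℝ) (hη : 0 < η) :
    ∃ m₀ : ℕ, 1 ≤ m₀ ∧ ∀ m ≥ m₀, (sizes r m).Nonempty → ∃ n₀ : ℕ, ∀ n ≥ n₀,
      (sizes r n).Nonempty ∧ dens r n ≤ dens r m * (1 + η) := by
  have hrR : (1 : ℝ) ≤ r := by exact_mod_cast hr
  set η' : ℝ := η / 2 with hη'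
  have hη'0 : 0 < η' := by positivity
  set α : ℝ := η' / (4 * r * (1 + η')) with hα
  have hα0 : 0 < α := by positivity
  have h4rα : 4 * r * α = η' / (1 + η') := by
    rw [hα]; field_simp
  have hα1 : 4 * r * α < 1 := by
    rw [h4rα, div_lt_one (by linarith)]; linarith
  have hα4 : α < 1 / 4 := by nlinarith
  obtain ⟨m₁, hm₁⟩ := exists_nat_gt (3 * r * (12 * r / α) ^ r / η')
  refine ⟨m₁ + 1, by omega, fun m hm hne => ?_⟩
  have hm1 : 1 ≤ m := by omega
  have hmR : (0 : ℝ) < m := by exact_mod_cast hm1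
  obtain ⟨L₀, hL₀⟩ := exists_colouring m (2 * α) (by positivity)
  obtain ⟨L₁, hL₁⟩ := exists_colouring (3 * r) (1 / 2) (by norm_num)
  obtain ⟨n₀, hn₀⟩ := exists_nat_gt
    ((m * (L₀ + 1)) / (1 - 2 * α) + (6 * r * (L₁ + 1)) / α + m / α)
  refine ⟨n₀, fun n hn => ?_⟩
  have hnn : (m * (L₀ + 1)) / (1 - 2 * α) + (6 * r * (L₁ + 1)) / α + m / α < (n : ℝ) :=
    hn₀.trans_le (by exact_mod_cast hn)
  have hden : 0 < 1 - 2 * α := by linarith
  have t1 : 0 < (m * ((L₀ : ℝ) + 1)) / (1 - 2 * α) := by positivity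
  have t2 : 0 < (6 * r * ((L₁ : ℝ) + 1)) / α := by positivity
  have t3 : 0 < (m : ℝ) / α := by positivity
  have hn0 : (0 : ℝ) < n := by linarith
  have b1 : m * ((L₀ : ℝ) + 1) < (1 - 2 * α) * n := by
    have : (m * ((L₀ : ℝ) + 1)) / (1 - 2 * α) < n := by linarith
    rw [div_lt_iff₀ hden] at this
    linarith
  have b2 : 6 * r * ((L₁ : ℝ) + 1) < α * n := by
    have : (6 * r * ((L₁ : ℝ) + 1)) / α < n := by linarith
    rw [div_lt_iff₀ hα0] at this
    linarith
  have b3 : (m : ℝ) < α * n := by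
    have : (m : ℝ) / α < n := by linarith
    rw [div_lt_iff₀ hα0] at this
    linarith
  -- block lengths
  set L := ⌊(1 - α) * n / m⌋₊ with hLdef
  set L2 := ⌊α * n / (3 * r)⌋₊ with hL2def
  have hL_le : (L : ℝ) * m ≤ (1 - α) * n := by
    have h1 : (L : ℝ) ≤ (1 - α) * n / m := Nat.floor_le (by
      apply div_nonneg _ hmR.le
      apply mul_nonneg (by linarith) hn0.le)
    rwa [le_div_iff₀ hmR] at h1
  have hL_ge : (1 - 2 * α) * n ≤ L * m := by
    have h1 : (1 - α) * n / m < L + 1 := Nat.lt_floor_add_one _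
    rw [div_lt_iff₀ hmR] at h1
    nlinarith
  have h3r : (0 : ℝ) < 3 * r := by positivity
  have hL2_le : (L2 : ℝ) * (3 * r) ≤ α * n := by
    have h1 : (L2 : ℝ) ≤ α * n / (3 * r) := Nat.floor_le (by positivity)
    rwa [le_div_iff₀ h3r] at h1
  have hL2_ge : α * n ≤ L2 * (6 * r) := by
    have h1 : α * n / (3 * r) < L2 + 1 := Nat.lt_floor_add_one _
    rw [div_lt_iff₀ h3r] at h1
    have h2 : 6 * (r : ℝ) < α * n := by
      have : 6 * (r : ℝ) ≤ 6 * r * ((L₁ : ℝ) + 1) := by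
        have : (0 : ℝ) ≤ 6 * r * L₁ := by positivity
        linarith
      linarith
    linarith
  have hLL₀ : L₀ < L := by
    have h1 : (m : ℝ) * (L₀ + 1) < m * L := by linarith
    have h2 : (L₀ : ℝ) + 1 < L := lt_of_mul_lt_mul_left h1 hmR.le
    have h3 : (L₀ : ℝ) < L := by linarith
    exact_mod_cast h3
  have hLL₁ : L₁ < L2 := by
    have h6r : (0 : ℝ) < 6 * r := by positivity
    have h1 : (6 * r : ℝ) * (L₁ + 1) < 6 * r * L2 := by linarith
    have h2 : (L₁ : ℝ) + 1 < L2 := lt_of_mul_lt_mul_left h1 h6r.le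
    have h3 : (L₁ : ℝ) < L2 := by linarith
    exact_mod_cast h3
  have hsum : m * L + 3 * r * L2 ≤ n := by
    have : (m : ℝ) * L + 3 * r * L2 ≤ n := by linarith
    exact_mod_cast this
  obtain ⟨R, i1, i2, col, x, hcol, hx, hq⟩ := hL₀ L hLL₀.le
  obtain ⟨R', i3, i4, col', x', hcol', hx', hq'⟩ := hL₁ L2 hLL₁.le
  have hnsplit : n = m * L + (3 * r * L2 + (n - (m * L + 3 * r * L2))) := by omega
  obtain ⟨hne', b, hb, hmain⟩ := main_ineq hr hm1 hne (by omega) hnsplit hcol hx hcol' hx'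
  refine ⟨hne', ?_⟩
  have hLpos : (0 : ℝ) < L := by
    have : 0 < L := by omega
    exact_mod_cast this
  have hL2pos : (0 : ℝ) < L2 := by
    have : 0 < L2 := by omega
    exact_mod_cast this
  have hqR : (0 : ℝ) < Fintype.card R := lt_of_lt_of_le (by positivity) hq
  have hq2R : (0 : ℝ) < Fintype.card R' := lt_of_lt_of_le (by positivity) hq'
  have hdens := dens_le hm1 (by exact_mod_cast hqR)
    (by exact_mod_cast hq2R) hb hmain
  refine hdens.trans ?_
  have hdm : 0 ≤ dens r m := by unfold dens; positivity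
  apply mul_le_mul_of_nonneg_left _ hdm
  -- first term
  have f1 : (n : ℝ) / (m * Fintype.card R) ≤ 1 / (1 - 2 * α) ^ 2 := by
    rw [div_le_div_iff₀ (by positivity) (by positivity), one_mul]
    calc (n : ℝ) * (1 - 2 * α) ^ 2 = (1 - 2 * α) * ((1 - 2 * α) * n) := by ring
      _ ≤ (1 - 2 * α) * (L * m) := mul_le_mul_of_nonneg_left hL_ge hden.le
      _ = m * ((1 - 2 * α) * L) := by ring
      _ ≤ m * Fintype.card R := mul_le_mul_of_nonneg_left hq hmR.le
  have f2 : ((n : ℝ) / (m * Fintype.card R)) ^ r ≤ 1 + η' := by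
    calc ((n : ℝ) / (m * Fintype.card R)) ^ r ≤ (1 / (1 - 2 * α) ^ 2) ^ r :=
          pow_le_pow_left₀ (by positivity) f1 r
      _ = 1 / (1 + -(2 * α)) ^ (2 * r) := by
          rw [div_pow, one_pow, ← pow_mul]
          congr 2
      _ ≤ 1 / (1 / (1 + η')) := by
          apply one_div_le_one_div_of_le (by positivity)
          have h5 : 1 + ((2 * r : ℕ) : ℝ) * (-(2 * α)) ≤ (1 + -(2 * α)) ^ (2 * r) :=
            one_add_mul_le_pow (by linarith) _
          push_cast at h5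
          have h6 : 1 / (1 + η') = 1 - 4 * r * α := by
            rw [h4rα]; field_simp; ring
          rw [h6]
          linarith
      _ = 1 + η' := one_div_one_div _
  -- second term
  have g1 : (n : ℝ) / Fintype.card R' ≤ 12 * r / α := by
    rw [div_le_div_iff₀ hq2R hα0]
    have h7 : (L2 : ℝ) ≤ 2 * Fintype.card R' := by linarith
    calc (n : ℝ) * α = α * n := by ring
      _ ≤ L2 * (6 * r) := hL2_ge
      _ ≤ (2 * Fintype.card R') * (6 * r) := mul_le_mul_of_nonneg_right h7 (by positivity)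
      _ = 12 * r * Fintype.card R' := by ring
  have g2 : 3 * r / m * ((n : ℝ) / Fintype.card R') ^ r ≤ η' := by
    have h8 : ((n : ℝ) / Fintype.card R') ^ r ≤ (12 * r / α) ^ r :=
      pow_le_pow_left₀ (by positivity) g1 r
    have h9 : 3 * r * (12 * r / α) ^ r / η' < m := by
      refine hm₁.trans ?_
      exact_mod_cast (by omega : m₁ < m)
    rw [div_lt_iff₀ hη'0] at h9
    calc 3 * r / m * ((n : ℝ) / Fintype.card R') ^ r ≤ 3 * r / m * (12 * r / α) ^ r :=
          mul_le_mul_of_nonneg_left h8 (by positivity)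
      _ = (3 * r * (12 * r / α) ^ r) / m := by ring
      _ ≤ η' := by
          rw [div_le_iff₀ hmR]
          linarith
  have : 1 + η = (1 + η') + η' := by rw [hη']; ring
  rw [this]
  exact add_le_add f2 g2

/-- Eventual strict monotonicity of the optimal sizes. -/
theorem eventually_lt {r : ℕ} (hr : 1 ≤ r) : ∃ N : ℕ, r + 1 ≤ N ∧ ∀ n ≥ N,
    (sizes r n).Nonempty ∧ minId r n < minId r (n + 1) := by
  obtain ⟨n₁, hn₁⟩ := eventually_nonempty hr
  obtain ⟨m₀, hm₀1, hm₀⟩ := asymptotic hr (1 / 10) (by norm_num)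
  -- the infimum of the normalised sizes over large lengths
  set S : Set ℝ := {y | ∃ m, m₀ ≤ m ∧ n₁ ≤ m ∧ y = dens r m} with hS
  have hSne : S.Nonempty := ⟨_, max m₀ n₁, le_max_left _ _, le_max_right _ _, rfl⟩
  have hrpos : (0 : ℝ) < 1 / ((r : ℝ) + 1) := by positivity
  have hSlow : ∀ y ∈ S, 1 / ((r : ℝ) + 1) ≤ y := by
    rintro y ⟨m, hm1, hm2, rfl⟩
    exact dens_lower (by omega) (hn₁ m hm2)
  have hSbdd : BddBelow S := ⟨_, hSlow⟩
  set ℓ := sInf S with hℓ
  have hℓpos : 0 < ℓ := lt_of_lt_of_le hrpos (le_csInf hSne hSlow)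
  obtain ⟨y, ⟨m, hm1, hm2, rfl⟩, hy⟩ := exists_lt_of_csInf_lt hSne
    (show sInf S < ℓ * (11 / 10) by rw [← hℓ]; linarith)
  obtain ⟨n₀, hn₀⟩ := hm₀ m hm1 (hn₁ m hm2)
  refine ⟨m₀ + n₀ + n₁ + 4 * r + 1, by omega, fun n hn => ?_⟩
  obtain ⟨hne, hle⟩ := hn₀ n (by omega)
  refine ⟨hne, ?_⟩
  have h1 : ℓ ≤ dens r (n + 1) :=
    csInf_le hSbdd ⟨n + 1, by omega, by omega, rfl⟩
  have h2 : dens r n ≤ 121 / 100 * dens r (n + 1) := by linarith
  have h3 : 0 < dens r (n + 1) := lt_of_lt_of_le hℓpos h1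
  have hnpos : (0 : ℝ) < n := by
    have : 0 < n := by omega
    exact_mod_cast this
  have hId : (0 : ℝ) < minId r (n + 1) := by
    by_contra hcon
    push Not at hcon
    have h0 : (minId r (n + 1) : ℝ) = 0 := le_antisymm hcon (Nat.cast_nonneg _)
    unfold dens at h3
    rw [h0] at h3
    simp at h3
  -- `((n + 1) / n) ^ r ≤ 4 / 3`
  have h4 : ((n : ℝ) + 1) ^ r * (3 / 4) ≤ (n : ℝ) ^ r := by
    have h5 : 1 + (r : ℝ) * (-(1 / ((n : ℝ) + 1))) ≤ (1 + -(1 / ((n : ℝ) + 1))) ^ r := by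
      apply one_add_mul_le_pow
      have : 1 / ((n : ℝ) + 1) ≤ 1 := by
        rw [div_le_one (by positivity)]; linarith
      linarith
    have h6 : (3 : ℝ) / 4 ≤ 1 + (r : ℝ) * (-(1 / ((n : ℝ) + 1))) := by
      have h7 : (r : ℝ) * (1 / ((n : ℝ) + 1)) ≤ 1 / 4 := by
        rw [mul_one_div, div_le_div_iff₀ (by positivity) (by norm_num)]
        have : 4 * r ≤ n := by omega
        have : 4 * (r : ℝ) ≤ n := by exact_mod_cast this
        linarith
      linarith
    have h8 : (1 + -(1 / ((n : ℝ) + 1))) * (n + 1) = n := by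
      field_simp
      ring
    calc ((n : ℝ) + 1) ^ r * (3 / 4) ≤ ((n : ℝ) + 1) ^ r * (1 + -(1 / ((n : ℝ) + 1))) ^ r :=
          mul_le_mul_of_nonneg_left (h6.trans h5) (by positivity)
      _ = ((1 + -(1 / ((n : ℝ) + 1))) * (n + 1)) ^ r := by rw [mul_pow]; ring
      _ = (n : ℝ) ^ r := by rw [h8]
  have h9 : (minId r n : ℝ) * (n : ℝ) ^ r ≤ 121 / 200 * (minId r (n + 1) * ((n : ℝ) + 1) ^ r) := by
    unfold dens at h2
    push_cast at h2
    rw [div_le_iff₀ (by positivity)] at h2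
    calc (minId r n : ℝ) * (n : ℝ) ^ r ≤
          121 / 100 * (minId r (n + 1) * ((n : ℝ) + 1) ^ r / 2 ^ (n + 1)) * 2 ^ n := h2
      _ = 121 / 200 * (minId r (n + 1) * ((n : ℝ) + 1) ^ r) := by
          rw [pow_succ]
          field_simp
          ring
  have h10 : (0 : ℝ) < ((n : ℝ) + 1) ^ r := by positivity
  have h11 : (minId r n : ℝ) * (((n : ℝ) + 1) ^ r * (3 / 4)) ≤
      121 / 200 * (minId r (n + 1) * ((n : ℝ) + 1) ^ r) :=
    (mul_le_mul_of_nonneg_left h4 (Nat.cast_nonneg _)).trans h9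
  have h12 : (minId r n : ℝ) * (3 / 4) ≤ 121 / 200 * minId r (n + 1) := by
    have : ((minId r n : ℝ) * (3 / 4)) * ((n : ℝ) + 1) ^ r ≤
        (121 / 200 * minId r (n + 1)) * ((n : ℝ) + 1) ^ r := by linarith
    exact le_of_mul_le_mul_right this h10
  have h13 : (minId r n : ℝ) < minId r (n + 1) := by linarith
  exact_mod_cast h13

end Pool.Agent.Helper53.Ident
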