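import Mathlib

set_option autoImplicit false

namespace Pool.Agent.Helper53.Koebe

/-- Final algebraic contradiction, in terms of `t i = 1 / l i`. -/
theorem alg_final (a t1 t2 t3 t4 : ℝ) (ha : 0 < a) (h1 : 0 < t1) (h2 : 0 < t2) (h3 : 0 < t3)
    (h4 : 0 < t4) (hS : t1 + t3 = t2 + t4)
    (e0 : (t1 + t3) * (4 + a^2) * (t1*t3) * (t2*t4)
        = a * ((t1+t3)^2 * (t2*t4) + (t1+t3)^2 * (t1*t3) - 2 * (t1*t3) * (t2*t4)))
    (e13 : (t1 - t3) * (t1 * t3 - 1) = 0)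
    (e24 : (t2 - t4) * (t2 * t4 - 1) = 0)
    (es : (2 * (t1+t3)^2 - a * (t1+t3) + 2) * (t1*t3) * (t2*t4)
        = (t1+t3)^2 * (t2*t4) + (t1+t3)^2 * (t1*t3)) : False := by
  set S := t1 + t3 with hSdef
  have hSpos : 0 < S := by positivity
  have hPpos : 0 < t1 * t3 := by positivity
  have hQpos : 0 < t2 * t4 := by positivity
  have hPQ : 0 < (t1 * t3) * (t2 * t4) := by positivity
  -- a S = a^2 + 2
  have haS : a * S = a^2 + 2 := by
    have : S * (4 + a^2) * ((t1*t3) * (t2*t4)) = a * (2 * S^2 - a * S) * ((t1*t3) * (t2*t4)) := by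
      linear_combination e0 - a * es
    have h5 := mul_right_cancel₀ hPQ.ne' this
    have h6 : (4 + a^2) * S = (2 * a * S - a^2) * S := by linear_combination h5
    have h7 := mul_right_cancel₀ hSpos.ne' h6
    linarith
  have hP : t1 * t3 = 1 ∨ 4 * (t1 * t3) = S^2 := by
    rcases mul_eq_zero.1 e13 with h | h
    · right
      have : t1 = t3 := by linarith
      rw [hSdef, this]; ring
    · left; linarith
  have hQ : t2 * t4 = 1 ∨ 4 * (t2 * t4) = S^2 := by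
    rcases mul_eq_zero.1 e24 with h | h
    · right
      have : t2 = t4 := by linarith
      rw [hS, this]; ring
    · left; linarith
  have ha2 : 0 < a^2 := by positivity
  have hS2 : 0 < S^2 := by positivity
  rcases hP with hP | hP <;> rcases hQ with hQ | hQ
  · rw [hP, hQ] at es
    have : a * S = 2 := by nlinarith
    nlinarith
  · rw [hP] at es
    have hQ' : t2 * t4 = S^2/4 := by linarith
    rw [hQ'] at es
    have h8 : (2 * S^2 - a * S + 2) * (S^2/4) = (S^2 + 4) * (S^2/4) := by linear_combination es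
    have h9 := mul_right_cancel₀ (by positivity) h8
    -- S^2 - a S - 2 = 0
    have h10 : (a * S)^2 - a^2 * (a * S) - 2 * a^2 = 0 := by
      have : S^2 - a * S - 2 = 0 := by linarith
      linear_combination a^2 * this
    rw [haS] at h10
    nlinarith
  · rw [hQ] at es
    have hP' : t1 * t3 = S^2/4 := by linarith
    rw [hP'] at es
    have h8 : (2 * S^2 - a * S + 2) * (S^2/4) = (S^2 + 4) * (S^2/4) := by linear_combination es
    have h9 := mul_right_cancel₀ (by positivity) h8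
    have h10 : (a * S)^2 - a^2 * (a * S) - 2 * a^2 = 0 := by
      have : S^2 - a * S - 2 = 0 := by linarith
      linear_combination a^2 * this
    rw [haS] at h10
    nlinarith
  · have hP' : t1 * t3 = S^2/4 := by linarith
    have hQ' : t2 * t4 = S^2/4 := by linarith
    rw [hP', hQ'] at es
    have h8 : (2 * S^2 - a * S + 2) * (S^2/4 * (S^2/4)) = 8 * (S^2/4 * (S^2/4)) := by
      linear_combination es
    have h9 := mul_right_cancel₀ (by positivity) h8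
    have h10 : 2 * (a * S)^2 - a^2 * (a * S) - 6 * a^2 = 0 := by
      linear_combination a^2 * h9
    rw [haS] at h10
    nlinarith

theorem alg_t (a t1 t2 t3 t4 : ℝ) (ha : 0 < a) (t1p : 0 < t1) (t2p : 0 < t2) (t3p : 0 < t3)
    (t4p : 0 < t4) (hS : t1 + t3 = t2 + t4)
    (c0 : t4 * ((1 + a^2) + (1 - a*(1/t1)) + (1 - a*(1/t2)) + (1 - a*(1/t3)))
      + t2 * ((1 + a^2) + (1 - a*(1/t1)) + (1 - a*(1/t3)) + (1 - a*(1/t4))) = 0)
    (c1 : t4 * ((1 - a*(1/t1)) + (1 + (1/t1)^2) + (1 - (1/t1)*(1/t2)) + (1 - 3*(1/t1)*(1/t3)))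
      + t2 * ((1 - a*(1/t1)) + (1 + (1/t1)^2) + (1 - 3*(1/t1)*(1/t3)) + (1 - (1/t4)*(1/t1))) = 0)
    (c3 : t4 * ((1 - a*(1/t3)) + (1 - 3*(1/t1)*(1/t3)) + (1 - (1/t2)*(1/t3)) + (1 + (1/t3)^2))
      + t2 * ((1 - a*(1/t3)) + (1 - 3*(1/t1)*(1/t3)) + (1 + (1/t3)^2) + (1 - (1/t3)*(1/t4))) = 0)
    (c2 : t4 * ((1 - a*(1/t2)) + (1 - (1/t1)*(1/t2)) + (1 + (1/t2)^2) + (1 - (1/t2)*(1/t3)))
      + t2 * ((1 - a*(1/t2)) + (1 - (1/t1)*(1/t2)) + (1 - (1/t2)*(1/t3)) + (1 - 3*(1/t2)*(1/t4)))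
      = 0)
    (c4 : t4 * ((1 - a*(1/t4)) + (1 - (1/t4)*(1/t1)) + (1 - 3*(1/t2)*(1/t4)) + (1 - (1/t3)*(1/t4)))
      + t2 * ((1 - a*(1/t4)) + (1 - (1/t4)*(1/t1)) + (1 - (1/t3)*(1/t4)) + (1 + (1/t4)^2)) = 0) :
    False := by
  have t1n := t1p.ne'
  have t2n := t2p.ne'
  have t3n := t3p.ne'
  have t4n := t4p.ne'
  have hSpos : 0 < t2 + t4 := by positivity
  have E0 : (t2+t4)*(4+a^2)*(t1*t3)*(t2*t4)
      - a*((t2+t4)*(t1+t3)*(t2*t4) + (t2^2+t4^2)*(t1*t3)) = 0 := by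
    have : (t2+t4)*(4+a^2)*(t1*t3)*(t2*t4)
      - a*((t2+t4)*(t1+t3)*(t2*t4) + (t2^2+t4^2)*(t1*t3)) = t1*t3*t2*t4 * (
      t4 * ((1 + a^2) + (1 - a*(1/t1)) + (1 - a*(1/t2)) + (1 - a*(1/t3)))
      + t2 * ((1 + a^2) + (1 - a*(1/t1)) + (1 - a*(1/t3)) + (1 - a*(1/t4)))) := by
      field_simp; ring
    rw [this, c0, mul_zero]
  have E1 : (t2+t4)*(4*t1*t1*t3 - a*t1*t3 + t3 - 3*t1)*(t2*t4) - (t2^2+t4^2)*(t1*t3) = 0 := by
    have : (t2+t4)*(4*t1*t1*t3 - a*t1*t3 + t3 - 3*t1)*(t2*t4) - (t2^2+t4^2)*(t1*t3)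
      = t1*t1*t3*t2*t4 * (
      t4 * ((1 - a*(1/t1)) + (1 + (1/t1)^2) + (1 - (1/t1)*(1/t2)) + (1 - 3*(1/t1)*(1/t3)))
      + t2 * ((1 - a*(1/t1)) + (1 + (1/t1)^2) + (1 - 3*(1/t1)*(1/t3)) + (1 - (1/t4)*(1/t1)))) := by
      field_simp; ring
    rw [this, c1, mul_zero]
  have E3 : (t2+t4)*(4*t3*t1*t3 - a*t1*t3 + t1 - 3*t3)*(t2*t4) - (t2^2+t4^2)*(t1*t3) = 0 := by
    have : (t2+t4)*(4*t3*t1*t3 - a*t1*t3 + t1 - 3*t3)*(t2*t4) - (t2^2+t4^2)*(t1*t3)
      = t3*t1*t3*t2*t4 * (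
      t4 * ((1 - a*(1/t3)) + (1 - 3*(1/t1)*(1/t3)) + (1 - (1/t2)*(1/t3)) + (1 + (1/t3)^2))
      + t2 * ((1 - a*(1/t3)) + (1 - 3*(1/t1)*(1/t3)) + (1 + (1/t3)^2) + (1 - (1/t3)*(1/t4)))) := by
      field_simp; ring
    rw [this, c3, mul_zero]
  have E2 : (t2+t4)*(4*t2*t1*t3 - a*t1*t3 - t3 - t1)*(t2*t4) + (t4^2-3*t2^2)*(t1*t3) = 0 := by
    have : (t2+t4)*(4*t2*t1*t3 - a*t1*t3 - t3 - t1)*(t2*t4) + (t4^2-3*t2^2)*(t1*t3)
      = t2*t1*t3*t2*t4 * (
      t4 * ((1 - a*(1/t2)) + (1 - (1/t1)*(1/t2)) + (1 + (1/t2)^2) + (1 - (1/t2)*(1/t3)))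
      + t2 * ((1 - a*(1/t2)) + (1 - (1/t1)*(1/t2)) + (1 - (1/t2)*(1/t3))
        + (1 - 3*(1/t2)*(1/t4)))) := by
      field_simp; ring
    rw [this, c2, mul_zero]
  have E4 : (t2+t4)*(4*t4*t1*t3 - a*t1*t3 - t3 - t1)*(t2*t4) + (t2^2-3*t4^2)*(t1*t3) = 0 := by
    have : (t2+t4)*(4*t4*t1*t3 - a*t1*t3 - t3 - t1)*(t2*t4) + (t2^2-3*t4^2)*(t1*t3)
      = t4*t1*t3*t2*t4 * (
      t4 * ((1 - a*(1/t4)) + (1 - (1/t4)*(1/t1)) + (1 - 3*(1/t2)*(1/t4)) + (1 - (1/t3)*(1/t4)))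
      + t2 * ((1 - a*(1/t4)) + (1 - (1/t4)*(1/t1)) + (1 - (1/t3)*(1/t4)) + (1 + (1/t4)^2))) := by
      field_simp; ring
    rw [this, c4, mul_zero]
  have hSQ : 0 < (t2+t4)*(t2*t4) := by positivity
  apply alg_final a t1 t2 t3 t4 ha t1p t2p t3p t4p hS
  · rw [hS] at E0 ⊢
    linear_combination E0
  · have : ((t2+t4)*(t2*t4)) * ((t1 - t3) * (t1 * t3 - 1)) = ((t2+t4)*(t2*t4)) * 0 := by
      linear_combination (E1 - E3)/4
    exact mul_left_cancel₀ hSQ.ne' this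
  · have hPS : 0 < (t1 * t3) * (t2 + t4) := by positivity
    have : ((t1 * t3) * (t2 + t4)) * ((t2 - t4) * (t2 * t4 - 1)) = ((t1 * t3) * (t2 + t4)) * 0 := by
      linear_combination (E2 - E4)/4
    exact mul_left_cancel₀ hPS.ne' this
  · have h3 : t3 = t2 + t4 - t1 := by linarith
    subst h3
    linear_combination (E1 + E3)/2

open scoped RealInnerProductSpace in
/-- Vector contradiction. `w0` is the apex, `w1, w2, w3, w4` is the base in cyclic order. -/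
theorem vec_contra {F : Type*} [NormedAddCommGroup F] [InnerProductSpace ℝ F]
    (w0 w1 w2 w3 w4 : F) (l0 l1 l2 l3 l4 d1 d2 d3 d4 : ℝ)
    (p0 : 0 < l0) (p1 : 0 < l1) (p2 : 0 < l2) (p3 : 0 < l3) (p4 : 0 < l4)
    (q1 : 0 < d1) (q2 : 0 < d2) (q3 : 0 < d3) (q4 : 0 < d4)
    (n0 : ⟪w0, w0⟫ = 1 + l0^2) (n1 : ⟪w1, w1⟫ = 1 + l1^2) (n2 : ⟪w2, w2⟫ = 1 + l2^2)
    (n3 : ⟪w3, w3⟫ = 1 + l3^2) (n4 : ⟪w4, w4⟫ = 1 + l4^2)
    (h01 : ⟪w0, w1⟫ = 1 - l0*l1) (h02 : ⟪w0, w2⟫ = 1 - l0*l2)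
    (h03 : ⟪w0, w3⟫ = 1 - l0*l3) (h04 : ⟪w0, w4⟫ = 1 - l0*l4)
    (h12 : ⟪w1, w2⟫ = 1 - l1*l2) (h23 : ⟪w2, w3⟫ = 1 - l2*l3)
    (h34 : ⟪w3, w4⟫ = 1 - l3*l4) (h41 : ⟪w4, w1⟫ = 1 - l4*l1)
    (hrel : d1 • w1 + d3 • w3 = d2 • w2 + d4 • w4) (hsum : d1 + d3 = d2 + d4)
    (hcent : d4 • (w0 + w1 + w2 + w3) + d2 • (w0 + w1 + w3 + w4) = 0) : False := by
  -- inner products with the relation
  have r0 : d1 * (1 - l0*l1) + d3 * (1 - l0*l3) = d2 * (1 - l0*l2) + d4 * (1 - l0*l4) := by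
    have := congrArg (fun v => ⟪w0, v⟫) hrel
    simp only [inner_add_right, inner_smul_right] at this
    rw [h01, h03, h02, h04] at this
    exact this
  have r1 : d1 * (1 + l1^2) + d3 * ⟪w1, w3⟫ = d2 * (1 - l1*l2) + d4 * (1 - l4*l1) := by
    have := congrArg (fun v => ⟪w1, v⟫) hrel
    simp only [inner_add_right, inner_smul_right] at this
    rw [n1, h12, real_inner_comm w4 w1, h41] at this
    exact this
  have r3 : d1 * ⟪w1, w3⟫ + d3 * (1 + l3^2) = d2 * (1 - l2*l3) + d4 * (1 - l3*l4) := by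
    have := congrArg (fun v => ⟪w3, v⟫) hrel
    simp only [inner_add_right, inner_smul_right] at this
    rw [n3, h34, real_inner_comm w1 w3, real_inner_comm w2 w3, h23] at this
    exact this
  have r2 : d1 * (1 - l1*l2) + d3 * (1 - l2*l3) = d2 * (1 + l2^2) + d4 * ⟪w2, w4⟫ := by
    have := congrArg (fun v => ⟪w2, v⟫) hrel
    simp only [inner_add_right, inner_smul_right] at this
    rw [n2, h23, real_inner_comm w1 w2, h12] at this
    exact this
  have r4 : d1 * (1 - l4*l1) + d3 * (1 - l3*l4) = d2 * ⟪w2, w4⟫ + d4 * (1 + l4^2) := by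
    have := congrArg (fun v => ⟪w4, v⟫) hrel
    simp only [inner_add_right, inner_smul_right] at this
    rw [n4, h41, real_inner_comm w3 w4, h34, real_inner_comm w2 w4] at this
    exact this
  have s0 : d1 * l1 + d3 * l3 = d2 * l2 + d4 * l4 := by
    have : l0 * (d1 * l1 + d3 * l3) = l0 * (d2 * l2 + d4 * l4) := by
      linear_combination -r0 + hsum
    exact mul_left_cancel₀ p0.ne' this
  have h5 : d3 * (1 - ⟪w1, w3⟫) = 2 * d1 * l1^2 + d3 * l1 * l3 := by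
    linear_combination -r1 - l1 * s0 + hsum
  have h6 : d1 * (1 - ⟪w1, w3⟫) = 2 * d3 * l3^2 + d1 * l1 * l3 := by
    linear_combination -r3 - l3 * s0 + hsum
  have h5' : d4 * (1 - ⟪w2, w4⟫) = 2 * d2 * l2^2 + d4 * l2 * l4 := by
    linear_combination r2 + l2 * s0 - hsum
  have h6' : d2 * (1 - ⟪w2, w4⟫) = 2 * d4 * l4^2 + d2 * l2 * l4 := by
    linear_combination r4 + l4 * s0 - hsum
  have s13 : d1 * l1 = d3 * l3 := by
    have h7 : (d1 * l1)^2 = (d3 * l3)^2 := by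
      linear_combination -(d1/2) * h5 + (d3/2) * h6
    exact (sq_eq_sq₀ (by positivity) (by positivity)).1 h7
  have s24 : d2 * l2 = d4 * l4 := by
    have h7 : (d2 * l2)^2 = (d4 * l4)^2 := by
      linear_combination -(d2/2) * h5' + (d4/2) * h6'
    exact (sq_eq_sq₀ (by positivity) (by positivity)).1 h7
  have x13 : ⟪w1, w3⟫ = 1 - 3 * l1 * l3 := by
    have h8 : d3 * (1 - ⟪w1, w3⟫) = d3 * (3 * l1 * l3) := by
      rw [h5]; linear_combination 2 * l1 * s13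
    have := mul_left_cancel₀ q3.ne' h8
    linarith
  have x24 : ⟪w2, w4⟫ = 1 - 3 * l2 * l4 := by
    have h8 : d4 * (1 - ⟪w2, w4⟫) = d4 * (3 * l2 * l4) := by
      rw [h5']; linear_combination 2 * l2 * s24
    have := mul_left_cancel₀ q4.ne' h8
    linarith
  have hkpos : 0 < d1 * l1 := by positivity
  obtain ⟨k, hk⟩ : ∃ k, k = d1 * l1 := ⟨_, rfl⟩
  rw [← hk] at hkpos
  have k1 : d1 = k * (1/l1) := by rw [hk]; field_simp
  have k2 : d2 = k * (1/l2) := by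
    have : d2 * l2 = k := by linarith
    rw [← this]; field_simp
  have k3 : d3 = k * (1/l3) := by
    have : d3 * l3 = k := by linarith
    rw [← this]; field_simp
  have k4 : d4 = k * (1/l4) := by
    have : d4 * l4 = k := by linarith
    rw [← this]; field_simp
  have hS : 1/l1 + 1/l3 = 1/l2 + 1/l4 := by
    have : k * (1/l1 + 1/l3) = k * (1/l2 + 1/l4) := by
      rw [mul_add, mul_add, ← k1, ← k3, ← k2, ← k4]; exact hsum
    exact mul_left_cancel₀ hkpos.ne' this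
  -- the centroid equation
  have hc : (1/l4) • (w0 + w1 + w2 + w3) + (1/l2) • (w0 + w1 + w3 + w4) = 0 := by
    have : k • ((1/l4) • (w0 + w1 + w2 + w3) + (1/l2) • (w0 + w1 + w3 + w4)) = 0 := by
      rw [smul_add, smul_smul, smul_smul, ← k4, ← k2]; exact hcent
    rcases smul_eq_zero.1 this with h | h
    · exact absurd h hkpos.ne'
    · exact h
  have c0 : (1/l4) * ((1 + l0^2) + (1 - l0*l1) + (1 - l0*l2) + (1 - l0*l3))
      + (1/l2) * ((1 + l0^2) + (1 - l0*l1) + (1 - l0*l3) + (1 - l0*l4)) = 0 := by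
    have := congrArg (fun v => ⟪w0, v⟫) hc
    simp only [inner_add_right, inner_smul_right, inner_zero_right] at this
    rw [n0, h01, h02, h03, h04] at this
    exact this
  have c1 : (1/l4) * ((1 - l0*l1) + (1 + l1^2) + (1 - l1*l2) + (1 - 3*l1*l3))
      + (1/l2) * ((1 - l0*l1) + (1 + l1^2) + (1 - 3*l1*l3) + (1 - l4*l1)) = 0 := by
    have := congrArg (fun v => ⟪w1, v⟫) hc
    simp only [inner_add_right, inner_smul_right, inner_zero_right] at this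
    rw [n1, real_inner_comm w0 w1, h01, h12, x13, real_inner_comm w4 w1, h41] at this
    exact this
  have c3 : (1/l4) * ((1 - l0*l3) + (1 - 3*l1*l3) + (1 - l2*l3) + (1 + l3^2))
      + (1/l2) * ((1 - l0*l3) + (1 - 3*l1*l3) + (1 + l3^2) + (1 - l3*l4)) = 0 := by
    have := congrArg (fun v => ⟪w3, v⟫) hc
    simp only [inner_add_right, inner_smul_right, inner_zero_right] at this
    rw [n3, real_inner_comm w0 w3, h03, real_inner_comm w1 w3, x13, real_inner_comm w2 w3, h23,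
      h34] at this
    exact this
  have c2 : (1/l4) * ((1 - l0*l2) + (1 - l1*l2) + (1 + l2^2) + (1 - l2*l3))
      + (1/l2) * ((1 - l0*l2) + (1 - l1*l2) + (1 - l2*l3) + (1 - 3*l2*l4)) = 0 := by
    have := congrArg (fun v => ⟪w2, v⟫) hc
    simp only [inner_add_right, inner_smul_right, inner_zero_right] at this
    rw [n2, real_inner_comm w0 w2, h02, real_inner_comm w1 w2, h12, h23, x24] at this
    exact this
  have c4 : (1/l4) * ((1 - l0*l4) + (1 - l4*l1) + (1 - 3*l2*l4) + (1 - l3*l4))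
      + (1/l2) * ((1 - l0*l4) + (1 - l4*l1) + (1 - l3*l4) + (1 + l4^2)) = 0 := by
    have := congrArg (fun v => ⟪w4, v⟫) hc
    simp only [inner_add_right, inner_smul_right, inner_zero_right] at this
    rw [n4, real_inner_comm w0 w4, h04, h41, real_inner_comm w2 w4, x24,
      real_inner_comm w3 w4, h34] at this
    exact this
  refine alg_t l0 (1/l1) (1/l2) (1/l3) (1/l4) p0 (by positivity) (by positivity) (by positivity)
    (by positivity) hS ?_ ?_ ?_ ?_ ?_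
  · simpa only [one_div_one_div] using c0
  · simpa only [one_div_one_div] using c1
  · simpa only [one_div_one_div] using c3
  · simpa only [one_div_one_div] using c2
  · simpa only [one_div_one_div] using c4

end Pool.Agent.Helper53.Koebe
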