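import Mathlib

set_option autoImplicit false

namespace Pool.Agent.Helper53.Koebe

open MeasureTheory Set

abbrev E3 := EuclideanSpace ℝ (Fin 3)

def Delta0 : Set E3 := {x | (0 ≤ x 0 ∧ 0 ≤ x 1 ∧ 0 ≤ x 2) ∧ x 0 + x 1 + x 2 ≤ 1}

/-- coordinate functional -/
noncomputable def co (i : Fin 3) : E3 →L[ℝ] ℝ := EuclideanSpace.proj i

@[simp] theorem co_apply (i : Fin 3) (x : E3) : co i x = x i := rfl

/-- linear map y ↦ y0 u0 + y1 u1 + y2 u2 -/
noncomputable def lin (u0 u1 u2 : E3) : E3 →L[ℝ] E3 :=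
  (co 0).smulRight u0 + (co 1).smulRight u1 + (co 2).smulRight u2

@[simp] theorem lin_apply (u0 u1 u2 y : E3) :
    lin u0 u1 u2 y = y 0 • u0 + y 1 • u1 + y 2 • u2 := rfl

theorem isClosed_Delta0 : IsClosed Delta0 := by
  have : Delta0 = ((co 0) ⁻¹' Ici 0 ∩ ((co 1) ⁻¹' Ici 0 ∩ (co 2) ⁻¹' Ici 0)) ∩
      (co 0 + co 1 + co 2) ⁻¹' Iic 1 := by
    ext x
    simp [Delta0, and_assoc]
  rw [this]
  exact ((isClosed_Ici.preimage (co 0).continuous).inter
    ((isClosed_Ici.preimage (co 1).continuous).inter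
    (isClosed_Ici.preimage (co 2).continuous))).inter
    (isClosed_Iic.preimage (co 0 + co 1 + co 2).continuous)

theorem measurableSet_Delta0 : MeasurableSet Delta0 := isClosed_Delta0.measurableSet

theorem Delta0_subset : Delta0 ⊆ Metric.closedBall (0 : E3) 1 := by
  intro x hx
  obtain ⟨⟨h0, h1, h2⟩, h3⟩ := hx
  rw [mem_closedBall_zero_iff]
  have : ‖x‖^2 ≤ 1 := by
    rw [EuclideanSpace.norm_sq_eq, Fin.sum_univ_three]
    simp only [Real.norm_eq_abs, sq_abs]
    nlinarith [mul_nonneg h0 h1, mul_nonneg h0 h2, mul_nonneg h1 h2]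
  nlinarith [norm_nonneg x]

theorem isCompact_Delta0 : IsCompact Delta0 :=
  (isCompact_closedBall (0 : E3) 1).of_isClosed_subset isClosed_Delta0 Delta0_subset

theorem convex_Delta0 : Convex ℝ Delta0 := by
  intro x hx y hy a b ha hb hab
  obtain ⟨⟨hx0, hx1, hx2⟩, hx3⟩ := hx
  obtain ⟨⟨hy0, hy1, hy2⟩, hy3⟩ := hy
  refine ⟨⟨?_, ?_, ?_⟩, ?_⟩ <;> simp only [PiLp.add_apply, PiLp.smul_apply, smul_eq_mul]
  · positivity
  · positivity
  · positivity
  · nlinarith

/-- volume of the standard simplex -/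
noncomputable def V0 : ℝ := (volume : Measure E3).real Delta0

theorem V0_pos : 0 < V0 := by
  unfold V0
  have hfin : (volume : Measure E3) Delta0 ≠ ⊤ := isCompact_Delta0.measure_lt_top.ne
  rw [Measure.real, ENNReal.toReal_pos_iff]
  refine ⟨?_, hfin.lt_top⟩
  -- contains a nonempty open set
  have hopen : IsOpen (((co 0) ⁻¹' Ioi 0 ∩ ((co 1) ⁻¹' Ioi 0 ∩ (co 2) ⁻¹' Ioi 0)) ∩
      (co 0 + co 1 + co 2) ⁻¹' Iio 1) :=
    ((isOpen_Ioi.preimage (co 0).continuous).inter
    ((isOpen_Ioi.preimage (co 1).continuous).inter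
    (isOpen_Ioi.preimage (co 2).continuous))).inter
    (isOpen_Iio.preimage (co 0 + co 1 + co 2).continuous)
  have hne : (((co 0) ⁻¹' Ioi 0 ∩ ((co 1) ⁻¹' Ioi 0 ∩ (co 2) ⁻¹' Ioi 0)) ∩
      (co 0 + co 1 + co 2) ⁻¹' Iio 1).Nonempty := by
    refine ⟨!₂[(1/4 : ℝ), 1/4, 1/4], ?_⟩
    simp
    norm_num
  have hsub : (((co 0) ⁻¹' Ioi 0 ∩ ((co 1) ⁻¹' Ioi 0 ∩ (co 2) ⁻¹' Ioi 0)) ∩
      (co 0 + co 1 + co 2) ⁻¹' Iio 1) ⊆ Delta0 := by
    intro x hx
    simp only [mem_inter_iff, mem_preimage, mem_Ioi, mem_Iio, co_apply,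
      add_apply] at hx
    exact ⟨⟨hx.1.1.le, hx.1.2.1.le, hx.1.2.2.le⟩, hx.2.le⟩
  exact (hopen.measure_pos volume hne).trans_le (measure_mono hsub)

/-- an affine involution mapping `Delta0` to itself preserves integrals over it. -/
theorem integral_involution (c : E3) (L : E3 →L[ℝ] E3) (hLL : ∀ x, L (L x) = x)
    (hLc : L c = -c) (hmaps : MapsTo (fun x => c + L x) Delta0 Delta0) (g : E3 → ℝ) :
    ∫ x in Delta0, g (c + L x) = ∫ x in Delta0, g x := by
  have hinv : ∀ x, (c + L (c + L x)) = x := by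
    intro x; rw [map_add, hLc, hLL]; abel
  have himage : (fun x => c + L x) '' Delta0 = Delta0 := by
    apply Subset.antisymm
    · rintro _ ⟨x, hx, rfl⟩; exact hmaps hx
    · intro x hx; exact ⟨c + L x, hmaps hx, hinv x⟩
  have hinj : InjOn (fun x => c + L x) Delta0 := by
    intro x _ y _ hxy
    simp only at hxy
    rw [← hinv x, hxy, hinv y]
  have hdet : |L.det| = 1 := by
    have h1 : (L : E3 →ₗ[ℝ] E3) ∘ₗ (L : E3 →ₗ[ℝ] E3) = LinearMap.id := by
      ext1 x; exact hLL x
    have h2 : L.det * L.det = 1 := by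
      rw [ContinuousLinearMap.det, ← LinearMap.det_comp, h1, LinearMap.det_id]
    have h3 : |L.det| * |L.det| = 1 := by rw [← abs_mul, h2, abs_one]
    nlinarith [abs_nonneg L.det]
  have key := integral_image_eq_integral_abs_det_fderiv_smul (volume : Measure E3)
    (f := fun x => c + L x) (f' := fun _ => L) measurableSet_Delta0
    (fun x _ => (L.hasFDerivAt.const_add c).hasFDerivWithinAt) hinj g
  rw [himage] at key
  rw [key, hdet]
  simp

theorem integrableOn_Delta0 {F : Type*} [NormedAddCommGroup F] {f : E3 → F}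
    (hf : Continuous f) :
    IntegrableOn f Delta0 volume := hf.continuousOn.integrableOn_compact isCompact_Delta0

theorem coord_aux (i : Fin 3) :
    ∫ x in Delta0, x i = V0 - (∫ x in Delta0, x 0 + x 1 + x 2) := by
  have h1 : ∫ x in Delta0, (1 - (x 0 + x 1 + x 2)) = V0 - ∫ x in Delta0, (x 0 + x 1 + x 2) := by
    rw [integral_sub]
    · simp [V0]
    · exact integrableOn_Delta0 continuous_const
    · exact integrableOn_Delta0 (co 0 + co 1 + co 2).continuous
  rw [← h1]
  have h2 := integral_involution (EuclideanSpace.single i 1)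
    (lin (EuclideanSpace.single 0 1 - EuclideanSpace.single i 1 - (if i = 0 then EuclideanSpace.single i 1 else 0))
      (EuclideanSpace.single 1 1 - EuclideanSpace.single i 1 - (if i = 1 then EuclideanSpace.single i 1 else 0))
      (EuclideanSpace.single 2 1 - EuclideanSpace.single i 1 - (if i = 2 then EuclideanSpace.single i 1 else 0)))
    (by
      intro x
      ext j
      fin_cases i <;> fin_cases j <;> simp <;> ring)
    (by
      ext j
      fin_cases i <;> fin_cases j <;> simp)
    (by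
      rintro x ⟨⟨h0, h1, h2⟩, h3⟩
      fin_cases i
      · refine ⟨⟨?_, ?_, ?_⟩, ?_⟩ <;> simp <;> linarith
      · refine ⟨⟨?_, ?_, ?_⟩, ?_⟩ <;> simp <;> linarith
      · refine ⟨⟨?_, ?_, ?_⟩, ?_⟩ <;> simp <;> linarith)
    (fun x => x i)
  rw [← h2]
  congr 1
  ext x
  fin_cases i <;> simp <;> ring

theorem coord_integral (i : Fin 3) : ∫ x in Delta0, x i = V0 / 4 := by
  have hs : ∫ x in Delta0, (x 0 + x 1 + x 2)
      = (∫ x in Delta0, x 0) + (∫ x in Delta0, x 1) + ∫ x in Delta0, x 2 := by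
    rw [integral_add, integral_add]
    · exact integrableOn_Delta0 (co 0).continuous
    · exact integrableOn_Delta0 (co 1).continuous
    · exact integrableOn_Delta0 (co 0 + co 1).continuous
    · exact integrableOn_Delta0 (co 2).continuous
  have h0 := coord_aux 0
  have h1 := coord_aux 1
  have h2 := coord_aux 2
  rw [hs] at h0 h1 h2
  fin_cases i
  · simp only [Fin.zero_eta]; linarith
  · simp only [Fin.mk_one]; linarith
  · simp only [Fin.reduceFinMk]; linarith

/-- the integral of the position vector over an affine image of the standard simplex -/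
theorem integral_simplex (p u0 u1 u2 : E3) (hinj : Function.Injective (lin u0 u1 u2)) :
    ∫ x in (fun x => p + lin u0 u1 u2 x) '' Delta0, x
      = (|(lin u0 u1 u2).det| * V0) • (p + (1/4 : ℝ) • (u0 + u1 + u2)) := by
  have key := integral_image_eq_integral_abs_det_fderiv_smul (volume : Measure E3)
    (f := fun x => p + lin u0 u1 u2 x) (f' := fun _ => lin u0 u1 u2) measurableSet_Delta0
    (fun x _ => ((lin u0 u1 u2).hasFDerivAt.const_add p).hasFDerivWithinAt)
    (fun x _ y _ hxy => hinj (add_left_cancel hxy)) (fun x => x)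
  rw [key]
  rw [integral_smul]
  rw [mul_smul]
  congr 1
  have h1 : ∫ x in Delta0, (p + lin u0 u1 u2 x)
      = (∫ x in Delta0, p) + (((∫ x in Delta0, (x 0) • u0) + (∫ x in Delta0, (x 1) • u1))
        + ∫ x in Delta0, (x 2) • u2) := by
    have i0 : IntegrableOn (fun x : E3 => (x 0) • u0) Delta0 :=
      integrableOn_Delta0 ((co 0).continuous.smul continuous_const)
    have i1 : IntegrableOn (fun x : E3 => (x 1) • u1) Delta0 :=
      integrableOn_Delta0 ((co 1).continuous.smul continuous_const)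
    have i2 : IntegrableOn (fun x : E3 => (x 2) • u2) Delta0 :=
      integrableOn_Delta0 ((co 2).continuous.smul continuous_const)
    have i01 : IntegrableOn (fun x : E3 => (x 0) • u0 + (x 1) • u1) Delta0 := i0.add i1
    have i012 : IntegrableOn (fun x : E3 => (x 0) • u0 + (x 1) • u1 + (x 2) • u2) Delta0 :=
      i01.add i2
    rw [← integral_add i0 i1, ← integral_add i01 i2,
      ← integral_add (integrableOn_Delta0 continuous_const) i012]
    rfl
  rw [h1, integral_smul_const, integral_smul_const, integral_smul_const, coord_integral,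
    coord_integral, coord_integral]
  simp only [integral_const, MeasurableSet.univ, measureReal_restrict_apply, univ_inter]
  change V0 • p + _ = _
  module

end Pool.Agent.Helper53.Koebe
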