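import Mathlib
import Pool.Agent.Helper53.KoebeMeasure

set_option autoImplicit false

namespace Pool.Agent.Helper53.Koebe

open MeasureTheory Set

/-- the tetrahedron with vertices `p, p+u0, p+u1, p+u2` -/
def tet (p u0 u1 u2 : E3) : Set E3 := (fun x => p + lin u0 u1 u2 x) '' Delta0

theorem isCompact_tet (p u0 u1 u2 : E3) : IsCompact (tet p u0 u1 u2) :=
  isCompact_Delta0.image (continuous_const.add (lin u0 u1 u2).continuous)

theorem mem_Delta0 {a b c : ℝ} (ha : 0 ≤ a) (hb : 0 ≤ b) (hc : 0 ≤ c) (h : a + b + c ≤ 1) :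
    (!₂[a, b, c] : E3) ∈ Delta0 := by
  refine ⟨⟨?_, ?_, ?_⟩, ?_⟩ <;> simpa

theorem det_N (p q : ℝ) :
    (lin ((-p) • EuclideanSpace.single 0 1 + q • EuclideanSpace.single 1 1)
      (EuclideanSpace.single 1 1) (EuclideanSpace.single 2 1)).det = -p := by
  rw [ContinuousLinearMap.det, ← LinearMap.det_toMatrix (EuclideanSpace.basisFun (Fin 3) ℝ).toBasis,
    Matrix.det_fin_three]
  simp [LinearMap.toMatrix_apply]

theorem tets_cover (w0 w1 w2 w3 w4 : E3) (d1 d2 d3 d4 : ℝ)
    (q1 : 0 < d1) (q2 : 0 < d2) (q3 : 0 < d3) (q4 : 0 < d4)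
    (hrel : d1 • w1 + d3 • w3 = d2 • w2 + d4 • w4) (hsum : d1 + d3 = d2 + d4) :
    convexHull ℝ ({w0, w1, w2, w3, w4} : Set E3)
      = tet w1 (w2 - w1) (w3 - w1) (w0 - w1) ∪ tet w1 (w4 - w1) (w3 - w1) (w0 - w1) := by
  apply Subset.antisymm
  · -- explicit description of the hull
    have hsub : convexHull ℝ ({w0, w1, w2, w3, w4} : Set E3) ⊆
        {y | ∃ a0 a1 a2 a3 a4 : ℝ, 0 ≤ a0 ∧ 0 ≤ a1 ∧ 0 ≤ a2 ∧ 0 ≤ a3 ∧ 0 ≤ a4 ∧
          a0 + a1 + a2 + a3 + a4 = 1 ∧
          y = a0 • w0 + a1 • w1 + a2 • w2 + a3 • w3 + a4 • w4} := by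
      apply convexHull_min
      · rintro x (rfl | rfl | rfl | rfl | rfl)
        · exact ⟨1, 0, 0, 0, 0, by norm_num, by norm_num, by norm_num, by norm_num, by norm_num,
            by norm_num, by simp⟩
        · exact ⟨0, 1, 0, 0, 0, by norm_num, by norm_num, by norm_num, by norm_num, by norm_num,
            by norm_num, by simp⟩
        · exact ⟨0, 0, 1, 0, 0, by norm_num, by norm_num, by norm_num, by norm_num, by norm_num,
            by norm_num, by simp⟩
        · exact ⟨0, 0, 0, 1, 0, by norm_num, by norm_num, by norm_num, by norm_num, by norm_num,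
            by norm_num, by simp⟩
        · exact ⟨0, 0, 0, 0, 1, by norm_num, by norm_num, by norm_num, by norm_num, by norm_num,
            by norm_num, by simp⟩
      · rintro x ⟨a0, a1, a2, a3, a4, h0, h1, h2, h3, h4, hs, rfl⟩ y
          ⟨b0, b1, b2, b3, b4, g0, g1, g2, g3, g4, gs, rfl⟩ a b ha hb hab
        refine ⟨a*a0+b*b0, a*a1+b*b1, a*a2+b*b2, a*a3+b*b3, a*a4+b*b4, by positivity,
          by positivity, by positivity, by positivity, by positivity, ?_, ?_⟩
        · linear_combination a * hs + b * gs + hab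
        · module
    intro y hy
    obtain ⟨a0, a1, a2, a3, a4, h0, h1, h2, h3, h4, hs, rfl⟩ := hsub hy
    rcases le_total (a2 * d4) (a4 * d2) with hle | hle
    · right
      obtain ⟨m, hm⟩ : ∃ m, m = a2 / d2 := ⟨_, rfl⟩
      have hm0 : 0 ≤ m := by rw [hm]; positivity
      have hm2 : a2 = m * d2 := by rw [hm]; field_simp
      have hm4 : m * d4 ≤ a4 := by
        rw [hm, div_mul_eq_mul_div, div_le_iff₀ q2]; exact hle
      refine ⟨!₂[a4 - m * d4, a3 + m * d3, a0], mem_Delta0 (by linarith) (by positivity) h0 ?_, ?_⟩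
      · have := mul_nonneg hm0 q1.le
        have e : m * (d1 + d3) = m * (d2 + d4) := by rw [hsum]
        nlinarith
      · simp only [lin_apply]
        simp
        have e1 : a1 = 1 - a0 - m * d2 - a3 - a4 := by linarith
        have e2 : d1 = d2 + d4 - d3 := by linarith
        have e3 : m • (d1 • w1 + d3 • w3) = m • (d2 • w2 + d4 • w4) := by rw [hrel]
        rw [hm2, e1]
        rw [e2] at e3
        have e4 : (m * d2) • w2 = m • ((d2 + d4 - d3) • w1 + d3 • w3) - (m * d4) • w4 := by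
          rw [e3]; module
        rw [e4]
        module
    · left
      obtain ⟨m, hm⟩ : ∃ m, m = a4 / d4 := ⟨_, rfl⟩
      have hm0 : 0 ≤ m := by rw [hm]; positivity
      have hm4 : a4 = m * d4 := by rw [hm]; field_simp
      have hm2 : m * d2 ≤ a2 := by
        rw [hm, div_mul_eq_mul_div, div_le_iff₀ q4]; exact hle
      refine ⟨!₂[a2 - m * d2, a3 + m * d3, a0], mem_Delta0 (by linarith) (by positivity) h0 ?_, ?_⟩
      · have := mul_nonneg hm0 q1.le
        have e : m * (d1 + d3) = m * (d2 + d4) := by rw [hsum]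
        nlinarith
      · simp only [lin_apply]
        simp
        have e1 : a1 = 1 - a0 - a2 - a3 - m * d4 := by linarith
        have e2 : d1 = d2 + d4 - d3 := by linarith
        have e3 : m • (d1 • w1 + d3 • w3) = m • (d2 • w2 + d4 • w4) := by rw [hrel]
        rw [hm4, e1]
        rw [e2] at e3
        have e4 : (m * d4) • w4 = m • ((d2 + d4 - d3) • w1 + d3 • w3) - (m * d2) • w2 := by
          rw [e3]; module
        rw [e4]
        module
  · have hmem : ∀ w ∈ ({w0, w1, w2, w3, w4} : Set E3),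
        w ∈ convexHull ℝ ({w0, w1, w2, w3, w4} : Set E3) := fun w hw => subset_convexHull ℝ _ hw
    have hconv : Convex ℝ (convexHull ℝ ({w0, w1, w2, w3, w4} : Set E3)) := convex_convexHull ℝ _
    have aux : ∀ v ∈ convexHull ℝ ({w0, w1, w2, w3, w4} : Set E3),
        tet w1 (v - w1) (w3 - w1) (w0 - w1) ⊆ convexHull ℝ ({w0, w1, w2, w3, w4} : Set E3) := by
      rintro v hv _ ⟨x, ⟨⟨x0, x1, x2⟩, x3⟩, rfl⟩
      have hm1 := hmem w1 (by simp)
      have hm3 := hmem w3 (by simp)
      have hm0 := hmem w0 (by simp)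
      have : w1 + lin (v - w1) (w3 - w1) (w0 - w1) x
          = ∑ i : Fin 4, (![1 - x 0 - x 1 - x 2, x 0, x 1, x 2] i) • (![w1, v, w3, w0] i) := by
        simp [Fin.sum_univ_four]
        module
      simp only [this]
      refine hconv.sum_mem ?_ ?_ ?_
      · intro i _
        fin_cases i
        · simp; linarith
        · simpa using x0
        · simpa using x1
        · simpa using x2
      · simp [Fin.sum_univ_four]
        ring
      · intro i _
        fin_cases i
        · simpa using hm1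
        · simpa using hv
        · simpa using hm3
        · simpa using hm0
    exact union_subset (aux w2 (hmem w2 (by simp))) (aux w4 (hmem w4 (by simp)))

theorem centroid_relation (w0 w1 w2 w3 w4 : E3) (d1 d2 d3 d4 : ℝ)
    (q1 : 0 < d1) (q2 : 0 < d2) (q3 : 0 < d3) (q4 : 0 < d4)
    (hrel : d1 • w1 + d3 • w3 = d2 • w2 + d4 • w4) (hsum : d1 + d3 = d2 + d4)
    (hinj : Function.Injective (lin (w2 - w1) (w3 - w1) (w0 - w1)))
    (hint : ∫ x in convexHull ℝ ({w0, w1, w2, w3, w4} : Set E3), x = 0) :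
    d4 • (w0 + w1 + w2 + w3) + d2 • (w0 + w1 + w3 + w4) = 0 := by
  obtain ⟨p, hp⟩ : ∃ p, p = d2 / d4 := ⟨_, rfl⟩
  obtain ⟨q, hq⟩ : ∃ q, q = d3 / d4 := ⟨_, rfl⟩
  have hp0 : 0 < p := by rw [hp]; positivity
  have hd2 : d2 = p * d4 := by rw [hp]; field_simp
  have hd3 : d3 = q * d4 := by rw [hq]; field_simp
  have hw4 : w4 - w1 = (-p) • (w2 - w1) + q • (w3 - w1) := by
    have h1 : d4 • (w4 - w1) = d4 • ((-p) • (w2 - w1) + q • (w3 - w1)) := by
      have hd1 : d1 = p * d4 + d4 - q * d4 := by rw [← hd2, ← hd3]; linarith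
      rw [hd1, hd2, hd3] at hrel
      have : d4 • w4 = (p * d4 + d4 - q * d4) • w1 + (q * d4) • w3 - (p * d4) • w2 := by
        rw [hrel]; module
      rw [smul_sub, this]
      module
    exact smul_right_injective _ q4.ne' h1
  set La := lin (w2 - w1) (w3 - w1) (w0 - w1) with hLa
  set Lb := lin (w4 - w1) (w3 - w1) (w0 - w1) with hLb
  set N := lin ((-p) • EuclideanSpace.single 0 1 + q • EuclideanSpace.single 1 1)
      (EuclideanSpace.single 1 1) (EuclideanSpace.single 2 1) with hN
  have hcomp : (Lb : E3 →ₗ[ℝ] E3) = (La : E3 →ₗ[ℝ] E3) ∘ₗ (N : E3 →ₗ[ℝ] E3) := by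
    ext1 x
    simp only [ContinuousLinearMap.coe_coe, LinearMap.comp_apply, hLa, hLb, hN, lin_apply, hw4]
    simp
    module
  have hdet : Lb.det = La.det * (-p) := by
    rw [ContinuousLinearMap.det, hcomp, LinearMap.det_comp]
    congr 1
    exact det_N p q
  have hLa0 : La.det ≠ 0 := by
    rw [ContinuousLinearMap.det]
    have h1 := (LinearEquiv.ofInjectiveEndo (La : E3 →ₗ[ℝ] E3) hinj).isUnit_det'
    exact h1.ne_zero
  have hNinj : Function.Injective N := by
    intro x y hxy
    have h0 := congrArg (fun v : E3 => v 0) hxy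
    have h1 := congrArg (fun v : E3 => v 1) hxy
    have h2 := congrArg (fun v : E3 => v 2) hxy
    simp only [hN, lin_apply] at h0 h1 h2
    simp at h0 h1 h2
    have h0' : x 0 = y 0 := by
      rcases h0 with h | h
      · exact h
      · exact absurd h hp0.ne'
    ext j
    fin_cases j
    · exact h0'
    · simp only [h0'] at h1
      simpa using h1
    · exact h2
  have hinjb : Function.Injective Lb := by
    have : (Lb : E3 → E3) = La ∘ N := by
      ext1 x
      have := congrArg (fun f : E3 →ₗ[ℝ] E3 => f x) hcomp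
      simpa using this
    rw [this]
    exact hinj.comp hNinj
  -- the union
  rw [tets_cover w0 w1 w2 w3 w4 d1 d2 d3 d4 q1 q2 q3 q4 hrel hsum] at hint
  have hnull : (volume : Measure E3)
      (tet w1 (w2 - w1) (w3 - w1) (w0 - w1) ∩ tet w1 (w4 - w1) (w3 - w1) (w0 - w1)) = 0 := by
    have hsub : tet w1 (w2 - w1) (w3 - w1) (w0 - w1) ∩ tet w1 (w4 - w1) (w3 - w1) (w0 - w1)
        ⊆ (fun v => w1 + v) '' (La '' {x : E3 | x 0 = 0}) := by
      rintro y ⟨⟨x, hx, rfl⟩, ⟨x', hx', hxx⟩⟩
      refine ⟨La x, ⟨x, ?_, rfl⟩, rfl⟩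
      have h1 : Lb x' = La x := add_left_cancel hxx
      have h2 : La (N x') = La x := by
        have := congrArg (fun f : E3 →ₗ[ℝ] E3 => f x') hcomp
        simp only [ContinuousLinearMap.coe_coe, LinearMap.comp_apply] at this
        rw [← this, h1]
      have h3 := hinj h2
      have h4 : x 0 = -p * x' 0 := by
        rw [← h3, hN]
        simp
        ring
      have h5 := hx.1.1
      have h6 := hx'.1.1
      have h7 : 0 ≤ p * x' 0 := by positivity
      show x 0 = 0
      linarith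
    refine measure_mono_null hsub ?_
    rw [image_add_left, measure_preimage_add, Measure.addHaar_image_continuousLinearMap]
    have hz : (volume : Measure E3) {x : E3 | x 0 = 0} = 0 := by
      have h1 : {x : E3 | x 0 = 0} = ((LinearMap.ker (co 0 : E3 →ₗ[ℝ] ℝ) : Submodule ℝ E3) : Set E3) := by
        ext x; simp
      rw [h1]
      apply Measure.addHaar_submodule
      intro htop
      have : (EuclideanSpace.single 0 1 : E3) ∈ LinearMap.ker (co 0 : E3 →ₗ[ℝ] ℝ) := by
        rw [htop]; trivial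
      simp at this
    rw [hz, mul_zero]
  have hca := isCompact_tet w1 (w2 - w1) (w3 - w1) (w0 - w1)
  have hcb := isCompact_tet w1 (w4 - w1) (w3 - w1) (w0 - w1)
  rw [setIntegral_union₀ (f := fun x : E3 => x) hnull hcb.measurableSet.nullMeasurableSet
    (continuousOn_id.integrableOn_compact hca) (continuousOn_id.integrableOn_compact hcb)] at hint
  have ia := integral_simplex w1 (w2 - w1) (w3 - w1) (w0 - w1) hinj
  have ib := integral_simplex w1 (w4 - w1) (w3 - w1) (w0 - w1) hinjb
  unfold tet at hint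
  rw [ia, ib, ← hLa, ← hLb, hdet, abs_mul, abs_neg, abs_of_pos hp0] at hint
  have hD : 0 < |La.det| * V0 := mul_pos (abs_pos.2 hLa0) V0_pos
  have h5 : (|La.det| * V0) • ((w1 + (1/4 : ℝ) • ((w2 - w1) + (w3 - w1) + (w0 - w1)))
      + p • (w1 + (1/4 : ℝ) • ((w4 - w1) + (w3 - w1) + (w0 - w1)))) = 0 := by
    rw [← hint]; module
  have h6 := (smul_eq_zero.1 h5).resolve_left hD.ne'
  have h7 : (4 * d4) • ((w1 + (1/4 : ℝ) • ((w2 - w1) + (w3 - w1) + (w0 - w1)))
      + p • (w1 + (1/4 : ℝ) • ((w4 - w1) + (w3 - w1) + (w0 - w1)))) = 0 := by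
    rw [h6, smul_zero]
  rw [← h7, hd2]
  module

end Pool.Agent.Helper53.Koebe
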