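import Mathlib
import Pool.Agent.Helper53.KoebeMeasure

set_option autoImplicit false

namespace Pool.Agent.Helper53.Koebe

open Set

/-- Krein-Milman for exposed faces with finitely many extreme points. -/
theorem exposed_eq_hull {K G : Set E3} (hK : IsCompact K) (hKc : Convex ℝ K)
    (hG : IsExposed ℝ K G) (hfin : (G ∩ extremePoints ℝ K).Finite) :
    G = convexHull ℝ (G ∩ extremePoints ℝ K) := by
  have h1 : G.extremePoints ℝ = G ∩ K.extremePoints ℝ := hG.isExtreme.extremePoints_eq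
  have h2 := closure_convexHull_extremePoints (hG.isCompact hK) (hG.convex hKc)
  rw [h1] at h2
  rw [(hfin.isCompact_convexHull ℝ).isClosed.closure_eq] at h2
  exact h2.symm

theorem hull_le (P : Set E3) (l : StrongDual ℝ E3) (c : ℝ) (hle : ∀ p ∈ P, l p ≤ c) :
    ∀ x ∈ convexHull ℝ P, l x ≤ c := by
  intro x hx
  have : convexHull ℝ P ⊆ {x | l x ≤ c} :=
    convexHull_min hle (convex_halfSpace_le l.toLinearMap.isLinear c)
  exact this hx

theorem exposed_of_functional (P : Set E3) (l : StrongDual ℝ E3) (c : ℝ)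
    (hle : ∀ p ∈ P, l p ≤ c) (hex : ∃ p ∈ P, l p = c) :
    IsExposed ℝ (convexHull ℝ P) {x ∈ convexHull ℝ P | l x = c} := by
  intro _
  refine ⟨l, ?_⟩
  obtain ⟨p, hp, hpc⟩ := hex
  ext x
  constructor
  · rintro ⟨hx, hxc⟩
    exact ⟨hx, fun y hy => by rw [hxc]; exact hull_le P l c hle y hy⟩
  · rintro ⟨hx, hmax⟩
    refine ⟨hx, le_antisymm (hull_le P l c hle x hx) ?_⟩
    rw [← hpc]
    exact hmax p (subset_convexHull ℝ P hp)

/-- points of a finite set that are unique maximizers of a functional are extreme points -/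
theorem extreme_of_functional (P : Set E3) (hP : P.Finite) (p : E3) (hp : p ∈ P)
    (l : StrongDual ℝ E3) (c : ℝ) (hpc : l p = c) (hlt : ∀ q ∈ P, q ≠ p → l q < c) :
    p ∈ extremePoints ℝ (convexHull ℝ P) := by
  have hle : ∀ q ∈ P, l q ≤ c := by
    intro q hq
    by_cases h : q = p
    · rw [h, hpc]
    · exact (hlt q hq h).le
  have hexp := exposed_of_functional P l c hle ⟨p, hp, hpc⟩
  have hsub : {x ∈ convexHull ℝ P | l x = c} ∩ extremePoints ℝ (convexHull ℝ P) ⊆ {p} := by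
    rintro x ⟨⟨_, hx2⟩, hx3⟩
    have hxP : x ∈ P := extremePoints_convexHull_subset hx3
    by_contra hne
    exact absurd hx2 (hlt x hxP hne).ne
  have hfin : ({x ∈ convexHull ℝ P | l x = c} ∩ extremePoints ℝ (convexHull ℝ P)).Finite :=
    (finite_singleton p).subset hsub
  have h := exposed_eq_hull (hP.isCompact_convexHull ℝ) (convex_convexHull ℝ P) hexp hfin
  have hpF : p ∈ {x ∈ convexHull ℝ P | l x = c} := ⟨subset_convexHull ℝ P hp, hpc⟩
  rw [h] at hpF
  have hne : ({x ∈ convexHull ℝ P | l x = c} ∩ extremePoints ℝ (convexHull ℝ P)).Nonempty := by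
    rw [← convexHull_nonempty_iff (𝕜 := ℝ)]
    exact ⟨p, hpF⟩
  obtain ⟨x, hx⟩ := hne
  have : x = p := hsub hx
  rw [← this]
  exact hx.2

theorem face_of_functional (P : Set E3) (hext : extremePoints ℝ (convexHull ℝ P) = P)
    (A : Set E3) (hAP : A ⊆ P) (hA : A.Nonempty) (l : StrongDual ℝ E3) (c : ℝ)
    (heq : ∀ p ∈ A, l p = c) (hlt : ∀ p ∈ P, p ∉ A → l p < c) :
    ∃ F : Set E3, IsExposed ℝ (convexHull ℝ P) F ∧ F.Nonempty ∧
      A = F ∩ extremePoints ℝ (convexHull ℝ P) := by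
  have hle : ∀ q ∈ P, l q ≤ c := by
    intro q hq
    by_cases h : q ∈ A
    · rw [heq q h]
    · exact (hlt q hq h).le
  obtain ⟨a, ha⟩ := hA
  refine ⟨{x ∈ convexHull ℝ P | l x = c},
    exposed_of_functional P l c hle ⟨a, hAP ha, heq a ha⟩,
    ⟨a, subset_convexHull ℝ P (hAP ha), heq a ha⟩, ?_⟩
  rw [hext]
  ext x
  constructor
  · intro hx
    exact ⟨⟨subset_convexHull ℝ P (hAP hx), heq x hx⟩, hAP hx⟩
  · rintro ⟨⟨_, hx2⟩, hx3⟩
    by_contra hne
    exact absurd hx2 (hlt x hx3 hne).ne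

/-- linear functional from coefficients -/
noncomputable def fl (a b c : ℝ) : StrongDual ℝ E3 := a • co 0 + b • co 1 + c • co 2

@[simp] theorem fl_apply (a b c : ℝ) (x : E3) : fl a b c x = a * x 0 + b * x 1 + c * x 2 := by
  simp [fl]

/-- the five vertices of a square pyramid: apex `0`, base `1, 2, 3, 4` -/
noncomputable def pv : Fin 5 → E3 :=
  ![!₂[0, 0, 1], !₂[1, 0, 0], !₂[0, 1, 0], !₂[-1, 0, 0], !₂[0, -1, 0]]

noncomputable def PS : Set E3 := range pv

theorem PS_finite : PS.Finite := finite_range pv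

/-- the functional values on the vertices -/
theorem fl_pv (a b c : ℝ) : (fun i => fl a b c (pv i)) = ![c, a, b, -a, -b] := by
  funext i
  fin_cases i <;> simp [pv]

theorem fl_pv0 (a b c : ℝ) : fl a b c (pv 0) = c := congrFun (fl_pv a b c) 0
theorem fl_pv1 (a b c : ℝ) : fl a b c (pv 1) = a := congrFun (fl_pv a b c) 1
theorem fl_pv2 (a b c : ℝ) : fl a b c (pv 2) = b := congrFun (fl_pv a b c) 2
theorem fl_pv3 (a b c : ℝ) : fl a b c (pv 3) = -a := congrFun (fl_pv a b c) 3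
theorem fl_pv4 (a b c : ℝ) : fl a b c (pv 4) = -b := congrFun (fl_pv a b c) 4

theorem pv_injective : Function.Injective pv := by
  intro i j h
  have h1 := congrArg (fun v : E3 => fl 1 3 5 v) h
  have e := fl_pv 1 3 5
  have hi := congrFun e i
  have hj := congrFun e j
  rw [hi, hj] at h1
  fin_cases i <;> fin_cases j <;> first | rfl | (norm_num at h1)

theorem PS_ext : extremePoints ℝ (convexHull ℝ PS) = PS := by
  apply Subset.antisymm extremePoints_convexHull_subset
  rintro _ ⟨i, rfl⟩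
  have key : ∀ (i : Fin 5) (a b c m : ℝ), fl a b c (pv i) = m →
      (∀ j, j ≠ i → fl a b c (pv j) < m) → pv i ∈ extremePoints ℝ (convexHull ℝ PS) := by
    intro i a b c m h1 h2
    apply extreme_of_functional PS PS_finite (pv i) ⟨i, rfl⟩ (fl a b c) m h1
    rintro _ ⟨j, rfl⟩ hne
    exact h2 j (fun h => hne (by rw [h]))
  fin_cases i
  · refine key 0 0 0 1 1 (fl_pv0 _ _ _) ?_
    intro j hj
    rw [congrFun (fl_pv 0 0 1) j]
    fin_cases j <;> simp at hj ⊢
  · refine key 1 1 0 0 1 (fl_pv1 _ _ _) ?_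
    intro j hj
    have := congrFun (fl_pv 1 0 0) j
    rw [this]
    fin_cases j <;> simp at hj ⊢
  · refine key 2 0 1 0 1 (fl_pv2 _ _ _) ?_
    intro j hj
    have := congrFun (fl_pv 0 1 0) j
    rw [this]
    fin_cases j <;> simp at hj ⊢
  · refine key 3 (-1) 0 0 1 (by rw [fl_pv3]; norm_num) ?_
    intro j hj
    have := congrFun (fl_pv (-1) 0 0) j
    rw [this]
    fin_cases j <;> simp at hj ⊢
  · refine key 4 0 (-1) 0 1 (by rw [fl_pv4]; norm_num) ?_
    intro j hj
    have := congrFun (fl_pv 0 (-1) 0) j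
    rw [this]
    fin_cases j <;> simp at hj ⊢

theorem S_face (I : Set (Fin 5)) (hI : I.Nonempty) (a b c m : ℝ)
    (h1 : ∀ i ∈ I, (![c, a, b, -a, -b] : Fin 5 → ℝ) i = m)
    (h2 : ∀ i, i ∉ I → (![c, a, b, -a, -b] : Fin 5 → ℝ) i < m) :
    ∃ F : Set E3, IsExposed ℝ (convexHull ℝ PS) F ∧ F.Nonempty ∧
      pv '' I = F ∩ extremePoints ℝ (convexHull ℝ PS) := by
  have e := fl_pv a b c
  refine face_of_functional PS PS_ext (pv '' I) (image_subset_range _ _) (hI.image _)
    (fl a b c) m ?_ ?_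
  · rintro _ ⟨i, hi, rfl⟩
    rw [congrFun e i]
    exact h1 i hi
  · rintro _ ⟨i, rfl⟩ hi
    rw [congrFun e i]
    exact h2 i (fun h => hi ⟨i, h, rfl⟩)

/-- interior of the pyramid is nonempty -/
theorem PS_interior : (interior (convexHull ℝ PS)).Nonempty := by
  rw [interior_convexHull_nonempty_iff_affineSpan_eq_top]
  have hne : PS.Nonempty := ⟨pv 0, ⟨0, rfl⟩⟩
  rw [AffineSubspace.affineSpan_eq_top_iff_vectorSpan_eq_top_of_nonempty ℝ E3 E3 hne]
  rw [eq_top_iff]
  intro x _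
  have hm : ∀ i j, pv i - pv j ∈ vectorSpan ℝ PS := fun i j =>
    vsub_mem_vectorSpan ℝ ⟨i, rfl⟩ ⟨j, rfl⟩
  have : x = (x 0 / 2) • (pv 1 - pv 3) + (x 1 / 2) • (pv 2 - pv 4)
      + (x 2) • ((pv 0 - pv 1) + (1/2 : ℝ) • (pv 1 - pv 3)) := by
    ext i
    fin_cases i <;> simp [pv] <;> ring
  rw [this]
  exact Submodule.add_mem _ (Submodule.add_mem _ (Submodule.smul_mem _ _ (hm 1 3))
    (Submodule.smul_mem _ _ (hm 2 4))) (Submodule.smul_mem _ _
      (Submodule.add_mem _ (hm 0 1) (Submodule.smul_mem _ _ (hm 1 3))))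

end Pool.Agent.Helper53.Koebe
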