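import Mathlib

set_option autoImplicit false

namespace Pool.Agent.Helper53.Koebe

open scoped RealInnerProductSpace in
theorem tangent_edge {F : Type*} [NormedAddCommGroup F] [InnerProductSpace ℝ F]
    (v w : F) (hne : v ≠ w) (h1 : ∃ p ∈ openSegment ℝ v w, ‖p‖ = 1)
    (h2 : ∀ q ∈ affineSpan ℝ ({v, w} : Set F), 1 ≤ ‖q‖) :
    1 < ⟪v, v⟫ ∧ 1 < ⟪w, w⟫ ∧ ⟪v, w⟫ = 1 - √(⟪v, v⟫ - 1) * √(⟪w, w⟫ - 1) := by
  obtain ⟨p, ⟨a, b, ha, hb, hab, hp⟩, hpn⟩ := h1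
  obtain ⟨d, hd⟩ : ∃ d, d = w - v := ⟨_, rfl⟩
  have hd0 : d ≠ 0 := by rw [hd]; exact sub_ne_zero.2 (Ne.symm hne)
  have hdd : 0 < ⟪d, d⟫ := real_inner_self_pos.2 hd0
  have hv : v = p - b • d := by
    rw [hd, ← hp, smul_sub]
    have : a = 1 - b := by linarith
    rw [this, sub_smul, one_smul]; abel
  have hw : w = p + a • d := by
    rw [hd, ← hp, smul_sub]
    have : b = 1 - a := by linarith
    rw [this, sub_smul, one_smul]; abel
  have hpp : ⟪p, p⟫ = 1 := by rw [real_inner_self_eq_norm_sq, hpn]; norm_num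
  have hline : ∀ s : ℝ, 1 ≤ ⟪p + s • d, p + s • d⟫ := by
    intro s
    have hmem : p + s • d ∈ affineSpan ℝ ({v, w} : Set F) := by
      have : p + s • d = AffineMap.lineMap v w (b + s) := by
        rw [AffineMap.lineMap_apply_module', hd, ← hp]
        have : a = 1 - b := by linarith
        rw [this]
        module
      rw [this]
      exact AffineMap.lineMap_mem_affineSpan_pair _ _ _
    have := h2 _ hmem
    rw [real_inner_self_eq_norm_sq]
    nlinarith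
  have hexp : ∀ s : ℝ, ⟪p + s • d, p + s • d⟫ = 1 + 2 * s * ⟪p, d⟫ + s^2 * ⟪d, d⟫ := by
    intro s
    rw [inner_add_left, inner_add_right, inner_add_right, inner_smul_left, inner_smul_right,
      inner_smul_left, inner_smul_right, hpp, real_inner_comm p d]
    simp only [conj_trivial]
    ring
  have hpd : ⟪p, d⟫ = 0 := by
    by_contra hcon
    have h3 := hline (-(⟪p, d⟫ / ⟪d, d⟫))
    rw [hexp] at h3
    have h4 : 2 * (-(⟪p, d⟫ / ⟪d, d⟫)) * ⟪p, d⟫ + (-(⟪p, d⟫ / ⟪d, d⟫))^2 * ⟪d, d⟫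
        = - (⟪p, d⟫^2 / ⟪d, d⟫) := by
      field_simp; ring
    have h5 : 0 < ⟪p, d⟫^2 / ⟪d, d⟫ := by positivity
    linarith
  have hvv : ⟪v, v⟫ = 1 + b^2 * ⟪d, d⟫ := by
    have h6 := hexp (-b)
    rw [neg_smul, ← sub_eq_add_neg, ← hv, hpd] at h6
    rw [h6]; ring
  have hww : ⟪w, w⟫ = 1 + a^2 * ⟪d, d⟫ := by
    have h6 := hexp a
    rw [← hw, hpd] at h6
    rw [h6]; ring
  have hvw : ⟪v, w⟫ = 1 - a * b * ⟪d, d⟫ := by
    rw [hv, hw, inner_sub_left, inner_add_right, inner_add_right, inner_smul_left,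
      inner_smul_right, inner_smul_left, inner_smul_right, hpp, real_inner_comm p d, hpd]
    simp only [conj_trivial]
    ring
  refine ⟨by rw [hvv]; have := mul_pos (pow_pos hb 2) hdd; linarith,
    by rw [hww]; have := mul_pos (pow_pos ha 2) hdd; linarith, ?_⟩
  rw [hvv, hww, hvw]
  have e1 : 1 + b^2 * ⟪d, d⟫ - 1 = (b * √⟪d, d⟫)^2 := by
    rw [mul_pow, Real.sq_sqrt hdd.le]; ring
  have e2 : 1 + a^2 * ⟪d, d⟫ - 1 = (a * √⟪d, d⟫)^2 := by
    rw [mul_pow, Real.sq_sqrt hdd.le]; ring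
  rw [e1, e2, Real.sqrt_sq (by positivity), Real.sqrt_sq (by positivity)]
  have : b * √⟪d, d⟫ * (a * √⟪d, d⟫) = a * b * ⟪d, d⟫ := by
    rw [show b * √⟪d, d⟫ * (a * √⟪d, d⟫) = a * b * (√⟪d, d⟫ * √⟪d, d⟫) by ring,
      Real.mul_self_sqrt hdd.le]
  rw [this]

end Pool.Agent.Helper53.Koebe
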