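import Mathlib
import Pool.Agent.Helper53.KoebeAlg
import Pool.Agent.Helper53.KoebeTangent
import Pool.Agent.Helper53.KoebeCentroid
import Pool.Agent.Helper53.KoebeConvex

set_option autoImplicit false

namespace Pool.Agent.Helper53.Koebe

open Set MeasureTheory

theorem T_fun {K G : Set E3} (w : Fin 5 → E3) (hw : Function.Injective w)
    (hext : extremePoints ℝ K = range w) (hG : IsExposed ℝ K G)
    (I : Set (Fin 5)) (hI : I.Nonempty) (hGI : w '' I = G ∩ extremePoints ℝ K) :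
    ∃ (l : StrongDual ℝ E3) (c : ℝ), (∀ i ∈ I, l (w i) = c) ∧ (∀ i, i ∉ I → l (w i) < c) := by
  obtain ⟨i0, hi0⟩ := hI
  have hmemG : ∀ i ∈ I, w i ∈ G := fun i hi => by
    have : w i ∈ w '' I := ⟨i, hi, rfl⟩
    rw [hGI] at this
    exact this.1
  have hmemK : ∀ i, w i ∈ K := fun i => by
    have : w i ∈ extremePoints ℝ K := by rw [hext]; exact ⟨i, rfl⟩
    exact extremePoints_subset this
  obtain ⟨l, hl⟩ := hG ⟨w i0, hmemG i0 hi0⟩
  have hmax : ∀ i ∈ I, ∀ y ∈ K, l y ≤ l (w i) := fun i hi => by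
    have h := hmemG i hi
    rw [hl] at h
    exact h.2
  refine ⟨l, l (w i0), fun i hi => le_antisymm (hmax i0 hi0 _ (hmemK i)) (hmax i hi _ (hmemK i0)),
    fun i hi => lt_of_le_of_ne (hmax i0 hi0 _ (hmemK i)) fun heq => hi ?_⟩
  have h1 : w i ∈ G := by
    rw [hl]
    exact ⟨hmemK i, fun y hy => by rw [heq]; exact hmax i0 hi0 y hy⟩
  have h2 : w i ∈ w '' I := by
    rw [hGI]
    exact ⟨h1, by rw [hext]; exact ⟨i, rfl⟩⟩
  obtain ⟨j, hj, hji⟩ := h2
  rw [← hw hji]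
  exact hj

theorem alternating (a1 a2 a3 a4 : ℝ) (hsum : a1 + a2 + a3 + a4 = 0)
    (hne : ¬ (a1 = 0 ∧ a2 = 0 ∧ a3 = 0 ∧ a4 = 0))
    (h12 : ∃ p q : ℝ, 0 < p ∧ 0 < q ∧ a3 * p + a4 * q = 0)
    (h23 : ∃ p q : ℝ, 0 < p ∧ 0 < q ∧ a1 * p + a4 * q = 0)
    (h34 : ∃ p q : ℝ, 0 < p ∧ 0 < q ∧ a1 * p + a2 * q = 0) :
    (0 < a1 ∧ a2 < 0 ∧ 0 < a3 ∧ a4 < 0) ∨ (a1 < 0 ∧ 0 < a2 ∧ a3 < 0 ∧ 0 < a4) := by
  obtain ⟨p, q, hp, hq, h⟩ := h12
  obtain ⟨p', q', hp', hq', h'⟩ := h23
  obtain ⟨p'', q'', hp'', hq'', h''⟩ := h34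
  have key : ∀ x y u v : ℝ, 0 < u → 0 < v → x * u + y * v = 0 → 0 < x → y < 0 := by
    intro x y u v hu hv hxy hx
    by_contra hy
    push Not at hy
    have := mul_pos hx hu
    have := mul_nonneg hy hv.le
    linarith
  have key' : ∀ x y u v : ℝ, 0 < u → 0 < v → x * u + y * v = 0 → x < 0 → 0 < y := by
    intro x y u v hu hv hxy hx
    by_contra hy
    push Not at hy
    have := mul_neg_of_neg_of_pos hx hu
    have := mul_nonpos_of_nonpos_of_nonneg hy hv.le
    linarith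
  rcases lt_trichotomy a4 0 with h4 | h4 | h4
  · left
    have h3 := key' a4 a3 q p hq hp (by linarith) h4
    have h1 := key' a4 a1 q' p' hq' hp' (by linarith) h4
    have h2 := key a1 a2 p'' q'' hp'' hq'' h'' h1
    exact ⟨h1, h2, h3, h4⟩
  · exfalso
    apply hne
    rw [h4] at h h'
    have h3 : a3 = 0 := by
      rcases mul_eq_zero.1 (show a3 * p = 0 by linarith) with hh | hh
      · exact hh
      · exact absurd hh hp.ne'
    have h1 : a1 = 0 := by
      rcases mul_eq_zero.1 (show a1 * p' = 0 by linarith) with hh | hh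
      · exact hh
      · exact absurd hh hp'.ne'
    exact ⟨h1, by linarith, h3, h4⟩
  · right
    have h3 := key a4 a3 q p hq hp (by linarith) h4
    have h1 := key a4 a1 q' p' hq' hp' (by linarith) h4
    have h2 := key' a1 a2 p'' q'' hp'' hq'' h'' h1
    exact ⟨h1, h2, h3, h4⟩

open scoped RealInnerProductSpace in
theorem core (T : Finset E3) (f : E3 → E3)
    (hf : BijOn f (extremePoints ℝ (convexHull ℝ PS))
      (extremePoints ℝ (convexHull ℝ (T : Set E3))))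
    (hfaces : ∀ A : Set E3, A ⊆ extremePoints ℝ (convexHull ℝ PS) →
      ((∃ F : Set E3, IsExposed ℝ (convexHull ℝ PS) F ∧ F.Nonempty ∧
          A = F ∩ extremePoints ℝ (convexHull ℝ PS)) ↔
       (∃ G : Set E3, IsExposed ℝ (convexHull ℝ (T : Set E3)) G ∧ G.Nonempty ∧
          f '' A = G ∩ extremePoints ℝ (convexHull ℝ (T : Set E3)))))
    (hedge : ∀ v w : E3, v ≠ w → IsExposed ℝ (convexHull ℝ (T : Set E3)) (segment ℝ v w) →
      (∃ p ∈ openSegment ℝ v w, ‖p‖ = 1) ∧ ∀ q ∈ affineSpan ℝ ({v, w} : Set E3), 1 ≤ ‖q‖)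
    (hcent : ∫ x in convexHull ℝ (T : Set E3), x = 0) : False := by
  set K := convexHull ℝ (T : Set E3) with hKdef
  have hK : IsCompact K := T.finite_toSet.isCompact_convexHull ℝ
  have hKc : Convex ℝ K := convex_convexHull ℝ _
  obtain ⟨w, hw⟩ : ∃ w : Fin 5 → E3, w = fun i => f (pv i) := ⟨_, rfl⟩
  have hwinj : Function.Injective w := by
    intro i j hij
    rw [hw] at hij
    apply pv_injective
    apply hf.injOn _ _ hij
    · rw [PS_ext]; exact ⟨i, rfl⟩
    · rw [PS_ext]; exact ⟨j, rfl⟩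
  have hextK : extremePoints ℝ K = range w := by
    rw [← hf.image_eq, PS_ext, hw]
    ext x
    constructor
    · rintro ⟨_, ⟨i, rfl⟩, rfl⟩; exact ⟨i, rfl⟩
    · rintro ⟨i, rfl⟩; exact ⟨pv i, ⟨i, rfl⟩, rfl⟩
  have hface : ∀ (I : Set (Fin 5)), I.Nonempty → ∀ (a b c m : ℝ),
      (∀ i ∈ I, (![c, a, b, -a, -b] : Fin 5 → ℝ) i = m) →
      (∀ i, i ∉ I → (![c, a, b, -a, -b] : Fin 5 → ℝ) i < m) →
      ∃ G : Set E3, IsExposed ℝ K G ∧ G.Nonempty ∧ w '' I = G ∩ extremePoints ℝ K := by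
    intro I hI a b c m h1 h2
    have h3 := (hfaces (pv '' I) (by rw [PS_ext]; exact image_subset_range _ _)).1
      (S_face I hI a b c m h1 h2)
    have h4 : f '' (pv '' I) = w '' I := by rw [hw, image_image]
    rwa [h4] at h3
  -- functionals
  have hfun : ∀ (I : Set (Fin 5)), I.Nonempty → ∀ (a b c m : ℝ),
      (∀ i ∈ I, (![c, a, b, -a, -b] : Fin 5 → ℝ) i = m) →
      (∀ i, i ∉ I → (![c, a, b, -a, -b] : Fin 5 → ℝ) i < m) →
      ∃ (l : StrongDual ℝ E3) (c : ℝ), (∀ i ∈ I, l (w i) = c) ∧ (∀ i, i ∉ I → l (w i) < c) := by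
    intro I hI a b c m h1 h2
    obtain ⟨G, hG1, hG2, hG3⟩ := hface I hI a b c m h1 h2
    exact T_fun w hwinj hextK hG1 I hI hG3
  -- edges
  have hseg : ∀ (i j : Fin 5), i ≠ j → ∀ (a b c m : ℝ),
      (∀ k ∈ ({i, j} : Set (Fin 5)), (![c, a, b, -a, -b] : Fin 5 → ℝ) k = m) →
      (∀ k, k ∉ ({i, j} : Set (Fin 5)) → (![c, a, b, -a, -b] : Fin 5 → ℝ) k < m) →
      1 < ⟪w i, w i⟫ ∧ 1 < ⟪w j, w j⟫ ∧
        ⟪w i, w j⟫ = 1 - √(⟪w i, w i⟫ - 1) * √(⟪w j, w j⟫ - 1) := by
    intro i j hij a b c m h1 h2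
    obtain ⟨G, hG1, hG2, hG3⟩ := hface {i, j} ⟨i, by simp⟩ a b c m h1 h2
    have hfin : (G ∩ extremePoints ℝ K).Finite := by
      rw [← hG3]; exact (toFinite _)
    have hGe := exposed_eq_hull hK hKc hG1 hfin
    rw [← hG3, image_pair, convexHull_pair] at hGe
    rw [hGe] at hG1
    have hne : w i ≠ w j := fun h => hij (hwinj h)
    obtain ⟨e1, e2⟩ := hedge (w i) (w j) hne hG1
    exact tangent_edge (w i) (w j) hne e1 e2
  -- the eight edges
  have E01 := hseg 0 1 (by decide) 1 0 1 1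
    (by intro k hk; fin_cases k <;> simp at hk ⊢) (by intro k hk; fin_cases k <;> simp at hk ⊢)
  have E02 := hseg 0 2 (by decide) 0 1 1 1
    (by intro k hk; fin_cases k <;> simp at hk ⊢) (by intro k hk; fin_cases k <;> simp at hk ⊢)
  have E03 := hseg 0 3 (by decide) (-1) 0 1 1
    (by intro k hk; fin_cases k <;> simp at hk ⊢) (by intro k hk; fin_cases k <;> simp at hk ⊢)
  have E04 := hseg 0 4 (by decide) 0 (-1) 1 1
    (by intro k hk; fin_cases k <;> simp at hk ⊢) (by intro k hk; fin_cases k <;> simp at hk ⊢)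
  have E12 := hseg 1 2 (by decide) 1 1 0 1
    (by intro k hk; fin_cases k <;> simp at hk ⊢) (by intro k hk; fin_cases k <;> simp at hk ⊢)
  have E23 := hseg 2 3 (by decide) (-1) 1 0 1
    (by intro k hk; fin_cases k <;> simp at hk ⊢) (by intro k hk; fin_cases k <;> simp at hk ⊢)
  have E34 := hseg 3 4 (by decide) (-1) (-1) 0 1
    (by intro k hk; fin_cases k <;> simp at hk ⊢) (by intro k hk; fin_cases k <;> simp at hk ⊢)
  have E41 := hseg 4 1 (by decide) 1 (-1) 0 1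
    (by intro k hk; fin_cases k <;> simp at hk ⊢) (by intro k hk; fin_cases k <;> simp at hk ⊢)
  -- functionals for base edges and for the base
  obtain ⟨l12, c12, f12, g12⟩ := hfun {1, 2} ⟨1, by simp⟩ 1 1 0 1
    (by intro k hk; fin_cases k <;> simp at hk ⊢) (by intro k hk; fin_cases k <;> simp at hk ⊢)
  obtain ⟨l23, c23, f23, g23⟩ := hfun {2, 3} ⟨2, by simp⟩ (-1) 1 0 1
    (by intro k hk; fin_cases k <;> simp at hk ⊢) (by intro k hk; fin_cases k <;> simp at hk ⊢)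
  obtain ⟨l34, c34, f34, g34⟩ := hfun {3, 4} ⟨3, by simp⟩ (-1) (-1) 0 1
    (by intro k hk; fin_cases k <;> simp at hk ⊢) (by intro k hk; fin_cases k <;> simp at hk ⊢)
  obtain ⟨lB, cB, fB, gB⟩ := hfun {1, 2, 3, 4} ⟨1, by simp⟩ 0 0 (-1) 0
    (by intro k hk; fin_cases k <;> simp at hk ⊢) (by intro k hk; fin_cases k <;> simp at hk ⊢)
  have b1 := fB 1 (by simp)
  have b2 := fB 2 (by simp)
  have b3 := fB 3 (by simp)
  have b4 := fB 4 (by simp)
  have b0 := gB 0 (by simp)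
  have p1 := f12 1 (by simp)
  have p2 := f12 2 (by simp)
  have p3 := g12 3 (by simp)
  have p4 := g12 4 (by simp)
  have r2 := f23 2 (by simp)
  have r3 := f23 3 (by simp)
  have r1 := g23 1 (by simp)
  have r4 := g23 4 (by simp)
  have s3 := f34 3 (by simp)
  have s4 := f34 4 (by simp)
  have s1 := g34 1 (by simp)
  have s2 := g34 2 (by simp)
  -- affine dependence
  have hdep : ¬ LinearIndependent ℝ ![w 2 - w 1, w 3 - w 1, w 4 - w 1] := by
    intro hli
    have hspan := hli.span_eq_top_of_card_eq_finrank (by simp)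
    have hker : Submodule.span ℝ (range ![w 2 - w 1, w 3 - w 1, w 4 - w 1])
        ≤ LinearMap.ker (lB : E3 →ₗ[ℝ] ℝ) := by
      rw [Submodule.span_le]
      rintro _ ⟨i, rfl⟩
      fin_cases i
      · simp [b1, b2]
      · simp [b1, b3]
      · simp [b1, b4]
    rw [hspan] at hker
    have h0 : lB (w 0 - w 1) = 0 := hker (Submodule.mem_top)
    rw [map_sub, b1] at h0
    linarith
  rw [Fintype.not_linearIndependent_iff] at hdep
  obtain ⟨g, hg1, hg2⟩ := hdep
  rw [Fin.sum_univ_three] at hg1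
  simp only [Matrix.cons_val_zero, Matrix.cons_val_one, Matrix.cons_val] at hg1
  obtain ⟨a1, ha1⟩ : ∃ a1, a1 = -(g 0 + g 1 + g 2) := ⟨_, rfl⟩
  have hrel0 : a1 • w 1 + g 0 • w 2 + g 1 • w 3 + g 2 • w 4 = 0 := by
    rw [ha1, ← hg1]; module
  have hsum0 : a1 + g 0 + g 1 + g 2 = 0 := by rw [ha1]; ring
  have hl : ∀ l : StrongDual ℝ E3,
      a1 * l (w 1) + g 0 * l (w 2) + g 1 * l (w 3) + g 2 * l (w 4) = 0 := by
    intro l
    have := congrArg l hrel0
    simpa only [map_add, map_smul, smul_eq_mul, map_zero] using this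
  have halt := alternating a1 (g 0) (g 1) (g 2) hsum0 (by
      rintro ⟨_, h0, h1, h2⟩
      obtain ⟨i, hi⟩ := hg2
      fin_cases i
      · exact hi h0
      · exact hi h1
      · exact hi h2)
    ⟨c12 - l12 (w 3), c12 - l12 (w 4), by linarith, by linarith, by
      have := hl l12
      rw [p1, p2] at this
      linear_combination -this + c12 * hsum0⟩
    ⟨c23 - l23 (w 1), c23 - l23 (w 4), by linarith, by linarith, by
      have := hl l23
      rw [r2, r3] at this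
      linear_combination -this + c23 * hsum0⟩
    ⟨c34 - l34 (w 1), c34 - l34 (w 2), by linarith, by linarith, by
      have := hl l34
      rw [s3, s4] at this
      linear_combination -this + c34 * hsum0⟩
  obtain ⟨d1, d2, d3, d4, q1, q2, q3, q4, hrel, hsum⟩ : ∃ d1 d2 d3 d4 : ℝ,
      0 < d1 ∧ 0 < d2 ∧ 0 < d3 ∧ 0 < d4 ∧ d1 • w 1 + d3 • w 3 = d2 • w 2 + d4 • w 4 ∧
        d1 + d3 = d2 + d4 := by
    rcases halt with ⟨h1, h2, h3, h4⟩ | ⟨h1, h2, h3, h4⟩
    · refine ⟨a1, -(g 0), g 1, -(g 2), h1, by linarith, h3, by linarith, ?_, by linarith⟩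
      rw [← sub_eq_zero, ← hrel0]; module
    · refine ⟨-a1, g 0, -(g 1), g 2, by linarith, h2, by linarith, h4, ?_, by linarith⟩
      rw [← sub_eq_zero]
      have : (-a1) • w 1 + (-(g 1)) • w 3 - (g 0 • w 2 + g 2 • w 4)
          = -(a1 • w 1 + g 0 • w 2 + g 1 • w 3 + g 2 • w 4) := by module
      rw [this, hrel0, neg_zero]
  -- nondegeneracy
  have hinj : Function.Injective (lin (w 2 - w 1) (w 3 - w 1) (w 0 - w 1)) := by
    rw [injective_iff_map_eq_zero]
    intro y hy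
    rw [lin_apply] at hy
    have y2 : y 2 = 0 := by
      have := congrArg lB hy
      simp only [map_add, map_smul, map_sub, smul_eq_mul, map_zero, b1, b2, b3] at this
      have h5 : y 2 * (lB (w 0) - cB) = 0 := by linear_combination this
      rcases mul_eq_zero.1 h5 with h | h
      · exact h
      · linarith
    have y1 : y 1 = 0 := by
      have := congrArg l12 hy
      simp only [map_add, map_smul, map_sub, smul_eq_mul, map_zero, p1, p2, y2] at this
      have h5 : y 1 * (l12 (w 3) - c12) = 0 := by linear_combination this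
      rcases mul_eq_zero.1 h5 with h | h
      · exact h
      · linarith
    have y0 : y 0 = 0 := by
      rw [y1, y2] at hy
      simp only [zero_smul, add_zero, smul_eq_zero] at hy
      rcases hy with h | h
      · exact h
      · exact absurd (hwinj (sub_eq_zero.1 h)) (by decide)
    ext i
    fin_cases i
    · exact y0
    · exact y1
    · exact y2
  -- the hull
  have hKw : K = convexHull ℝ ({w 0, w 1, w 2, w 3, w 4} : Set E3) := by
    have h1 : K ∩ extremePoints ℝ K = range w := by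
      rw [inter_eq_right.2 extremePoints_subset, hextK]
    have h2 := exposed_eq_hull hK hKc (IsExposed.refl K) (by rw [h1]; exact finite_range w)
    rw [h1] at h2
    have h3 : range w = {w 0, w 1, w 2, w 3, w 4} := by
      ext x
      constructor
      · rintro ⟨i, rfl⟩
        fin_cases i <;> simp
      · rintro (rfl | rfl | rfl | rfl | rfl)
        exacts [⟨0, rfl⟩, ⟨1, rfl⟩, ⟨2, rfl⟩, ⟨3, rfl⟩, ⟨4, rfl⟩]
    rw [← h3]
    exact h2
  rw [hKw] at hcent
  have hcr := centroid_relation (w 0) (w 1) (w 2) (w 3) (w 4) d1 d2 d3 d4 q1 q2 q3 q4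
    hrel hsum hinj hcent
  have sq : ∀ i, 1 < ⟪w i, w i⟫ → ⟪w i, w i⟫ = 1 + (√(⟪w i, w i⟫ - 1))^2 := by
    intro i hi
    rw [Real.sq_sqrt (by linarith)]; ring
  exact vec_contra (w 0) (w 1) (w 2) (w 3) (w 4) (√(⟪w 0, w 0⟫ - 1)) (√(⟪w 1, w 1⟫ - 1))
    (√(⟪w 2, w 2⟫ - 1)) (√(⟪w 3, w 3⟫ - 1)) (√(⟪w 4, w 4⟫ - 1)) d1 d2 d3 d4
    (Real.sqrt_pos.2 (by linarith [E01.1])) (Real.sqrt_pos.2 (by linarith [E01.2.1]))
    (Real.sqrt_pos.2 (by linarith [E02.2.1])) (Real.sqrt_pos.2 (by linarith [E03.2.1]))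
    (Real.sqrt_pos.2 (by linarith [E04.2.1])) q1 q2 q3 q4
    (sq 0 E01.1) (sq 1 E01.2.1) (sq 2 E02.2.1) (sq 3 E03.2.1) (sq 4 E04.2.1)
    E01.2.2 E02.2.2 E03.2.2 E04.2.2 E12.2.2 E23.2.2 E34.2.2 E41.2.2 hrel hsum hcr

end Pool.Agent.Helper53.Koebe
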