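import Mathlib

set_option autoImplicit false

namespace Pool.Agent.Helper53.Sim

open Finset

variable {n : ℕ}

/-- The index set `X` of `σ` can be matched with the index set `Y` of `π` so that the matched
pairs fall into at most `k` classes, each class being order-isomorphic in both coordinates. -/
def Cov (σ π : Equiv.Perm (Fin n)) (X Y : Finset (Fin n)) (k : ℕ) : Prop :=
  ∃ (g : Fin n → Fin n) (c : Fin n → ℕ),
    Set.BijOn g (X : Set (Fin n)) (Y : Set (Fin n)) ∧ (∀ a ∈ X, c a < k) ∧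
    ∀ a ∈ X, ∀ a' ∈ X, c a = c a' →
      ((a < a' ↔ g a < g a') ∧ (σ a < σ a' ↔ π (g a) < π (g a')))

variable {σ π : Equiv.Perm (Fin n)}

lemma Cov.mono {X Y : Finset (Fin n)} {k k' : ℕ} (h : Cov σ π X Y k) (hk : k ≤ k') :
    Cov σ π X Y k' := by
  obtain ⟨g, c, h1, h2, h3⟩ := h
  exact ⟨g, c, h1, fun a ha => lt_of_lt_of_le (h2 a ha) hk, h3⟩

lemma Cov.union {X₁ Y₁ X₂ Y₂ : Finset (Fin n)} {k₁ k₂ : ℕ} (h₁ : Cov σ π X₁ Y₁ k₁)
    (h₂ : Cov σ π X₂ Y₂ k₂) (hX : Disjoint X₁ X₂) (hY : Disjoint Y₁ Y₂) :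
    Cov σ π (X₁ ∪ X₂) (Y₁ ∪ Y₂) (k₁ + k₂) := by
  classical
  obtain ⟨g₁, c₁, b₁, l₁, o₁⟩ := h₁
  obtain ⟨g₂, c₂, b₂, l₂, o₂⟩ := h₂
  have hnot : ∀ a ∈ X₂, a ∉ X₁ := fun a ha ha' => (Finset.disjoint_left.mp hX) ha' ha
  have e1 : ∀ a ∈ X₁, (fun a => if a ∈ X₁ then g₁ a else g₂ a) a = g₁ a := by
    intro a ha; simp [ha]
  have e2 : ∀ a ∈ X₂, (fun a => if a ∈ X₁ then g₁ a else g₂ a) a = g₂ a := by
    intro a ha; simp [hnot a ha]
  refine ⟨fun a => if a ∈ X₁ then g₁ a else g₂ a,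
    fun a => if a ∈ X₁ then c₁ a else k₁ + c₂ a, ?_, ?_, ?_⟩
  · have hb1 : Set.BijOn (fun a => if a ∈ X₁ then g₁ a else g₂ a) (X₁ : Set (Fin n)) Y₁ :=
      b₁.congr (fun a ha => (e1 a ha).symm)
    have hb2 : Set.BijOn (fun a => if a ∈ X₁ then g₁ a else g₂ a) (X₂ : Set (Fin n)) Y₂ :=
      b₂.congr (fun a ha => (e2 a ha).symm)
    rw [Finset.coe_union, Finset.coe_union]
    refine hb1.union hb2 ?_
    intro a ha a' ha' haa
    rcases ha with ha | ha <;> rcases ha' with ha' | ha'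
    · exact hb1.injOn ha ha' haa
    · exfalso
      have h1 := hb1.mapsTo ha
      have h2 := hb2.mapsTo ha'
      simp only at haa h1 h2
      rw [haa] at h1
      exact (Finset.disjoint_left.mp hY) h1 h2
    · exfalso
      have h1 := hb1.mapsTo ha'
      have h2 := hb2.mapsTo ha
      simp only at haa h1 h2
      rw [← haa] at h1
      exact (Finset.disjoint_left.mp hY) h1 h2
    · exact hb2.injOn ha ha' haa
  · intro a ha
    by_cases h : a ∈ X₁
    · simp only [h, if_true]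
      have := l₁ a h
      omega
    · simp only [h, if_false]
      have := l₂ a ((Finset.mem_union.mp ha).resolve_left h)
      omega
  · intro a ha a' ha' hc
    by_cases h : a ∈ X₁ <;> by_cases h' : a' ∈ X₁
    · simp only [h, h', if_true] at hc ⊢
      exact o₁ a h a' h' hc
    · simp only [h, h', if_true, if_false] at hc
      have := l₁ a h
      omega
    · simp only [h, h', if_true, if_false] at hc
      have := l₁ a' h'
      omega
    · simp only [h, h', if_false] at hc ⊢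
      exact o₂ a ((Finset.mem_union.mp ha).resolve_left h) a'
        ((Finset.mem_union.mp ha').resolve_left h') (by omega)

lemma Cov.empty : Cov σ π ∅ ∅ 0 :=
  ⟨id, fun _ => 0, by simp, by simp, by simp⟩

lemma Cov.symm {X Y : Finset (Fin n)} {k : ℕ} (h : Cov σ π X Y k) : Cov π σ Y X k := by
  classical
  obtain ⟨g, c, b, l, o⟩ := h
  have hinv : ∀ y ∈ Y, ∃ x ∈ X, g x = y := fun y hy => by
    obtain ⟨x, hx, hxy⟩ := b.surjOn hy
    exact ⟨x, hx, hxy⟩
  choose! f hf hgf using hinv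
  refine ⟨f, fun y => c (f y), ?_, fun y hy => l _ (hf y hy), ?_⟩
  · refine ⟨fun y hy => hf y hy, ?_, ?_⟩
    · intro y hy y' hy' hyy
      rw [← hgf y hy, ← hgf y' hy', hyy]
    · intro x hx
      have hgx : g x ∈ Y := b.mapsTo hx
      refine ⟨g x, hgx, ?_⟩
      exact b.injOn (hf _ hgx) hx (hgf _ hgx)
  · intro y hy y' hy' hc
    have := o (f y) (hf y hy) (f y') (hf y' hy') hc
    rw [hgf y hy, hgf y' hy'] at this
    exact ⟨this.1.symm, this.2.symm⟩

/-- Matching everything by singletons. -/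
lemma Cov.singles {X Y : Finset (Fin n)} (h : X.card = Y.card) : Cov σ π X Y X.card := by
  classical
  obtain ⟨e⟩ : Nonempty (X ≃ Y) := by
    rw [← Fintype.card_eq]
    simpa using h
  refine ⟨fun a => if ha : a ∈ X then (e ⟨a, ha⟩ : Fin n) else a,
    fun a => if ha : a ∈ X then (X.equivFin ⟨a, ha⟩ : ℕ) else 0, ?_, ?_, ?_⟩
  · refine ⟨?_, ?_, ?_⟩
    · intro a ha
      have ha' : a ∈ X := ha
      simp only [ha', dif_pos]
      exact (e ⟨a, ha'⟩).2
    · intro a ha a' ha' haa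
      have h1 : a ∈ X := ha
      have h2 : a' ∈ X := ha'
      simp only [h1, h2, dif_pos] at haa
      have := e.injective (Subtype.ext haa)
      exact congrArg Subtype.val this
    · intro y hy
      refine ⟨(e.symm ⟨y, hy⟩ : Fin n), (e.symm ⟨y, hy⟩).2, ?_⟩
      have h1 : (e.symm ⟨y, hy⟩ : Fin n) ∈ X := (e.symm ⟨y, hy⟩).2
      simp only [h1, dif_pos]
      simp
  · intro a ha
    simp only [ha, dif_pos]
    exact (X.equivFin ⟨a, ha⟩).2
  · intro a ha a' ha' hc
    simp only [ha, ha', dif_pos] at hc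
    have h2 := X.equivFin.injective (Fin.ext hc)
    have h3 : a = a' := congrArg Subtype.val h2
    subst h3
    simp

/-- Reduction of a pair of index sets. -/
def Red (σ π : Equiv.Perm (Fin n)) (X Y X' Y' : Finset (Fin n)) (k : ℕ) : Prop :=
  X' ⊆ X ∧ Y' ⊆ Y ∧ Cov σ π (X \ X') (Y \ Y') k

lemma Red.refl (X Y : Finset (Fin n)) : Red σ π X Y X Y 0 := by
  refine ⟨subset_rfl, subset_rfl, ?_⟩
  simpa using (Cov.empty (σ := σ) (π := π))

lemma Red.mono {X Y X' Y' : Finset (Fin n)} {k k' : ℕ} (h : Red σ π X Y X' Y' k)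
    (hk : k ≤ k') : Red σ π X Y X' Y' k' := ⟨h.1, h.2.1, h.2.2.mono hk⟩

lemma Red.symm {X Y X' Y' : Finset (Fin n)} {k : ℕ} (h : Red σ π X Y X' Y' k) :
    Red π σ Y X Y' X' k := ⟨h.2.1, h.1, h.2.2.symm⟩

lemma Red.trans {X Y X' Y' X'' Y'' : Finset (Fin n)} {k k' : ℕ}
    (h : Red σ π X Y X' Y' k) (h' : Red σ π X' Y' X'' Y'' k') :
    Red σ π X Y X'' Y'' (k + k') := by
  classical
  refine ⟨h'.1.trans h.1, h'.2.1.trans h.2.1, ?_⟩
  have e1 : X \ X'' = (X \ X') ∪ (X' \ X'') := by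
    ext a
    have h1 := @h.1 a
    have h2 := @h'.1 a
    simp only [Finset.mem_sdiff, Finset.mem_union]
    tauto
  have e2 : Y \ Y'' = (Y \ Y') ∪ (Y' \ Y'') := by
    ext a
    have h1 := @h.2.1 a
    have h2 := @h'.2.1 a
    simp only [Finset.mem_sdiff, Finset.mem_union]
    tauto
  rw [e1, e2]
  refine h.2.2.union h'.2.2 ?_ ?_
  · rw [Finset.disjoint_left]
    intro a ha ha'
    simp only [Finset.mem_sdiff] at ha ha'
    exact ha.2 ha'.1
  · rw [Finset.disjoint_left]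
    intro a ha ha'
    simp only [Finset.mem_sdiff] at ha ha'
    exact ha.2 ha'.1

lemma Cov.card_eq {X Y : Finset (Fin n)} {k : ℕ} (h : Cov σ π X Y k) : X.card = Y.card := by
  obtain ⟨g, c, b, -, -⟩ := h
  classical
  have : Y = X.image g := by
    ext y
    constructor
    · intro hy
      obtain ⟨x, hx, hxy⟩ := b.surjOn hy
      exact Finset.mem_image.mpr ⟨x, hx, hxy⟩
    · intro hy
      obtain ⟨x, hx, hxy⟩ := Finset.mem_image.mp hy
      rw [← hxy]
      exact b.mapsTo hx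
  rw [this, Finset.card_image_of_injOn b.injOn]

lemma Red.card {X Y X' Y' : Finset (Fin n)} {k : ℕ} (h : Red σ π X Y X' Y' k) :
    X.card + Y'.card = Y.card + X'.card := by
  have h1 := h.2.2.card_eq
  rw [Finset.card_sdiff_of_subset h.1, Finset.card_sdiff_of_subset h.2.1] at h1
  have h2 := Finset.card_le_card h.1
  have h3 := Finset.card_le_card h.2.1
  omega

/-- Final form. -/
lemma Cov.final {k K : ℕ} (h : Cov σ π Finset.univ Finset.univ k) (hk : k ≤ K) :
    ∃ c : Fin n → Fin K, ∃ g : Equiv.Perm (Fin n), ∀ a a' : Fin n, c a = c a' →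
      ((a < a' ↔ g a < g a') ∧ (σ a < σ a' ↔ π (g a) < π (g a'))) := by
  obtain ⟨g, c, b, l, o⟩ := h
  have hg : Function.Bijective g := by
    constructor
    · intro a a' haa
      exact b.injOn (by simp) (by simp) haa
    · intro y
      obtain ⟨x, -, hx⟩ := b.surjOn (show y ∈ ((Finset.univ : Finset (Fin n)) : Set (Fin n)) by simp)
      exact ⟨x, hx⟩
  refine ⟨fun a => ⟨c a, lt_of_lt_of_le (l a (Finset.mem_univ a)) hk⟩,
    Equiv.ofBijective g hg, ?_⟩
  intro a a' hc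
  have := o a (Finset.mem_univ a) a' (Finset.mem_univ a') (Fin.ext_iff.mp hc)
  simpa using this

end Pool.Agent.Helper53.Sim
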