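import Mathlib
import Pool.Agent.Helper53.SimCov

set_option autoImplicit false

namespace Pool.Agent.Helper53.Sim

open Finset

section iso

variable {A : Type} [AddCommGroup A] [Fintype A] [DecidableEq A]

/-- Occupied cells `C` of the first family whose shift is occupied in the second family, and which
have no other such cell in the same column or row. -/
def iso (OX OY : Finset (A × A)) (v : A × A) : Finset (A × A) :=
  OX.filter (fun C => C + v ∈ OY ∧ ∀ C' ∈ OX, C' + v ∈ OY → C' ≠ C → C'.1 ≠ C.1 ∧ C'.2 ≠ C.2)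

lemma mem_iso {OX OY : Finset (A × A)} {v C : A × A} :
    C ∈ iso OX OY v ↔ C ∈ OX ∧ C + v ∈ OY ∧
      ∀ C' ∈ OX, C' + v ∈ OY → C' ≠ C → C'.1 ≠ C.1 ∧ C'.2 ≠ C.2 := by
  unfold iso
  rw [Finset.mem_filter]

lemma iso_count (OX OY : Finset (A × A)) (L R : ℕ) (C : A × A) (hC : C ∈ OX)
    (hL1 : (OX.filter (fun C' => C'.1 = C.1)).card ≤ L)
    (hL2 : (OX.filter (fun C' => C'.2 = C.2)).card ≤ L)
    (hR : ∀ v : A × A, v ≠ 0 → (OY.filter (fun D => D + v ∈ OY)).card ≤ R) :
    OY.card ≤ (Finset.univ.filter (fun v => C ∈ iso OX OY v)).card + 2 * L * R := by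
  classical
  have hcard : OY.card = (Finset.univ.filter (fun v : A × A => C + v ∈ OY)).card := by
    rw [← Finset.card_image_of_injective OY (f := fun D => D - C) (fun a b h => by simpa using h)]
    congr 1
    ext v
    simp only [Finset.mem_image, Finset.mem_filter, Finset.mem_univ, true_and]
    constructor
    · rintro ⟨D, hD, rfl⟩
      simpa using hD
    · intro h
      exact ⟨C + v, h, by simp⟩
  have hsub : (Finset.univ.filter (fun v : A × A => C + v ∈ OY)) ⊆
      (Finset.univ.filter (fun v => C ∈ iso OX OY v)) ∪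
      ((OX.filter (fun C' => C' ≠ C ∧ (C'.1 = C.1 ∨ C'.2 = C.2))).biUnion
        (fun C' => Finset.univ.filter (fun v : A × A => C + v ∈ OY ∧ C' + v ∈ OY))) := by
    intro v hv
    simp only [Finset.mem_filter, Finset.mem_univ, true_and] at hv
    by_cases hiso : C ∈ iso OX OY v
    · exact Finset.mem_union_left _ (by simp [hiso])
    · apply Finset.mem_union_right
      rw [mem_iso] at hiso
      push Not at hiso
      obtain ⟨C', h1, h2, h3, h4⟩ := hiso hC hv
      rw [Finset.mem_biUnion]
      refine ⟨C', ?_, ?_⟩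
      · rw [Finset.mem_filter]
        refine ⟨h1, h3, ?_⟩
        by_cases h5 : C'.1 = C.1
        · exact Or.inl h5
        · exact Or.inr (h4 h5)
      · simp [hv, h2]
  have hbad : ∀ C' ∈ OX.filter (fun C' => C' ≠ C ∧ (C'.1 = C.1 ∨ C'.2 = C.2)),
      (Finset.univ.filter (fun v : A × A => C + v ∈ OY ∧ C' + v ∈ OY)).card ≤ R := by
    intro C' hC'
    rw [Finset.mem_filter] at hC'
    have hne : C' - C ≠ 0 := sub_ne_zero.mpr hC'.2.1
    refine le_trans ?_ (hR (C' - C) hne)
    apply Finset.card_le_card_of_injOn (fun v => C + v)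
    · intro v hv
      simp only [Finset.coe_filter, Finset.mem_univ, true_and, Set.mem_ofPred_eq] at hv
      simp only [Finset.coe_filter, Set.mem_ofPred_eq]
      refine ⟨hv.1, ?_⟩
      have : C + v + (C' - C) = C' + v := by abel
      rw [this]; exact hv.2
    · intro a _ b _ h
      simpa using h
  have hcards : (OX.filter (fun C' => C' ≠ C ∧ (C'.1 = C.1 ∨ C'.2 = C.2))).card ≤ 2 * L := by
    calc (OX.filter (fun C' => C' ≠ C ∧ (C'.1 = C.1 ∨ C'.2 = C.2))).card
        ≤ ((OX.filter (fun C' => C'.1 = C.1)) ∪ (OX.filter (fun C' => C'.2 = C.2))).card := by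
          apply Finset.card_le_card
          intro C' hC'
          rw [Finset.mem_filter] at hC'
          rcases hC'.2.2 with h | h
          · exact Finset.mem_union_left _ (Finset.mem_filter.mpr ⟨hC'.1, h⟩)
          · exact Finset.mem_union_right _ (Finset.mem_filter.mpr ⟨hC'.1, h⟩)
      _ ≤ _ := Finset.card_union_le _ _
      _ ≤ 2 * L := by omega
  rw [hcard]
  refine (Finset.card_le_card hsub).trans ((Finset.card_union_le _ _).trans ?_)
  apply Nat.add_le_add_left
  refine (Finset.card_biUnion_le).trans ?_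
  refine (Finset.sum_le_card_nsmul _ _ R hbad).trans ?_
  rw [smul_eq_mul]
  exact Nat.mul_le_mul_right R hcards

end iso

variable {n : ℕ}

/-- The cell of the point with index `i` of the permutation `σ`, for strips of width `h`. -/
def cl (h N : ℕ) (σ : Equiv.Perm (Fin n)) (i : Fin n) : ZMod N × ZMod N :=
  ((((i : ℕ) / h : ℕ) : ZMod N), ((((σ i : Fin n) : ℕ) / h : ℕ) : ZMod N))

variable {σ π : Equiv.Perm (Fin n)} {h N : ℕ}

lemma strip_lt (hn : n ≤ N * h) (i : Fin n) : (i : ℕ) / h < N := by
  have hi : (i : ℕ) < N * h := lt_of_lt_of_le i.2 hn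
  exact Nat.div_lt_of_lt_mul (by rwa [mul_comm] at hi)

lemma cast_strip_val [NeZero N] (hn : n ≤ N * h) (i : Fin n) :
    ((((i : ℕ) / h : ℕ) : ZMod N)).val = (i : ℕ) / h :=
  ZMod.val_cast_of_lt (strip_lt hn i)

/-- order comparison along one coordinate -/
lemma order_aux [NeZero N] (hn : n ≤ N * h) (i i' j j' : Fin n) (a : ZMod N)
    (hj : ((((j : ℕ) / h : ℕ) : ZMod N)) = (((i : ℕ) / h : ℕ) : ZMod N) + a)
    (hj' : ((((j' : ℕ) / h : ℕ) : ZMod N)) = (((i' : ℕ) / h : ℕ) : ZMod N) + a)
    (hne : ((((i : ℕ) / h : ℕ) : ZMod N)) ≠ (((i' : ℕ) / h : ℕ) : ZMod N))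
    (hw : (N ≤ (i : ℕ) / h + a.val) ↔ (N ≤ (i' : ℕ) / h + a.val)) :
    (i < i' ↔ j < j') := by
  have hi := strip_lt hn i
  have hi' := strip_lt hn i'
  have ha := ZMod.val_lt a
  have e1 : (j : ℕ) / h = ((i : ℕ) / h + a.val) % N := by
    rw [← cast_strip_val hn j, hj, ZMod.val_add, cast_strip_val hn i]
  have e2 : (j' : ℕ) / h = ((i' : ℕ) / h + a.val) % N := by
    rw [← cast_strip_val hn j', hj', ZMod.val_add, cast_strip_val hn i']
  have hne' : (i : ℕ) / h ≠ (i' : ℕ) / h := fun h => hne (by rw [h])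
  -- comparison through strips
  have key : ∀ x y : Fin n, (x : ℕ) / h ≠ (y : ℕ) / h → (x < y ↔ (x : ℕ) / h < (y : ℕ) / h) := by
    intro x y hxy
    rw [Fin.lt_def]
    constructor
    · intro hlt
      exact lt_of_le_of_ne (Nat.div_le_div_right hlt.le) hxy
    · intro hlt
      by_contra hcon
      push Not at hcon
      exact absurd (Nat.div_le_div_right (c := h) hcon) (by omega)
  have hmod : ∀ x : ℕ, x < N → (x + a.val) % N = if N ≤ x + a.val then x + a.val - N else x + a.val := by
    intro x hx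
    split_ifs with hc
    · rw [Nat.mod_eq_sub_mod hc, Nat.mod_eq_of_lt (by omega)]
    · exact Nat.mod_eq_of_lt (by omega)
  rw [hmod _ hi] at e1
  rw [hmod _ hi'] at e2
  have hjne : (j : ℕ) / h ≠ (j' : ℕ) / h := by
    rw [e1, e2]
    by_cases hc : N ≤ (i : ℕ) / h + a.val
    · have hc' := hw.mp hc
      simp only [hc, hc', if_true]
      omega
    · have hc' := mt hw.mpr hc
      simp only [hc, hc', if_false]
      omega
  rw [key i i' hne', key j j' hjne, e1, e2]
  by_cases hc : N ≤ (i : ℕ) / h + a.val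
  · have hc' := hw.mp hc
    simp only [hc, hc', if_true]
    omega
  · have hc' := mt hw.mpr hc
    simp only [hc, hc', if_false]
    omega

lemma cov_of_offset [NeZero N] (hn : n ≤ N * h) (v : ZMod N × ZMod N)
    (X0 : Finset (Fin n)) (g : Fin n → Fin n) (hg : ∀ i ∈ X0, cl h N π (g i) = cl h N σ i + v)
    (hx : ∀ i ∈ X0, ∀ i' ∈ X0, i ≠ i' →
      (cl h N σ i).1 ≠ (cl h N σ i').1 ∧ (cl h N σ i).2 ≠ (cl h N σ i').2) :
    Cov σ π X0 (X0.image g) 4 := by
  classical
  have hinj : Set.InjOn g (X0 : Set (Fin n)) := by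
    intro i hi i' hi' hgg
    by_contra hne
    have h1 := (hx i hi i' hi' hne).1
    apply h1
    have h2 : cl h N σ i + v = cl h N σ i' + v := by rw [← hg i hi, ← hg i' hi', hgg]
    rw [add_right_cancel h2]
  refine ⟨g, fun i => 2 * (if N ≤ (i : ℕ) / h + v.1.val then 1 else 0) +
    (if N ≤ ((σ i : Fin n) : ℕ) / h + v.2.val then 1 else 0), ?_, ?_, ?_⟩
  · rw [Finset.coe_image]
    exact hinj.bijOn_image
  · intro a _
    dsimp only
    split_ifs <;> omega
  · intro a ha a' ha' hc
    by_cases haa : a = a'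
    · subst haa; simp
    have hw1 : (N ≤ (a : ℕ) / h + v.1.val) ↔ (N ≤ (a' : ℕ) / h + v.1.val) := by
      dsimp only at hc
      split_ifs at hc <;> omega
    have hw2 : (N ≤ ((σ a : Fin n) : ℕ) / h + v.2.val) ↔ (N ≤ ((σ a' : Fin n) : ℕ) / h + v.2.val) := by
      dsimp only at hc
      split_ifs at hc <;> omega
    have hxa := hx a ha a' ha' haa
    have hga := hg a ha
    have hga' := hg a' ha'
    constructor
    · exact order_aux hn a a' (g a) (g a') v.1 (congrArg Prod.fst hga) (congrArg Prod.fst hga')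
        hxa.1 hw1
    · exact order_aux hn (σ a) (σ a') (π (g a)) (π (g a')) v.2 (congrArg Prod.snd hga)
        (congrArg Prod.snd hga') hxa.2 hw2

/-- One class: the points in isolated coincident cells are matched. -/
lemma step [NeZero N] (hn : n ≤ N * h) (X Y : Finset (Fin n)) (v : ZMod N × ZMod N) :
    ∃ X' Y' : Finset (Fin n), Red σ π X Y X' Y' 4 ∧
      X'.card + (iso (X.image (cl h N σ)) (Y.image (cl h N π)) v).card = X.card ∧
      (∀ s, (X'.filter (fun i => (cl h N σ i).1 = s)).card +
        ((iso (X.image (cl h N σ)) (Y.image (cl h N π)) v).filter (fun C => C.1 = s)).card =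
        (X.filter (fun i => (cl h N σ i).1 = s)).card) ∧
      (∀ s, (X'.filter (fun i => (cl h N σ i).2 = s)).card +
        ((iso (X.image (cl h N σ)) (Y.image (cl h N π)) v).filter (fun C => C.2 = s)).card =
        (X.filter (fun i => (cl h N σ i).2 = s)).card) := by
  classical
  set OX := X.image (cl h N σ) with hOX
  set OY := Y.image (cl h N π) with hOY
  set M := iso OX OY v with hM
  have hp : ∀ C ∈ OX, ∃ i ∈ X, cl h N σ i = C := fun C hC => by
    simpa [hOX] using hC
  have hq : ∀ D ∈ OY, ∃ i ∈ Y, cl h N π i = D := fun D hD => by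
    simpa [hOY] using hD
  rcases isEmpty_or_nonempty (Fin n) with hemp | hnem
  · have hX : X = ∅ := Finset.eq_empty_of_isEmpty X
    have hMe : M = ∅ := by
      rw [hM, Finset.eq_empty_iff_forall_notMem]
      intro C hC
      rw [mem_iso] at hC
      obtain ⟨i, hi, -⟩ := hp C hC.1
      rw [hX] at hi
      simp at hi
    refine ⟨X, Y, (Red.refl X Y).mono (by omega), ?_, ?_, ?_⟩
    · rw [hMe]; simp
    · intro s; rw [hMe]; simp
    · intro s; rw [hMe]; simp
  choose! p hpX hpc using hp
  choose! q hqY hqc using hq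
  have hMX : ∀ C ∈ M, C ∈ OX := fun C hC => (mem_iso.mp hC).1
  have hMY : ∀ C ∈ M, C + v ∈ OY := fun C hC => (mem_iso.mp hC).2.1
  set X0 := M.image p with hX0
  set g : Fin n → Fin n := fun i => q (cl h N σ i + v) with hg
  have hX0mem : ∀ i ∈ X0, cl h N σ i ∈ M ∧ p (cl h N σ i) = i := by
    intro i hi
    rw [hX0, Finset.mem_image] at hi
    obtain ⟨C, hC, rfl⟩ := hi
    rw [hpc C (hMX C hC)]
    exact ⟨hC, rfl⟩
  have hpinj : Set.InjOn p (M : Set (ZMod N × ZMod N)) := by
    intro C hC C' hC' hCC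
    rw [← hpc C (hMX C hC), ← hpc C' (hMX C' hC'), hCC]
  have hX0X : X0 ⊆ X := by
    intro i hi
    obtain ⟨h1, h2⟩ := hX0mem i hi
    rw [← h2]
    exact hpX _ (hMX _ h1)
  have hY0Y : X0.image g ⊆ Y := by
    intro j hj
    rw [Finset.mem_image] at hj
    obtain ⟨i, hi, rfl⟩ := hj
    exact hqY _ (hMY _ (hX0mem i hi).1)
  have hcov : Cov σ π X0 (X0.image g) 4 := by
    apply cov_of_offset hn v
    · intro i hi
      exact hqc _ (hMY _ (hX0mem i hi).1)
    · intro i hi i' hi' hne
      obtain ⟨h1, h2⟩ := hX0mem i hi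
      obtain ⟨h1', h2'⟩ := hX0mem i' hi'
      have hcne : cl h N σ i ≠ cl h N σ i' := by
        intro hcc
        apply hne
        rw [← h2, ← h2', hcc]
      exact (mem_iso.mp h1').2.2 _ (hMX _ h1) (hMY _ h1) hcne
  refine ⟨X \ X0, Y \ (X0.image g), ⟨Finset.sdiff_subset, Finset.sdiff_subset, ?_⟩, ?_, ?_, ?_⟩
  · rw [Finset.sdiff_sdiff_eq_self hX0X, Finset.sdiff_sdiff_eq_self hY0Y]
    exact hcov
  · rw [Finset.card_sdiff_of_subset hX0X, hX0, Finset.card_image_of_injOn hpinj]
    have := Finset.card_le_card hX0X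
    rw [hX0, Finset.card_image_of_injOn hpinj] at this
    omega
  · intro s
    have e1 : (X0.filter (fun i => (cl h N σ i).1 = s)) = (M.filter (fun C => C.1 = s)).image p := by
      ext i
      simp only [Finset.mem_filter, Finset.mem_image]
      constructor
      · rintro ⟨hi, hs⟩
        obtain ⟨h1, h2⟩ := hX0mem i hi
        exact ⟨_, ⟨h1, hs⟩, h2⟩
      · rintro ⟨C, ⟨hC, hs⟩, rfl⟩
        refine ⟨Finset.mem_image_of_mem p hC, ?_⟩
        rw [hpc C (hMX C hC)]
        exact hs
    have e2 : ((M.filter (fun C => C.1 = s)).image p).card = (M.filter (fun C => C.1 = s)).card := by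
      apply Finset.card_image_of_injOn
      exact hpinj.mono (by
        intro C hC
        simp only [Finset.coe_filter, Set.mem_ofPred_eq] at hC
        exact hC.1)
    rw [← e2, ← e1]
    have e3 : (X \ X0).filter (fun i => (cl h N σ i).1 = s) =
        (X.filter (fun i => (cl h N σ i).1 = s)) \ (X0.filter (fun i => (cl h N σ i).1 = s)) := by
      ext i
      simp only [Finset.mem_filter, Finset.mem_sdiff]
      tauto
    rw [e3]
    have hsub : (X0.filter (fun i => (cl h N σ i).1 = s)) ⊆ (X.filter (fun i => (cl h N σ i).1 = s)) :=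
      Finset.filter_subset_filter _ hX0X
    rw [Finset.card_sdiff_of_subset hsub]
    have := Finset.card_le_card hsub
    omega
  · intro s
    have e1 : (X0.filter (fun i => (cl h N σ i).2 = s)) = (M.filter (fun C => C.2 = s)).image p := by
      ext i
      simp only [Finset.mem_filter, Finset.mem_image]
      constructor
      · rintro ⟨hi, hs⟩
        obtain ⟨h1, h2⟩ := hX0mem i hi
        exact ⟨_, ⟨h1, hs⟩, h2⟩
      · rintro ⟨C, ⟨hC, hs⟩, rfl⟩
        refine ⟨Finset.mem_image_of_mem p hC, ?_⟩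
        rw [hpc C (hMX C hC)]
        exact hs
    have e2 : ((M.filter (fun C => C.2 = s)).image p).card = (M.filter (fun C => C.2 = s)).card := by
      apply Finset.card_image_of_injOn
      exact hpinj.mono (by
        intro C hC
        simp only [Finset.coe_filter, Set.mem_ofPred_eq] at hC
        exact hC.1)
    rw [← e2, ← e1]
    have e3 : (X \ X0).filter (fun i => (cl h N σ i).2 = s) =
        (X.filter (fun i => (cl h N σ i).2 = s)) \ (X0.filter (fun i => (cl h N σ i).2 = s)) := by
      ext i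
      simp only [Finset.mem_filter, Finset.mem_sdiff]
      tauto
    rw [e3]
    have hsub : (X0.filter (fun i => (cl h N σ i).2 = s)) ⊆ (X.filter (fun i => (cl h N σ i).2 = s)) :=
      Finset.filter_subset_filter _ hX0X
    rw [Finset.card_sdiff_of_subset hsub]
    have := Finset.card_le_card hsub
    omega

end Pool.Agent.Helper53.Sim
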