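import Mathlib
import Pool.Agent.Helper53.SimStep

set_option autoImplicit false

namespace Pool.Agent.Helper53.Sim

open Finset

variable {n : ℕ} {σ π : Equiv.Perm (Fin n)} {h N : ℕ}

/-- number of points in a column -/
def ldx (h N : ℕ) (σ : Equiv.Perm (Fin n)) (X : Finset (Fin n)) (s : ZMod N) : ℕ :=
  (X.filter (fun i => (cl h N σ i).1 = s)).card

/-- number of points in a row -/
def ldy (h N : ℕ) (σ : Equiv.Perm (Fin n)) (X : Finset (Fin n)) (s : ZMod N) : ℕ :=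
  (X.filter (fun i => (cl h N σ i).2 = s)).card

/-- Quasi-randomness data at a fixed width. -/
structure Fixed (h N k R : ℕ) (σ π : Equiv.Perm (Fin n)) (Zσ Zπ : Finset (Fin n)) : Prop where
  hn : n ≤ N * h
  occσ : ∀ D, (Zσ.filter (fun i => cl h N σ i = D)).card ≤ k
  occπ : ∀ D, (Zπ.filter (fun i => cl h N π i = D)).card ≤ k
  auto : ∀ v : ZMod N × ZMod N, v ≠ 0 →
    ((Zπ.image (cl h N π)).filter (fun D => D + v ∈ Zπ.image (cl h N π))).card ≤ R

variable {k R : ℕ} {Zσ Zπ : Finset (Fin n)}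

lemma card_le_occ {S : Finset (Fin n)} (T : Finset (ZMod N × ZMod N)) (τ : Equiv.Perm (Fin n))
    (hocc : ∀ D, (S.filter (fun i => cl h N τ i = D)).card ≤ k)
    (hT : ∀ i ∈ S, cl h N τ i ∈ T) : S.card ≤ k * T.card := by
  classical
  have := Finset.card_le_mul_card_image_of_maps_to (s := S) (t := T) (f := cl h N τ) hT k
    (fun D _ => hocc D)
  exact this

lemma Fixed.count [NeZero N] (H : Fixed h N k R σ π Zσ Zπ) {X Y : Finset (Fin n)}
    (hY : Y ⊆ Zπ) {L ρ : ℕ} (hLx : ∀ s, ldx h N σ X s ≤ L)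
    (hLy : ∀ s, ldy h N σ X s ≤ L) (hρ : k * (ρ + 2 * L * R) ≤ Y.card) (hk : 0 < k)
    (C : ZMod N × ZMod N) (hC : C ∈ X.image (cl h N σ)) :
    ρ ≤ (Finset.univ.filter (fun v => C ∈ iso (X.image (cl h N σ)) (Y.image (cl h N π)) v)).card := by
  classical
  have h1 : Y.card ≤ k * (Y.image (cl h N π)).card := by
    apply card_le_occ (τ := π) (h := h)
    · intro D
      exact (Finset.card_le_card (Finset.filter_subset_filter _ hY)).trans (H.occπ D)
    · intro i hi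
      exact Finset.mem_image_of_mem _ hi
  have h2 : ρ + 2 * L * R ≤ (Y.image (cl h N π)).card := by
    have := hρ.trans h1
    exact Nat.le_of_mul_le_mul_left this hk
  have h3 := iso_count (X.image (cl h N σ)) (Y.image (cl h N π)) L R C hC ?_ ?_ ?_
  · omega
  · refine le_trans ?_ (hLx C.1)
    unfold ldx
    apply Finset.card_le_card_of_surjOn (cl h N σ)
    intro C' hC'
    simp only [Finset.coe_filter, Set.mem_ofPred_eq, Finset.mem_image] at hC'
    obtain ⟨⟨i, hi, rfl⟩, hs⟩ := hC'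
    exact ⟨i, by simp [hi, hs], rfl⟩
  · refine le_trans ?_ (hLy C.2)
    unfold ldy
    apply Finset.card_le_card_of_surjOn (cl h N σ)
    intro C' hC'
    simp only [Finset.coe_filter, Set.mem_ofPred_eq, Finset.mem_image] at hC'
    obtain ⟨⟨i, hi, rfl⟩, hs⟩ := hC'
    exact ⟨i, by simp [hi, hs], rfl⟩
  · intro v hv
    refine le_trans (Finset.card_le_card ?_) (H.auto v hv)
    intro D hD
    rw [Finset.mem_filter] at hD ⊢
    exact ⟨Finset.image_subset_image hY hD.1, Finset.image_subset_image hY hD.2⟩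

/-- double counting, restricted to the cells satisfying `p` -/
lemma double [NeZero N] (OX OY : Finset (ZMod N × ZMod N)) (p : ZMod N × ZMod N → Prop)
    [DecidablePred p] (ρ : ℕ)
    (hρ : ∀ C ∈ OX, ρ ≤ (Finset.univ.filter (fun v => C ∈ iso OX OY v)).card) :
    ρ * (OX.filter p).card ≤ ∑ v, ((iso OX OY v).filter p).card := by
  classical
  have h1 : ∀ v, ((iso OX OY v).filter p) = (OX.filter p).filter (fun C => C ∈ iso OX OY v) := by
    intro v
    ext C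
    simp only [Finset.mem_filter]
    constructor
    · rintro ⟨h1, h2⟩
      exact ⟨⟨(mem_iso.mp h1).1, h2⟩, h1⟩
    · rintro ⟨⟨_, h2⟩, h1⟩
      exact ⟨h1, h2⟩
  calc ρ * (OX.filter p).card = ∑ C ∈ OX.filter p, ρ := by rw [Finset.sum_const, smul_eq_mul, mul_comm]
    _ ≤ ∑ C ∈ OX.filter p, (Finset.univ.filter (fun v => C ∈ iso OX OY v)).card :=
        Finset.sum_le_sum (fun C hC => hρ C (Finset.mem_filter.mp hC).1)
    _ = ∑ v, ((OX.filter p).filter (fun C => C ∈ iso OX OY v)).card := by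
        simp only [Finset.card_filter]
        exact Finset.sum_comm
    _ = ∑ v, ((iso OX OY v).filter p).card := by
        refine Finset.sum_congr rfl (fun v _ => ?_)
        rw [h1 v]

lemma iso_col_le_one [NeZero N] {OX OY : Finset (ZMod N × ZMod N)} {v : ZMod N × ZMod N} (s : ZMod N) :
    ((iso OX OY v).filter (fun C => C.1 = s)).card ≤ 1 := by
  rw [Finset.card_le_one]
  intro C hC C' hC'
  rw [Finset.mem_filter] at hC hC'
  by_contra hne
  have h1 := mem_iso.mp hC.1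
  have h2 := mem_iso.mp hC'.1
  have := (h1.2.2 C' h2.1 h2.2.1 (Ne.symm hne)).1
  exact this (by rw [hC.2, hC'.2])

lemma iso_row_le_one [NeZero N] {OX OY : Finset (ZMod N × ZMod N)} {v : ZMod N × ZMod N} (s : ZMod N) :
    ((iso OX OY v).filter (fun C => C.2 = s)).card ≤ 1 := by
  rw [Finset.card_le_one]
  intro C hC C' hC'
  rw [Finset.mem_filter] at hC hC'
  by_contra hne
  have h1 := mem_iso.mp hC.1
  have h2 := mem_iso.mp hC'.1
  have := (h1.2.2 C' h2.1 h2.2.1 (Ne.symm hne)).2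
  exact this (by rw [hC.2, hC'.2])

/-- One step for shrinking. -/
lemma stepA [NeZero N] (H : Fixed h N k R σ π Zσ Zπ) {X Y : Finset (Fin n)}
    (hX : X ⊆ Zσ) (hY : Y ⊆ Zπ) {L ρ : ℕ} (hLx : ∀ s, ldx h N σ X s ≤ L)
    (hLy : ∀ s, ldy h N σ X s ≤ L) (hρ : k * (ρ + 2 * L * R) ≤ Y.card) (hk : 0 < k) :
    ∃ X' Y', Red σ π X Y X' Y' 4 ∧ ρ * X.card ≤ N ^ 2 * k * (X.card - X'.card) := by
  classical
  set OX := X.image (cl h N σ) with hOX
  set OY := Y.image (cl h N π) with hOY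
  have hcnt : ∀ C ∈ OX, ρ ≤ (Finset.univ.filter (fun v => C ∈ iso OX OY v)).card :=
    fun C hC => H.count hY hLx hLy hρ hk C hC
  have hd := double OX OY (fun _ => True) ρ hcnt
  simp only [Finset.filter_true] at hd
  have hXk : X.card ≤ k * OX.card := by
    apply card_le_occ (τ := σ) (h := h)
    · intro D
      exact (Finset.card_le_card (Finset.filter_subset_filter _ hX)).trans (H.occσ D)
    · intro i hi
      exact Finset.mem_image_of_mem _ hi
  -- choose the best offset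
  obtain ⟨v, -, hv⟩ := Finset.exists_max_image (Finset.univ : Finset (ZMod N × ZMod N))
    (fun v => (iso OX OY v).card) ⟨0, Finset.mem_univ _⟩
  have hsum : ∑ v, (iso OX OY v).card ≤ N ^ 2 * (iso OX OY v).card := by
    refine (Finset.sum_le_card_nsmul _ _ _ (fun w hw => hv w hw)).trans ?_
    rw [smul_eq_mul]
    apply Nat.mul_le_mul_right
    rw [Finset.card_univ, Fintype.card_prod, ZMod.card]
    exact le_of_eq (by ring)
  obtain ⟨X', Y', hred, hc, -, -⟩ := step (σ := σ) (π := π) H.hn X Y v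
  refine ⟨X', Y', hred, ?_⟩
  have hcc : X.card - X'.card = (iso OX OY v).card := by
    rw [hOX, hOY]; omega
  rw [hcc]
  calc ρ * X.card ≤ ρ * (k * OX.card) := Nat.mul_le_mul_left _ hXk
    _ = k * (ρ * OX.card) := by ring
    _ ≤ k * (N ^ 2 * (iso OX OY v).card) := Nat.mul_le_mul_left _ (hd.trans hsum)
    _ = N ^ 2 * k * (iso OX OY v).card := by ring

lemma ldx_mono {X X' : Finset (Fin n)} (hXX : X' ⊆ X) (s : ZMod N) :
    ldx h N σ X' s ≤ ldx h N σ X s :=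
  Finset.card_le_card (Finset.filter_subset_filter _ hXX)

lemma ldy_mono {X X' : Finset (Fin n)} (hXX : X' ⊆ X) (s : ZMod N) :
    ldy h N σ X' s ≤ ldy h N σ X s :=
  Finset.card_le_card (Finset.filter_subset_filter _ hXX)

/-- Shrinking two sets of equal size until they have fewer than `θ` elements. -/
lemma lemmaA [NeZero N] (H : Fixed h N k R σ π Zσ Zπ) {L ρ θ : ℕ} (hk : 0 < k)
    (hρ : k * (ρ + 2 * L * R) ≤ θ) (hρ0 : 0 < ρ) (hθ0 : 0 < θ) :
    ∀ (m : ℕ) (X Y : Finset (Fin n)), X.card = m → X ⊆ Zσ → Y ⊆ Zπ → X.card = Y.card →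
    (∀ s, ldx h N σ X s ≤ L) → (∀ s, ldy h N σ X s ≤ L) →
    ∃ X' Y' K, Red σ π X Y X' Y' K ∧ X'.card < θ ∧ K * (ρ * θ) ≤ 4 * N ^ 2 * k * X.card := by
  intro m
  induction m using Nat.strong_induction_on with
  | _ m ih =>
    intro X Y hm hX hY hXY hLx hLy
    by_cases hlt : X.card < θ
    · exact ⟨X, Y, 0, Red.refl X Y, hlt, by simp⟩
    push Not at hlt
    obtain ⟨X1, Y1, hred, hcard⟩ := stepA H hX hY hLx hLy (hρ.trans (hXY ▸ hlt)) hk
    have hle : X1.card ≤ X.card := Finset.card_le_card hred.1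
    have hpos : 0 < ρ * X.card := Nat.mul_pos hρ0 (lt_of_lt_of_le hθ0 hlt)
    have hlt1 : X1.card < X.card := by
      rcases Nat.lt_or_ge X1.card X.card with h | h
      · exact h
      · exfalso
        have : X.card - X1.card = 0 := by omega
        rw [this, mul_zero] at hcard
        omega
    obtain ⟨X', Y', K, hred', hlt', hK⟩ := ih X1.card (by omega) X1 Y1 rfl (hred.1.trans hX)
      (hred.2.1.trans hY) (by have := hred.card; omega)
      (fun s => (ldx_mono hred.1 s).trans (hLx s)) (fun s => (ldy_mono hred.1 s).trans (hLy s))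
    refine ⟨X', Y', 4 + K, hred.trans hred', hlt', ?_⟩
    have h1 : ρ * θ ≤ N ^ 2 * k * (X.card - X1.card) :=
      (Nat.mul_le_mul_left _ hlt).trans hcard
    calc (4 + K) * (ρ * θ) = 4 * (ρ * θ) + K * (ρ * θ) := by ring
      _ ≤ 4 * (N ^ 2 * k * (X.card - X1.card)) + 4 * N ^ 2 * k * X1.card :=
          Nat.add_le_add (Nat.mul_le_mul_left _ h1) hK
      _ = 4 * N ^ 2 * k * ((X.card - X1.card) + X1.card) := by ring
      _ = 4 * N ^ 2 * k * X.card := by rw [Nat.sub_add_cancel hle]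

/-- Iteration of steps decreasing a real potential. -/
lemma iterate (F : Finset (Fin n) → ℝ) (q : ℝ) (hq : 0 ≤ q)
    (P : Finset (Fin n) → Finset (Fin n) → Prop)
    (hstep : ∀ X Y, P X Y → ∃ X' Y', Red σ π X Y X' Y' 4 ∧ P X' Y' ∧ F X' ≤ q * F X) :
    ∀ (c : ℕ) (X Y : Finset (Fin n)), P X Y →
      ∃ X' Y', Red σ π X Y X' Y' (4 * c) ∧ P X' Y' ∧ F X' ≤ q ^ c * F X := by
  intro c
  induction c with
  | zero =>
    intro X Y hP
    exact ⟨X, Y, Red.refl X Y, hP, by simp⟩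
  | succ c ih =>
    intro X Y hP
    obtain ⟨X1, Y1, h1, h2, h3⟩ := ih X Y hP
    obtain ⟨X2, Y2, h4, h5, h6⟩ := hstep X1 Y1 h2
    refine ⟨X2, Y2, (h1.trans h4).mono (by omega), h5, h6.trans ?_⟩
    calc q * F X1 ≤ q * (q ^ c * F X) := mul_le_mul_of_nonneg_left h3 hq
      _ = q ^ (c + 1) * F X := by ring

/-- The exponential potential. -/
noncomputable def pot (h N : ℕ) [NeZero N] (σ : Equiv.Perm (Fin n)) (X : Finset (Fin n)) : ℝ :=
  ∑ s : ZMod N, (2 : ℝ) ^ (ldx h N σ X s) + ∑ s : ZMod N, (2 : ℝ) ^ (ldy h N σ X s)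

lemma pow_sub_le (a m : ℕ) (b : ℕ) (hm : m ≤ 1) (hab : b + m = a) :
    (2 : ℝ) ^ b = (2 : ℝ) ^ a * (1 - (m : ℝ) / 2) := by
  have : m = 0 ∨ m = 1 := by omega
  rcases this with rfl | rfl
  · simp at hab; subst hab; simp
  · subst hab; rw [pow_succ]; push_cast; ring

/-- The averaged potential of one strip. -/
lemma strip_avg {V : Type} [Fintype V] (a : ℕ) (b m : V → ℕ) (hm : ∀ v, m v ≤ 1)
    (hb : ∀ v, b v + m v = a) (k ρ ℓ : ℕ) (hk : 0 < k) (hsum : ρ * a ≤ k * ∑ v, m v) :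
    ∑ v, (2 : ℝ) ^ (b v) ≤ (2 : ℝ) ^ a * ((Fintype.card V : ℝ) - ρ * ℓ / (2 * k)) +
      2 ^ ℓ * (ρ * ℓ / (2 * k)) := by
  have hk' : (0 : ℝ) < k := by exact_mod_cast hk
  have h1 : ∑ v, (2 : ℝ) ^ (b v) = (2 : ℝ) ^ a * ((Fintype.card V : ℝ) - (∑ v, (m v : ℝ)) / 2) := by
    rw [Finset.sum_congr rfl (fun v _ => pow_sub_le a (m v) (b v) (hm v) (hb v)),
      ← Finset.mul_sum, Finset.sum_sub_distrib, Finset.sum_const, Finset.card_univ,
      ← Finset.sum_div]
    simp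
  have h2 : (ρ : ℝ) * a / k ≤ ∑ v, (m v : ℝ) := by
    rw [div_le_iff₀ hk']
    have : ((ρ * a : ℕ) : ℝ) ≤ ((k * ∑ v, m v : ℕ) : ℝ) := by exact_mod_cast hsum
    push_cast at this
    linarith
  have hpa : (0 : ℝ) < 2 ^ a := by positivity
  have hpl : (0 : ℝ) < 2 ^ ℓ := by positivity
  have hD : (0 : ℝ) ≤ ρ * ℓ / (2 * k) := by positivity
  rw [h1]
  have h3 : (2 : ℝ) ^ a * ((Fintype.card V : ℝ) - (∑ v, (m v : ℝ)) / 2) ≤
      (2 : ℝ) ^ a * ((Fintype.card V : ℝ) - ρ * a / (2 * k)) := by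
    apply mul_le_mul_of_nonneg_left _ hpa.le
    have : (ρ : ℝ) * a / (2 * k) = (ρ : ℝ) * a / k / 2 := by
      rw [div_div, mul_comm (2 : ℝ)]
    rw [this]
    linarith
  refine h3.trans ?_
  by_cases hal : ℓ ≤ a
  · have hla : (ℓ : ℝ) ≤ a := by exact_mod_cast hal
    have h4 : (ρ : ℝ) * ℓ / (2 * k) ≤ ρ * a / (2 * k) := by
      gcongr
    have h5 : (2 : ℝ) ^ a * ((Fintype.card V : ℝ) - ρ * a / (2 * k)) ≤
        (2 : ℝ) ^ a * ((Fintype.card V : ℝ) - ρ * ℓ / (2 * k)) :=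
      mul_le_mul_of_nonneg_left (by linarith) hpa.le
    have h6 : 0 ≤ (2 : ℝ) ^ ℓ * (ρ * ℓ / (2 * k)) := by positivity
    linarith
  · push Not at hal
    have h4 : (2 : ℝ) ^ a ≤ 2 ^ ℓ := pow_le_pow_right₀ (by norm_num) hal.le
    have h5 : (2 : ℝ) ^ a * (ρ * ℓ / (2 * k)) ≤ 2 ^ ℓ * (ρ * ℓ / (2 * k)) :=
      mul_le_mul_of_nonneg_right h4 hD
    have h6 : 0 ≤ (2 : ℝ) ^ a * (ρ * a / (2 * k)) := by positivity
    nlinarith

lemma ldx_le_occ {X : Finset (Fin n)} (hX : X ⊆ Zσ)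
    (hocc : ∀ D, (Zσ.filter (fun i => cl h N σ i = D)).card ≤ k) (s : ZMod N) :
    ldx h N σ X s ≤ k * ((X.image (cl h N σ)).filter (fun C => C.1 = s)).card := by
  classical
  unfold ldx
  apply card_le_occ (τ := σ) (h := h)
  · intro D
    refine (Finset.card_le_card (Finset.filter_subset_filter _ ?_)).trans (hocc D)
    exact (Finset.filter_subset _ _).trans hX
  · intro i hi
    rw [Finset.mem_filter] at hi ⊢
    exact ⟨Finset.mem_image_of_mem _ hi.1, hi.2⟩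

lemma ldy_le_occ {X : Finset (Fin n)} (hX : X ⊆ Zσ)
    (hocc : ∀ D, (Zσ.filter (fun i => cl h N σ i = D)).card ≤ k) (s : ZMod N) :
    ldy h N σ X s ≤ k * ((X.image (cl h N σ)).filter (fun C => C.2 = s)).card := by
  classical
  unfold ldy
  apply card_le_occ (τ := σ) (h := h)
  · intro D
    refine (Finset.card_le_card (Finset.filter_subset_filter _ ?_)).trans (hocc D)
    exact (Finset.filter_subset _ _).trans hX
  · intro i hi
    rw [Finset.mem_filter] at hi ⊢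
    exact ⟨Finset.mem_image_of_mem _ hi.1, hi.2⟩

/-- One step for the exponential potential. -/
lemma stepB [NeZero N] (H : Fixed h N k R σ π Zσ Zπ) {X Y : Finset (Fin n)}
    (hX : X ⊆ Zσ) (hY : Y ⊆ Zπ) {L ρ ℓ : ℕ} (hLx : ∀ s, ldx h N σ X s ≤ L)
    (hLy : ∀ s, ldy h N σ X s ≤ L) (hρ : k * (ρ + 2 * L * R) ≤ Y.card) (hk : 0 < k) :
    ∃ X' Y', Red σ π X Y X' Y' 4 ∧
      pot h N σ X' - 2 * N * 2 ^ ℓ ≤
        (1 - (ρ : ℝ) * ℓ / (2 * k) / (N : ℝ) ^ 2) * (pot h N σ X - 2 * N * 2 ^ ℓ) := by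
  classical
  set OX := X.image (cl h N σ) with hOX
  set OY := Y.image (cl h N π) with hOY
  have hcnt : ∀ C ∈ OX, ρ ≤ (Finset.univ.filter (fun v => C ∈ iso OX OY v)).card :=
    fun C hC => H.count hY hLx hLy hρ hk C hC
  have hst := fun v => step (σ := σ) (π := π) H.hn X Y v
  choose X' Y' hred hc hx hy using hst
  set D : ℝ := (ρ : ℝ) * ℓ / (2 * k) with hD
  have hN : (0 : ℝ) < (N : ℝ) ^ 2 := by
    have : 0 < N := Nat.pos_of_ne_zero (NeZero.ne N)
    positivity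
  have hV : (Fintype.card (ZMod N × ZMod N) : ℝ) = (N : ℝ) ^ 2 := by
    rw [Fintype.card_prod, ZMod.card]; push_cast; ring
  have hcol : ∀ s : ZMod N, ∑ v, (2 : ℝ) ^ (ldx h N σ (X' v) s) ≤
      (2 : ℝ) ^ (ldx h N σ X s) * ((N : ℝ) ^ 2 - D) + 2 ^ ℓ * D := by
    intro s
    have hd := double OX OY (fun C => C.1 = s) ρ hcnt
    have := strip_avg (V := ZMod N × ZMod N) (ldx h N σ X s) (fun v => ldx h N σ (X' v) s)
      (fun v => ((iso OX OY v).filter (fun C : ZMod N × ZMod N => C.1 = s)).card)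
      (fun v => iso_col_le_one s)
      (fun v => hx v s) k ρ ℓ hk ?_
    · rw [hV] at this
      exact this
    · calc ρ * ldx h N σ X s ≤ ρ * (k * (OX.filter (fun C => C.1 = s)).card) :=
            Nat.mul_le_mul_left _ (ldx_le_occ hX H.occσ s)
        _ = k * (ρ * (OX.filter (fun C => C.1 = s)).card) := by ring
        _ ≤ _ := Nat.mul_le_mul_left _ hd
  have hrow : ∀ s : ZMod N, ∑ v, (2 : ℝ) ^ (ldy h N σ (X' v) s) ≤
      (2 : ℝ) ^ (ldy h N σ X s) * ((N : ℝ) ^ 2 - D) + 2 ^ ℓ * D := by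
    intro s
    have hd := double OX OY (fun C => C.2 = s) ρ hcnt
    have := strip_avg (V := ZMod N × ZMod N) (ldy h N σ X s) (fun v => ldy h N σ (X' v) s)
      (fun v => ((iso OX OY v).filter (fun C : ZMod N × ZMod N => C.2 = s)).card)
      (fun v => iso_row_le_one s)
      (fun v => hy v s) k ρ ℓ hk ?_
    · rw [hV] at this
      exact this
    · calc ρ * ldy h N σ X s ≤ ρ * (k * (OX.filter (fun C => C.2 = s)).card) :=
            Nat.mul_le_mul_left _ (ldy_le_occ hX H.occσ s)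
        _ = k * (ρ * (OX.filter (fun C => C.2 = s)).card) := by ring
        _ ≤ _ := Nat.mul_le_mul_left _ hd
  have hpot : ∑ v, pot h N σ (X' v) ≤ ((N : ℝ) ^ 2 - D) * pot h N σ X + 2 * N * 2 ^ ℓ * D := by
    unfold pot
    have hs1 : ∑ v, ∑ s, (2 : ℝ) ^ (ldx h N σ (X' v) s) = ∑ s, ∑ v, (2 : ℝ) ^ (ldx h N σ (X' v) s) :=
      Finset.sum_comm
    have hs2 : ∑ v, ∑ s, (2 : ℝ) ^ (ldy h N σ (X' v) s) = ∑ s, ∑ v, (2 : ℝ) ^ (ldy h N σ (X' v) s) :=
      Finset.sum_comm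
    rw [Finset.sum_add_distrib, hs1, hs2]
    have h1 := Finset.sum_le_sum (fun s (_ : s ∈ (Finset.univ : Finset (ZMod N))) => hcol s)
    have h2 := Finset.sum_le_sum (fun s (_ : s ∈ (Finset.univ : Finset (ZMod N))) => hrow s)
    rw [Finset.sum_add_distrib, ← Finset.sum_mul, Finset.sum_const, Finset.card_univ, ZMod.card,
      nsmul_eq_mul] at h1 h2
    linarith [h1, h2]
  have hfin : ∑ v, (pot h N σ (X' v) - 2 * N * 2 ^ ℓ) ≤
      ∑ _v : ZMod N × ZMod N, (1 - D / (N : ℝ) ^ 2) * (pot h N σ X - 2 * N * 2 ^ ℓ) := by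
    rw [Finset.sum_sub_distrib, Finset.sum_const, Finset.sum_const, Finset.card_univ,
      nsmul_eq_mul, nsmul_eq_mul, hV]
    have : (N : ℝ) ^ 2 * ((1 - D / (N : ℝ) ^ 2) * (pot h N σ X - 2 * N * 2 ^ ℓ)) =
        ((N : ℝ) ^ 2 - D) * (pot h N σ X - 2 * N * 2 ^ ℓ) := by
      have hN0 : (N : ℝ) ^ 2 ≠ 0 := hN.ne'
      have : (N : ℝ) ^ 2 * (D / (N : ℝ) ^ 2) = D := by
        rw [mul_div_assoc', mul_div_cancel_left₀ _ hN0]
      calc (N : ℝ) ^ 2 * ((1 - D / (N : ℝ) ^ 2) * (pot h N σ X - 2 * N * 2 ^ ℓ))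
          = ((N : ℝ) ^ 2 - (N : ℝ) ^ 2 * (D / (N : ℝ) ^ 2)) * (pot h N σ X - 2 * N * 2 ^ ℓ) := by ring
        _ = _ := by rw [this]
    rw [this]
    linarith
  obtain ⟨v, -, hv⟩ := Finset.exists_le_of_sum_le ⟨0, Finset.mem_univ _⟩ hfin
  exact ⟨X' v, Y' v, hred v, hv⟩

end Pool.Agent.Helper53.Sim
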