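import Mathlib
import Pool.Agent.Helper53.SimFix

set_option autoImplicit false

namespace Pool.Agent.Helper53.Sim

open Finset

variable {n : ℕ} {σ π : Equiv.Perm (Fin n)} {h N k R : ℕ} {Zσ Zπ : Finset (Fin n)}

lemma pot_nonneg [NeZero N] (X : Finset (Fin n)) : 0 ≤ pot h N σ X := by
  unfold pot
  positivity

lemma ldx_pot [NeZero N] (X : Finset (Fin n)) (s : ZMod N) :
    (2 : ℝ) ^ (ldx h N σ X s) ≤ pot h N σ X := by
  unfold pot
  have h1 : (2 : ℝ) ^ (ldx h N σ X s) ≤ ∑ s : ZMod N, (2 : ℝ) ^ (ldx h N σ X s) :=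
    Finset.single_le_sum (f := fun s => (2 : ℝ) ^ (ldx h N σ X s)) (fun _ _ => by positivity)
      (Finset.mem_univ s)
  have h2 : 0 ≤ ∑ s : ZMod N, (2 : ℝ) ^ (ldy h N σ X s) := by positivity
  linarith

lemma ldy_pot [NeZero N] (X : Finset (Fin n)) (s : ZMod N) :
    (2 : ℝ) ^ (ldy h N σ X s) ≤ pot h N σ X := by
  unfold pot
  have h1 : (2 : ℝ) ^ (ldy h N σ X s) ≤ ∑ s : ZMod N, (2 : ℝ) ^ (ldy h N σ X s) :=
    Finset.single_le_sum (f := fun s => (2 : ℝ) ^ (ldy h N σ X s)) (fun _ _ => by positivity)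
      (Finset.mem_univ s)
  have h2 : 0 ≤ ∑ s : ZMod N, (2 : ℝ) ^ (ldx h N σ X s) := by positivity
  linarith

lemma pot_le [NeZero N] (X : Finset (Fin n)) (L : ℕ) (hLx : ∀ s, ldx h N σ X s ≤ L)
    (hLy : ∀ s, ldy h N σ X s ≤ L) : pot h N σ X ≤ 2 * N * 2 ^ L := by
  unfold pot
  have h1 : ∑ s : ZMod N, (2 : ℝ) ^ (ldx h N σ X s) ≤ ∑ _s : ZMod N, (2 : ℝ) ^ L :=
    Finset.sum_le_sum (fun s _ => pow_le_pow_right₀ (by norm_num) (hLx s))
  have h2 : ∑ s : ZMod N, (2 : ℝ) ^ (ldy h N σ X s) ≤ ∑ _s : ZMod N, (2 : ℝ) ^ L :=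
    Finset.sum_le_sum (fun s _ => pow_le_pow_right₀ (by norm_num) (hLy s))
  rw [Finset.sum_const, Finset.card_univ, ZMod.card, nsmul_eq_mul] at h1 h2
  linarith

/-- One stage: the loads of all strips go down by a factor `8`. -/
lemma stage [NeZero N] (H : Fixed h N k R σ π Zσ Zπ) {X Y : Finset (Fin n)}
    (hX : X ⊆ Zσ) (hY : Y ⊆ Zπ) {ρ ℓ c : ℕ} (hLx : ∀ s, ldx h N σ X s ≤ 16 * ℓ)
    (hLy : ∀ s, ldy h N σ X s ≤ 16 * ℓ) (hρ : X.card + k * (ρ + 2 * (16 * ℓ) * R) ≤ Y.card)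
    (hk : 0 < k) (hN : 4 * N ≤ 2 ^ ℓ) (hc : 32 * k * N ^ 2 ≤ c * ρ)
    (hδ : ρ * ℓ ≤ 2 * k * N ^ 2) :
    ∃ X' Y', Red σ π X Y X' Y' (4 * c) ∧ (∀ s, ldx h N σ X' s ≤ 2 * ℓ) ∧
      (∀ s, ldy h N σ X' s ≤ 2 * ℓ) := by
  have hNpos : 0 < N := Nat.pos_of_ne_zero (NeZero.ne N)
  have hNr : (0 : ℝ) < N := by exact_mod_cast hNpos
  have hkr : (0 : ℝ) < k := by exact_mod_cast hk
  set δ : ℝ := (ρ : ℝ) * ℓ / (2 * k) / (N : ℝ) ^ 2 with hδdef
  have hδ1 : δ ≤ 1 := by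
    rw [hδdef, div_div, div_le_one (by positivity)]
    have : ((ρ * ℓ : ℕ) : ℝ) ≤ ((2 * k * N ^ 2 : ℕ) : ℝ) := by exact_mod_cast hδ
    push_cast at this
    exact this
  obtain ⟨X', Y', hred, -, hF⟩ := iterate (σ := σ) (π := π)
    (fun X1 => pot h N σ X1 - 2 * N * 2 ^ ℓ) (1 - δ) (by linarith)
    (fun X1 Y1 => X1 ⊆ X ∧ Y1 ⊆ Y ∧ X.card + Y1.card = Y.card + X1.card)
    (by
      rintro X1 Y1 ⟨h1, h2, h3⟩
      obtain ⟨X2, Y2, hr, hp⟩ := stepB (ℓ := ℓ) (ρ := ρ) (L := 16 * ℓ) H (h1.trans hX) (h2.trans hY)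
        (fun s => (ldx_mono h1 s).trans (hLx s)) (fun s => (ldy_mono h1 s).trans (hLy s))
        (by omega) hk
      refine ⟨X2, Y2, hr, ⟨hr.1.trans h1, hr.2.1.trans h2, ?_⟩, hp⟩
      have := hr.card
      omega) c X Y ⟨subset_rfl, subset_rfl, rfl.trans (by ring)⟩
  refine ⟨X', Y', hred, ?_⟩
  have hq : (1 - δ) ^ c ≤ (2 : ℝ) ^ (-(16 * ℓ : ℝ)) := by
    have h1 : (1 - δ) ^ c ≤ (Real.exp (-δ)) ^ c := by
      apply pow_le_pow_left₀ (by linarith)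
      have := Real.add_one_le_exp (-δ)
      linarith
    have h2 : (Real.exp (-δ)) ^ c = Real.exp (-(δ * c)) := by
      rw [← Real.exp_nat_mul]; ring_nf
    have h3 : (16 * ℓ : ℝ) ≤ δ * c := by
      rw [hδdef, div_div, div_mul_eq_mul_div, le_div_iff₀ (by positivity)]
      have : ((32 * k * N ^ 2 : ℕ) : ℝ) ≤ ((c * ρ : ℕ) : ℝ) := by exact_mod_cast hc
      push_cast at this
      have h0 : (0 : ℝ) ≤ ℓ := by positivity
      nlinarith
    rw [h2] at h1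
    refine h1.trans ?_
    rw [Real.rpow_def_of_pos (by norm_num)]
    apply Real.exp_le_exp.mpr
    have hl2 : Real.log 2 ≤ 1 := by
      have := Real.log_two_lt_d9
      linarith
    have h0 : (0 : ℝ) ≤ 16 * ℓ := by positivity
    nlinarith
  have hpotX : pot h N σ X ≤ 2 * N * 2 ^ (16 * ℓ) := pot_le X _ hLx hLy
  have hF' : pot h N σ X' - 2 * N * 2 ^ ℓ ≤ 2 * N := by
    refine hF.trans ?_
    have hq0 : 0 ≤ (1 - δ) ^ c := pow_nonneg (by linarith) c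
    calc (1 - δ) ^ c * (pot h N σ X - 2 * N * 2 ^ ℓ)
        ≤ (1 - δ) ^ c * (2 * N * 2 ^ (16 * ℓ)) := by
          apply mul_le_mul_of_nonneg_left _ hq0
          have : (0 : ℝ) ≤ 2 * N * 2 ^ ℓ := by positivity
          linarith
      _ ≤ (2 : ℝ) ^ (-(16 * ℓ : ℝ)) * (2 * N * 2 ^ (16 * ℓ)) := by
          apply mul_le_mul_of_nonneg_right hq (by positivity)
      _ = 2 * N := by
          have : (2 : ℝ) ^ (-(16 * ℓ : ℝ)) * 2 ^ (16 * ℓ) = 1 := by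
            rw [← Real.rpow_natCast 2 (16 * ℓ), ← Real.rpow_add (by norm_num)]
            push_cast
            simp
          calc (2 : ℝ) ^ (-(16 * ℓ : ℝ)) * (2 * N * 2 ^ (16 * ℓ)) =
              ((2 : ℝ) ^ (-(16 * ℓ : ℝ)) * 2 ^ (16 * ℓ)) * (2 * N) := by ring
            _ = 2 * N := by rw [this, one_mul]
  have hNr' : (4 * N : ℝ) ≤ 2 ^ ℓ := by exact_mod_cast hN
  have hfin : pot h N σ X' ≤ 2 ^ (2 * ℓ) := by
    have h1 : (1 : ℝ) ≤ 2 ^ ℓ := one_le_pow₀ (by norm_num)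
    have h2 : (2 : ℝ) ^ (2 * ℓ) = 2 ^ ℓ * 2 ^ ℓ := by rw [two_mul, pow_add]
    rw [h2]
    nlinarith
  constructor
  · intro s
    have := (ldx_pot (h := h) (σ := σ) X' s).trans hfin
    exact (pow_le_pow_iff_right₀ (by norm_num : (1 : ℝ) < 2)).mp this
  · intro s
    have := (ldy_pot (h := h) (σ := σ) X' s).trans hfin
    exact (pow_le_pow_iff_right₀ (by norm_num : (1 : ℝ) < 2)).mp this

/-- Endgame: everything is matched. -/
lemma endgame [NeZero N] (H : Fixed h N k R σ π Zσ Zπ) {X Y : Finset (Fin n)}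
    (hX : X ⊆ Zσ) (hY : Y ⊆ Zπ) {L ρ M c : ℕ} (hLx : ∀ s, ldx h N σ X s ≤ L)
    (hLy : ∀ s, ldy h N σ X s ≤ L) (hρ : X.card + k * (ρ + 2 * L * R) ≤ Y.card)
    (hk : 0 < k) (hM : X.card < 2 ^ M) (hc : k * N ^ 2 * M ≤ c * ρ) (hδ : ρ ≤ k * N ^ 2) :
    ∃ Y', Red σ π X Y ∅ Y' (4 * c) := by
  have hNpos : 0 < N := Nat.pos_of_ne_zero (NeZero.ne N)
  have hNr : (0 : ℝ) < N := by exact_mod_cast hNpos
  have hkr : (0 : ℝ) < k := by exact_mod_cast hk
  set δ : ℝ := (ρ : ℝ) / (k * (N : ℝ) ^ 2) with hδdef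
  have hδ1 : δ ≤ 1 := by
    rw [hδdef, div_le_one (by positivity)]
    exact_mod_cast hδ
  obtain ⟨X', Y', hred, -, hF⟩ := iterate (σ := σ) (π := π)
    (fun X1 => (X1.card : ℝ)) (1 - δ) (by linarith)
    (fun X1 Y1 => X1 ⊆ X ∧ Y1 ⊆ Y ∧ X.card + Y1.card = Y.card + X1.card)
    (by
      rintro X1 Y1 ⟨h1, h2, h3⟩
      obtain ⟨X2, Y2, hr, hp⟩ := stepA (ρ := ρ) (L := L) H (h1.trans hX) (h2.trans hY)
        (fun s => (ldx_mono h1 s).trans (hLx s)) (fun s => (ldy_mono h1 s).trans (hLy s))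
        (by omega) hk
      refine ⟨X2, Y2, hr, ⟨hr.1.trans h1, hr.2.1.trans h2, ?_⟩, ?_⟩
      · have := hr.card
        omega
      · have hle := Finset.card_le_card hr.1
        have hp' : (ρ : ℝ) * X1.card ≤ (N : ℝ) ^ 2 * k * ((X1.card : ℝ) - X2.card) := by
          have : ((ρ * X1.card : ℕ) : ℝ) ≤ ((N ^ 2 * k * (X1.card - X2.card) : ℕ) : ℝ) := by
            exact_mod_cast hp
          push_cast [Nat.cast_sub hle] at this
          exact this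
        have hpos : (0 : ℝ) < k * (N : ℝ) ^ 2 := by positivity
        have h4 : δ * X1.card ≤ (X1.card : ℝ) - X2.card := by
          rw [hδdef, div_mul_eq_mul_div, div_le_iff₀ hpos]
          linarith
        show (X2.card : ℝ) ≤ (1 - δ) * X1.card
        linarith) c X Y ⟨subset_rfl, subset_rfl, rfl.trans (by ring)⟩
  have hX'0 : X' = ∅ := by
    have h1 : (1 - δ) ^ c ≤ (Real.exp (-δ)) ^ c := by
      apply pow_le_pow_left₀ (by linarith)
      have := Real.add_one_le_exp (-δ)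
      linarith
    have h2 : (Real.exp (-δ)) ^ c = Real.exp (-(δ * c)) := by
      rw [← Real.exp_nat_mul]; ring_nf
    have h3 : (M : ℝ) ≤ δ * c := by
      rw [hδdef, div_mul_eq_mul_div, le_div_iff₀ (by positivity)]
      have : ((k * N ^ 2 * M : ℕ) : ℝ) ≤ ((c * ρ : ℕ) : ℝ) := by exact_mod_cast hc
      push_cast at this
      nlinarith
    have h5 : Real.exp (-(δ * c)) ≤ (2 : ℝ) ^ (-(M : ℝ)) := by
      rw [Real.rpow_def_of_pos (by norm_num)]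
      apply Real.exp_le_exp.mpr
      have hl2 : Real.log 2 ≤ 1 := by
        have := Real.log_two_lt_d9
        linarith
      have h0 : (0 : ℝ) ≤ M := by positivity
      nlinarith
    have h6 : (X'.card : ℝ) < 1 := by
      have h7 : (X.card : ℝ) < 2 ^ M := by exact_mod_cast hM
      have h8 : (2 : ℝ) ^ (-(M : ℝ)) * 2 ^ M = 1 := by
        rw [← Real.rpow_natCast 2 M, ← Real.rpow_add (by norm_num)]
        simp
      have h9 : (0 : ℝ) < (2 : ℝ) ^ (-(M : ℝ)) := by positivity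
      calc (X'.card : ℝ) ≤ (1 - δ) ^ c * X.card := hF
        _ ≤ (2 : ℝ) ^ (-(M : ℝ)) * X.card := by
            apply mul_le_mul_of_nonneg_right _ (by positivity)
            rw [h2] at h1
            exact h1.trans h5
        _ < (2 : ℝ) ^ (-(M : ℝ)) * 2 ^ M := mul_lt_mul_of_pos_left h7 h9
        _ = 1 := h8
    have h10 : X'.card < 1 := by exact_mod_cast h6
    exact Finset.card_eq_zero.mp (by omega)
  subst hX'0
  exact ⟨Y', hred⟩

end Pool.Agent.Helper53.Sim
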