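import Mathlib
import Pool.Agent.Helper53.SimStage

set_option autoImplicit false

namespace Pool.Agent.Helper53.Sim

open Finset

variable {n : ℕ} {σ π : Equiv.Perm (Fin n)}

lemma cast_eq_iff {h N : ℕ} [NeZero N] (hn : n ≤ N * h) (i j : Fin n) :
    ((((i : ℕ) / h : ℕ) : ZMod N)) = (((j : ℕ) / h : ℕ) : ZMod N) ↔ (i : ℕ) / h = (j : ℕ) / h := by
  constructor
  · intro hh
    rw [← cast_strip_val hn i, ← cast_strip_val hn j, hh]
  · intro hh
    rw [hh]

/-- number of points in a column, natural labels -/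
def colN (h : ℕ) (X : Finset (Fin n)) (s : ℕ) : ℕ := (X.filter (fun i : Fin n => (i : ℕ) / h = s)).card

/-- number of points in a row, natural labels -/
def rowN (h : ℕ) (σ : Equiv.Perm (Fin n)) (X : Finset (Fin n)) (s : ℕ) : ℕ :=
  (X.filter (fun i : Fin n => ((σ i : Fin n) : ℕ) / h = s)).card

lemma ldx_eq {h N : ℕ} [NeZero N] (hn : n ≤ N * h) (X : Finset (Fin n)) (s : ZMod N) :
    ldx h N σ X s = colN h X s.val := by
  unfold ldx colN
  refine congrArg Finset.card (Finset.filter_congr (fun i _ => ?_))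
  simp only [cl]
  constructor
  · intro h2
    rw [← h2, cast_strip_val hn i]
  · intro h2
    rw [h2, ZMod.natCast_zmod_val]

lemma ldy_eq {h N : ℕ} [NeZero N] (hn : n ≤ N * h) (X : Finset (Fin n)) (s : ZMod N) :
    ldy h N σ X s = rowN h σ X s.val := by
  unfold ldy rowN
  refine congrArg Finset.card (Finset.filter_congr (fun i _ => ?_))
  simp only [cl]
  constructor
  · intro h2
    rw [← h2, cast_strip_val hn (σ i)]
  · intro h2
    rw [h2, ZMod.natCast_zmod_val]

lemma colN_le_of_ldx {h N : ℕ} [NeZero N] (hn : n ≤ N * h) (X : Finset (Fin n)) (L : ℕ)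
    (hL : ∀ s, ldx h N σ X s ≤ L) (s : ℕ) : colN h X s ≤ L := by
  by_cases hs : s < N
  · have := hL (s : ZMod N)
    rw [ldx_eq hn, ZMod.val_cast_of_lt hs] at this
    exact this
  · have : colN h X s = 0 := by
      unfold colN
      rw [Finset.card_eq_zero, Finset.filter_eq_empty_iff]
      intro i _ hi
      have := strip_lt hn i
      omega
    omega

lemma rowN_le_of_ldy {h N : ℕ} [NeZero N] (hn : n ≤ N * h) (X : Finset (Fin n)) (L : ℕ)
    (hL : ∀ s, ldy h N σ X s ≤ L) (s : ℕ) : rowN h σ X s ≤ L := by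
  by_cases hs : s < N
  · have := hL (s : ZMod N)
    rw [ldy_eq hn, ZMod.val_cast_of_lt hs] at this
    exact this
  · have : rowN h σ X s = 0 := by
      unfold rowN
      rw [Finset.card_eq_zero, Finset.filter_eq_empty_iff]
      intro i _ hi
      have := strip_lt hn (σ i)
      omega
    omega

lemma div_double (a h s : ℕ) : a / (2 * h) = s ↔ (a / h = 2 * s ∨ a / h = 2 * s + 1) := by
  rw [mul_comm 2 h, ← Nat.div_div_eq_div_mul]
  omega

lemma colN_double (h : ℕ) (X : Finset (Fin n)) (s : ℕ) :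
    colN (2 * h) X s ≤ colN h X (2 * s) + colN h X (2 * s + 1) := by
  classical
  unfold colN
  refine le_trans (Finset.card_le_card ?_) (Finset.card_union_le _ _)
  intro i hi
  simp only [Finset.mem_filter, Finset.mem_union, div_double] at hi ⊢
  tauto

lemma rowN_double (h : ℕ) (X : Finset (Fin n)) (s : ℕ) :
    rowN (2 * h) σ X s ≤ rowN h σ X (2 * s) + rowN h σ X (2 * s + 1) := by
  classical
  unfold rowN
  refine le_trans (Finset.card_le_card ?_) (Finset.card_union_le _ _)
  intro i hi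
  simp only [Finset.mem_filter, Finset.mem_union, div_double] at hi ⊢
  tauto

lemma loads_double {h N N' : ℕ} [NeZero N] [NeZero N'] (hn : n ≤ N * h) (hn' : n ≤ N' * (2 * h))
    (X : Finset (Fin n)) (L : ℕ) (hLx : ∀ s, ldx h N σ X s ≤ L) (hLy : ∀ s, ldy h N σ X s ≤ L) :
    (∀ s, ldx (2 * h) N' σ X s ≤ 2 * L) ∧ (∀ s, ldy (2 * h) N' σ X s ≤ 2 * L) := by
  constructor
  · intro s
    rw [ldx_eq hn']
    have h1 := colN_le_of_ldx hn X L hLx (2 * s.val)
    have h2 := colN_le_of_ldx hn X L hLx (2 * s.val + 1)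
    have h3 := colN_double h X s.val
    omega
  · intro s
    rw [ldy_eq hn']
    have h1 := rowN_le_of_ldy hn X L hLy (2 * s.val)
    have h2 := rowN_le_of_ldy hn X L hLy (2 * s.val + 1)
    have h3 := rowN_double (σ := σ) h X s.val
    omega

/-- The indices divisible by `8 ^ t`. -/
def Z (n t : ℕ) : Finset (Fin n) := Finset.univ.filter (fun j : Fin n => 8 ^ t ∣ (j : ℕ))

/-- exponent of the width -/
def wd (e E i : ℕ) : ℕ := 3 * e - 2 * E - 11 + i

/-- exponent of the number of strips -/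
def nb (E i : ℕ) : ℕ := 2 * E + 14 - i

/-- Quasi-randomness of one permutation at level `E`. -/
structure Host (e E : ℕ) (σ : Equiv.Perm (Fin n)) : Prop where
  row : ∀ s : ℕ, rowN (2 ^ wd e E 0) σ (Z n (e - E)) s ≤ 2 ^ (E - 4)
  auto : ∀ i, 4 * i ≤ E → ∀ v : ZMod (2 ^ nb E i) × ZMod (2 ^ nb E i), v ≠ 0 →
    (((Z n (e - E)).image (cl (2 ^ wd e E i) (2 ^ nb E i) σ)).filter
      (fun D => D + v ∈ (Z n (e - E)).image (cl (2 ^ wd e E i) (2 ^ nb E i) σ))).card ≤
      2 ^ (2 * E - 12 + 2 * i)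
  occ : ∀ a b : ℕ, ((Z n (e - E)).filter (fun j : Fin n => (j : ℕ) / 2 ^ wd e E (E / 4) = a ∧
    ((σ j : Fin n) : ℕ) / 2 ^ wd e E (E / 4) = b)).card ≤ 16

lemma nwd {e E i : ℕ} (hn : n < 8 ^ (e + 1)) (hE : E ≤ e) (hi : i ≤ E) (he : 11 ≤ e) :
    n ≤ 2 ^ nb E i * 2 ^ wd e E i := by
  rw [← pow_add]
  have : nb E i + wd e E i = 3 * (e + 1) := by
    unfold nb wd; omega
  rw [this, pow_mul]
  norm_num
  exact hn.le

lemma card_Z {e E : ℕ} (hn : n < 8 ^ (e + 1)) (hE : E ≤ e) : (Z n (e - E)).card ≤ 2 ^ (3 * E + 3) := by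
  have h8 : (0 : ℕ) < 8 ^ (e - E) := by positivity
  calc (Z n (e - E)).card ≤ (Finset.range (8 ^ (E + 1))).card := by
        apply Finset.card_le_card_of_injOn (fun j : Fin n => (j : ℕ) / 8 ^ (e - E))
        · intro j hj
          rw [Finset.mem_coe, Finset.mem_range]
          apply Nat.div_lt_of_lt_mul
          rw [← pow_add, show e - E + (E + 1) = e + 1 by omega]
          exact j.2.trans hn
        · intro j hj j' hj' hjj
          have h1 : 8 ^ (e - E) ∣ (j : ℕ) := by
            have := Finset.mem_coe.mp hj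
            unfold Z at this
            exact (Finset.mem_filter.mp this).2
          have h2 : 8 ^ (e - E) ∣ (j' : ℕ) := by
            have := Finset.mem_coe.mp hj'
            unfold Z at this
            exact (Finset.mem_filter.mp this).2
          apply Fin.ext
          rw [← Nat.div_mul_cancel h1, ← Nat.div_mul_cancel h2]
          dsimp only at hjj
          rw [hjj]
    _ = 2 ^ (3 * E + 3) := by
        rw [Finset.card_range, show 3 * E + 3 = 3 * (E + 1) by ring, pow_mul]
        norm_num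

/-- Column loads of `Z`. -/
lemma col_Z {e E i : ℕ} (hE : E ≤ e) (hE11 : 11 ≤ E) (s : ℕ) :
    colN (2 ^ wd e E i) (Z n (e - E)) s ≤ 2 ^ (E - 11 + i) := by
  have h8 : (0 : ℕ) < 8 ^ (e - E) := by positivity
  have hw : 2 ^ wd e E i = 8 ^ (e - E) * 2 ^ (E - 11 + i) := by
    rw [show (8 : ℕ) = 2 ^ 3 by norm_num, ← pow_mul, ← pow_add]
    congr 1
    unfold wd; omega
  unfold colN
  calc _ ≤ (Finset.Ico (s * 2 ^ (E - 11 + i)) ((s + 1) * 2 ^ (E - 11 + i))).card := by
        apply Finset.card_le_card_of_injOn (fun j : Fin n => (j : ℕ) / 8 ^ (e - E))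
        · intro j hj
          rw [Finset.mem_coe, Finset.mem_filter] at hj
          rw [Finset.mem_coe, Finset.mem_Ico]
          have h2 := hj.2
          rw [hw, ← Nat.div_div_eq_div_mul] at h2
          have hpos : 0 < 2 ^ (E - 11 + i) := by positivity
          constructor
          · rw [← h2]
            exact Nat.div_mul_le_self _ _
          · rw [← h2, mul_comm]
            exact Nat.lt_mul_div_succ _ hpos
        · intro j hj j' hj' hjj
          rw [Finset.mem_coe, Finset.mem_filter] at hj hj'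
          have h1 : 8 ^ (e - E) ∣ (j : ℕ) := by
            have := hj.1
            unfold Z at this
            exact (Finset.mem_filter.mp this).2
          have h2 : 8 ^ (e - E) ∣ (j' : ℕ) := by
            have := hj'.1
            unfold Z at this
            exact (Finset.mem_filter.mp this).2
          apply Fin.ext
          rw [← Nat.div_mul_cancel h1, ← Nat.div_mul_cancel h2]
          dsimp only at hjj
          rw [hjj]
    _ = 2 ^ (E - 11 + i) := by
        rw [Nat.card_Ico, ← Nat.sub_mul, Nat.add_sub_cancel_left, one_mul]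

lemma Host.occ' {e E i : ℕ} (H : Host e E σ) (hn : n < 8 ^ (e + 1)) (hE : E ≤ e) (he : 11 ≤ e)
    (hi : 4 * i ≤ E) (D : ZMod (2 ^ nb E i) × ZMod (2 ^ nb E i)) :
    ((Z n (e - E)).filter (fun j => cl (2 ^ wd e E i) (2 ^ nb E i) σ j = D)).card ≤ 16 := by
  have : NeZero (2 ^ nb E i) := ⟨by positivity⟩
  have hn' := nwd (i := i) hn hE (by omega) he
  rcases Finset.eq_empty_or_nonempty
    ((Z n (e - E)).filter (fun j => cl (2 ^ wd e E i) (2 ^ nb E i) σ j = D)) with h0 | ⟨j0, hj0⟩
  · rw [h0]; simp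
  rw [Finset.mem_filter] at hj0
  refine le_trans (Finset.card_le_card ?_) (H.occ ((j0 : ℕ) / 2 ^ wd e E (E / 4))
    (((σ j0 : Fin n) : ℕ) / 2 ^ wd e E (E / 4)))
  intro j hj
  rw [Finset.mem_filter] at hj ⊢
  refine ⟨hj.1, ?_⟩
  have hw : 2 ^ wd e E (E / 4) = 2 ^ wd e E i * 2 ^ (E / 4 - i) := by
    rw [← pow_add]; congr 1; unfold wd; omega
  have hD : cl (2 ^ wd e E i) (2 ^ nb E i) σ j = cl (2 ^ wd e E i) (2 ^ nb E i) σ j0 := by
    rw [hj.2, hj0.2]
  have h1 := congrArg Prod.fst hD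
  have h2 := congrArg Prod.snd hD
  simp only [cl] at h1 h2
  rw [cast_eq_iff hn'] at h1
  rw [cast_eq_iff hn'] at h2
  rw [hw, ← Nat.div_div_eq_div_mul, ← Nat.div_div_eq_div_mul, ← Nat.div_div_eq_div_mul,
    ← Nat.div_div_eq_div_mul, h1, h2]
  exact ⟨rfl, rfl⟩

lemma Host.fixed {e E i : ℕ} (Hσ : Host e E σ) (Hπ : Host e E π) (hn : n < 8 ^ (e + 1))
    (hE : E ≤ e) (he : 11 ≤ e) (hi : 4 * i ≤ E) :
    Fixed (2 ^ wd e E i) (2 ^ nb E i) 16 (2 ^ (2 * E - 12 + 2 * i)) σ π
      (Z n (e - E)) (Z n (e - E)) where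
  hn := nwd hn hE (by omega) he
  occσ := Hσ.occ' hn hE he hi
  occπ := Hπ.occ' hn hE he hi
  auto := Hπ.auto i hi

end Pool.Agent.Helper53.Sim
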