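import Mathlib
import Pool.Agent.Helper53.SimHost

set_option autoImplicit false

namespace Pool.Agent.Helper53.Sim

open Finset

variable {n : ℕ} {σ π : Equiv.Perm (Fin n)}

lemma host_loads {e E : ℕ} (Hσ : Host e E σ) (hn : n < 8 ^ (e + 1)) (hE : E ≤ e) (hE11 : 11 ≤ E)
    {X : Finset (Fin n)} (hX : X ⊆ Z n (e - E)) :
    (∀ s, ldx (2 ^ wd e E 0) (2 ^ nb E 0) σ X s ≤ 2 ^ (E - 4)) ∧
    (∀ s, ldy (2 ^ wd e E 0) (2 ^ nb E 0) σ X s ≤ 2 ^ (E - 4)) := by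
  have hN : NeZero (2 ^ nb E 0) := ⟨by positivity⟩
  have hn' := nwd (i := 0) hn hE (by omega) (by omega)
  constructor
  · intro s
    refine (ldx_mono hX s).trans ?_
    rw [ldx_eq hn']
    refine (col_Z hE hE11 _).trans ?_
    exact Nat.pow_le_pow_right (by norm_num) (by omega)
  · intro s
    refine (ldy_mono hX s).trans ?_
    rw [ldy_eq hn']
    exact Hσ.row _

lemma four_pow_aux (a : ℕ) (ha : 7 ≤ a) : 4 * a + 48 ≤ 2 ^ a := by
  induction a, ha using Nat.le_induction with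
  | base => norm_num
  | succ a ha ih => rw [pow_succ]; omega

lemma num_N {E i : ℕ} (hE : 30 ≤ E) (hi : 4 * i ≤ E) : 4 * 2 ^ nb E i ≤ 2 ^ (2 ^ (E - 8 - 2 * i)) := by
  have h1 : (4 : ℕ) * 2 ^ nb E i = 2 ^ (2 + nb E i) := by rw [pow_add]; norm_num
  rw [h1]
  apply Nat.pow_le_pow_right (by norm_num)
  have h2 := four_pow_aux (E - 8 - 2 * i) (by omega)
  unfold nb
  omega

lemma num_rho {E i : ℕ} (hE : 30 ≤ E) (hi : 4 * i ≤ E) :
    16 * (2 ^ (3 * E - 14) + 2 * (16 * 2 ^ (E - 8 - 2 * i)) * 2 ^ (2 * E - 12 + 2 * i)) ≤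
      2 ^ (3 * E - 9) := by
  have h1 : 2 * (16 * 2 ^ (E - 8 - 2 * i)) * 2 ^ (2 * E - 12 + 2 * i) = 2 ^ (3 * E - 15) := by
    have : 3 * E - 15 = 5 + (E - 8 - 2 * i) + (2 * E - 12 + 2 * i) := by omega
    rw [this, pow_add, pow_add]; ring
  have h2 : (2 : ℕ) ^ (3 * E - 14) = 2 * 2 ^ (3 * E - 15) := by
    rw [show 3 * E - 14 = (3 * E - 15) + 1 by omega, pow_succ]; ring
  have h3 : (2 : ℕ) ^ (3 * E - 9) = 64 * 2 ^ (3 * E - 15) := by
    rw [show 3 * E - 9 = (3 * E - 15) + 6 by omega, pow_add]; ring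
  rw [h1, h2, h3]
  omega

lemma multi {e E : ℕ} (Hσ : Host e E σ) (Hπ : Host e E π) (hn : n < 8 ^ (e + 1)) (hE : E ≤ e)
    (hE30 : 30 ≤ E) {X Y : Finset (Fin n)} (hX : X ⊆ Z n (e - E)) (hY : Y ⊆ Z n (e - E))
    (hXY : X.card + 2 ^ (3 * E - 9) ≤ Y.card) : ∀ i, 4 * i ≤ E →
    ∃ X' Y' K, Red σ π X Y X' Y' K ∧ K + 2 ^ (E + 54 - 2 * i) ≤ 2 ^ (E + 54) ∧
      (∀ s, ldx (2 ^ wd e E i) (2 ^ nb E i) σ X' s ≤ 16 * 2 ^ (E - 8 - 2 * i)) ∧
      (∀ s, ldy (2 ^ wd e E i) (2 ^ nb E i) σ X' s ≤ 16 * 2 ^ (E - 8 - 2 * i)) := by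
  intro i
  induction i with
  | zero =>
    intro _
    have hl := host_loads Hσ hn hE (by omega) hX
    have h16 : 16 * 2 ^ (E - 8 - 2 * 0) = 2 ^ (E - 4) := by
      rw [show E - 4 = 4 + (E - 8 - 2 * 0) by omega, pow_add]; norm_num
    refine ⟨X, Y, 0, Red.refl X Y, by simp, ?_, ?_⟩
    · rw [h16]; exact hl.1
    · rw [h16]; exact hl.2
  | succ i ih =>
    intro hi
    obtain ⟨X1, Y1, K, hred, hK, hlx, hly⟩ := ih (by omega)
    have hi' : 4 * i ≤ E := by omega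
    have hN1 : NeZero (2 ^ nb E i) := ⟨by positivity⟩
    have hN2 : NeZero (2 ^ nb E (i + 1)) := ⟨by positivity⟩
    have H := Hσ.fixed Hπ hn hE (by omega) hi'
    have hc1 := hred.card
    have hnum := num_rho hE30 hi'
    obtain ⟨X2, Y2, hred2, hlx2, hly2⟩ := stage (c := 2 ^ (E + 51 - 2 * i)) H (hred.1.trans hX)
      (hred.2.1.trans hY) hlx hly (ρ := 2 ^ (3 * E - 14)) (by omega) (by norm_num)
      (num_N hE30 hi')
      (by
        apply le_of_eq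
        rw [← pow_mul, ← pow_add]
        have h1 : E + 51 - 2 * i + (3 * E - 14) = 9 + nb E i * 2 := by unfold nb; omega
        rw [h1, pow_add]; norm_num)
      (by
        rw [← pow_mul, ← pow_add]
        have h1 : (2 : ℕ) * 16 * 2 ^ (nb E i * 2) = 2 ^ (5 + nb E i * 2) := by
          rw [pow_add]; norm_num
        rw [h1]
        apply Nat.pow_le_pow_right (by norm_num)
        unfold nb; omega)
    refine ⟨X2, Y2, K + 4 * 2 ^ (E + 51 - 2 * i), hred.trans hred2, ?_, ?_⟩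
    · have h1 : (2 : ℕ) ^ (E + 54 - 2 * i) = 8 * 2 ^ (E + 51 - 2 * i) := by
        rw [show E + 54 - 2 * i = 3 + (E + 51 - 2 * i) by omega, pow_add]; norm_num
      have h2 : (2 : ℕ) ^ (E + 51 - 2 * i) = 2 ^ (E + 50 - 2 * i) * 2 := by
        rw [show E + 51 - 2 * i = (E + 50 - 2 * i) + 1 by omega, pow_succ]
      have h3 : (2 : ℕ) ^ (E + 54 - 2 * (i + 1)) = 4 * 2 ^ (E + 50 - 2 * i) := by
        rw [show E + 54 - 2 * (i + 1) = 2 + (E + 50 - 2 * i) by omega, pow_add]; norm_num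
      rw [h1] at hK
      rw [h3]
      omega
    · have hw : 2 ^ wd e E (i + 1) = 2 * 2 ^ wd e E i := by
        rw [show wd e E (i + 1) = wd e E i + 1 by unfold wd; omega, pow_succ, mul_comm]
      have hn1 := nwd (i := i) hn hE (by omega) (by omega : 11 ≤ e)
      have hn2 := nwd (i := i + 1) hn hE (by omega) (by omega : 11 ≤ e)
      rw [hw] at hn2 ⊢
      have hd := loads_double hn1 hn2 X2 _ hlx2 hly2
      have h16 : 16 * 2 ^ (E - 8 - 2 * (i + 1)) = 2 * (2 * 2 ^ (E - 8 - 2 * i)) := by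
        rw [show E - 8 - 2 * i = 2 + (E - 8 - 2 * (i + 1)) by omega, pow_add]; ring
      rw [h16]
      exact hd

/-- Absorption: a set can be matched completely into a larger set. -/
lemma absorb {e E : ℕ} (Hσ : Host e E σ) (Hπ : Host e E π) (hn : n < 8 ^ (e + 1)) (hE : E ≤ e)
    (hE30 : 30 ≤ E) {X Y : Finset (Fin n)} (hX : X ⊆ Z n (e - E)) (hY : Y ⊆ Z n (e - E))
    (hXY : X.card + 2 ^ (3 * E - 9) ≤ Y.card) :
    ∃ Y', Red σ π X Y ∅ Y' (2 ^ (E + 55)) := by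
  obtain ⟨X1, Y1, K, hred, hK, hlx, hly⟩ := multi Hσ Hπ hn hE hE30 hX hY hXY (E / 4) (by omega)
  have hi' : 4 * (E / 4) ≤ E := by omega
  have hN1 : NeZero (2 ^ nb E (E / 4)) := ⟨by positivity⟩
  have H := Hσ.fixed Hπ hn hE (by omega) hi'
  have hc1 := hred.card
  have hnum := num_rho hE30 hi'
  have hX1 : X1.card < 2 ^ (3 * E + 4) := by
    have h1 := Finset.card_le_card (hred.1.trans hX)
    have h2 := card_Z hn hE
    have h3 : (2 : ℕ) ^ (3 * E + 4) = 2 * 2 ^ (3 * E + 3) := by rw [pow_succ]; ring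
    have h4 : 0 < (2 : ℕ) ^ (3 * E + 3) := by positivity
    omega
  obtain ⟨Y', hred2⟩ := endgame (c := 2 ^ (E + 46 - 2 * (E / 4)) * (3 * E + 4)) H
    (hred.1.trans hX) (hred.2.1.trans hY) hlx hly (ρ := 2 ^ (3 * E - 14)) (by omega) (by norm_num)
    hX1
    (by
      apply le_of_eq
      rw [← pow_mul]
      have h1 : E + 46 - 2 * (E / 4) + (3 * E - 14) = 4 + nb E (E / 4) * 2 := by unfold nb; omega
      have h2 : (2 : ℕ) ^ (E + 46 - 2 * (E / 4)) * 2 ^ (3 * E - 14) = 16 * 2 ^ (nb E (E / 4) * 2) := by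
        rw [← pow_add, h1, pow_add]; norm_num
      calc 16 * 2 ^ (nb E (E / 4) * 2) * (3 * E + 4) =
          (2 ^ (E + 46 - 2 * (E / 4)) * 2 ^ (3 * E - 14)) * (3 * E + 4) := by rw [h2]
        _ = 2 ^ (E + 46 - 2 * (E / 4)) * (3 * E + 4) * 2 ^ (3 * E - 14) := by ring)
    (by
      rw [← pow_mul]
      have h1 : (16 : ℕ) * 2 ^ (nb E (E / 4) * 2) = 2 ^ (4 + nb E (E / 4) * 2) := by
        rw [pow_add]; norm_num
      rw [h1]
      apply Nat.pow_le_pow_right (by norm_num)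
      unfold nb; omega)
  refine ⟨Y', (hred.trans hred2).mono ?_⟩
  have h1 : 4 * (2 ^ (E + 46 - 2 * (E / 4)) * (3 * E + 4)) ≤ 2 ^ (E + 54) := by
    have h2 : E + 54 = (E + 46 - 2 * (E / 4)) + (8 + 2 * (E / 4)) := by omega
    rw [h2, pow_add]
    have h3 : 4 * (3 * E + 4) ≤ 2 ^ (8 + 2 * (E / 4)) := by
      have h4 : E / 4 < 2 ^ (E / 4) := Nat.lt_two_pow_self
      have h5 : (2 : ℕ) ^ (8 + 2 * (E / 4)) = 256 * (2 ^ (E / 4) * 2 ^ (E / 4)) := by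
        rw [pow_add, two_mul, pow_add]; norm_num
      have h6 : 2 ^ (E / 4) ≤ 2 ^ (E / 4) * 2 ^ (E / 4) :=
        Nat.le_mul_of_pos_left _ (by positivity)
      rw [h5]
      omega
    calc 4 * (2 ^ (E + 46 - 2 * (E / 4)) * (3 * E + 4)) =
        2 ^ (E + 46 - 2 * (E / 4)) * (4 * (3 * E + 4)) := by ring
      _ ≤ _ := Nat.mul_le_mul_left _ h3
  have h2 : (2 : ℕ) ^ (E + 55) = 2 * 2 ^ (E + 54) := by
    rw [show E + 55 = (E + 54) + 1 by omega, pow_succ]; ring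
  have h3 : 0 ≤ (2 : ℕ) ^ (E + 54 - 2 * (E / 4)) := Nat.zero_le _
  omega

/-- Shrinking. -/
lemma shrink {e E : ℕ} (Hσ : Host e E σ) (Hπ : Host e E π) (hn : n < 8 ^ (e + 1)) (hE : E ≤ e)
    (hE30 : 30 ≤ E) {X Y : Finset (Fin n)} (hX : X ⊆ Z n (e - E)) (hY : Y ⊆ Z n (e - E))
    (hXY : X.card = Y.card) :
    ∃ X' Y', Red σ π X Y X' Y' (2 ^ (E + 60)) ∧ X'.card < 2 ^ (3 * E - 9) := by
  have hN1 : NeZero (2 ^ nb E 0) := ⟨by positivity⟩
  have H := Hσ.fixed Hπ hn hE (by omega) (i := 0) (by omega)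
  have hl := host_loads Hσ hn hE (by omega) hX
  have h16 : 16 * 2 ^ (E - 8 - 2 * 0) = 2 ^ (E - 4) := by
    rw [show E - 4 = 4 + (E - 8 - 2 * 0) by omega, pow_add]; norm_num
  have hnum := num_rho hE30 (i := 0) (by omega)
  rw [h16] at hnum
  obtain ⟨X', Y', K, hred, hlt, hK⟩ := lemmaA H (by norm_num) hnum (by positivity) (by positivity)
    X.card X Y rfl hX hY hXY hl.1 hl.2
  refine ⟨X', Y', hred.mono ?_, hlt⟩
  have h1 := (Finset.card_le_card hX).trans (card_Z hn hE)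
  have h2 : K * (2 ^ (3 * E - 14) * 2 ^ (3 * E - 9)) ≤
      2 ^ (E + 60) * (2 ^ (3 * E - 14) * 2 ^ (3 * E - 9)) := by
    refine hK.trans ((Nat.mul_le_mul_left _ h1).trans (le_of_eq ?_))
    rw [← pow_add, ← pow_add, ← pow_mul]
    have h3 : E + 60 + (3 * E - 14 + (3 * E - 9)) = 2 + nb E 0 * 2 + 4 + (3 * E + 3) := by
      unfold nb; omega
    rw [h3]
    generalize nb E 0 * 2 = x
    ring
  exact Nat.le_of_mul_le_mul_right h2 (by positivity)

end Pool.Agent.Helper53.Sim
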