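import Mathlib
import Pool.Agent.Helper53.SimAbs

set_option autoImplicit false

namespace Pool.Agent.Helper53.Sim

open Finset

variable {n : ℕ} {σ π : Equiv.Perm (Fin n)}

lemma mem_Z {t : ℕ} {j : Fin n} : j ∈ Z n t ↔ 8 ^ t ∣ (j : ℕ) := by
  unfold Z
  rw [Finset.mem_filter]
  simp

lemma Z_succ_subset (t : ℕ) : Z n (t + 1) ⊆ Z n t := by
  intro j hj
  rw [mem_Z] at hj ⊢
  exact (pow_dvd_pow 8 (Nat.le_succ t)).trans hj

lemma card_U {t F : ℕ} (hn : 8 ^ (t + 1 + F) ≤ n) (hF : 1 ≤ F) :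
    2 ^ (3 * F - 3) ≤ (Z n (t + 1) \ Z n (t + 2)).card := by
  have hlt : ∀ q : ℕ, q < 8 ^ (F - 1) → 8 ^ (t + 1) * (8 * q + 1) < n := by
    intro q hq
    refine lt_of_lt_of_le ?_ hn
    have h1 : (8 : ℕ) ^ (t + 1 + F) = 8 ^ (t + 1) * 8 ^ F := pow_add _ _ _
    rw [h1]
    have : (8 : ℕ) ^ F = 8 * 8 ^ (F - 1) := by
      rw [← pow_succ', Nat.sub_add_cancel hF]
    exact (Nat.mul_lt_mul_left (by positivity)).mpr (by omega)
  have : (Finset.range (8 ^ (F - 1))).card ≤ (Z n (t + 1) \ Z n (t + 2)).card := by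
    apply Finset.card_le_card_of_injOn
      (fun q => if hq : q < 8 ^ (F - 1) then (⟨8 ^ (t + 1) * (8 * q + 1), hlt q hq⟩ : Fin n)
        else ⟨0, lt_of_lt_of_le (by positivity) hn⟩)
    · intro q hq
      rw [Finset.mem_coe, Finset.mem_range] at hq
      simp only [hq, dif_pos]
      rw [Finset.mem_coe, Finset.mem_sdiff, mem_Z, mem_Z]
      refine ⟨Dvd.intro _ rfl, ?_⟩
      dsimp only
      intro hd
      rw [show t + 2 = (t + 1) + 1 by ring, pow_succ] at hd
      have h2 := Nat.dvd_of_mul_dvd_mul_left (by positivity) hd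
      omega
    · intro q hq q' hq' hqq
      rw [Finset.mem_coe, Finset.mem_range] at hq hq'
      simp only [hq, hq', dif_pos, Fin.mk.injEq] at hqq
      have := Nat.eq_of_mul_eq_mul_left (by positivity) hqq
      omega
  rw [Finset.card_range] at this
  refine le_trans (le_of_eq ?_) this
  rw [show 3 * F - 3 = 3 * (F - 1) by omega, pow_mul]
  norm_num

lemma set_aux {α : Type} [DecidableEq α] {A U V X W Z1 : Finset α} (hU : U = Z1 \ W) (hW : W ⊆ Z1)
    (hV : V ⊆ U) (hX : X ⊆ V) : A ∪ (U \ V) ∪ ((V \ X) ∪ (X ∪ W)) = A ∪ Z1 := by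
  have h1 : (V \ X) ∪ (X ∪ W) = V ∪ W := by
    rw [← Finset.union_assoc, Finset.sdiff_union_of_subset hX]
  have h2 : (U \ V) ∪ (V ∪ W) = U ∪ W := by
    rw [← Finset.union_assoc, Finset.sdiff_union_of_subset hV]
  have h3 : U ∪ W = Z1 := by
    rw [hU, Finset.sdiff_union_of_subset hW]
  rw [h1, Finset.union_assoc, h2, h3]

/-- all phases below level `E` -/
lemma phases {e E₀ : ℕ} (Hσ : ∀ E, E₀ ≤ E → E ≤ e → Host e E σ)
    (Hπ : ∀ E, E₀ ≤ E → E ≤ e → Host e E π) (hn : n < 8 ^ (e + 1)) (hn' : 8 ^ e ≤ n)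
    (hE30 : 30 ≤ E₀) : ∀ E, E₀ ≤ E → E ≤ e → ∀ A B : Finset (Fin n),
      A ⊆ Z n (e - E) \ Z n (e - E + 1) → B ⊆ Z n (e - E) \ Z n (e - E + 1) →
      A.card = B.card → A.card < 2 ^ (3 * E - 9) →
      Cov σ π (A ∪ Z n (e - E + 1)) (B ∪ Z n (e - E + 1)) (2 ^ (E + 61) + 2 ^ (3 * E₀ + 3)) := by
  intro E hE0
  induction E, hE0 using Nat.le_induction with
  | base =>
    intro hE A B hA hB hAB _
    have hdA : Disjoint A (Z n (e - E₀ + 1)) := by
      rw [Finset.disjoint_left]
      intro a ha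
      exact (Finset.mem_sdiff.mp (hA ha)).2
    have hdB : Disjoint B (Z n (e - E₀ + 1)) := by
      rw [Finset.disjoint_left]
      intro a ha
      exact (Finset.mem_sdiff.mp (hB ha)).2
    have hc : (A ∪ Z n (e - E₀ + 1)).card = (B ∪ Z n (e - E₀ + 1)).card := by
      rw [Finset.card_union_of_disjoint hdA, Finset.card_union_of_disjoint hdB, hAB]
    refine (Cov.singles hc).mono ?_
    have h1 : A ∪ Z n (e - E₀ + 1) ⊆ Z n (e - E₀) :=
      Finset.union_subset (hA.trans Finset.sdiff_subset) (Z_succ_subset _)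
    exact ((Finset.card_le_card h1).trans (card_Z hn hE)).trans (Nat.le_add_left _ _)
  | succ E hE0 ih =>
    intro hE A B hA hB hAB hlt
    have hE' : E ≤ e := by omega
    have ht : e - E = e - (E + 1) + 1 := by omega
    set t := e - (E + 1) with htdef
    have ih' := ih hE'
    rw [ht] at ih'
    set U := Z n (t + 1) \ Z n (t + 2) with hU
    have hUcard : 2 ^ (3 * E - 3) ≤ U.card := by
      apply card_U _ (by omega)
      rw [show t + 1 + E = e by omega]
      exact hn'
    have hUZ : U ⊆ Z n (t + 1) := Finset.sdiff_subset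
    have hUZ' : U ⊆ Z n t := hUZ.trans (Z_succ_subset _)
    have hAZ : A ⊆ Z n t := hA.trans Finset.sdiff_subset
    have hBZ : B ⊆ Z n t := hB.trans Finset.sdiff_subset
    have hnum : 2 ^ (3 * (E + 1) - 9) + 2 ^ (3 * (E + 1) - 9) ≤ 2 ^ (3 * E - 3) := by
      rw [← two_mul, ← pow_succ']
      exact Nat.pow_le_pow_right (by norm_num) (by omega)
    have HσE1 := Hσ (E + 1) (by omega) hE
    have HπE1 := Hπ (E + 1) (by omega) hE
    have HσE := Hσ E hE0 hE'
    have HπE := Hπ E hE0 hE'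
    obtain ⟨Uπ, hr1⟩ := absorb HσE1 HπE1 hn hE (by omega) (X := A) (Y := U) hAZ hUZ' (by omega)
    obtain ⟨Uσ, hr2⟩ := absorb HπE1 HσE1 hn hE (by omega) (X := B) (Y := U) hBZ hUZ' (by omega)
    have c1 := hr1.card
    have c2 := hr2.card
    simp only [Finset.card_empty, add_zero] at c1 c2
    have hUσU : Uσ ⊆ U := hr2.2.1
    have hUπU : Uπ ⊆ U := hr1.2.1
    obtain ⟨X', Y', hr3, hlt3⟩ := shrink HσE HπE hn hE' (by omega) (X := Uσ) (Y := Uπ)
      (by rw [ht]; exact hUσU.trans hUZ) (by rw [ht]; exact hUπU.trans hUZ) (by omega)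
    have hX'U : X' ⊆ U := hr3.1.trans hUσU
    have hY'U : Y' ⊆ U := hr3.2.1.trans hUπU
    have c3 := hr3.card
    have hcov := ih' X' Y' hX'U hY'U (by omega) hlt3
    rw [show t + 1 + 1 = t + 2 by ring] at hcov
    -- the four pieces
    have p1 : Cov σ π A (U \ Uπ) (2 ^ (E + 1 + 55)) := by
      have := hr1.2.2
      rwa [Finset.sdiff_empty] at this
    have p2 : Cov σ π (U \ Uσ) B (2 ^ (E + 1 + 55)) := by
      have := hr2.2.2.symm
      rwa [Finset.sdiff_empty] at this
    have p3 : Cov σ π (Uσ \ X') (Uπ \ Y') (2 ^ (E + 60)) := hr3.2.2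
    have hdisjA : ∀ a ∈ A, a ∉ Z n (t + 1) := fun a ha => (Finset.mem_sdiff.mp (hA ha)).2
    have hdisjB : ∀ a ∈ B, a ∉ Z n (t + 1) := fun a ha => (Finset.mem_sdiff.mp (hB ha)).2
    have hUnot : ∀ a ∈ U, a ∉ Z n (t + 2) := fun a ha => (Finset.mem_sdiff.mp ha).2
    have q1 := p1.union p2 (by
        rw [Finset.disjoint_left]
        intro a ha ha'
        exact hdisjA a ha (hUZ (Finset.mem_sdiff.mp ha').1)) (by
        rw [Finset.disjoint_left]
        intro a ha ha'
        exact hdisjB a ha' (hUZ (Finset.mem_sdiff.mp ha).1))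
    have q2 := p3.union hcov (by
        rw [Finset.disjoint_left]
        intro a ha ha'
        rw [Finset.mem_sdiff] at ha
        rcases Finset.mem_union.mp ha' with h | h
        · exact ha.2 h
        · exact hUnot a (hUσU ha.1) h) (by
        rw [Finset.disjoint_left]
        intro a ha ha'
        rw [Finset.mem_sdiff] at ha
        rcases Finset.mem_union.mp ha' with h | h
        · exact ha.2 h
        · exact hUnot a (hUπU ha.1) h)
    have q3 := q1.union q2 (by
        rw [Finset.disjoint_left]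
        intro a ha ha'
        rcases Finset.mem_union.mp ha with h | h
        · apply hdisjA a h
          rcases Finset.mem_union.mp ha' with h' | h'
          · exact hUZ (hUσU (Finset.mem_sdiff.mp h').1)
          · rcases Finset.mem_union.mp h' with h'' | h''
            · exact hUZ (hX'U h'')
            · exact Z_succ_subset _ h''
        · rw [Finset.mem_sdiff] at h
          rcases Finset.mem_union.mp ha' with h' | h'
          · exact h.2 (Finset.mem_sdiff.mp h').1
          · rcases Finset.mem_union.mp h' with h'' | h''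
            · exact h.2 (hr3.1 h'')
            · exact hUnot a h.1 h'') (by
        rw [Finset.disjoint_left]
        intro a ha ha'
        rcases Finset.mem_union.mp ha with h | h
        · rw [Finset.mem_sdiff] at h
          rcases Finset.mem_union.mp ha' with h' | h'
          · exact h.2 (Finset.mem_sdiff.mp h').1
          · rcases Finset.mem_union.mp h' with h'' | h''
            · exact h.2 (hr3.2.1 h'')
            · exact hUnot a h.1 h''
        · apply hdisjB a h
          rcases Finset.mem_union.mp ha' with h' | h'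
          · exact hUZ (hUπU (Finset.mem_sdiff.mp h').1)
          · rcases Finset.mem_union.mp h' with h'' | h''
            · exact hUZ (hY'U h'')
            · exact Z_succ_subset _ h'')
    have e1 : A ∪ (U \ Uσ) ∪ ((Uσ \ X') ∪ (X' ∪ Z n (t + 2))) = A ∪ Z n (t + 1) :=
      set_aux hU (Z_succ_subset _) hUσU hr3.1
    have e2 : (U \ Uπ) ∪ B ∪ ((Uπ \ Y') ∪ (Y' ∪ Z n (t + 2))) = B ∪ Z n (t + 1) := by
      rw [Finset.union_comm (U \ Uπ) B]
      exact set_aux hU (Z_succ_subset _) hUπU hr3.2.1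
    rw [e1, e2] at q3
    refine q3.mono ?_
    have g1 : (2 : ℕ) ^ (E + 1 + 61) = 64 * 2 ^ (E + 56) := by
      rw [show E + 1 + 61 = 6 + (E + 56) by ring, pow_add]; norm_num
    have g2 : (2 : ℕ) ^ (E + 1 + 55) = 2 ^ (E + 56) := by
      rw [show E + 1 + 55 = E + 56 by ring]
    have g3 : (2 : ℕ) ^ (E + 60) = 16 * 2 ^ (E + 56) := by
      rw [show E + 60 = 4 + (E + 56) by ring, pow_add]; norm_num
    have g4 : (2 : ℕ) ^ (E + 61) = 32 * 2 ^ (E + 56) := by
      rw [show E + 61 = 5 + (E + 56) by ring, pow_add]; norm_num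
    rw [g1, g2, g3, g4]
    omega

/-- Two quasi-random permutations are `O(n^(1/3))`-similar. -/
lemma similar {e E₀ : ℕ} (Hσ : ∀ E, E₀ ≤ E → E ≤ e → Host e E σ)
    (Hπ : ∀ E, E₀ ≤ E → E ≤ e → Host e E π) (hn : n < 8 ^ (e + 1)) (hn' : 8 ^ e ≤ n)
    (hE30 : 30 ≤ E₀) (hE₀ : 3 * E₀ ≤ e) : Cov σ π Finset.univ Finset.univ (2 ^ (e + 62)) := by
  have hE₀e : E₀ ≤ e := by omega
  have Hσe := Hσ e hE₀e le_rfl
  have Hπe := Hπ e hE₀e le_rfl
  set U := Z n 0 \ Z n 1 with hU
  have hUZ : U ⊆ Z n (e - e) := by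
    rw [Nat.sub_self]; exact Finset.sdiff_subset
  obtain ⟨A, B, hr, hlt⟩ := shrink Hσe Hπe hn le_rfl (by omega) hUZ hUZ rfl
  have hc := hr.card
  have hcov := phases Hσ Hπ hn hn' hE30 e hE₀e le_rfl A B
    (by rw [Nat.sub_self]; exact hr.1) (by rw [Nat.sub_self]; exact hr.2.1) (by omega) hlt
  rw [Nat.sub_self, zero_add] at hcov
  have q := hr.2.2.union hcov (by
      rw [Finset.disjoint_left]
      intro a ha ha'
      rw [Finset.mem_sdiff] at ha
      rcases Finset.mem_union.mp ha' with h | h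
      · exact ha.2 h
      · exact (Finset.mem_sdiff.mp ha.1).2 h) (by
      rw [Finset.disjoint_left]
      intro a ha ha'
      rw [Finset.mem_sdiff] at ha
      rcases Finset.mem_union.mp ha' with h | h
      · exact ha.2 h
      · exact (Finset.mem_sdiff.mp ha.1).2 h)
  have hZ0 : Z n 0 = Finset.univ := by
    ext a
    rw [mem_Z]; simp
  have e1 : (U \ A) ∪ (A ∪ Z n 1) = Finset.univ := by
    rw [← Finset.union_assoc, Finset.sdiff_union_of_subset hr.1, hU,
      Finset.sdiff_union_of_subset (Z_succ_subset 0), hZ0]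
  have e2 : (U \ B) ∪ (B ∪ Z n 1) = Finset.univ := by
    rw [← Finset.union_assoc, Finset.sdiff_union_of_subset hr.2.1, hU,
      Finset.sdiff_union_of_subset (Z_succ_subset 0), hZ0]
  rw [e1, e2] at q
  refine q.mono ?_
  have g1 : (2 : ℕ) ^ (e + 62) = 4 * 2 ^ (e + 60) := by
    rw [show e + 62 = 2 + (e + 60) by ring, pow_add]; norm_num
  have g2 : (2 : ℕ) ^ (e + 61) = 2 * 2 ^ (e + 60) := by
    rw [show e + 61 = 1 + (e + 60) by ring, pow_add]; norm_num
  have g3 : (2 : ℕ) ^ (3 * E₀ + 3) ≤ 2 ^ (e + 60) := Nat.pow_le_pow_right (by norm_num) (by omega)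
  omega

end Pool.Agent.Helper53.Sim
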