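import Mathlib
import Pool.Agent.Helper53.SimPhase

set_option autoImplicit false

namespace Pool.Agent.Helper53.Sim

open Finset

variable {n : ℕ}

/-- Permutations with prescribed values at the places `p i`. -/
lemma fiber_card {ι : Type} [Fintype ι] (p : ι → Fin n) (hp : Function.Injective p)
    (f : ι → Fin n) :
    (Finset.univ.filter (fun π : Equiv.Perm (Fin n) => ∀ i, π (p i) = f i)).card ≤
      (n - Fintype.card ι).factorial := by
  classical
  rcases Finset.eq_empty_or_nonempty
    (Finset.univ.filter (fun π : Equiv.Perm (Fin n) => ∀ i, π (p i) = f i)) with h0 | ⟨π0, hπ0⟩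
  · rw [h0]; simp
  rw [Finset.mem_filter] at hπ0
  let q : Fin n → Prop := fun a => ∀ i, p i ≠ a
  have hcard : Fintype.card (Subtype q) = n - Fintype.card ι := by
    have h1 : Fintype.card (Subtype q) = (Finset.univ.filter q).card := Fintype.card_subtype q
    have h2 : (Finset.univ.filter q) = (Finset.univ.image p)ᶜ := by
      ext a
      simp only [Finset.mem_filter, Finset.mem_univ, true_and, Finset.mem_compl, Finset.mem_image,
        q, ne_eq, not_exists]
    rw [h1, h2, Finset.card_compl, Finset.card_image_of_injective _ hp, Finset.card_univ,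
      Fintype.card_fin]
  have hperm : Fintype.card { g : Equiv.Perm (Fin n) // ∀ a, ¬ q a → g a = a } =
      (n - Fintype.card ι).factorial := by
    rw [← Fintype.card_congr (Equiv.Perm.subtypeEquivSubtypePerm q), Fintype.card_perm, hcard]
  rw [← hperm, Fintype.card_subtype]
  apply Finset.card_le_card_of_injOn (fun π => π0⁻¹ * π)
  · intro π hπ
    rw [Finset.mem_coe, Finset.mem_filter] at hπ ⊢
    refine ⟨Finset.mem_univ _, ?_⟩
    intro a ha
    simp only [q, not_forall, not_not] at ha
    obtain ⟨i, rfl⟩ := ha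
    rw [Equiv.Perm.mul_apply, hπ.2 i, ← hπ0.2 i]
    simp
  · intro a _ b _ h
    simpa using h

/-- Permutations whose values at the places `p i` form a member of `W`. -/
lemma perm_count {ι : Type} [Fintype ι] [DecidableEq ι] (p : ι → Fin n) (hp : Function.Injective p)
    (W : Finset (ι → Fin n)) :
    (Finset.univ.filter (fun π : Equiv.Perm (Fin n) => (fun i => π (p i)) ∈ W)).card ≤
      W.card * (n - Fintype.card ι).factorial := by
  classical
  have hsub : (Finset.univ.filter (fun π : Equiv.Perm (Fin n) => (fun i => π (p i)) ∈ W)) ⊆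
      W.biUnion (fun f => Finset.univ.filter (fun π : Equiv.Perm (Fin n) => ∀ i, π (p i) = f i)) := by
    intro π hπ
    rw [Finset.mem_filter] at hπ
    rw [Finset.mem_biUnion]
    exact ⟨_, hπ.2, by rw [Finset.mem_filter]; exact ⟨Finset.mem_univ _, fun i => rfl⟩⟩
  refine (Finset.card_le_card hsub).trans (Finset.card_biUnion_le.trans ?_)
  refine (Finset.sum_le_card_nsmul _ _ _ (fun f _ => fiber_card p hp f)).trans ?_
  rw [smul_eq_mul]

/-- one constraint per place -/
lemma count_single (J B : Finset (Fin n)) (b : ℕ) (hB : B.card ≤ b) :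
    (Finset.univ.filter (fun π : Equiv.Perm (Fin n) => ∀ j ∈ J, π j ∈ B)).card ≤
      b ^ J.card * (n - J.card).factorial := by
  classical
  have h := perm_count (n := n) (ι := J) (fun j => (j : Fin n)) Subtype.val_injective
    (Fintype.piFinset (fun _ : J => B))
  rw [Fintype.card_piFinset, Finset.prod_const, Finset.card_univ, Fintype.card_coe] at h
  refine le_trans (Finset.card_le_card ?_) (h.trans (Nat.mul_le_mul_right _
    (Nat.pow_le_pow_left hB _)))
  intro π hπ
  rw [Finset.mem_filter] at hπ ⊢
  refine ⟨Finset.mem_univ _, ?_⟩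
  rw [Fintype.mem_piFinset]
  intro j
  exact hπ.2 j j.2

/-- coordinates of a pair -/
def coord (x : Fin n × Fin n) (b : Bool) : Fin n := if b then x.2 else x.1

/-- one constraint per pair of places -/
lemma count_pair (P : Finset (Fin n × Fin n))
    (hP : ∀ x ∈ P, ∀ y ∈ P, ∀ b c, coord x b = coord y c → x = y ∧ b = c)
    (Q : Finset (Fin n × Fin n)) (b : ℕ) (hQ : Q.card ≤ b) :
    (Finset.univ.filter (fun π : Equiv.Perm (Fin n) => ∀ x ∈ P, (π x.1, π x.2) ∈ Q)).card ≤
      b ^ P.card * (n - 2 * P.card).factorial := by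
  classical
  set W : Finset (P × Bool → Fin n) := Finset.univ.filter
    (fun f => ∀ x : P, (f (x, false), f (x, true)) ∈ Q) with hW
  have hWc : W.card ≤ b ^ P.card := by
    have h1 : W.card ≤ (Fintype.piFinset (fun _ : P => Q)).card := by
      apply Finset.card_le_card_of_injOn (fun f => fun x : P => (f (x, false), f (x, true)))
      · intro f hf
        rw [Finset.mem_coe, hW, Finset.mem_filter] at hf
        rw [Finset.mem_coe, Fintype.mem_piFinset]
        exact fun x => hf.2 x
      · intro f _ g _ hfg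
        funext ⟨x, b⟩
        have := congrFun hfg x
        simp only [Prod.mk.injEq] at this
        cases b
        · exact this.1
        · exact this.2
    rw [Fintype.card_piFinset, Finset.prod_const, Finset.card_univ, Fintype.card_coe] at h1
    exact h1.trans (Nat.pow_le_pow_left hQ _)
  have hp : Function.Injective (fun y : P × Bool => coord (y.1 : Fin n × Fin n) y.2) := by
    rintro ⟨x, b⟩ ⟨y, c⟩ hxy
    obtain ⟨h1, h2⟩ := hP x.1 x.2 y.1 y.2 b c hxy
    exact Prod.ext (Subtype.ext h1) h2
  have h := perm_count (n := n) (ι := P × Bool) (fun y => coord (y.1 : Fin n × Fin n) y.2) hp W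
  have hcard : Fintype.card (P × Bool) = 2 * P.card := by
    rw [Fintype.card_prod, Fintype.card_coe, Fintype.card_bool, mul_comm]
  rw [hcard] at h
  refine le_trans (Finset.card_le_card ?_) (h.trans (Nat.mul_le_mul_right _ hWc))
  intro π hπ
  rw [Finset.mem_filter] at hπ ⊢
  refine ⟨Finset.mem_univ _, ?_⟩
  rw [hW, Finset.mem_filter]
  refine ⟨Finset.mem_univ _, ?_⟩
  intro x
  exact hπ.2 x.1 x.2

/-- `r ^ r ≤ 4 ^ r r!` -/
lemma pow_self_le (r : ℕ) : r ^ r ≤ 4 ^ r * r.factorial := by
  have h1 : (r + 1) ^ r ≤ (r + 1).ascFactorial r := Nat.pow_succ_le_ascFactorial _ _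
  rw [Nat.ascFactorial_eq_factorial_mul_choose] at h1
  have h2 : (r + r).choose r ≤ 2 ^ (r + r) := Nat.choose_le_two_pow _ _
  have h3 : (2 : ℕ) ^ (r + r) = 4 ^ r := by
    rw [← two_mul, pow_mul]; norm_num
  calc r ^ r ≤ (r + 1) ^ r := Nat.pow_le_pow_left (by omega) _
    _ ≤ r.factorial * (r + r).choose r := h1
    _ ≤ r.factorial * 2 ^ (r + r) := Nat.mul_le_mul_left _ h2
    _ = 4 ^ r * r.factorial := by rw [h3, mul_comm]

lemma choose_bound (m r : ℕ) : m.choose r * r ^ r ≤ (4 * m) ^ r := by
  calc m.choose r * r ^ r ≤ m.choose r * (4 ^ r * r.factorial) :=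
        Nat.mul_le_mul_left _ (pow_self_le r)
    _ = 4 ^ r * (r.factorial * m.choose r) := by ring
    _ = 4 ^ r * m.descFactorial r := by rw [Nat.descFactorial_eq_factorial_mul_choose]
    _ ≤ 4 ^ r * m ^ r := Nat.mul_le_mul_left _ (Nat.descFactorial_le_pow m r)
    _ = (4 * m) ^ r := by rw [mul_pow]

lemma factorial_bound {r : ℕ} (hr : 2 * r ≤ n) :
    (n - r).factorial * n ^ r ≤ 2 ^ r * n.factorial := by
  have h1 : (n - r).factorial * n.descFactorial r = n.factorial :=
    Nat.factorial_mul_descFactorial (by omega)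
  have h2 : (n + 1 - r) ^ r ≤ n.descFactorial r := Nat.pow_sub_le_descFactorial n r
  have h3 : n ^ r ≤ 2 ^ r * (n + 1 - r) ^ r := by
    rw [← mul_pow]
    exact Nat.pow_le_pow_left (by omega) _
  calc (n - r).factorial * n ^ r ≤ (n - r).factorial * (2 ^ r * (n + 1 - r) ^ r) :=
        Nat.mul_le_mul_left _ h3
    _ ≤ (n - r).factorial * (2 ^ r * n.descFactorial r) :=
        Nat.mul_le_mul_left _ (Nat.mul_le_mul_left _ h2)
    _ = 2 ^ r * ((n - r).factorial * n.descFactorial r) := by ring
    _ = 2 ^ r * n.factorial := by rw [h1]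

/-- number of `b` in a strip -/
lemma strip_card (h : ℕ) (hh : 0 < h) (s : ℕ) :
    (Finset.univ.filter (fun b : Fin n => (b : ℕ) / h = s)).card ≤ h := by
  calc _ ≤ (Finset.Ico (s * h) ((s + 1) * h)).card := by
        apply Finset.card_le_card_of_injOn (fun j : Fin n => (j : ℕ))
        · intro j hj
          rw [Finset.mem_coe, Finset.mem_filter] at hj
          rw [Finset.mem_coe, Finset.mem_Ico]
          constructor
          · rw [← hj.2]
            exact Nat.div_mul_le_self _ _
          · rw [← hj.2, mul_comm]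
            exact Nat.lt_mul_div_succ _ hh
        · intro j _ j' _ hjj
          exact Fin.ext hjj
    _ = h := by
        rw [Nat.card_Ico, ← Nat.sub_mul, Nat.add_sub_cancel_left, one_mul]

/-- Union bound over the `r`-subsets of `S` all of whose values lie in a strip. -/
lemma union_single (S : Finset (Fin n)) (h s r : ℕ) (hh : 0 < h) :
    (Finset.univ.filter (fun π : Equiv.Perm (Fin n) =>
      r ≤ (S.filter (fun j : Fin n => ((π j : Fin n) : ℕ) / h = s)).card)).card ≤
      S.card.choose r * (h ^ r * (n - r).factorial) := by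
  classical
  have hsub : (Finset.univ.filter (fun π : Equiv.Perm (Fin n) =>
      r ≤ (S.filter (fun j : Fin n => ((π j : Fin n) : ℕ) / h = s)).card)) ⊆
      (Finset.powersetCard r S).biUnion (fun J => Finset.univ.filter
        (fun π : Equiv.Perm (Fin n) => ∀ j ∈ J,
          π j ∈ Finset.univ.filter (fun b : Fin n => (b : ℕ) / h = s))) := by
    intro π hπ
    rw [Finset.mem_filter] at hπ
    obtain ⟨J, hJ1, hJ2⟩ := Finset.exists_subset_card_eq hπ.2
    rw [Finset.mem_biUnion]
    refine ⟨J, ?_, ?_⟩
    · rw [Finset.mem_powersetCard]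
      exact ⟨hJ1.trans (Finset.filter_subset _ _), hJ2⟩
    · rw [Finset.mem_filter]
      refine ⟨Finset.mem_univ _, fun j hj => ?_⟩
      rw [Finset.mem_filter]
      exact ⟨Finset.mem_univ _, (Finset.mem_filter.mp (hJ1 hj)).2⟩
  refine (Finset.card_le_card hsub).trans (Finset.card_biUnion_le.trans ?_)
  refine (Finset.sum_le_card_nsmul _ _ (h ^ r * (n - r).factorial) ?_).trans ?_
  · intro J hJ
    rw [Finset.mem_powersetCard] at hJ
    have := count_single J (Finset.univ.filter (fun b : Fin n => (b : ℕ) / h = s)) h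
      (strip_card h hh s)
    rw [hJ.2] at this
    exact this
  · rw [smul_eq_mul, Finset.card_powersetCard]

end Pool.Agent.Helper53.Sim
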