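import Mathlib
import Pool.Agent.Helper53.SimCount

set_option autoImplicit false

namespace Pool.Agent.Helper53.Sim

open Finset

variable {n : ℕ}

/-- A third of any finite set in a group has no two members differing by `v ≠ 0`. -/
lemma extract {G : Type} [AddCommGroup G] [DecidableEq G] (D : Finset G) (v : G) (hv : v ≠ 0) :
    ∃ F ⊆ D, (∀ x ∈ F, ∀ y ∈ F, y ≠ x + v) ∧ D.card ≤ 3 * F.card := by
  obtain ⟨F, hF, hmax⟩ := Finset.exists_max_image
    (D.powerset.filter (fun F => ∀ x ∈ F, ∀ y ∈ F, y ≠ x + v)) Finset.card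
    ⟨∅, by simp⟩
  rw [Finset.mem_filter, Finset.mem_powerset] at hF
  refine ⟨F, hF.1, hF.2, ?_⟩
  have hsub : D ⊆ F ∪ (F.image (fun x => x + v) ∪ F.image (fun x => x - v)) := by
    intro d hd
    by_contra hcon
    simp only [Finset.mem_union, Finset.mem_image, not_or, not_exists, not_and] at hcon
    obtain ⟨h1, h2, h3⟩ := hcon
    have hins : insert d F ∈ D.powerset.filter (fun F => ∀ x ∈ F, ∀ y ∈ F, y ≠ x + v) := by
      rw [Finset.mem_filter, Finset.mem_powerset]
      refine ⟨Finset.insert_subset hd hF.1, ?_⟩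
      intro x hx y hy
      rcases Finset.mem_insert.mp hx with hxd | hx' <;> rcases Finset.mem_insert.mp hy with hyd | hy'
      · intro h
        rw [hxd, hyd] at h
        exact hv (by simpa using h)
      · intro h
        apply h3 y hy'
        rw [h, hxd]; simp
      · intro h
        rw [hyd] at h
        exact h2 x hx' h.symm
      · exact hF.2 x hx' y hy'
    have := hmax _ hins
    rw [Finset.card_insert_of_notMem h1] at this
    omega
  have h1 := Finset.card_le_card hsub
  have h2 := Finset.card_union_le F (F.image (fun x => x + v) ∪ F.image (fun x => x - v))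
  have h3 := Finset.card_union_le (F.image (fun x => x + v)) (F.image (fun x => x - v))
  have h4 : (F.image (fun x => x + v)).card ≤ F.card := Finset.card_image_le
  have h5 : (F.image (fun x => x - v)).card ≤ F.card := Finset.card_image_le
  omega

/-- admissible pairs of places -/
def pairs (h N : ℕ) (S : Finset (Fin n)) (v : ZMod N) : Finset (Fin n × Fin n) :=
  (S ×ˢ S).filter (fun x => ((((x.2 : Fin n) : ℕ) / h : ℕ) : ZMod N) =
    ((((x.1 : Fin n) : ℕ) / h : ℕ) : ZMod N) + v)

lemma card_pairs {h N : ℕ} [NeZero N] (hn : n ≤ N * h) (S : Finset (Fin n)) (v : ZMod N) (L : ℕ)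
    (hL : ∀ s, colN h S s ≤ L) : (pairs h N S v).card ≤ S.card * L := by
  classical
  unfold pairs
  have := Finset.card_le_mul_card_image_of_maps_to
    (s := (S ×ˢ S).filter (fun x => ((((x.2 : Fin n) : ℕ) / h : ℕ) : ZMod N) =
    ((((x.1 : Fin n) : ℕ) / h : ℕ) : ZMod N) + v)) (t := S) (f := Prod.fst) (by
      intro x hx
      rw [Finset.mem_filter, Finset.mem_product] at hx
      exact hx.1.1) L (by
      intro a _
      refine le_trans ?_ (hL (((((a : Fin n) : ℕ) / h : ℕ) : ZMod N) + v).val)
      unfold colN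
      apply Finset.card_le_card_of_injOn Prod.snd
      · intro x hx
        rw [Finset.mem_coe, Finset.mem_filter, Finset.mem_filter, Finset.mem_product] at hx
        rw [Finset.mem_coe, Finset.mem_filter]
        refine ⟨hx.1.1.2, ?_⟩
        rw [← hx.2, ← hx.1.2, cast_strip_val hn]
      · intro x hx y hy hxy
        rw [Finset.mem_coe, Finset.mem_filter] at hx hy
        exact Prod.ext (hx.2.trans hy.2.symm) hxy)
  rw [mul_comm]
  exact this

/-- Union bound for the autocorrelation. -/
lemma union_pair {h N : ℕ} [NeZero N] (hn : n ≤ N * h) (hh : 0 < h) (S : Finset (Fin n))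
    (v : ZMod N × ZMod N) (hv : v ≠ 0) (r : ℕ) :
    (Finset.univ.filter (fun π : Equiv.Perm (Fin n) =>
      3 * r ≤ ((S.image (cl h N π)).filter (fun D => D + v ∈ S.image (cl h N π))).card)).card ≤
      (pairs h N S v.1).card.choose r * ((n * h) ^ r * (n - 2 * r).factorial) := by
  classical
  set Q : Finset (Fin n × Fin n) := Finset.univ.filter (fun x : Fin n × Fin n =>
    ((((x.2 : Fin n) : ℕ) / h : ℕ) : ZMod N) = ((((x.1 : Fin n) : ℕ) / h : ℕ) : ZMod N) + v.2) with hQ
  have hQc : Q.card ≤ n * h := by
    have := Finset.card_le_mul_card_image_of_maps_to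
      (s := Q) (t := (Finset.univ : Finset (Fin n))) (f := Prod.fst) (by
        intro x _; exact Finset.mem_univ _) h (by
        intro a _
        refine le_trans ?_ (strip_card (n := n) h hh (((((a : Fin n) : ℕ) / h : ℕ) : ZMod N) + v.2).val)
        apply Finset.card_le_card_of_injOn Prod.snd
        · intro x hx
          rw [Finset.mem_coe, Finset.mem_filter, hQ, Finset.mem_filter] at hx
          rw [Finset.mem_coe, Finset.mem_filter]
          refine ⟨Finset.mem_univ _, ?_⟩
          rw [← hx.2, ← hx.1.2, cast_strip_val hn]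
        · intro x hx y hy hxy
          rw [Finset.mem_coe, Finset.mem_filter] at hx hy
          exact Prod.ext (hx.2.trans hy.2.symm) hxy)
    rw [Finset.card_univ, Fintype.card_fin] at this
    rw [mul_comm]
    exact this
  set PP := (Finset.powersetCard r (pairs h N S v.1)).filter
    (fun P => ∀ x ∈ P, ∀ y ∈ P, ∀ b c, coord x b = coord y c → x = y ∧ b = c) with hPP
  have hsub : (Finset.univ.filter (fun π : Equiv.Perm (Fin n) =>
      3 * r ≤ ((S.image (cl h N π)).filter (fun D => D + v ∈ S.image (cl h N π))).card)) ⊆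
      PP.biUnion (fun P => Finset.univ.filter
        (fun π : Equiv.Perm (Fin n) => ∀ x ∈ P, (π x.1, π x.2) ∈ Q)) := by
    intro π hπ
    rw [Finset.mem_filter] at hπ
    obtain ⟨F, hF1, hF2, hF3⟩ := extract
      ((S.image (cl h N π)).filter (fun D => D + v ∈ S.image (cl h N π))) v hv
    have hrF : r ≤ F.card := by omega
    obtain ⟨F', hF'1, hF'2⟩ := Finset.exists_subset_card_eq hrF
    have hex : ∀ D ∈ F', ∃ x : Fin n × Fin n, x.1 ∈ S ∧ x.2 ∈ S ∧ cl h N π x.1 = D ∧
        cl h N π x.2 = D + v := by
      intro D hD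
      have h1 := hF1 (hF'1 hD)
      rw [Finset.mem_filter] at h1
      obtain ⟨i, hi, hi'⟩ := Finset.mem_image.mp h1.1
      obtain ⟨j, hj, hj'⟩ := Finset.mem_image.mp h1.2
      exact ⟨(i, j), hi, hj, hi', hj'⟩
    have hne : r = 0 ∨ Nonempty (Fin n × Fin n) := by
      rcases Finset.eq_empty_or_nonempty F' with h0 | ⟨D, hD⟩
      · left; rw [← hF'2, h0]; simp
      · right
        obtain ⟨x, -⟩ := hex D hD
        exact ⟨x⟩
    rw [Finset.mem_biUnion]
    rcases hne with hr0 | hne
    · subst hr0
      refine ⟨∅, ?_, ?_⟩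
      · rw [hPP, Finset.mem_filter]; simp
      · rw [Finset.mem_filter]; simp
    choose! x hx1 hx2 hx3 hx4 using hex
    have hxinj : ∀ D ∈ F', ∀ D' ∈ F', x D = x D' → D = D' := by
      intro D hD D' hD' hxx
      rw [← hx3 D hD, ← hx3 D' hD', hxx]
    refine ⟨F'.image x, ?_, ?_⟩
    · rw [hPP, Finset.mem_filter, Finset.mem_powersetCard]
      refine ⟨⟨?_, ?_⟩, ?_⟩
      · intro y hy
        obtain ⟨D, hD, rfl⟩ := Finset.mem_image.mp hy
        unfold pairs
        rw [Finset.mem_filter, Finset.mem_product]
        refine ⟨⟨hx1 D hD, hx2 D hD⟩, ?_⟩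
        have h3 := congrArg Prod.fst (hx3 D hD)
        have h4 := congrArg Prod.fst (hx4 D hD)
        simp only [cl, Prod.fst_add] at h3 h4
        rw [h3, h4]
      · rw [Finset.card_image_of_injOn (fun D hD D' hD' h => hxinj D hD D' hD' h), hF'2]
      · intro y hy z hz b c hbc
        obtain ⟨D, hD, rfl⟩ := Finset.mem_image.mp hy
        obtain ⟨D', hD', rfl⟩ := Finset.mem_image.mp hz
        have key : cl h N π (coord (x D) b) = cl h N π (coord (x D') c) := by rw [hbc]
        unfold coord at key
        cases b <;> cases c <;> simp only [Bool.false_eq_true, if_false, if_true] at key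
        · rw [hx3 D hD, hx3 D' hD'] at key
          exact ⟨by rw [key], rfl⟩
        · rw [hx3 D hD, hx4 D' hD'] at key
          exact absurd key (hF2 D' (hF'1 hD') D (hF'1 hD))
        · rw [hx4 D hD, hx3 D' hD'] at key
          exact absurd key.symm (hF2 D (hF'1 hD) D' (hF'1 hD'))
        · rw [hx4 D hD, hx4 D' hD'] at key
          have := add_right_cancel key
          exact ⟨by rw [this], rfl⟩
    · rw [Finset.mem_filter]
      refine ⟨Finset.mem_univ _, ?_⟩
      intro y hy
      obtain ⟨D, hD, rfl⟩ := Finset.mem_image.mp hy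
      rw [hQ, Finset.mem_filter]
      refine ⟨Finset.mem_univ _, ?_⟩
      have h3 := congrArg Prod.snd (hx3 D hD)
      have h4 := congrArg Prod.snd (hx4 D hD)
      simp only [cl, Prod.snd_add] at h3 h4
      simp only
      rw [h3, h4]
  refine (Finset.card_le_card hsub).trans (Finset.card_biUnion_le.trans ?_)
  refine (Finset.sum_le_card_nsmul _ _ ((n * h) ^ r * (n - 2 * r).factorial) ?_).trans ?_
  · intro P hP
    rw [hPP, Finset.mem_filter, Finset.mem_powersetCard] at hP
    have := count_pair P hP.2 Q (n * h) hQc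
    rw [hP.1.2] at this
    exact this
  · rw [smul_eq_mul]
    apply Nat.mul_le_mul_right
    refine (Finset.card_le_card (Finset.filter_subset _ _)).trans ?_
    rw [Finset.card_powersetCard]

end Pool.Agent.Helper53.Sim
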