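import Mathlib
import Pool.Agent.Helper53.SimPair

set_option autoImplicit false

namespace Pool.Agent.Helper53.Sim

open Finset

variable {n : ℕ}

lemma row_num {e E c : ℕ} (hn' : 8 ^ e ≤ n) (hE : E ≤ e) (hE30 : 30 ≤ E) (hc : c ≤ 2 ^ (3 * E + 3)) :
    c.choose (2 ^ (E - 4)) * ((2 ^ wd e E 0) ^ (2 ^ (E - 4)) * (n - 2 ^ (E - 4)).factorial) *
      2 ^ (2 ^ (E - 4)) ≤ n.factorial := by
  set r := 2 ^ (E - 4) with hr
  have hn8 : 2 ^ (3 * e) ≤ n := by
    rw [pow_mul]; exact_mod_cast hn'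
  have hrn : 2 * r ≤ n := by
    refine le_trans ?_ hn8
    rw [hr, ← pow_succ']
    exact Nat.pow_le_pow_right (by norm_num) (by omega)
  have h1 := choose_bound c r
  have h2 := factorial_bound hrn
  have hpos : 0 < (r * 2 ^ (3 * e)) ^ r := by
    rw [hr]; positivity
  apply Nat.le_of_mul_le_mul_right _ hpos
  calc c.choose r * ((2 ^ wd e E 0) ^ r * (n - r).factorial) * 2 ^ r * (r * 2 ^ (3 * e)) ^ r
      = (c.choose r * r ^ r) * (2 ^ wd e E 0) ^ r * ((n - r).factorial * (2 ^ (3 * e)) ^ r) * 2 ^ r := by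
        rw [mul_pow]; ring
    _ ≤ (4 * 2 ^ (3 * E + 3)) ^ r * (2 ^ wd e E 0) ^ r * (2 ^ r * n.factorial) * 2 ^ r := by
        apply Nat.mul_le_mul_right
        apply Nat.mul_le_mul
        · apply Nat.mul_le_mul_right
          exact h1.trans (Nat.pow_le_pow_left (Nat.mul_le_mul_left _ hc) _)
        · exact (Nat.mul_le_mul_left _ (Nat.pow_le_pow_left hn8 _)).trans h2
    _ = n.factorial * (4 * 2 ^ (3 * E + 3) * 2 ^ wd e E 0 * 2 * 2) ^ r := by
        generalize (2 : ℕ) ^ (3 * E + 3) = a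
        generalize (2 : ℕ) ^ wd e E 0 = b
        simp only [mul_pow]; ring
    _ = n.factorial * (r * 2 ^ (3 * e)) ^ r := by
        congr 2
        rw [hr]
        have h3 : (4 : ℕ) * 2 ^ (3 * E + 3) * 2 ^ wd e E 0 * 2 * 2 = 2 ^ (3 * E + 3 + wd e E 0 + 4) := by
          rw [pow_add, pow_add]; ring
        rw [h3, ← pow_add]
        congr 1
        unfold wd; omega

lemma auto_num {e E i c : ℕ} (hn' : 8 ^ e ≤ n) (hE : E ≤ e) (hE30 : 30 ≤ E) (hi : 4 * i ≤ E)
    (hc : c ≤ 2 ^ (4 * E - 8 + i)) :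
    c.choose (2 ^ (2 * E - 14 + 2 * i)) * ((n * 2 ^ wd e E i) ^ (2 ^ (2 * E - 14 + 2 * i)) *
      (n - 2 * 2 ^ (2 * E - 14 + 2 * i)).factorial) * 2 ^ (2 ^ (2 * E - 14 + 2 * i)) ≤
      n.factorial := by
  set r := 2 ^ (2 * E - 14 + 2 * i) with hr
  have hn8 : 2 ^ (3 * e) ≤ n := by
    rw [pow_mul]; exact_mod_cast hn'
  have hrn : 2 * (2 * r) ≤ n := by
    refine le_trans ?_ hn8
    rw [hr, ← pow_succ', ← pow_succ']
    exact Nat.pow_le_pow_right (by norm_num) (by omega)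
  have h1 := choose_bound c r
  have h2 := factorial_bound hrn
  have hpos : 0 < (r * 2 ^ (3 * e)) ^ r := by
    rw [hr]; positivity
  apply Nat.le_of_mul_le_mul_right _ hpos
  calc c.choose r * ((n * 2 ^ wd e E i) ^ r * (n - 2 * r).factorial) * 2 ^ r * (r * 2 ^ (3 * e)) ^ r
      = (c.choose r * r ^ r) * (2 ^ wd e E i) ^ r *
          ((n - 2 * r).factorial * (n ^ r * (2 ^ (3 * e)) ^ r)) * 2 ^ r := by
        rw [mul_pow, mul_pow]; ring
    _ ≤ (4 * 2 ^ (4 * E - 8 + i)) ^ r * (2 ^ wd e E i) ^ r * (2 ^ (2 * r) * n.factorial) * 2 ^ r := by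
        apply Nat.mul_le_mul_right
        apply Nat.mul_le_mul
        · apply Nat.mul_le_mul_right
          exact h1.trans (Nat.pow_le_pow_left (Nat.mul_le_mul_left _ hc) _)
        · refine le_trans (Nat.mul_le_mul_left _ ?_) h2
          rw [two_mul r, pow_add]
          exact Nat.mul_le_mul_left _ (Nat.pow_le_pow_left hn8 _)
    _ = n.factorial * (4 * 2 ^ (4 * E - 8 + i) * 2 ^ wd e E i * 4 * 2) ^ r := by
        have h4 : (2 : ℕ) ^ (2 * r) = 4 ^ r := by rw [pow_mul]; norm_num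
        rw [h4]
        generalize (2 : ℕ) ^ (4 * E - 8 + i) = a
        generalize (2 : ℕ) ^ wd e E i = b
        simp only [mul_pow]; ring
    _ = n.factorial * (r * 2 ^ (3 * e)) ^ r := by
        congr 2
        rw [hr]
        have h3 : (4 : ℕ) * 2 ^ (4 * E - 8 + i) * 2 ^ wd e E i * 4 * 2 =
            2 ^ (4 * E - 8 + i + wd e E i + 5) := by
          rw [pow_add, pow_add]; ring
        rw [h3, ← pow_add]
        congr 1
        unfold wd; omega

lemma occ_num {e E c : ℕ} (hn' : 8 ^ e ≤ n) (hE : E ≤ e) (hE30 : 30 ≤ E)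
    (hc : c ≤ 2 ^ (E - 11 + E / 4)) :
    c.choose 17 * ((2 ^ wd e E (E / 4)) ^ 17 * (n - 17).factorial) *
      (2 ^ (E + 21 - 2 * (E / 4))) ^ 17 ≤ n.factorial := by
  have hn8 : 2 ^ (3 * e) ≤ n := by
    rw [pow_mul]; exact_mod_cast hn'
  have hrn : 2 * 17 ≤ n := by
    refine le_trans ?_ hn8
    calc 2 * 17 ≤ 2 ^ 6 := by norm_num
      _ ≤ 2 ^ (3 * e) := Nat.pow_le_pow_right (by norm_num) (by omega)
  have h2 := factorial_bound hrn
  have hpos : 0 < (2 ^ (3 * e)) ^ 17 := by positivity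
  apply Nat.le_of_mul_le_mul_right _ hpos
  calc c.choose 17 * ((2 ^ wd e E (E / 4)) ^ 17 * (n - 17).factorial) *
        (2 ^ (E + 21 - 2 * (E / 4))) ^ 17 * (2 ^ (3 * e)) ^ 17
      = c.choose 17 * (2 ^ wd e E (E / 4)) ^ 17 * ((n - 17).factorial * (2 ^ (3 * e)) ^ 17) *
        (2 ^ (E + 21 - 2 * (E / 4))) ^ 17 := by ring
    _ ≤ (2 ^ (E - 11 + E / 4)) ^ 17 * (2 ^ wd e E (E / 4)) ^ 17 * (2 ^ 17 * n.factorial) *
        (2 ^ (E + 21 - 2 * (E / 4))) ^ 17 := by
        apply Nat.mul_le_mul_right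
        apply Nat.mul_le_mul
        · apply Nat.mul_le_mul_right
          exact (Nat.choose_le_pow c 17).trans (Nat.pow_le_pow_left hc _)
        · exact (Nat.mul_le_mul_left _ (Nat.pow_le_pow_left hn8 _)).trans h2
    _ = n.factorial * (2 ^ (E - 11 + E / 4) * 2 ^ wd e E (E / 4) * 2 *
        2 ^ (E + 21 - 2 * (E / 4))) ^ 17 := by
        generalize (2 : ℕ) ^ (E - 11 + E / 4) = a
        generalize (2 : ℕ) ^ wd e E (E / 4) = b
        simp only [mul_pow]; ring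
    _ = n.factorial * (2 ^ (3 * e)) ^ 17 := by
        congr 2
        have h3 : (2 : ℕ) ^ (E - 11 + E / 4) * 2 ^ wd e E (E / 4) * 2 * 2 ^ (E + 21 - 2 * (E / 4)) =
            2 ^ (E - 11 + E / 4 + wd e E (E / 4) + 1 + (E + 21 - 2 * (E / 4))) := by
          rw [pow_add _ _ (E + 21 - 2 * (E / 4)), pow_add _ _ 1, pow_add _ _ (wd e E (E / 4)),
            pow_one]
        rw [h3]
        congr 1
        unfold wd; omega

end Pool.Agent.Helper53.Sim
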