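import Mathlib
import Pool.Agent.Helper53.SimProb

set_option autoImplicit false

namespace Pool.Agent.Helper53.Sim

open Finset

variable {n : ℕ}

lemma three_pow_aux (a : ℕ) (ha : 7 ≤ a) : 3 * a + 72 ≤ 2 ^ a := by
  induction a, ha using Nat.le_induction with
  | base => norm_num
  | succ a ha ih => rw [pow_succ]; omega

lemma rowN_zero {e E : ℕ} (hn : n < 8 ^ (e + 1)) (hE : E ≤ e) (he : 11 ≤ e) {i : ℕ} (hi : i ≤ E)
    (σ : Equiv.Perm (Fin n)) (s : ℕ) (hs : 2 ^ nb E i ≤ s) (X : Finset (Fin n)) :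
    rowN (2 ^ wd e E i) σ X s = 0 := by
  unfold rowN
  rw [Finset.card_eq_zero, Finset.filter_eq_empty_iff]
  intro j _ hj
  have := strip_lt (nwd hn hE hi he) (σ j)
  omega

open scoped Classical in
lemma row_bad {e E : ℕ} (hn : n < 8 ^ (e + 1)) (hn' : 8 ^ e ≤ n) (hE : E ≤ e) (hE30 : 30 ≤ E) :
    (Finset.univ.filter (fun σ : Equiv.Perm (Fin n) =>
      ∃ s, 2 ^ (E - 4) < rowN (2 ^ wd e E 0) σ (Z n (e - E)) s)).card * 2 ^ (E + 2) ≤
      n.factorial := by
  have hnum := row_num hn' hE hE30 (card_Z hn hE)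
  have hexp : nb E 0 + (E + 2) ≤ 2 ^ (E - 4) := by
    have := three_pow_aux (E - 4) (by omega)
    unfold nb; omega
  have hz : ∀ (σ : Equiv.Perm (Fin n)) (s : ℕ), 2 ^ nb E 0 ≤ s →
      rowN (2 ^ wd e E 0) σ (Z n (e - E)) s = 0 := fun σ s hs =>
    rowN_zero (i := 0) hn hE (by omega) (by omega) σ s hs (Z n (e - E))
  have hwpos : 0 < 2 ^ wd e E 0 := by positivity
  have hBpow : 2 ^ nb E 0 * 2 ^ (E + 2) ≤ 2 ^ (2 ^ (E - 4)) := by
    rw [← pow_add]; exact Nat.pow_le_pow_right (by norm_num) hexp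
  generalize 2 ^ nb E 0 = B at *
  generalize 2 ^ wd e E 0 = w at *
  generalize 2 ^ (E - 4) = r at *
  have hsub : (Finset.univ.filter (fun σ : Equiv.Perm (Fin n) =>
      ∃ s, r < rowN w σ (Z n (e - E)) s)) ⊆
      (Finset.range B).biUnion (fun s => Finset.univ.filter
        (fun π : Equiv.Perm (Fin n) => r ≤ ((Z n (e - E)).filter
          (fun j : Fin n => ((π j : Fin n) : ℕ) / w = s)).card)) := by
    intro σ hσ
    rw [Finset.mem_filter] at hσ
    obtain ⟨s, hs⟩ := hσ.2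
    rw [Finset.mem_biUnion]
    refine ⟨s, ?_, ?_⟩
    · rw [Finset.mem_range]
      by_contra hcon
      push Not at hcon
      rw [hz σ s hcon] at hs
      exact absurd hs (Nat.not_lt_zero _)
    · rw [Finset.mem_filter]
      exact ⟨Finset.mem_univ _, hs.le⟩
  have hX : (Finset.univ.filter (fun σ : Equiv.Perm (Fin n) =>
      ∃ s, r < rowN w σ (Z n (e - E)) s)).card ≤
      B * ((Z n (e - E)).card.choose r * (w ^ r * (n - r).factorial)) := by
    refine (Finset.card_le_card hsub).trans (Finset.card_biUnion_le.trans ?_)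
    refine (Finset.sum_le_card_nsmul _ _ ((Z n (e - E)).card.choose r *
        (w ^ r * (n - r).factorial)) (fun s _ => ?_)).trans ?_
    · exact union_single (Z n (e - E)) w s r hwpos
    · rw [smul_eq_mul, Finset.card_range]
  calc _ ≤ B * ((Z n (e - E)).card.choose r * (w ^ r * (n - r).factorial)) * 2 ^ (E + 2) :=
        Nat.mul_le_mul_right _ hX
    _ = (Z n (e - E)).card.choose r * (w ^ r * (n - r).factorial) * (B * 2 ^ (E + 2)) := by ring
    _ ≤ (Z n (e - E)).card.choose r * (w ^ r * (n - r).factorial) * 2 ^ r :=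
        Nat.mul_le_mul_left _ hBpow
    _ ≤ n.factorial := hnum

open scoped Classical in
lemma auto_bad {e E : ℕ} (hn : n < 8 ^ (e + 1)) (hn' : 8 ^ e ≤ n) (hE : E ≤ e) (hE30 : 30 ≤ E) :
    (Finset.univ.filter (fun σ : Equiv.Perm (Fin n) =>
      ∃ i, 4 * i ≤ E ∧ ∃ v : ZMod (2 ^ nb E i) × ZMod (2 ^ nb E i), v ≠ 0 ∧
        2 ^ (2 * E - 12 + 2 * i) < (((Z n (e - E)).image (cl (2 ^ wd e E i) (2 ^ nb E i) σ)).filter
      (fun D => D + v ∈ (Z n (e - E)).image (cl (2 ^ wd e E i) (2 ^ nb E i) σ))).card)).card *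
        2 ^ (E + 2) ≤ n.factorial := by
  have hNZ : ∀ i, NeZero (2 ^ nb E i) := fun i => ⟨by positivity⟩
  set X : ℕ → ℕ := fun i => (2 ^ (4 * E - 8 + i)).choose (2 ^ (2 * E - 14 + 2 * i)) *
    ((n * 2 ^ wd e E i) ^ (2 ^ (2 * E - 14 + 2 * i)) *
      (n - 2 * 2 ^ (2 * E - 14 + 2 * i)).factorial) with hX
  set I := (Finset.range (E + 1)).filter (fun i => 4 * i ≤ E) with hI
  have hsub : (Finset.univ.filter (fun σ : Equiv.Perm (Fin n) =>
      ∃ i, 4 * i ≤ E ∧ ∃ v : ZMod (2 ^ nb E i) × ZMod (2 ^ nb E i), v ≠ 0 ∧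
        2 ^ (2 * E - 12 + 2 * i) < (((Z n (e - E)).image (cl (2 ^ wd e E i) (2 ^ nb E i) σ)).filter
      (fun D => D + v ∈ (Z n (e - E)).image (cl (2 ^ wd e E i) (2 ^ nb E i) σ))).card)) ⊆
      I.biUnion (fun i =>
        (Finset.univ.filter (fun v : ZMod (2 ^ nb E i) × ZMod (2 ^ nb E i) => v ≠ 0)).biUnion
        (fun v => Finset.univ.filter (fun π : Equiv.Perm (Fin n) =>
      3 * 2 ^ (2 * E - 14 + 2 * i) ≤ (((Z n (e - E)).image (cl (2 ^ wd e E i) (2 ^ nb E i) π)).filter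
        (fun D => D + v ∈ (Z n (e - E)).image (cl (2 ^ wd e E i) (2 ^ nb E i) π))).card))) := by
    intro σ hσ
    rw [Finset.mem_filter] at hσ
    obtain ⟨i, hi, v, hv, hlt⟩ := hσ.2
    rw [Finset.mem_biUnion]
    refine ⟨i, ?_, ?_⟩
    · rw [hI, Finset.mem_filter, Finset.mem_range]
      exact ⟨by omega, hi⟩
    · rw [Finset.mem_biUnion]
      refine ⟨v, by rw [Finset.mem_filter]; exact ⟨Finset.mem_univ _, hv⟩, ?_⟩
      rw [Finset.mem_filter]
      refine ⟨Finset.mem_univ _, ?_⟩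
      have h4 : (2 : ℕ) ^ (2 * E - 12 + 2 * i) = 4 * 2 ^ (2 * E - 14 + 2 * i) := by
        rw [show 2 * E - 12 + 2 * i = 2 + (2 * E - 14 + 2 * i) by omega, pow_add]; norm_num
      rw [h4] at hlt
      refine le_trans (by omega) hlt.le
  have hcard : ∀ i ∈ I, ((Finset.univ.filter
      (fun v : ZMod (2 ^ nb E i) × ZMod (2 ^ nb E i) => v ≠ 0)).biUnion
        (fun v => Finset.univ.filter (fun π : Equiv.Perm (Fin n) =>
      3 * 2 ^ (2 * E - 14 + 2 * i) ≤ (((Z n (e - E)).image (cl (2 ^ wd e E i) (2 ^ nb E i) π)).filter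
        (fun D => D + v ∈ (Z n (e - E)).image (cl (2 ^ wd e E i) (2 ^ nb E i) π))).card))).card ≤
      2 ^ (2 * nb E i) * X i := by
    intro i hi
    rw [hI, Finset.mem_filter] at hi
    refine Finset.card_biUnion_le.trans ?_
    refine (Finset.sum_le_card_nsmul _ _ (X i) (fun v hv => ?_)).trans ?_
    · rw [Finset.mem_filter] at hv
      refine (union_pair (nwd hn hE (by omega) (by omega)) (by positivity) (Z n (e - E)) v hv.2
        (2 ^ (2 * E - 14 + 2 * i))).trans ?_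
      rw [hX]
      apply Nat.mul_le_mul_right
      apply Nat.choose_le_choose
      refine (card_pairs (nwd hn hE (by omega) (by omega)) (Z n (e - E)) v.1 (2 ^ (E - 11 + i))
        (fun s => col_Z hE (by omega) s)).trans ?_
      refine (Nat.mul_le_mul_right _ (card_Z hn hE)).trans (le_of_eq ?_)
      rw [← pow_add]
      congr 1
      omega
    · rw [smul_eq_mul]
      apply Nat.mul_le_mul_right
      refine (Finset.card_filter_le _ _).trans (le_of_eq ?_)
      rw [Finset.card_univ, Fintype.card_prod, ZMod.card, ← pow_add, two_mul]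
  have hnum : ∀ i ∈ I, (2 ^ (2 * nb E i) * X i * 2 ^ (E + 2)) * (E + 1) ≤ n.factorial := by
    intro i hi
    rw [hI, Finset.mem_filter] at hi
    have h1 := auto_num hn' hE hE30 hi.2 (c := 2 ^ (4 * E - 8 + i)) le_rfl
    have hexp : 2 * nb E i + (E + 2) + E ≤ 2 ^ (2 * E - 14 + 2 * i) := by
      have h2 := three_pow_aux (2 * E - 14) (by omega)
      have h3 : (2 : ℕ) ^ (2 * E - 14) ≤ 2 ^ (2 * E - 14 + 2 * i) :=
        Nat.pow_le_pow_right (by norm_num) (by omega)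
      unfold nb; omega
    have h4 : E + 1 ≤ 2 ^ E := Nat.lt_two_pow_self
    calc (2 ^ (2 * nb E i) * X i * 2 ^ (E + 2)) * (E + 1)
        ≤ (2 ^ (2 * nb E i) * X i * 2 ^ (E + 2)) * 2 ^ E := Nat.mul_le_mul_left _ h4
      _ = X i * 2 ^ (2 * nb E i + (E + 2) + E) := by rw [pow_add, pow_add]; ring
      _ ≤ X i * 2 ^ (2 ^ (2 * E - 14 + 2 * i)) :=
          Nat.mul_le_mul_left _ (Nat.pow_le_pow_right (by norm_num) hexp)
      _ ≤ n.factorial := h1
  have hI1 : I.card ≤ E + 1 := by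
    rw [hI]
    exact (Finset.card_filter_le _ _).trans (by rw [Finset.card_range])
  have hsum : (Finset.univ.filter (fun σ : Equiv.Perm (Fin n) =>
      ∃ i, 4 * i ≤ E ∧ ∃ v : ZMod (2 ^ nb E i) × ZMod (2 ^ nb E i), v ≠ 0 ∧
        2 ^ (2 * E - 12 + 2 * i) < (((Z n (e - E)).image (cl (2 ^ wd e E i) (2 ^ nb E i) σ)).filter
      (fun D => D + v ∈ (Z n (e - E)).image (cl (2 ^ wd e E i) (2 ^ nb E i) σ))).card)).card ≤
      ∑ i ∈ I, 2 ^ (2 * nb E i) * X i :=
    (Finset.card_le_card hsub).trans (Finset.card_biUnion_le.trans (Finset.sum_le_sum hcard))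
  have hfin : (∑ i ∈ I, 2 ^ (2 * nb E i) * X i) * 2 ^ (E + 2) * (E + 1) ≤ n.factorial * (E + 1) := by
    rw [Finset.sum_mul, Finset.sum_mul]
    refine (Finset.sum_le_card_nsmul _ _ _ hnum).trans ?_
    rw [smul_eq_mul, mul_comm]
    exact Nat.mul_le_mul_left _ hI1
  exact (Nat.mul_le_mul_right _ hsum).trans (Nat.le_of_mul_le_mul_right hfin (by omega))

open scoped Classical in
lemma occ_bad {e E : ℕ} (hn : n < 8 ^ (e + 1)) (hn' : 8 ^ e ≤ n) (hE : E ≤ e) (hE30 : 30 ≤ E) :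
    (Finset.univ.filter (fun σ : Equiv.Perm (Fin n) =>
      ∃ a b : ℕ, 16 < ((Z n (e - E)).filter (fun j : Fin n => (j : ℕ) / 2 ^ wd e E (E / 4) = a ∧
    ((σ j : Fin n) : ℕ) / 2 ^ wd e E (E / 4) = b)).card)).card * 2 ^ (E + 2) ≤ n.factorial := by
  have hI : E / 4 ≤ E := by omega
  set w := 2 ^ wd e E (E / 4) with hw
  set B := 2 ^ nb E (E / 4) with hB
  have hnB : n ≤ B * w := nwd hn hE hI (by omega)
  set S : ℕ → Finset (Fin n) := fun a => (Z n (e - E)).filter (fun j : Fin n => (j : ℕ) / w = a)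
    with hS
  have hScard : ∀ a, (S a).card ≤ 2 ^ (E - 11 + E / 4) := fun a => by
    have := col_Z (n := n) (e := e) (E := E) (i := E / 4) hE (by omega) a
    exact this
  have hsub : (Finset.univ.filter (fun σ : Equiv.Perm (Fin n) =>
      ∃ a b : ℕ, 16 < ((Z n (e - E)).filter (fun j : Fin n => (j : ℕ) / w = a ∧
    ((σ j : Fin n) : ℕ) / w = b)).card)) ⊆
      (Finset.range B ×ˢ Finset.range B).biUnion (fun ab => Finset.univ.filter
        (fun π : Equiv.Perm (Fin n) => 17 ≤ ((S ab.1).filter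
          (fun j : Fin n => ((π j : Fin n) : ℕ) / w = ab.2)).card)) := by
    intro σ hσ
    rw [Finset.mem_filter] at hσ
    obtain ⟨a, b, hab⟩ := hσ.2
    rw [Finset.mem_biUnion]
    refine ⟨(a, b), ?_, ?_⟩
    · have hne : ((Z n (e - E)).filter (fun j : Fin n => (j : ℕ) / w = a ∧
          ((σ j : Fin n) : ℕ) / w = b)).Nonempty := by
        rw [← Finset.card_pos]; omega
      obtain ⟨j, hj⟩ := hne
      rw [Finset.mem_filter] at hj
      rw [Finset.mem_product, Finset.mem_range, Finset.mem_range]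
      have h1 := strip_lt hnB j
      have h2 := strip_lt hnB (σ j)
      exact ⟨by rw [← hj.2.1]; exact h1, by rw [← hj.2.2]; exact h2⟩
    · rw [Finset.mem_filter]
      refine ⟨Finset.mem_univ _, ?_⟩
      rw [hS]
      simp only [Finset.filter_filter]
      exact hab
  have hX : (Finset.univ.filter (fun σ : Equiv.Perm (Fin n) =>
      ∃ a b : ℕ, 16 < ((Z n (e - E)).filter (fun j : Fin n => (j : ℕ) / w = a ∧
    ((σ j : Fin n) : ℕ) / w = b)).card)).card ≤
      (B * B) * ((2 ^ (E - 11 + E / 4)).choose 17 * (w ^ 17 * (n - 17).factorial)) := by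
    refine (Finset.card_le_card hsub).trans (Finset.card_biUnion_le.trans ?_)
    refine (Finset.sum_le_card_nsmul _ _ ((2 ^ (E - 11 + E / 4)).choose 17 *
      (w ^ 17 * (n - 17).factorial)) (fun ab _ => ?_)).trans ?_
    · refine (union_single (S ab.1) w ab.2 17 (by positivity)).trans ?_
      exact Nat.mul_le_mul_right _ (Nat.choose_le_choose 17 (hScard ab.1))
    · rw [smul_eq_mul, Finset.card_product, Finset.card_range]
  have hnum := occ_num hn' hE hE30 (c := 2 ^ (E - 11 + E / 4)) le_rfl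
  have hBB : B * B * 2 ^ (E + 2) ≤ (2 ^ (E + 21 - 2 * (E / 4))) ^ 17 := by
    rw [hB, ← pow_add, ← pow_add, ← pow_mul]
    apply Nat.pow_le_pow_right (by norm_num)
    unfold nb; omega
  calc _ ≤ (B * B) * ((2 ^ (E - 11 + E / 4)).choose 17 * (w ^ 17 * (n - 17).factorial)) *
        2 ^ (E + 2) := Nat.mul_le_mul_right _ hX
    _ = ((2 ^ (E - 11 + E / 4)).choose 17 * (w ^ 17 * (n - 17).factorial)) *
        (B * B * 2 ^ (E + 2)) := by ring
    _ ≤ ((2 ^ (E - 11 + E / 4)).choose 17 * (w ^ 17 * (n - 17).factorial)) *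
        (2 ^ (E + 21 - 2 * (E / 4))) ^ 17 := Nat.mul_le_mul_left _ hBB
    _ ≤ n.factorial := hnum

open scoped Classical in
lemma host_bad {e E : ℕ} (hn : n < 8 ^ (e + 1)) (hn' : 8 ^ e ≤ n) (hE : E ≤ e) (hE30 : 30 ≤ E) :
    (Finset.univ.filter (fun σ : Equiv.Perm (Fin n) => ¬ Host e E σ)).card * 2 ^ E ≤
      n.factorial := by
  have h1 := row_bad hn hn' hE hE30
  have h2 := auto_bad hn hn' hE hE30
  have h3 := occ_bad hn hn' hE hE30
  have hsub : (Finset.univ.filter (fun σ : Equiv.Perm (Fin n) => ¬ Host e E σ)) ⊆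
    (Finset.univ.filter (fun σ : Equiv.Perm (Fin n) =>
      ∃ s, 2 ^ (E - 4) < rowN (2 ^ wd e E 0) σ (Z n (e - E)) s)) ∪
    ((Finset.univ.filter (fun σ : Equiv.Perm (Fin n) =>
      ∃ i, 4 * i ≤ E ∧ ∃ v : ZMod (2 ^ nb E i) × ZMod (2 ^ nb E i), v ≠ 0 ∧
        2 ^ (2 * E - 12 + 2 * i) < (((Z n (e - E)).image (cl (2 ^ wd e E i) (2 ^ nb E i) σ)).filter
      (fun D => D + v ∈ (Z n (e - E)).image (cl (2 ^ wd e E i) (2 ^ nb E i) σ))).card)) ∪
    (Finset.univ.filter (fun σ : Equiv.Perm (Fin n) =>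
      ∃ a b : ℕ, 16 < ((Z n (e - E)).filter (fun j : Fin n => (j : ℕ) / 2 ^ wd e E (E / 4) = a ∧
    ((σ j : Fin n) : ℕ) / 2 ^ wd e E (E / 4) = b)).card))) := by
    intro σ hσ
    rw [Finset.mem_filter] at hσ
    by_contra hcon
    simp only [Finset.mem_union, Finset.mem_filter, Finset.mem_univ, true_and, not_or, not_exists,
      not_and, not_lt] at hcon
    apply hσ.2
    exact ⟨fun s => hcon.1 s, fun i hi v hv => hcon.2.1 i hi v hv, fun a b => hcon.2.2 a b⟩
  have h4 := Finset.card_le_card hsub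
  have h5 := Finset.card_union_le (Finset.univ.filter (fun σ : Equiv.Perm (Fin n) =>
      ∃ s, 2 ^ (E - 4) < rowN (2 ^ wd e E 0) σ (Z n (e - E)) s))
    ((Finset.univ.filter (fun σ : Equiv.Perm (Fin n) =>
      ∃ i, 4 * i ≤ E ∧ ∃ v : ZMod (2 ^ nb E i) × ZMod (2 ^ nb E i), v ≠ 0 ∧
        2 ^ (2 * E - 12 + 2 * i) < (((Z n (e - E)).image (cl (2 ^ wd e E i) (2 ^ nb E i) σ)).filter
      (fun D => D + v ∈ (Z n (e - E)).image (cl (2 ^ wd e E i) (2 ^ nb E i) σ))).card)) ∪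
    (Finset.univ.filter (fun σ : Equiv.Perm (Fin n) =>
      ∃ a b : ℕ, 16 < ((Z n (e - E)).filter (fun j : Fin n => (j : ℕ) / 2 ^ wd e E (E / 4) = a ∧
    ((σ j : Fin n) : ℕ) / 2 ^ wd e E (E / 4) = b)).card)))
  have h6 := Finset.card_union_le (Finset.univ.filter (fun σ : Equiv.Perm (Fin n) =>
      ∃ i, 4 * i ≤ E ∧ ∃ v : ZMod (2 ^ nb E i) × ZMod (2 ^ nb E i), v ≠ 0 ∧
        2 ^ (2 * E - 12 + 2 * i) < (((Z n (e - E)).image (cl (2 ^ wd e E i) (2 ^ nb E i) σ)).filter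
      (fun D => D + v ∈ (Z n (e - E)).image (cl (2 ^ wd e E i) (2 ^ nb E i) σ))).card))
    (Finset.univ.filter (fun σ : Equiv.Perm (Fin n) =>
      ∃ a b : ℕ, 16 < ((Z n (e - E)).filter (fun j : Fin n => (j : ℕ) / 2 ^ wd e E (E / 4) = a ∧
    ((σ j : Fin n) : ℕ) / 2 ^ wd e E (E / 4) = b)).card))
  have h7 : (Finset.univ.filter (fun σ : Equiv.Perm (Fin n) => ¬ Host e E σ)).card * 2 ^ (E + 2) ≤
      3 * n.factorial := by
    have := Nat.mul_le_mul_right (2 ^ (E + 2)) (h4.trans (h5.trans (Nat.add_le_add_left h6 _)))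
    refine this.trans ?_
    rw [add_mul, add_mul]
    omega
  have h8 : (2 : ℕ) ^ (E + 2) = 4 * 2 ^ E := by rw [pow_add]; ring
  rw [h8] at h7
  have h9 : (Finset.univ.filter (fun σ : Equiv.Perm (Fin n) => ¬ Host e E σ)).card * (4 * 2 ^ E) =
      4 * ((Finset.univ.filter (fun σ : Equiv.Perm (Fin n) => ¬ Host e E σ)).card * 2 ^ E) := by ring
  rw [h9] at h7
  omega

end Pool.Agent.Helper53.Sim
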