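import Mathlib
import Pool.Agent.Helper53.SimBad

set_option autoImplicit false

namespace Pool.Agent.Helper53.Sim

open Finset

open scoped Classical in
/-- The quasi-random permutations. -/
noncomputable def Good (n : ℕ) : Finset (Equiv.Perm (Fin n)) :=
  Finset.univ.filter (fun σ => ∀ E, Nat.log 8 n / 3 ≤ E → E ≤ Nat.log 8 n → Host (Nat.log 8 n) E σ)

lemma log_facts {n : ℕ} (hn0 : n ≠ 0) : n < 8 ^ (Nat.log 8 n + 1) ∧ 8 ^ (Nat.log 8 n) ≤ n :=
  ⟨Nat.lt_pow_succ_log_self (by norm_num) n, Nat.pow_log_le_self 8 hn0⟩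

lemma good_card {n : ℕ} (hn0 : n ≠ 0) (h90 : 90 ≤ Nat.log 8 n) :
    (n.factorial : ℝ) * (1 - 2 * (1 / 2 : ℝ) ^ (Nat.log 8 n / 3)) ≤ ((Good n).card : ℝ) := by
  classical
  obtain ⟨h1, h2⟩ := log_facts hn0
  set e := Nat.log 8 n with he
  set E₀ := e / 3 with hE₀
  have hsub : (Finset.univ : Finset (Equiv.Perm (Fin n))) ⊆ Good n ∪
      (Finset.Icc E₀ e).biUnion (fun E => Finset.univ.filter (fun σ => ¬ Host e E σ)) := by
    intro σ _
    by_cases hg : ∀ E, E₀ ≤ E → E ≤ e → Host e E σ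
    · apply Finset.mem_union_left
      unfold Good
      rw [Finset.mem_filter]
      exact ⟨Finset.mem_univ _, hg⟩
    · apply Finset.mem_union_right
      push Not at hg
      obtain ⟨E, hE1, hE2, hE3⟩ := hg
      rw [Finset.mem_biUnion]
      refine ⟨E, Finset.mem_Icc.mpr ⟨hE1, hE2⟩, ?_⟩
      rw [Finset.mem_filter]
      exact ⟨Finset.mem_univ _, hE3⟩
  have hcard := (Finset.card_le_card hsub).trans ((Finset.card_union_le _ _).trans
    (Nat.add_le_add_left Finset.card_biUnion_le _))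
  rw [Finset.card_univ, Fintype.card_perm, Fintype.card_fin] at hcard
  have hbad : ∀ E ∈ Finset.Icc E₀ e,
      ((Finset.univ.filter (fun σ : Equiv.Perm (Fin n) => ¬ Host e E σ)).card : ℝ) ≤
      n.factorial * (1 / 2 : ℝ) ^ E := by
    intro E hE
    rw [Finset.mem_Icc] at hE
    have h3 := host_bad h1 h2 hE.2 (by omega : 30 ≤ E)
    have h4 : (((Finset.univ.filter (fun σ : Equiv.Perm (Fin n) => ¬ Host e E σ)).card *
        2 ^ E : ℕ) : ℝ) ≤ (n.factorial : ℝ) := by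
      refine le_trans (le_of_eq ?_) (Nat.cast_le.mpr h3)
      congr!
    push_cast at h4
    rw [one_div, inv_pow, ← div_eq_mul_inv, le_div_iff₀ (by positivity)]
    exact h4
  have hcard' : (n.factorial : ℝ) ≤ ((Good n).card : ℝ) + ∑ E ∈ Finset.Icc E₀ e,
      ((Finset.univ.filter (fun σ : Equiv.Perm (Fin n) => ¬ Host e E σ)).card : ℝ) := by
    have : (n.factorial : ℝ) ≤ (((Good n).card + ∑ E ∈ Finset.Icc E₀ e,
      (Finset.univ.filter (fun σ : Equiv.Perm (Fin n) => ¬ Host e E σ)).card : ℕ) : ℝ) := by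
      exact_mod_cast hcard
    push_cast at this
    exact this
  have hsum := Finset.sum_le_sum hbad
  have hgeom : ∑ E ∈ Finset.Icc E₀ e, (1 / 2 : ℝ) ^ E ≤ 2 * (1 / 2 : ℝ) ^ E₀ := by
    have : ∀ m : ℕ, ∑ E ∈ Finset.Ico E₀ (E₀ + m), (1 / 2 : ℝ) ^ E =
        2 * (1 / 2 : ℝ) ^ E₀ - 2 * (1 / 2 : ℝ) ^ (E₀ + m) := by
      intro m
      induction m with
      | zero => simp
      | succ m ih =>
        rw [← Nat.add_assoc, Finset.sum_Ico_succ_top (by omega), ih, pow_succ _ (E₀ + m)]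
        ring
    have h5 : Finset.Icc E₀ e = Finset.Ico E₀ (E₀ + (e + 1 - E₀)) := by
      ext x
      rw [Finset.mem_Icc, Finset.mem_Ico]
      omega
    rw [h5, this]
    have : (0 : ℝ) < (1 / 2 : ℝ) ^ (E₀ + (e + 1 - E₀)) := by positivity
    linarith
  rw [← Finset.mul_sum] at hsum
  have hf : (0 : ℝ) ≤ n.factorial := by positivity
  nlinarith [mul_le_mul_of_nonneg_left hgeom hf]

lemma good_similar {n : ℕ} (hn0 : n ≠ 0) (h90 : 90 ≤ Nat.log 8 n) {σ π : Equiv.Perm (Fin n)}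
    (hσ : σ ∈ Good n) (hπ : π ∈ Good n) :
    Cov σ π Finset.univ Finset.univ (2 ^ (Nat.log 8 n + 62)) := by
  classical
  obtain ⟨h1, h2⟩ := log_facts hn0
  unfold Good at hσ hπ
  rw [Finset.mem_filter] at hσ hπ
  exact similar hσ.2 hπ.2 h1 h2 (by omega) (by omega)

lemma two_pow_le {n : ℕ} (hn0 : n ≠ 0) :
    2 ^ (Nat.log 8 n + 62) ≤ ⌈(2 : ℝ) ^ 62 * (n : ℝ) ^ ((1 : ℝ) / 3)⌉₊ := by
  have h2 := (log_facts hn0).2
  have h3 : ((2 : ℝ) ^ (Nat.log 8 n)) ≤ (n : ℝ) ^ ((1 : ℝ) / 3) := by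
    have h4 : ((8 : ℝ) ^ (Nat.log 8 n)) ≤ n := by exact_mod_cast h2
    have h5 : ((2 : ℝ) ^ (Nat.log 8 n)) = ((8 : ℝ) ^ (Nat.log 8 n)) ^ ((1 : ℝ) / 3) := by
      have h6 : ((8 : ℝ) ^ (Nat.log 8 n)) = ((2 : ℝ) ^ (Nat.log 8 n)) ^ (3 : ℕ) := by
        rw [← pow_mul, mul_comm, pow_mul]; norm_num
      rw [h6, ← Real.rpow_natCast ((2 : ℝ) ^ (Nat.log 8 n)) 3, ← Real.rpow_mul (by positivity)]
      norm_num
    rw [h5]
    exact Real.rpow_le_rpow (by positivity) h4 (by norm_num)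
  have h7 : ((2 ^ (Nat.log 8 n + 62) : ℕ) : ℝ) ≤ ⌈(2 : ℝ) ^ 62 * (n : ℝ) ^ ((1 : ℝ) / 3)⌉₊ := by
    refine le_trans ?_ (Nat.le_ceil _)
    push_cast
    rw [pow_add, mul_comm]
    exact mul_le_mul_of_nonneg_left h3 (by positivity)
  exact_mod_cast h7

lemma tendsto_E : Filter.Tendsto (fun n : ℕ => Nat.log 8 n / 3) Filter.atTop Filter.atTop := by
  rw [Filter.tendsto_atTop_atTop]
  intro b
  refine ⟨8 ^ (3 * b), fun a ha => ?_⟩
  have : 3 * b ≤ Nat.log 8 a := Nat.le_log_of_pow_le (by norm_num) ha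
  omega

lemma tendsto_lower : Filter.Tendsto
    (fun n : ℕ => (1 - 2 * (1 / 2 : ℝ) ^ (Nat.log 8 n / 3)) ^ 2) Filter.atTop (nhds 1) := by
  have h1 : Filter.Tendsto (fun n : ℕ => (1 / 2 : ℝ) ^ (Nat.log 8 n / 3)) Filter.atTop (nhds 0) :=
    (tendsto_pow_atTop_nhds_zero_of_lt_one (by norm_num) (by norm_num)).comp tendsto_E
  have h2 := ((h1.const_mul 2).const_sub 1).pow 2
  simpa using h2

end Pool.Agent.Helper53.Sim
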